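import Pool.Agent.N748.MO.Stm
import Pool.Agent.N748.MG.Ev
import Pool.Agent.N748.MG.LD

set_option autoImplicit false

/-!
# The law of `log |ζ|` near the line with respect to the weight on the critical line (helper364)
-/

namespace Pool.Agent.N748.MO.CX

open Finset Filter MeasureTheory Topology Complex
open Pool.Agent.N748.MG

theorem X_top {X : ℝ → ℝ} (hX : ∀ᶠ T : ℝ in atTop, T ^ ((1:ℝ) / 2) ≤ X T) :
    Tendsto X atTop atTop :=
  tendsto_atTop_mono' atTop hX (tendsto_rpow_atTop (by norm_num))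

theorem log_lo {T x : ℝ} (hT : 1 ≤ T) (h : T ^ ((1:ℝ) / 2) ≤ x) :
    1 / 2 * Real.log T ≤ Real.log x := by
  rw [← Real.log_rpow (by linarith)]
  exact Real.log_le_log (by positivity) h

theorem log_hi {T x : ℝ} (hT : 1 ≤ T) (hx : 0 < x) (h : x ≤ T ^ (2:ℝ)) :
    Real.log x ≤ 2 * Real.log T := by
  rw [← Real.log_rpow (by linarith)]
  exact Real.log_le_log hx h

/-- the quantifier along another variable -/
theorem ev_along {P : ℝ → ℝ → Prop} (h : Ev P) {d X : ℝ → ℝ} (hd : Ad d)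
    (hX : ∀ᶠ T : ℝ in atTop, T ^ ((1:ℝ) / 2) ≤ X T) : ∀ᶠ T : ℝ in atTop, P (X T) (d T) := by
  obtain ⟨lam, δ0, h1, h2, h3, h4⟩ := h
  filter_upwards [(X_top hX).eventually h4, hd.pos, hd.t0.eventually_le_const h2,
    hd.tL.eventually_ge_atTop (2 * lam), hX, eventually_ge_atTop 1] with T g1 g2 g3 g4 g5 g6
  refine g1 (d T) g2 g3 ?_
  have hl : 1 ≤ Real.log (1 / d T) := log_inv_ge g2 (g3.trans h3)
  have h5 : 0 < Real.log (1 / d T) ^ 2 := by positivity
  rw [le_div_iff₀ h5] at g4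
  have h6 := log_lo g6 g5
  have h7 : d T * (1 / 2 * Real.log T) ≤ d T * Real.log (X T) := mul_le_mul_of_nonneg_left h6 g2.le
  linarith

/-- the properties of the sets -/
structure Gd (d X : ℝ → ℝ) (κ : ℝ → ℕ) (D : ℝ) (n : ℕ) (T : ℝ) (N : Set ℝ) : Prop where
  lX : 0 ≤ Real.log (X T)
  meas : MeasurableSet N
  sub : N ⊆ Set.Icc 0 (2 * X T)
  vol : volume (Set.Icc 0 (2 * X T) \ N) ≤ ENNReal.ofReal (d T ^ D * X T)
  nz : ∀ t ∈ N, riemannZeta (pw (d T) t) ≠ 0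
  bd : ∃ B : ℝ, ∀ t ∈ N, |Real.log ‖riemannZeta (pw (d T) t)‖| ≤ B
  est : ∀ s : ℂ, ‖s‖ ≤ n + 1 → ‖((2 * d T : ℝ) : ℂ) ^ (s ^ 2 + 2 * s) *
        (∫ t in N, ((wt (κ T) (X T) t * zh t ^ 2 : ℝ) : ℂ) *
          ((‖riemannZeta (pw (d T) t)‖ : ℝ) : ℂ) ^ (2 * s)) -
        Real.log (X T) * (4 ^ s * aC (s + 1))‖ ≤ 1 / ((n : ℝ) + 1) * Real.log (X T)

theorem Gd.mono {d X : ℝ → ℝ} {κ : ℝ → ℕ} {D : ℝ} (m n : ℕ) (T : ℝ) (N : Set ℝ) (hmn : m ≤ n)
    (h : Gd d X κ D n T N) : Gd d X κ D m T N := by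
  have h1 : (m : ℝ) ≤ n := by exact_mod_cast hmn
  refine ⟨h.lX, h.meas, h.sub, h.vol, h.nz, h.bd, fun s hs => (h.est s (by linarith)).trans ?_⟩
  refine mul_le_mul_of_nonneg_right ?_ h.lX
  exact one_div_le_one_div_of_le (by positivity) (by linarith)

theorem exists_sets (hM : S_OCM) {c : ℝ} {d X : ℝ → ℝ} {κ : ℝ → ℕ} (hd : Adc c d) {D : ℝ}
    (hD : 0 < D)
    (hX : ∀ᶠ T : ℝ in atTop, T ^ ((1:ℝ) / 2) ≤ X T ∧ X T ≤ T ^ (2:ℝ) ∧ Rg (κ T) (X T)) :
    ∃ N : ℝ → Set ℝ, ∀ n, ∀ᶠ T : ℝ in atTop, Gd d X κ D n T (N T) := by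
  have hc := hd.cpos
  refine LD.diag (Gd d X κ D) (fun n => ?_) Gd.mono
  have h1 := ev_along (hM (c / 2) (n + 1) D (by positivity) (by positivity) hD
    (1 / ((n : ℝ) + 1)) (by positivity)) hd.toAd (hX.mono fun T h => h.1)
  filter_upwards [h1, hX, hd.le, eventually_ge_atTop (Real.exp 2)] with T h2 h3 h4 h5
  have hT0 : 0 < T := lt_of_lt_of_le (Real.exp_pos _) h5
  have hlT : 2 ≤ Real.log T := (Real.le_log_iff_exp_le hT0).2 h5
  have hT1 : 1 ≤ T := by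
    have : (1 : ℝ) ≤ Real.exp 2 := Real.one_le_exp (by norm_num)
    linarith
  have hXp : 0 < X T := lt_of_lt_of_le (by positivity) h3.1
  have h6 := log_lo hT1 h3.1
  have h7 := log_hi hT1 hXp h3.2.1
  have hlX : 1 ≤ Real.log (X T) := by linarith
  have h8 : d T ≤ Real.log (X T) ^ (-(c / 2)) := by
    refine h4.trans ?_
    have e1 : Real.log (X T) ≤ Real.log T ^ (2:ℝ) := by
      rw [Real.rpow_two]
      nlinarith
    calc Real.log T ^ (-c) = (Real.log T ^ (2:ℝ)) ^ (-(c / 2)) := by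
          rw [← Real.rpow_mul (by linarith)]
          ring_nf
      _ ≤ Real.log (X T) ^ (-(c / 2)) :=
          Real.rpow_le_rpow_of_nonpos (by linarith) e1 (by linarith)
  obtain ⟨N, a1, a2, a3, a4, a5, a6⟩ := h2 h8
  exact ⟨N, by linarith, a1, a2, a3, a4, a5, fun s hs => a6 (κ T) h3.2.2 s hs⟩

theorem zhc : Continuous zh := by
  unfold zh
  refine Continuous.norm ?_
  rw [continuous_iff_continuousAt]
  intro t
  have hne : (1 / 2 + t * I : ℂ) ≠ 1 := by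
    intro h
    have := congrArg Complex.re h
    simp at this
  have h2 : ContinuousAt (fun t : ℝ => (1 / 2 + t * I : ℂ)) t := by fun_prop
  exact ContinuousAt.comp (g := riemannZeta) (f := fun t : ℝ => (1 / 2 + t * I : ℂ))
    (differentiableAt_riemannZeta hne).continuousAt h2

theorem wtc (κ : ℕ) (X : ℝ) : Continuous (fun t => wt κ X t) := by
  unfold wt
  fun_prop

theorem wt_nn {κ : ℕ} {X t : ℝ} (hX : 0 < X) (ht : 0 ≤ t) : 0 ≤ wt κ X t := by
  unfold wt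
  positivity

/-- the density -/
noncomputable def rho (κ : ℕ) (δ X t : ℝ) : ℝ :=
  1 / (2 * δ * Real.log X) * (‖riemannZeta (pw δ t)‖ ^ 2)⁻¹ * (wt κ X t * zh t ^ 2)

/-- the measure -/
noncomputable def nu (κ : ℕ) (δ X : ℝ) (N : Set ℝ) : Measure ℝ :=
  ((volume.restrict N).withDensity (fun t => ENNReal.ofReal (rho κ δ X t))).map
    (fun t => Real.log (mz δ t))

theorem mz_meas {δ : ℝ} (h0 : 0 < δ) (h1 : δ ≤ 1 / 16) : Measurable (fun t => Real.log (mz δ t)) :=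
  Real.measurable_log.comp (LD.zc h0 h1).norm.measurable

theorem rho_meas {δ : ℝ} (h0 : 0 < δ) (h1 : δ ≤ 1 / 16) (κ : ℕ) (X : ℝ) :
    Measurable (rho κ δ X) := by
  unfold rho
  have a1 : Measurable (fun t => ‖riemannZeta (pw δ t)‖) := (LD.zc h0 h1).norm.measurable
  have a2 : Measurable (fun t => wt κ X t) := (wtc κ X).measurable
  have a3 : Measurable zh := zhc.measurable
  exact ((a1.pow_const 2).inv.const_mul _).mul (a2.mul (a3.pow_const 2))

theorem rho_nn {κ : ℕ} {δ X t : ℝ} (h0 : 0 < δ) (hX : 0 < X) (hl : 0 ≤ Real.log X) (ht : 0 ≤ t) :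
    0 ≤ rho κ δ X t := by
  unfold rho
  have := wt_nn (κ := κ) hX ht
  positivity

theorem int_nu {E : Type*} [NormedAddCommGroup E] [NormedSpace ℝ E] {κ : ℕ} {δ X : ℝ}
    (h0 : 0 < δ) (h1 : δ ≤ 1 / 16) (hX : 0 < X) (hl : 0 ≤ Real.log X) {N : Set ℝ}
    (hN : MeasurableSet N) (hsub : N ⊆ Set.Icc 0 (2 * X)) {f : ℝ → E}
    (hf : StronglyMeasurable f) :
    ∫ x, f x ∂(nu κ δ X N) = ∫ t in N, rho κ δ X t • f (Real.log (mz δ t)) := by
  unfold nu
  rw [integral_map (mz_meas h0 h1).aemeasurable hf.aestronglyMeasurable]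
  have h2 : (fun t => ENNReal.ofReal (rho κ δ X t)) =
      fun t => (((rho κ δ X t).toNNReal : NNReal) : ENNReal) := rfl
  rw [h2, integral_withDensity_eq_integral_smul (rho_meas h0 h1 κ X).real_toNNReal]
  refine setIntegral_congr_fun hN fun t ht => ?_
  show (rho κ δ X t).toNNReal • f (Real.log (mz δ t)) = rho κ δ X t • f (Real.log (mz δ t))
  rw [NNReal.smul_def, Real.coe_toNNReal _ (rho_nn h0 hX hl (hsub ht).1)]

theorem fin {κ : ℕ} {δ X : ℝ} (h0 : 0 < δ) (h1 : δ ≤ 1 / 16) {N : Set ℝ}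
    (hN : MeasurableSet N) (hsub : N ⊆ Set.Icc 0 (2 * X))
    (hnz : ∀ t ∈ N, riemannZeta (pw δ t) ≠ 0)
    (hbd : ∃ B : ℝ, ∀ t ∈ N, |Real.log ‖riemannZeta (pw δ t)‖| ≤ B) :
    IsFiniteMeasure (nu κ δ X N) := by
  obtain ⟨B, hB⟩ := hbd
  have hc : ContinuousOn (fun t => wt κ X t * zh t ^ 2) (Set.Icc 0 (2 * X)) :=
    ((wtc κ X).mul (zhc.pow 2)).continuousOn
  obtain ⟨M, hM⟩ := isCompact_Icc.exists_bound_of_continuousOn hc
  have hre : IntegrableOn (rho κ δ X) N volume := by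
    refine Measure.integrableOn_of_bounded
      (M := |1 / (2 * δ * Real.log X)| * Real.exp (2 * B) * M) ?_ ?_ ?_
    · refine ne_top_of_le_ne_top ?_ (measure_mono hsub)
      rw [Real.volume_Icc]
      exact ENNReal.ofReal_ne_top
    · exact (rho_meas h0 h1 κ X).aestronglyMeasurable
    · filter_upwards [ae_restrict_mem hN] with t ht
      have hz : 0 < ‖riemannZeta (pw δ t)‖ := norm_pos_iff.2 (hnz t ht)
      have e1 : (‖riemannZeta (pw δ t)‖ ^ 2)⁻¹ ≤ Real.exp (2 * B) := by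
        have e2 := (abs_le.1 (hB t ht)).1
        have e3 : Real.exp (-(2 * B)) ≤ ‖riemannZeta (pw δ t)‖ ^ 2 := by
          rw [← Real.le_log_iff_exp_le (by positivity), Real.log_pow]
          push_cast
          linarith
        calc (‖riemannZeta (pw δ t)‖ ^ 2)⁻¹ ≤ (Real.exp (-(2 * B)))⁻¹ :=
              inv_anti₀ (Real.exp_pos _) e3
          _ = _ := by rw [Real.exp_neg, inv_inv]
      have e4 := hM t (hsub ht)
      unfold rho
      rw [norm_mul, norm_mul]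
      rw [Real.norm_eq_abs (1 / (2 * δ * Real.log X)),
        Real.norm_of_nonneg (by positivity : (0:ℝ) ≤ (‖riemannZeta (pw δ t)‖ ^ 2)⁻¹)]
      gcongr
  have h4 : IsFiniteMeasure ((volume.restrict N).withDensity
      (fun t => ENNReal.ofReal (rho κ δ X t))) :=
    isFiniteMeasure_withDensity_ofReal hre.2
  unfold nu
  infer_instance

theorem bdd {κ : ℕ} {δ X : ℝ} (h0 : 0 < δ) (h1 : δ ≤ 1 / 16) {N : Set ℝ}
    (hbd : ∃ B : ℝ, ∀ t ∈ N, |Real.log ‖riemannZeta (pw δ t)‖| ≤ B) :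
    ∃ B : ℝ, nu κ δ X N {x : ℝ | B < |x|} = 0 := by
  obtain ⟨B, hB⟩ := hbd
  refine ⟨B, ?_⟩
  have hS : MeasurableSet {x : ℝ | B < |x|} := measurableSet_lt measurable_const measurable_id.abs
  unfold nu
  rw [Measure.map_apply (mz_meas h0 h1) hS]
  refine withDensity_absolutelyContinuous _ _ ?_
  rw [Measure.restrict_apply (mz_meas h0 h1 hS)]
  have : (fun t => Real.log (mz δ t)) ⁻¹' {x : ℝ | B < |x|} ∩ N = ∅ := by
    ext t
    simp only [Set.mem_inter_iff, Set.mem_preimage, Set.mem_ofPred_eq, Set.mem_empty_iff_false,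
      iff_false, not_and]
    intro h2 h3
    have := hB t h3
    unfold mz at h2
    linarith
  rw [this, measure_empty]

/-- exponential moments -/
theorem moment {κ : ℕ} {δ X : ℝ} (h0 : 0 < δ) (h1 : δ ≤ 1 / 16) (hX : 0 < X)
    (hl : 0 < Real.log X) {N : Set ℝ}
    (hN : MeasurableSet N) (hsub : N ⊆ Set.Icc 0 (2 * X))
    (hnz : ∀ t ∈ N, riemannZeta (pw δ t) ≠ 0) (s : ℂ) :
    ((2 * δ : ℝ) : ℂ) ^ (s ^ 2) * ∫ x, cexp (2 * s * (x:ℂ)) ∂(nu κ δ X N) =
      1 / (Real.log X : ℂ) * (((2 * δ : ℝ) : ℂ) ^ ((s - 1) ^ 2 + 2 * (s - 1)) *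
        ∫ t in N, ((wt κ X t * zh t ^ 2 : ℝ) : ℂ) *
          ((‖riemannZeta (pw δ t)‖ : ℝ) : ℂ) ^ (2 * (s - 1))) := by
  have hd0 : ((2 * δ : ℝ) : ℂ) ≠ 0 := by
    rw [Ne, Complex.ofReal_eq_zero]
    positivity
  have hlc : (Real.log X : ℂ) ≠ 0 := by exact_mod_cast hl.ne'
  rw [int_nu h0 h1 hX hl.le hN hsub (by
    have : Continuous (fun x : ℝ => cexp (2 * s * (x:ℂ))) := by fun_prop
    exact this.stronglyMeasurable)]
  have e1 : ∫ t in N, rho κ δ X t • cexp (2 * s * ((Real.log (mz δ t) : ℝ) : ℂ)) =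
      1 / (((2 * δ : ℝ) : ℂ) * (Real.log X : ℂ)) *
        ∫ t in N, ((wt κ X t * zh t ^ 2 : ℝ) : ℂ) *
          ((‖riemannZeta (pw δ t)‖ : ℝ) : ℂ) ^ (2 * (s - 1)) := by
    rw [← integral_const_mul]
    refine setIntegral_congr_fun hN fun t ht => ?_
    have hz : 0 < ‖riemannZeta (pw δ t)‖ := norm_pos_iff.2 (hnz t ht)
    have hz' : ((‖riemannZeta (pw δ t)‖ : ℝ) : ℂ) ≠ 0 := by
      rw [Ne, Complex.ofReal_eq_zero]
      exact hz.ne'
    show rho κ δ X t • cexp (2 * s * ((Real.log ‖riemannZeta (pw δ t)‖ : ℝ) : ℂ)) = _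
    rw [Complex.cpow_def_of_ne_zero hz', ← Complex.ofReal_log hz.le, Complex.real_smul]
    unfold rho
    have e2 : cexp (((Real.log ‖riemannZeta (pw δ t)‖ : ℝ) : ℂ) * (2 * (s - 1))) =
        cexp (2 * s * ((Real.log ‖riemannZeta (pw δ t)‖ : ℝ) : ℂ)) *
          (((‖riemannZeta (pw δ t)‖ : ℝ) : ℂ) ^ 2)⁻¹ := by
      have e3 : (((‖riemannZeta (pw δ t)‖ : ℝ) : ℂ) ^ 2)⁻¹ =
          cexp (-(2 * ((Real.log ‖riemannZeta (pw δ t)‖ : ℝ) : ℂ))) := by
        rw [Complex.exp_neg]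
        congr 1
        rw [Complex.ofReal_log hz.le, two_mul, Complex.exp_add, Complex.exp_log hz', sq]
      rw [e3, ← Complex.exp_add]
      congr 1
      ring
    rw [e2]
    push_cast
    ring
  rw [e1]
  have e4 : ((2 * δ : ℝ) : ℂ) ^ ((s - 1) ^ 2 + 2 * (s - 1)) =
      ((2 * δ : ℝ) : ℂ) ^ (s ^ 2) / ((2 * δ : ℝ) : ℂ) := by
    rw [show (s - 1) ^ 2 + 2 * (s - 1) = s ^ 2 - 1 by ring, Complex.cpow_sub _ _ hd0,
      Complex.cpow_one]
  rw [e4]
  field_simp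

/-- the integral of `exp (2 x) h(x)` -/
theorem int_h {κ : ℕ} {δ X : ℝ} (h0 : 0 < δ) (h1 : δ ≤ 1 / 16) (hX : 0 < X)
    (hl : 0 < Real.log X) {N : Set ℝ}
    (hN : MeasurableSet N) (hsub : N ⊆ Set.Icc 0 (2 * X))
    (hnz : ∀ t ∈ N, riemannZeta (pw δ t) ≠ 0) {h : ℝ → ℝ} (hm : Measurable h) :
    2 * δ * ∫ x, Real.exp (2 * x) * h x ∂(nu κ δ X N) =
      1 / Real.log X * ∫ t in N, wt κ X t * zh t ^ 2 * h (Real.log (mz δ t)) := by
  rw [int_nu h0 h1 hX hl.le hN hsub (f := fun x => Real.exp (2 * x) * h x) (by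
    have h2 : Measurable (fun x : ℝ => Real.exp (2 * x)) := by fun_prop
    exact (h2.mul hm).stronglyMeasurable), ← integral_const_mul, ← integral_const_mul]
  refine setIntegral_congr_fun hN fun t ht => ?_
  have hz : 0 < ‖riemannZeta (pw δ t)‖ := norm_pos_iff.2 (hnz t ht)
  have e1 : Real.exp (2 * Real.log (mz δ t)) = ‖riemannZeta (pw δ t)‖ ^ 2 := by
    unfold mz
    rw [two_mul, Real.exp_add, Real.exp_log hz, sq]
  simp only [smul_eq_mul]
  rw [e1]
  unfold rho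
  have hz2 : ‖riemannZeta (pw δ t)‖ ^ 2 ≠ 0 := by positivity
  field_simp

/-- the comparison, for one value of the variable -/
theorem compare {κ : ℕ} {δ X Cw C4 D' H : ℝ} (h0 : 0 < δ) (h1 : δ ≤ 1 / 16) (hX : 0 < X)
    (hl : 1 ≤ Real.log X) {N : Set ℝ}
    (hN : MeasurableSet N) (hsub : N ⊆ Set.Icc 0 (2 * X))
    (hvol : volume (Set.Icc 0 (2 * X) \ N) ≤ ENNReal.ofReal (δ ^ D' * X))
    (hwt : ∀ t : ℝ, 0 < t → 0 < wt κ X t ∧ wt κ X t ≤ Cw * Real.sqrt κ / X)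
    (hCw : 0 < Cw)
    (hi4 : IntegrableOn (fun t => wt κ X t * zh t ^ 4) (Set.Ioi 0))
    (hi2 : IntegrableOn (fun t => wt κ X t * zh t ^ 2) (Set.Ioi 0))
    (hb4 : ∫ t in Set.Ioi (0:ℝ), wt κ X t * zh t ^ 4 ≤ C4 * Real.log X ^ 5)
    (hb2 : ∫ t in Set.Ioi (2 * X), wt κ X t * zh t ^ 2 ≤ X ^ (-4 : ℝ))
    {h : ℝ → ℝ} (hm : Measurable h) (hh : ∀ x, |h x| ≤ H) :
    |1 / Real.log X * (∫ t in Set.Ioi (0:ℝ), wt κ X t * zh t ^ 2 * h (Real.log (mz δ t))) -
      1 / Real.log X * ∫ t in N, wt κ X t * zh t ^ 2 * h (Real.log (mz δ t))| ≤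
      H * (δ ^ (D' / 2) * (C4 * Real.log X ^ 5 + Cw * Real.sqrt κ) + X ^ (-4 : ℝ)) := by
  have hH : 0 ≤ H := (abs_nonneg _).trans (hh 0)
  have hfm : Measurable (fun t => wt κ X t * zh t ^ 2 * h (Real.log (mz δ t))) :=
    (((wtc κ X).measurable).mul ((zhc.measurable).pow_const 2)).mul (hm.comp (mz_meas h0 h1))
  have hfb : ∀ t : ℝ, 0 < t → ‖wt κ X t * zh t ^ 2 * h (Real.log (mz δ t))‖ ≤
      H * (wt κ X t * zh t ^ 2) := by
    intro t ht
    have e1 : 0 ≤ wt κ X t * zh t ^ 2 := mul_nonneg (hwt t ht).1.le (sq_nonneg _)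
    rw [norm_mul, Real.norm_of_nonneg e1, Real.norm_eq_abs, mul_comm H]
    exact mul_le_mul_of_nonneg_left (hh _) e1
  have hfi : IntegrableOn (fun t => wt κ X t * zh t ^ 2 * h (Real.log (mz δ t))) (Set.Ioi 0) := by
    refine Integrable.mono' (hi2.const_mul H) hfm.aestronglyMeasurable ?_
    filter_upwards [ae_restrict_mem measurableSet_Ioi] with t ht
    exact hfb t ht
  -- the complement of the set
  set Bd : Set ℝ := Set.Ioc 0 (2 * X) \ N with hBd
  have hBm : MeasurableSet Bd := measurableSet_Ioc.diff hN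
  have hB0 : Bd ⊆ Set.Ioi 0 := fun t ht => ht.1.1
  have hBv : volume Bd ≤ ENNReal.ofReal (δ ^ D' * X) :=
    (measure_mono (Set.sdiff_subset_sdiff_left Set.Ioc_subset_Icc_self)).trans hvol
  have hBfin : volume Bd < ⊤ := lt_of_le_of_lt hBv ENNReal.ofReal_lt_top
  have hBr : volume.real Bd ≤ δ ^ D' * X := by
    have h3 := ENNReal.toReal_mono ENNReal.ofReal_ne_top hBv
    rw [ENNReal.toReal_ofReal (by positivity)] at h3
    exact h3
  have hsplit : ∫ t in Set.Ioi (0:ℝ), wt κ X t * zh t ^ 2 * h (Real.log (mz δ t)) =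
      (∫ t in N, wt κ X t * zh t ^ 2 * h (Real.log (mz δ t))) +
      ((∫ t in Bd, wt κ X t * zh t ^ 2 * h (Real.log (mz δ t))) +
        ∫ t in Set.Ioi (2 * X), wt κ X t * zh t ^ 2 * h (Real.log (mz δ t))) := by
    have e1 : (∫ t in N, wt κ X t * zh t ^ 2 * h (Real.log (mz δ t))) =
        ∫ t in Set.Ioc 0 (2 * X) ∩ N, wt κ X t * zh t ^ 2 * h (Real.log (mz δ t)) := by
      refine setIntegral_congr_set ?_
      have e2 : (N : Set ℝ) =ᵐ[volume] (Set.Icc 0 (2 * X) ∩ N : Set ℝ) := by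
        rw [Set.inter_eq_self_of_subset_right hsub] <;> exact ae_eq_refl _
      refine e2.trans ?_
      exact (Ioc_ae_eq_Icc (μ := volume)).symm.inter (ae_eq_refl _)
    have e3 : Set.Ioi (0:ℝ) = Set.Ioc 0 (2 * X) ∪ Set.Ioi (2 * X) :=
      (Set.Ioc_union_Ioi_eq_Ioi (by positivity)).symm
    have e4 : Set.Ioc 0 (2 * X) ⊆ Set.Ioi (0:ℝ) := fun t ht => ht.1
    have e5 : Set.Ioi (2 * X) ⊆ Set.Ioi (0:ℝ) := fun t ht => lt_trans (show (0:ℝ) < 2 * X by positivity) ht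
    rw [e3, setIntegral_union (Set.Ioc_disjoint_Ioi le_rfl) measurableSet_Ioi
      (hfi.mono_set e4) (hfi.mono_set e5)]
    have e6 := integral_inter_add_sdiff (μ := volume)
      (f := fun t => wt κ X t * zh t ^ 2 * h (Real.log (mz δ t))) hN (hfi.mono_set e4)
    rw [e1, ← add_assoc, e6]
  rw [hsplit]
  have e0 : 1 / Real.log X * ((∫ t in N, wt κ X t * zh t ^ 2 * h (Real.log (mz δ t))) +
      ((∫ t in Bd, wt κ X t * zh t ^ 2 * h (Real.log (mz δ t))) +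
        ∫ t in Set.Ioi (2 * X), wt κ X t * zh t ^ 2 * h (Real.log (mz δ t)))) -
      1 / Real.log X * ∫ t in N, wt κ X t * zh t ^ 2 * h (Real.log (mz δ t)) =
      1 / Real.log X * ((∫ t in Bd, wt κ X t * zh t ^ 2 * h (Real.log (mz δ t))) +
        ∫ t in Set.Ioi (2 * X), wt κ X t * zh t ^ 2 * h (Real.log (mz δ t))) := by ring
  rw [e0, abs_mul, abs_of_nonneg (by positivity : (0:ℝ) ≤ 1 / Real.log X)]
  have b1 : |∫ t in Bd, wt κ X t * zh t ^ 2 * h (Real.log (mz δ t))| ≤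
      H * (δ ^ (D' / 2) * (C4 * Real.log X ^ 5 + Cw * Real.sqrt κ)) := by
    have c1 : |∫ t in Bd, wt κ X t * zh t ^ 2 * h (Real.log (mz δ t))| ≤
        ∫ t in Bd, H * (wt κ X t * zh t ^ 2) := by
      rw [← Real.norm_eq_abs]
      refine norm_integral_le_of_norm_le ((hi2.mono_set hB0).const_mul H) ?_
      filter_upwards [ae_restrict_mem hBm] with t ht
      exact hfb t (hB0 ht)
    refine c1.trans ?_
    rw [integral_const_mul]
    refine mul_le_mul_of_nonneg_left ?_ hH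
    have hlam : 0 < δ ^ (D' / 2) := Real.rpow_pos_of_pos h0 _
    have hw1 : IntegrableOn (fun t => wt κ X t) Bd := by
      refine Measure.integrableOn_of_bounded (M := Cw * Real.sqrt κ / X) hBfin.ne
        (wtc κ X).aestronglyMeasurable ?_
      filter_upwards [ae_restrict_mem hBm] with t ht
      rw [Real.norm_of_nonneg (hwt t (hB0 ht)).1.le]
      exact (hwt t (hB0 ht)).2
    have c2 : ∫ t in Bd, wt κ X t * zh t ^ 2 ≤
        ∫ t in Bd, (δ ^ (D' / 2) * (wt κ X t * zh t ^ 4) + (δ ^ (D' / 2))⁻¹ * wt κ X t) := by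
      refine setIntegral_mono_on (hi2.mono_set hB0)
        (((hi4.mono_set hB0).const_mul _).add (hw1.const_mul _)) hBm fun t ht => ?_
      have hw := (hwt t (hB0 ht)).1.le
      have e1 : zh t ^ 2 ≤ δ ^ (D' / 2) * zh t ^ 4 + (δ ^ (D' / 2))⁻¹ := by
        have e2 : 0 ≤ (δ ^ (D' / 2) * zh t ^ 2 - 1) ^ 2 := sq_nonneg _
        have e3 : δ ^ (D' / 2) * (zh t ^ 2) ≤ δ ^ (D' / 2) *
            (δ ^ (D' / 2) * zh t ^ 4 + (δ ^ (D' / 2))⁻¹) := by
          rw [mul_add, mul_inv_cancel₀ hlam.ne']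
          nlinarith [sq_nonneg (δ ^ (D' / 2) * zh t ^ 2)]
        exact le_of_mul_le_mul_left e3 hlam
      calc wt κ X t * zh t ^ 2 ≤ wt κ X t * (δ ^ (D' / 2) * zh t ^ 4 + (δ ^ (D' / 2))⁻¹) :=
            mul_le_mul_of_nonneg_left e1 hw
        _ = _ := by ring
    refine c2.trans ?_
    rw [integral_add ((hi4.mono_set hB0).const_mul _) (hw1.const_mul _), integral_const_mul,
      integral_const_mul, mul_add]
    refine add_le_add ?_ ?_
    · refine mul_le_mul_of_nonneg_left (le_trans ?_ hb4) hlam.le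
      refine setIntegral_mono_set hi4 ?_ (LE.le.eventuallyLE hB0)
      filter_upwards [ae_restrict_mem measurableSet_Ioi] with t ht
      exact mul_nonneg (hwt t ht).1.le (by positivity)
    · have c3 : ∫ t in Bd, wt κ X t ≤ Cw * Real.sqrt κ / X * (δ ^ D' * X) := by
        have c4 : ‖∫ t in Bd, wt κ X t‖ ≤ Cw * Real.sqrt κ / X * volume.real Bd := by
          refine norm_setIntegral_le_of_norm_le_const hBfin fun t ht => ?_
          rw [Real.norm_of_nonneg (hwt t (hB0 ht)).1.le]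
          exact (hwt t (hB0 ht)).2
        refine (le_abs_self _).trans ((Real.norm_eq_abs _ ▸ c4).trans ?_)
        exact mul_le_mul_of_nonneg_left hBr (by positivity)
      calc (δ ^ (D' / 2))⁻¹ * ∫ t in Bd, wt κ X t ≤
            (δ ^ (D' / 2))⁻¹ * (Cw * Real.sqrt κ / X * (δ ^ D' * X)) :=
            mul_le_mul_of_nonneg_left c3 (by positivity)
        _ = δ ^ (D' / 2) * (Cw * Real.sqrt κ) := by
            have : δ ^ D' = δ ^ (D' / 2) * δ ^ (D' / 2) := by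
              rw [← Real.rpow_add h0]
              ring_nf
            rw [this]
            field_simp
  have b2 : |∫ t in Set.Ioi (2 * X), wt κ X t * zh t ^ 2 * h (Real.log (mz δ t))| ≤
      H * X ^ (-4 : ℝ) := by
    have e5 : Set.Ioi (2 * X) ⊆ Set.Ioi (0:ℝ) := fun t ht => lt_trans (show (0:ℝ) < 2 * X by positivity) ht
    have c1 : |∫ t in Set.Ioi (2 * X), wt κ X t * zh t ^ 2 * h (Real.log (mz δ t))| ≤
        ∫ t in Set.Ioi (2 * X), H * (wt κ X t * zh t ^ 2) := by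
      rw [← Real.norm_eq_abs]
      refine norm_integral_le_of_norm_le ((hi2.mono_set e5).const_mul H) ?_
      filter_upwards [ae_restrict_mem measurableSet_Ioi] with t ht
      exact hfb t (e5 ht)
    refine c1.trans ?_
    rw [integral_const_mul]
    exact mul_le_mul_of_nonneg_left hb2 hH
  have b3 : 1 / Real.log X ≤ 1 := by
    rw [div_le_one (by linarith)]
    exact hl
  calc 1 / Real.log X * |(∫ t in Bd, wt κ X t * zh t ^ 2 * h (Real.log (mz δ t))) +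
        ∫ t in Set.Ioi (2 * X), wt κ X t * zh t ^ 2 * h (Real.log (mz δ t))| ≤
      1 * |(∫ t in Bd, wt κ X t * zh t ^ 2 * h (Real.log (mz δ t))) +
        ∫ t in Set.Ioi (2 * X), wt κ X t * zh t ^ 2 * h (Real.log (mz δ t))| :=
        mul_le_mul_of_nonneg_right b3 (abs_nonneg _)
    _ ≤ H * (δ ^ (D' / 2) * (C4 * Real.log X ^ 5 + Cw * Real.sqrt κ)) + H * X ^ (-4 : ℝ) := by
        rw [one_mul]
        exact (abs_add_le _ _).trans (add_le_add b1 b2)
    _ = _ := by ring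

theorem main (g1 : S_OCM) (g2 : S_CON) (g3 : S_WTB) (g4 : S_W4) : S_CX := by
  intro c D V d X κ hd hD hX
  obtain ⟨hac, hpos⟩ := g2
  obtain ⟨Cw, hCw, hW⟩ := g3
  obtain ⟨C4, hC4, h4⟩ := g4
  have hc := hd.cpos
  set D' : ℝ := 2 * (|V| + D + 5 / c + 2) with hD'
  have hD'0 : 0 < D' := by
    have := abs_nonneg V
    positivity
  obtain ⟨N, hN⟩ := exists_sets g1 hd hD'0 hX
  have hX1 : ∀ᶠ T : ℝ in atTop, T ^ ((1:ℝ) / 2) ≤ X T := hX.mono fun T h => h.1
  have hsm : ∀ᶠ T : ℝ in atTop, 0 < d T ∧ d T ≤ 1 / 16 ∧ 1 ≤ T ∧ 0 < X T ∧ 1 ≤ Real.log (X T) ∧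
      Real.log (X T) ≤ 2 * Real.log T := by
    filter_upwards [hd.pos, hd.t0.eventually_le_const (show (0 : ℝ) < 1 / 16 by norm_num),
      eventually_ge_atTop (Real.exp 2), hX] with T a b h5 h3
    have hT0 : 0 < T := lt_of_lt_of_le (Real.exp_pos _) h5
    have hlT : 2 ≤ Real.log T := (Real.le_log_iff_exp_le hT0).2 h5
    have hT1 : 1 ≤ T := by
      have : (1 : ℝ) ≤ Real.exp 2 := Real.one_le_exp (by norm_num)
      linarith
    have hXp : 0 < X T := lt_of_lt_of_le (by positivity) h3.1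
    have h6 := log_lo hT1 h3.1
    have h7 := log_hi hT1 hXp h3.2.1
    exact ⟨a, b, hT1, hXp, by linarith, h7⟩
  refine ⟨fun T => nu (κ T) (d T) (X T) (N T), ⟨?_, ?_, hd.pos, hd.t0, ?_, ?_, ?_⟩, ?_⟩
  · filter_upwards [hN 0, hsm] with T hT hT2
    exact fin hT2.1 hT2.2.1 hT.meas hT.sub hT.nz hT.bd
  · filter_upwards [hN 0, hsm] with T hT hT2
    exact bdd hT2.1 hT2.2.1 hT.bd
  · have : Continuous (fun s : ℂ => (4:ℂ) ^ (s - 1)) := by
      refine Continuous.const_cpow (by fun_prop) (Or.inl (by norm_num))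
    exact this.mul hac
  · intro V'
    obtain ⟨r, hr, hrV⟩ := hpos V'
    refine ⟨4 ^ (V' - 1) * r, by positivity, ?_⟩
    rw [hrV]
    push_cast
    rw [Complex.ofReal_cpow (by norm_num)]
    push_cast
    ring
  · intro R ε hR hε
    obtain ⟨n, hn⟩ := exists_nat_gt (max R (1 / ε))
    filter_upwards [hN n, hsm] with T hT hT2 s hs
    obtain ⟨h0, h1, -, hXp, hlX, -⟩ := hT2
    have hlX0 : 0 < Real.log (X T) := by linarith
    rw [moment h0 h1 hXp hlX0 hT.meas hT.sub hT.nz]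
    have h5 : ‖s - 1‖ ≤ (n : ℝ) + 1 := by
      have := norm_sub_le s 1
      rw [norm_one] at this
      have := le_max_left R (1 / ε)
      linarith
    have h6 := hT.est _ h5
    rw [sub_add_cancel] at h6
    have hlc : (Real.log (X T) : ℂ) ≠ 0 := by exact_mod_cast hlX0.ne'
    set Z : ℂ := ((2 * d T : ℝ) : ℂ) ^ ((s - 1) ^ 2 + 2 * (s - 1)) *
        ∫ t in N T, ((wt (κ T) (X T) t * zh t ^ 2 : ℝ) : ℂ) *
          ((‖riemannZeta (pw (d T) t)‖ : ℝ) : ℂ) ^ (2 * (s - 1)) with hZ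
    have e : 1 / (Real.log (X T) : ℂ) * Z - 4 ^ (s - 1) * aC s =
        1 / (Real.log (X T) : ℂ) * (Z - Real.log (X T) * (4 ^ (s - 1) * aC s)) := by
      field_simp
    rw [e, norm_mul, norm_div, norm_one, Complex.norm_real, Real.norm_of_nonneg hlX0.le]
    have h7 : 1 / ((n : ℝ) + 1) ≤ ε := by
      have h8 := le_max_right R (1 / ε)
      have h9 : 1 / ε < (n : ℝ) + 1 := by linarith
      rw [div_lt_iff₀ hε] at h9
      rw [div_le_iff₀ (by positivity)]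
      linarith
    calc 1 / Real.log (X T) * ‖Z - Real.log (X T) * (4 ^ (s - 1) * aC s)‖ ≤
          1 / Real.log (X T) * (1 / ((n : ℝ) + 1) * Real.log (X T)) :=
          mul_le_mul_of_nonneg_left h6 (by positivity)
      _ = 1 / ((n : ℝ) + 1) := by field_simp
      _ ≤ ε := h7
  -- the comparison
  set E : ℝ := |V| + D + 1 with hE
  have hE0 : 0 < E := by
    have := abs_nonneg V
    positivity
  have hwin : ∀ᶠ T : ℝ in atTop, d T ^ (-E) ≤ 1 * T ^ (2:ℝ) :=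
    (Ev.win (D := E) (c := 1) (e := 2) one_pos two_pos).app hd.toAd
  set C1 : ℝ := 32 * (C4 + 2 * Cw) with hC1
  have hC10 : 0 < C1 := by positivity
  have hsmall : ∀ᶠ T : ℝ in atTop, C1 * d T ^ 2 + d T ≤ 1 := by
    have h1 := ((hd.t0.pow 2).const_mul C1).add hd.t0
    have h2 : C1 * (0:ℝ) ^ 2 + 0 < 1 := by norm_num
    exact h1.eventually_le_const h2
  filter_upwards [hN 0, hsm, hwin, hsmall, (X_top hX1).eventually h4, hX, hd.le] with
    T hT hT2 hw hs h4T hXT hdl h hm hh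
  obtain ⟨h0, h1, hT1, hXp, hlX, hlX2⟩ := hT2
  have hlX0 : 0 < Real.log (X T) := by linarith
  have hlT : 0 < Real.log T := by linarith
  have hT0 : 0 < T := by linarith
  obtain ⟨i4, i2, b4, -, b2⟩ := h4T (κ T) hXT.2.2
  have hκ1 : 1 ≤ κ T := by
    have h5 := hXT.2.2.1
    have h6 : (1:ℝ) ≤ κ T := by nlinarith
    exact_mod_cast h6
  have hwt := (hW (κ T) (X T) hκ1 hXp).1
  rw [int_h h0 h1 hXp hlX0 hT.meas hT.sub hT.nz hm]
  refine (compare h0 h1 hXp hlX hT.meas hT.sub hT.vol hwt hCw i4 i2 b4 b2 hm hh).trans ?_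
  -- numbers
  have hd1 : d T ≤ 1 := by linarith
  have hH : (2 * d T) ^ (-V) ≤ d T ^ (-|V|) := by
    rcases le_or_gt 0 V with hV | hV
    · rw [abs_of_nonneg hV]
      exact Real.rpow_le_rpow_of_nonpos h0 (by linarith) (by linarith)
    · rw [abs_of_neg hV, neg_neg]
      have e1 : (2 * d T) ^ (-V) ≤ 1 :=
        Real.rpow_le_one (by positivity) (by linarith) (by linarith)
      have e2 : 1 ≤ d T ^ V := Real.one_le_rpow_of_pos_of_le_one_of_nonpos h0 hd1 hV.le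
      linarith
  have hlogT : Real.log T ≤ d T ^ (-(1 / c)) := by
    have e1 : (Real.log T ^ (-c)) ^ (-(1 / c)) ≤ d T ^ (-(1 / c)) :=
      Real.rpow_le_rpow_of_nonpos h0 hdl (by
        have : 0 < 1 / c := by positivity
        linarith)
    rw [← Real.rpow_mul hlT.le] at e1
    have e2 : -c * -(1 / c) = 1 := by field_simp
    rw [e2, Real.rpow_one] at e1
    exact e1
  have hlog5 : Real.log (X T) ^ 5 ≤ 32 * d T ^ (-(5 / c)) := by
    calc Real.log (X T) ^ 5 ≤ (2 * Real.log T) ^ 5 := pow_le_pow_left₀ hlX0.le hlX2 5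
      _ ≤ (2 * d T ^ (-(1 / c))) ^ 5 := by gcongr
      _ = 32 * (d T ^ (-(1 / c))) ^ 5 := by ring
      _ = 32 * d T ^ (-(5 / c)) := by
          rw [← Real.rpow_natCast, ← Real.rpow_mul h0.le]
          congr 2
          push_cast
          ring
  have hsq : Real.sqrt (κ T) ≤ 2 * Real.log (X T) ^ 5 := by
    have e1 : Real.sqrt (κ T) ≤ 2 * Real.log (X T) := by
      rw [Real.sqrt_le_left (by positivity)]
      have := hXT.2.2.2
      nlinarith
    have e2 : Real.log (X T) ≤ Real.log (X T) ^ 5 := by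
      calc Real.log (X T) = Real.log (X T) ^ 1 := (pow_one _).symm
        _ ≤ Real.log (X T) ^ 5 := pow_le_pow_right₀ hlX (by norm_num)
    linarith
  have t1 : C4 * Real.log (X T) ^ 5 + Cw * Real.sqrt (κ T) ≤ C1 * d T ^ (-(5 / c)) := by
    calc C4 * Real.log (X T) ^ 5 + Cw * Real.sqrt (κ T) ≤
          C4 * Real.log (X T) ^ 5 + Cw * (2 * Real.log (X T) ^ 5) := by gcongr
      _ = (C4 + 2 * Cw) * Real.log (X T) ^ 5 := by ring
      _ ≤ (C4 + 2 * Cw) * (32 * d T ^ (-(5 / c))) := by gcongr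
      _ = _ := by rw [hC1]; ring
  have t2 : X T ^ (-4 : ℝ) ≤ d T ^ E := by
    have e1 : X T ^ (-4 : ℝ) ≤ (T ^ ((1:ℝ) / 2)) ^ (-4 : ℝ) :=
      Real.rpow_le_rpow_of_nonpos (by positivity) hXT.1 (by norm_num)
    rw [← Real.rpow_mul hT0.le] at e1
    have e2 : (1:ℝ) / 2 * -4 = -2 := by norm_num
    rw [e2] at e1
    refine e1.trans ?_
    rw [one_mul, Real.rpow_neg h0.le] at hw
    rw [Real.rpow_neg hT0.le]
    have e3 : 0 < d T ^ E := Real.rpow_pos_of_pos h0 _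
    have e4 : 0 < T ^ (2:ℝ) := by positivity
    rw [inv_le_comm₀ e4 e3]
    exact hw
  have hdV : 0 < d T ^ (-|V|) := Real.rpow_pos_of_pos h0 _
  have hA : 0 ≤ d T ^ (D' / 2) * (C4 * Real.log (X T) ^ 5 + Cw * Real.sqrt (κ T)) +
      X T ^ (-4 : ℝ) := by positivity
  calc (2 * d T) ^ (-V) * (d T ^ (D' / 2) * (C4 * Real.log (X T) ^ 5 + Cw * Real.sqrt (κ T)) +
        X T ^ (-4 : ℝ)) ≤
      d T ^ (-|V|) * (d T ^ (D' / 2) * (C4 * Real.log (X T) ^ 5 + Cw * Real.sqrt (κ T)) +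
        X T ^ (-4 : ℝ)) := mul_le_mul_of_nonneg_right hH hA
    _ ≤ d T ^ (-|V|) * (d T ^ (D' / 2) * (C1 * d T ^ (-(5 / c))) + d T ^ E) := by gcongr
    _ = C1 * (d T ^ (-|V|) * d T ^ (D' / 2) * d T ^ (-(5 / c))) + d T ^ (-|V|) * d T ^ E := by ring
    _ = C1 * d T ^ (D + 2) + d T ^ (D + 1) := by
        rw [← Real.rpow_add h0, ← Real.rpow_add h0, ← Real.rpow_add h0]
        have q1 : -|V| + D' / 2 + -(5 / c) = D + 2 := by rw [hD']; ring
        have q2 : -|V| + E = D + 1 := by rw [hE]; ring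
        rw [q1, q2]
    _ = d T ^ D * (C1 * d T ^ 2 + d T) := by
        rw [Real.rpow_add h0, Real.rpow_add h0, Real.rpow_one, Real.rpow_two]
        ring
    _ ≤ d T ^ D * 1 := mul_le_mul_of_nonneg_left hs (Real.rpow_nonneg h0.le _)
    _ = d T ^ D := mul_one _

end Pool.Agent.N748.MO.CX
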