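import Pool.Agent.N748.MO.Stm
import Pool.Agent.N748.MG.DIA1
import Pool.Agent.N748.MG.EUL

set_option autoImplicit false

/-! The double sum as an Euler product. -/

namespace Pool.Agent.N748.MO.DE1

open Finset Filter Topology Complex
open Pool.Agent.N748.MG Pool.Agent.N748.MO

/-! ### double Euler products -/

/-- multiplicative functions of two variables -/
structure DM {R : Type*} [CommRing R] (T : ℕ → ℕ → R) : Prop where
  one : T 1 1 = 1
  zl : ∀ l, T 0 l = 0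
  zr : ∀ h, T h 0 = 0
  mul : ∀ a c h l : ℕ, a.Coprime h → a.Coprime l → c.Coprime h → c.Coprime l →
    T (a * h) (c * l) = T a c * T h l

theorem local_prod {R : Type*} [NormedCommRing R] [CompleteSpace R] {T : ℕ → ℕ → R} (hT : DM T)
    (hs : ∀ p : ℕ, p.Prime → Summable fun q : ℕ × ℕ => ‖T (p ^ q.1) (p ^ q.2)‖) (s : Finset ℕ) :
    Summable (fun q : Nat.factoredNumbers s × Nat.factoredNumbers s => ‖T q.1 q.2‖) ∧
      HasSum (fun q : Nat.factoredNumbers s × Nat.factoredNumbers s => T q.1 q.2)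
        (∏ p ∈ s with p.Prime, ∑' q : ℕ × ℕ, T (p ^ q.1) (p ^ q.2)) := by
  induction s using Finset.induction with
  | empty =>
    have h1 : ∀ q : Nat.factoredNumbers ∅ × Nat.factoredNumbers ∅, q =
        (⟨1, by rw [Nat.factoredNumbers_empty]; rfl⟩, ⟨1, by rw [Nat.factoredNumbers_empty]; rfl⟩) := by
      rintro ⟨⟨a, ha⟩, ⟨b, hb⟩⟩
      rw [Nat.factoredNumbers_empty, Set.mem_singleton_iff] at ha hb
      subst ha
      subst hb
      rfl
    set q0 : Nat.factoredNumbers ∅ × Nat.factoredNumbers ∅ :=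
        (⟨1, by rw [Nat.factoredNumbers_empty]; rfl⟩, ⟨1, by rw [Nat.factoredNumbers_empty]; rfl⟩) with hq0
    constructor
    · refine (hasSum_single q0 (f := fun q : Nat.factoredNumbers ∅ × Nat.factoredNumbers ∅ => ‖T q.1 q.2‖) ?_).summable
      intro q hq
      exact absurd (h1 q) hq
    · have h2 := hasSum_single q0 (f := fun q : Nat.factoredNumbers ∅ × Nat.factoredNumbers ∅ => T q.1 q.2) (by
        intro q hq
        exact absurd (h1 q) hq)
      have h3 : T (q0.1 : ℕ) (q0.2 : ℕ) = 1 := hT.one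
      simp only [filter_empty, prod_empty]
      rw [← h3]
      exact h2
  | insert p s hp ih =>
    rw [filter_insert]
    split_ifs with hpp
    · let e := Nat.equivProdNatFactoredNumbers hpp hp
      let E := (Equiv.prodProdProdComm ℕ ℕ (Nat.factoredNumbers s) (Nat.factoredNumbers s)).trans
        (Equiv.prodCongr e e)
      have hE : ∀ x : (ℕ × ℕ) × (Nat.factoredNumbers s × Nat.factoredNumbers s),
          T ((E x).1 : ℕ) ((E x).2 : ℕ) = T (p ^ x.1.1) (p ^ x.1.2) * T x.2.1 x.2.2 := by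
        rintro ⟨⟨i, j⟩, ⟨h, l⟩⟩
        have e1 : (((E ((i, j), (h, l))).1 : Nat.factoredNumbers (insert p s)) : ℕ) = p ^ i * h := rfl
        have e2 : (((E ((i, j), (h, l))).2 : Nat.factoredNumbers (insert p s)) : ℕ) = p ^ j * l := rfl
        rw [e1, e2]
        have c1 := Nat.Prime.factoredNumbers_coprime hpp hp h.2
        have c2 := Nat.Prime.factoredNumbers_coprime hpp hp l.2
        exact hT.mul _ _ _ _ (c1.pow_left i) (c2.pow_left i) (c1.pow_left j) (c2.pow_left j)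
      constructor
      · rw [← E.summable_iff]
        have h1 : ((fun q : Nat.factoredNumbers (insert p s) × Nat.factoredNumbers (insert p s) =>
            ‖T q.1 q.2‖) ∘ E) = fun x => ‖T (p ^ x.1.1) (p ^ x.1.2) * T x.2.1 x.2.2‖ := by
          funext x
          simp only [Function.comp_apply]
          rw [hE]
        rw [h1]
        refine Summable.of_nonneg_of_le (fun _ => norm_nonneg _) (fun _ => norm_mul_le _ _) ?_
        exact Summable.mul_of_nonneg (hs p hpp) ih.1 (fun _ => norm_nonneg _) (fun _ => norm_nonneg _)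
      · have hp' : p ∉ {p ∈ s | p.Prime} := mt (mem_of_mem_filter p) hp
        rw [prod_insert hp', ← E.hasSum_iff]
        have h1 : ((fun q : Nat.factoredNumbers (insert p s) × Nat.factoredNumbers (insert p s) =>
            T q.1 q.2) ∘ E) = fun x => T (p ^ x.1.1) (p ^ x.1.2) * T x.2.1 x.2.2 := by
          funext x
          simp only [Function.comp_apply]
          rw [hE]
        rw [h1]
        have h2 : Summable fun x : (ℕ × ℕ) × (Nat.factoredNumbers s × Nat.factoredNumbers s) =>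
            T (p ^ x.1.1) (p ^ x.1.2) * T x.2.1 x.2.2 :=
          summable_mul_of_summable_norm (f := fun q : ℕ × ℕ => T (p ^ q.1) (p ^ q.2))
            (g := fun q : Nat.factoredNumbers s × Nat.factoredNumbers s => T q.1 q.2) (hs p hpp) ih.1
        exact HasSum.mul (f := fun q : ℕ × ℕ => T (p ^ q.1) (p ^ q.2))
            (g := fun q : Nat.factoredNumbers s × Nat.factoredNumbers s => T q.1 q.2)
            (hs p hpp).of_norm.hasSum ih.2 h2
    · rwa [Nat.factoredNumbers_insert s hpp]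

/-- the terms over the `s`-factored numbers -/
noncomputable def ind {R : Type*} [CommRing R] (T : ℕ → ℕ → R) (s : Finset ℕ) (q : ℕ × ℕ) : R :=
  (Nat.factoredNumbers s ×ˢ Nat.factoredNumbers s).indicator (fun q => T q.1 q.2) q

theorem local_prod2 {R : Type*} [NormedCommRing R] [CompleteSpace R] {T : ℕ → ℕ → R} (hT : DM T)
    (hs : ∀ p : ℕ, p.Prime → Summable fun q : ℕ × ℕ => ‖T (p ^ q.1) (p ^ q.2)‖) (s : Finset ℕ) :
    HasSum (ind T s) (∏ p ∈ s with p.Prime, ∑' q : ℕ × ℕ, T (p ^ q.1) (p ^ q.2)) := by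
  have h1 := (local_prod hT hs s).2
  let g : Nat.factoredNumbers s × Nat.factoredNumbers s → ℕ × ℕ := fun q => (q.1, q.2)
  have hg : Function.Injective g := by
    rintro ⟨⟨a, ha⟩, ⟨b, hb⟩⟩ ⟨⟨c, hc⟩, ⟨d, hd⟩⟩ h
    simp only [g, Prod.mk.injEq] at h
    obtain ⟨rfl, rfl⟩ := h
    rfl
  rw [← hg.hasSum_iff]
  · have h2 : ind T s ∘ g = fun q : Nat.factoredNumbers s × Nat.factoredNumbers s => T q.1 q.2 := by
      funext q
      simp only [Function.comp_apply, ind]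
      rw [Set.indicator_of_mem]
      exact ⟨q.1.2, q.2.2⟩
    rw [h2]
    exact h1
  · intro x hx
    unfold ind
    apply Set.indicator_of_notMem
    intro h
    exact hx ⟨(⟨x.1, h.1⟩, ⟨x.2, h.2⟩), rfl⟩

theorem mem_fac {h N : ℕ} (h0 : h ≠ 0) (hN : h < N) {s : Finset ℕ} (hs : range N ⊆ s) :
    h ∈ Nat.factoredNumbers s := by
  rw [Nat.mem_factoredNumbers']
  intro p _ hpn
  exact hs (mem_range.2 ((Nat.le_of_dvd (Nat.pos_of_ne_zero h0) hpn).trans_lt hN))

theorem ind_eq {R : Type*} [CommRing R] {T : ℕ → ℕ → R} (hT : DM T) {s : Finset ℕ} {N : ℕ}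
    (hs : range N ⊆ s) (q : ℕ × ℕ) (h1 : q.1 < N) (h2 : q.2 < N) : ind T s q = T q.1 q.2 := by
  unfold ind
  by_cases h3 : q.1 = 0
  · rw [h3, hT.zl]
    rcases Set.indicator_eq_zero_or_self (Nat.factoredNumbers s ×ˢ Nat.factoredNumbers s)
      (fun q : ℕ × ℕ => T q.1 q.2) q with h | h
    · exact h
    · rw [h, h3, hT.zl]
  by_cases h4 : q.2 = 0
  · rw [h4, hT.zr]
    rcases Set.indicator_eq_zero_or_self (Nat.factoredNumbers s ×ˢ Nat.factoredNumbers s)
      (fun q : ℕ × ℕ => T q.1 q.2) q with h | h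
    · exact h
    · rw [h, h4, hT.zr]
  rw [Set.indicator_of_mem]
  exact ⟨mem_fac h3 h1 hs, mem_fac h4 h2 hs⟩

theorem DM.norm {T : ℕ → ℕ → ℂ} (hT : DM T) : DM (fun h l => ‖T h l‖) where
  one := by rw [hT.one, norm_one]
  zl := fun l => by rw [hT.zl, norm_zero]
  zr := fun h => by rw [hT.zr, norm_zero]
  mul := fun a c h l h1 h2 h3 h4 => by rw [hT.mul a c h l h1 h2 h3 h4, norm_mul]

theorem double_euler {T : ℕ → ℕ → ℂ} (hT : DM T)
    (hs : ∀ p : ℕ, p.Prime → Summable fun q : ℕ × ℕ => ‖T (p ^ q.1) (p ^ q.2)‖)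
    (x : ℕ → ℝ) (hx0 : ∀ n, 0 ≤ x n) (hx : Summable x)
    (hb : ∀ p : ℕ, p.Prime → ∑' q : ℕ × ℕ, ‖T (p ^ q.1) (p ^ q.2)‖ ≤ Real.exp (x p)) :
    Summable (fun q : ℕ × ℕ => T q.1 q.2) ∧
      HasProd (fun p : Nat.Primes => ∑' q : ℕ × ℕ, T ((p : ℕ) ^ q.1) ((p : ℕ) ^ q.2))
        (∑' q : ℕ × ℕ, T q.1 q.2) := by
  have hN : Summable (fun q : ℕ × ℕ => ‖T q.1 q.2‖) := by
    refine summable_of_sum_le (fun _ => norm_nonneg _) (c := Real.exp (∑' n, x n)) fun K => ?_
    obtain ⟨N, hN⟩ : ∃ N : ℕ, ∀ q ∈ K, q.1 < N ∧ q.2 < N := by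
      refine ⟨K.sup (fun q => q.1 + q.2) + 1, fun q hq => ?_⟩
      have := Finset.le_sup (f := fun q : ℕ × ℕ => q.1 + q.2) hq
      have h2 : q.1 + q.2 ≤ K.sup (fun q => q.1 + q.2) := this
      omega
    have h1 := local_prod2 hT.norm (fun p hp => by simpa using hs p hp) (range N)
    have h2 : ∑ q ∈ K, ‖T q.1 q.2‖ = ∑ q ∈ K, ind (fun h l => ‖T h l‖) (range N) q :=
      sum_congr rfl fun q hq => (ind_eq hT.norm subset_rfl q (hN q hq).1 (hN q hq).2).symm
    rw [h2]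
    refine (sum_le_hasSum K (fun q _ => ?_) h1).trans ?_
    · unfold ind
      exact Set.indicator_nonneg (fun _ _ => norm_nonneg _) _
    · calc ∏ p ∈ range N with p.Prime, ∑' q : ℕ × ℕ, ‖T (p ^ q.1) (p ^ q.2)‖
          ≤ ∏ p ∈ range N with p.Prime, Real.exp (x p) := by
            apply Finset.prod_le_prod
            · intro p _
              exact tsum_nonneg fun _ => norm_nonneg _
            · intro p hp
              exact hb p (mem_filter.1 hp).2
        _ = Real.exp (∑ p ∈ range N with p.Prime, x p) := by rw [Real.exp_sum]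
        _ ≤ Real.exp (∑' n, x n) := by
            apply Real.exp_le_exp.2
            exact hx.sum_le_tsum _ fun n _ => hx0 n
  refine ⟨hN.of_norm, ?_⟩
  let F : ℕ → ℂ := fun p => ∑' q : ℕ × ℕ, T (p ^ q.1) (p ^ q.2)
  refine (hasProd_subtype_iff_mulIndicator (f := F) (s := {p : ℕ | Nat.Prime p})
    (a := ∑' q : ℕ × ℕ, T q.1 q.2)).2 ?_
  rw [HasProd, SummationFilter.unconditional_filter]
  have h1 : ∀ s : Finset ℕ, ∏ p ∈ s, Set.mulIndicator {p : ℕ | Nat.Prime p} F p = ∑' q, ind T s q := by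
    intro s
    rw [(local_prod2 hT hs s).tsum_eq]
    exact prod_mulIndicator_eq_prod_filter s (fun _ => F) _ id
  have h2 : Tendsto (fun s : Finset ℕ => ∑' q, ind T s q) atTop (𝓝 (∑' q : ℕ × ℕ, T q.1 q.2)) := by
    apply tendsto_tsum_of_dominated_convergence hN
    · intro q
      apply tendsto_const_nhds.congr'
      filter_upwards [eventually_ge_atTop (range (q.1 + q.2 + 1))] with s hs
      exact (ind_eq hT hs q (by omega) (by omega)).symm
    · refine Eventually.of_forall fun s q => ?_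
      unfold ind
      exact norm_indicator_le_norm_self _ _
  simpa only [← h1] using h2

/-! ### the terms -/

theorem TD_eq (b : ℂ) (δ : ℝ) (z : ℂ) (h l : ℕ) : TD b δ z h l =
    dS b h * dS b l * (h:ℂ) ^ (-((δ:ℂ) + z)) * (l:ℂ) ^ (-((δ:ℂ) + z)) * ((Nat.gcd h l : ℕ) : ℂ) ^ (2 * z) *
      ((Nat.gcd h l : ℕ) : ℂ) / ((h:ℂ) * (l:ℂ)) := by
  unfold TD
  rcases Nat.eq_zero_or_pos h with rfl | hh
  · simp
  rcases Nat.eq_zero_or_pos l with rfl | hl
  · simp
  have h1 : ((Nat.gcd h l : ℕ) : ℂ) * ((Nat.lcm h l : ℕ) : ℂ) = (h:ℂ) * (l:ℂ) := by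
    exact_mod_cast Nat.gcd_mul_lcm h l
  have h2 : ((Nat.gcd h l : ℕ) : ℂ) ≠ 0 := by
    exact_mod_cast (Nat.gcd_pos_of_pos_left l hh).ne'
  have h3 : ((Nat.lcm h l : ℕ) : ℂ) ≠ 0 := by
    exact_mod_cast (Nat.lcm_pos hh hl).ne'
  rw [← h1]
  field_simp

theorem TD_DM (b : ℂ) (δ : ℝ) (z : ℂ) : DM (TD b δ z) where
  one := by simp [TD, DIA1.dS_one]
  zl := fun l => by simp [TD]
  zr := fun h => by simp [TD]
  mul := by
    intro a c h l h1 h2 h3 h4
    have hg : Nat.gcd (a * h) (c * l) = Nat.gcd a c * Nat.gcd h l := by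
      have e1 : Nat.Coprime c l := h4
      rw [Nat.Coprime.gcd_mul (a * h) h4]
      rw [Nat.Coprime.gcd_mul_right_cancel a h3.symm, Nat.Coprime.gcd_mul_left_cancel h h2]
    rw [TD_eq, TD_eq, TD_eq, hg, DIA1.dS_mul b h1, DIA1.dS_mul b h4]
    push_cast
    rw [Complex.natCast_mul_natCast_cpow, Complex.natCast_mul_natCast_cpow,
      Complex.natCast_mul_natCast_cpow]
    rw [show ((a:ℂ) * h * (c * l)) = ((a:ℂ) * c) * (h * l) by ring]
    rw [← mul_div_mul_comm]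
    congr 1
    ring

theorem TD_pow (b : ℂ) (δ : ℝ) (z : ℂ) {p : ℕ} (hp : p.Prime) (i j : ℕ) :
    TD b δ z (p ^ i) (p ^ j) = lC b i * lC b j *
    (p:ℂ) ^ (-(((i + j : ℕ) : ℂ) * (1 + δ + z)) + ((min i j : ℕ) : ℂ) * (1 + 2 * z)) := by
  have hp0 : (p:ℂ) ≠ 0 := by exact_mod_cast hp.ne_zero
  have hg : Nat.gcd (p ^ i) (p ^ j) = p ^ min i j := by
    rcases le_total i j with h | h
    · rw [min_eq_left h, Nat.gcd_eq_left (pow_dvd_pow p h)]
    · rw [min_eq_right h, Nat.gcd_eq_right (pow_dvd_pow p h)]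
  rw [TD_eq, DIA1.dS_pow b hp, DIA1.dS_pow b hp, hg, EUL.cpow_pow_nat, EUL.cpow_pow_nat,
    EUL.cpow_pow_nat]
  rw [← Complex.cpow_nat_mul, ← Complex.cpow_nat_mul, ← Complex.cpow_nat_mul]
  push_cast
  rw [← Complex.cpow_natCast (p:ℂ) (min i j), ← Complex.cpow_natCast (p:ℂ) i,
    ← Complex.cpow_natCast (p:ℂ) j]
  rw [div_eq_mul_inv, mul_inv, ← Complex.cpow_neg, ← Complex.cpow_neg]
  simp only [mul_assoc]
  congr 2
  rw [← Complex.cpow_add _ _ hp0, ← Complex.cpow_add _ _ hp0, ← Complex.cpow_add _ _ hp0,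
    ← Complex.cpow_add _ _ hp0, ← Complex.cpow_add _ _ hp0]
  congr 1
  ring

/-- the local majorant -/
noncomputable def uu (k m : ℕ) : ℝ := ((m : ℝ) + 1) ^ k * (3 / 4 : ℝ) ^ m

lemma uu_nonneg (k m : ℕ) : 0 ≤ uu k m := by unfold uu; positivity

lemma uu_summable (k : ℕ) : Summable (uu k) := by
  have h1 := summable_pow_mul_geometric_of_norm_lt_one (R := ℝ) k (r := 3 / 4)
    (by rw [Real.norm_eq_abs, abs_of_pos (by norm_num)]; norm_num)
  have h2 := (summable_nat_add_iff 1).2 h1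
  have h3 := h2.mul_left (4 / 3 : ℝ)
  refine h3.congr fun m => ?_
  unfold uu
  push_cast
  rw [pow_succ (3 / 4 : ℝ) m]
  ring

lemma uu2_summable (k : ℕ) : Summable fun q : ℕ × ℕ => uu k q.1 * uu k q.2 :=
  Summable.mul_of_nonneg (uu_summable k) (uu_summable k) (uu_nonneg k) (uu_nonneg k)

theorem TD_norm {b : ℂ} {k : ℕ} (hb : ‖b‖ ≤ k) {δ : ℝ} (hδ : 0 < δ) {z : ℂ} (hz : ‖z‖ ≤ δ / 4) {p : ℕ}
    (hp : p.Prime) (i j : ℕ) (hij : i + j ≠ 0) : ‖TD b δ z (p ^ i) (p ^ j)‖ ≤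
    2 * (p:ℝ) ^ (-(1 + 3 * δ / 4)) * (uu k i * uu k j) := by
  have hp1 : (1:ℝ) ≤ p := by exact_mod_cast hp.one_lt.le
  have hp0 : (0:ℝ) < p := by linarith
  have hp2 : (2:ℝ) ≤ p := by exact_mod_cast hp.two_le
  have hx : |z.re| ≤ δ / 4 := (Complex.abs_re_le_norm z).trans hz
  rw [abs_le] at hx
  rw [TD_pow b δ z hp, norm_mul, norm_mul, Complex.norm_natCast_cpow_of_pos hp.pos]
  set m := max i j with hm
  have hm1 : 1 ≤ m := by
    rcases Nat.eq_zero_or_pos i with h | h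
    · have : j ≤ m := le_max_right _ _
      omega
    · have : i ≤ m := le_max_left _ _
      omega
  have hij2 : i + j = m + min i j := by
    rw [hm]
    exact (max_add_min i j).symm
  have hmm : min i j ≤ m := min_le_max
  have hre : (-(((i + j : ℕ) : ℂ) * (1 + δ + z)) + ((min i j : ℕ) : ℂ) * (1 + 2 * z)).re ≤
      -(1 + 3 * δ / 4) - ((m - 1 : ℕ) : ℝ) := by
    have e1 : (-(((i + j : ℕ) : ℂ) * (1 + δ + z)) + ((min i j : ℕ) : ℂ) * (1 + 2 * z)).re =
        -(((i + j : ℕ) : ℝ) * (1 + δ + z.re)) + ((min i j : ℕ) : ℝ) * (1 + 2 * z.re) := by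
      simp only [Complex.add_re, Complex.neg_re, Complex.mul_re, Complex.natCast_re,
        Complex.natCast_im, zero_mul, sub_zero, Complex.one_re, Complex.ofReal_re]
      norm_num
    rw [e1, hij2]
    push_cast [Nat.cast_sub hm1]
    have hm1' : (1:ℝ) ≤ (m:ℝ) := by exact_mod_cast hm1
    have hmm' : ((min i j : ℕ):ℝ) ≤ (m:ℝ) := by exact_mod_cast hmm
    have hmn : (0:ℝ) ≤ ((min i j : ℕ):ℝ) := by positivity
    push_cast at hmm' hmn
    set n : ℝ := min (i:ℝ) (j:ℝ) with hn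
    nlinarith [mul_nonneg hmn (show (0:ℝ) ≤ δ - z.re by linarith), mul_nonneg (sub_nonneg.2 hm1') (show (0:ℝ) ≤ δ + z.re by linarith)]
  have h1 : (p:ℝ) ^ (-(((i + j : ℕ) : ℂ) * (1 + δ + z)) + ((min i j : ℕ) : ℂ) * (1 + 2 * z)).re ≤
      (p:ℝ) ^ (-(1 + 3 * δ / 4)) * (1 / 2) ^ (m - 1) := by
    refine (Real.rpow_le_rpow_of_exponent_le hp1 hre).trans ?_
    rw [sub_eq_add_neg, Real.rpow_add hp0, Real.rpow_neg hp0.le (((m - 1 : ℕ) : ℝ)), Real.rpow_natCast, ← inv_pow]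
    apply mul_le_mul_of_nonneg_left _ (by positivity)
    exact pow_le_pow_left₀ (by positivity) (DIA1.inv_le_half hp) _
  have h2 : (1 / 2 : ℝ) ^ (m - 1) ≤ 2 * ((3 / 4) ^ i * (3 / 4) ^ j) := by
    have e1 : (1 / 2 : ℝ) ^ (m - 1) = 2 * (1 / 2) ^ m := by
      obtain ⟨r, hr⟩ := Nat.exists_eq_add_of_le' hm1
      rw [hr, Nat.add_sub_cancel, pow_succ]
      ring
    rw [e1, ← pow_add]
    apply mul_le_mul_of_nonneg_left _ (by norm_num)
    calc (1 / 2 : ℝ) ^ m ≤ ((3 / 4) ^ 2) ^ m := pow_le_pow_left₀ (by norm_num) (by norm_num) m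
      _ = (3 / 4) ^ (2 * m) := by rw [pow_mul]
      _ ≤ (3 / 4) ^ (i + j) := pow_le_pow_of_le_one (by norm_num) (by norm_num) (by omega)
  have h3 := DIA1.lC_norm hb i
  have h4 := DIA1.lC_norm hb j
  calc ‖lC b i‖ * ‖lC b j‖ * (p:ℝ) ^ (-(((i + j : ℕ) : ℂ) * (1 + δ + z)) + ((min i j : ℕ) : ℂ) * (1 + 2 * z)).re
      ≤ ((i:ℝ) + 1) ^ k * ((j:ℝ) + 1) ^ k * ((p:ℝ) ^ (-(1 + 3 * δ / 4)) * (2 * ((3 / 4) ^ i * (3 / 4) ^ j))) := by
        have h5 := h1.trans (mul_le_mul_of_nonneg_left h2 (by positivity : (0:ℝ) ≤ (p:ℝ) ^ (-(1 + 3 * δ / 4))))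
        gcongr
    _ = _ := by
        unfold uu
        ring

theorem main : S_DE1 := by
  intro b δ z hδ _ hz
  obtain ⟨k, hk⟩ := exists_nat_ge ‖b‖
  set U : ℝ := ∑' q : ℕ × ℕ, uu k q.1 * uu k q.2 with hU
  have hU0 : 0 ≤ U := tsum_nonneg fun q => mul_nonneg (uu_nonneg _ _) (uu_nonneg _ _)
  have hT := TD_DM b δ z
  have hle : ∀ p : ℕ, p.Prime → ∀ q : ℕ × ℕ, ‖TD b δ z (p ^ q.1) (p ^ q.2)‖ ≤
      (if q = (0, 0) then 1 else 0) + 2 * (p:ℝ) ^ (-(1 + 3 * δ / 4)) * (uu k q.1 * uu k q.2) := by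
    intro p hp q
    by_cases hq : q = (0, 0)
    · rw [if_pos hq, hq]
      simp only [pow_zero]
      rw [hT.one, norm_one]
      have : 0 ≤ 2 * (p:ℝ) ^ (-(1 + 3 * δ / 4)) * (uu k 0 * uu k 0) :=
        mul_nonneg (by positivity) (mul_nonneg (uu_nonneg _ _) (uu_nonneg _ _))
      linarith
    · rw [if_neg hq, zero_add]
      apply TD_norm hk hδ hz hp
      intro h
      apply hq
      ext
      · simp; omega
      · simp; omega
  have hsi : Summable fun q : ℕ × ℕ => (if q = (0, 0) then (1:ℝ) else 0) := (hasSum_ite_eq (0, 0) (1:ℝ)).summable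
  have hsu : ∀ p : ℕ, Summable fun q : ℕ × ℕ => (if q = (0, 0) then (1:ℝ) else 0) +
      2 * (p:ℝ) ^ (-(1 + 3 * δ / 4)) * (uu k q.1 * uu k q.2) := fun p =>
    hsi.add ((uu2_summable k).mul_left _)
  have hs : ∀ p : ℕ, p.Prime → Summable fun q : ℕ × ℕ => ‖TD b δ z (p ^ q.1) (p ^ q.2)‖ := fun p hp =>
    Summable.of_nonneg_of_le (fun _ => norm_nonneg _) (hle p hp) (hsu p)
  have h := double_euler hT hs (fun n => 2 * U * (n:ℝ) ^ (-(1 + 3 * δ / 4))) (fun n => by positivity)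
    ((DIA1.zeta_summable (by positivity)).mul_left _) (fun p hp => by
      have h1 := Summable.tsum_le_tsum (hle p hp) (hs p hp) (hsu p)
      rw [Summable.tsum_add hsi ((uu2_summable k).mul_left _), tsum_mul_left, tsum_ite_eq] at h1
      refine h1.trans ?_
      have h2 := Real.add_one_le_exp (2 * U * (p:ℝ) ^ (-(1 + 3 * δ / 4)))
      rw [← hU]
      refine le_trans (le_of_eq ?_) h2
      ring)
  refine ⟨h.1, ?_⟩
  have h3 : (fun p : Nat.Primes => GD b δ z p) =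
      fun p : Nat.Primes => ∑' q : ℕ × ℕ, TD b δ z ((p : ℕ) ^ q.1) ((p : ℕ) ^ q.2) := by
    funext p
    unfold GD
    exact tsum_congr fun q => (TD_pow b δ z p.2 q.1 q.2).symm
  rw [h3]
  exact h.2

end Pool.Agent.N748.MO.DE1
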