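import Pool.Agent.N748.MO.Stm
import Pool.Agent.N748.MG.DIA2

set_option autoImplicit false

/-!
# The asymptotics of the product over the primes (helper438)
-/

namespace Pool.Agent.N748.MO.DE2

open Finset Filter MeasureTheory Topology Complex
open Pool.Agent.N748.MG Pool.Agent.N748.MG.L4 Pool.Agent.N748.MG.DIA2

/-! ### functions of two small variables -/

/-- `f = 1 + a x + c y + O(z (|x| + |y|))`, with differences -/
def Nice (K C : ℝ) (a c : ℂ) (f : ℝ → ℝ → ℂ) : Prop :=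
  ‖a‖ ≤ K ∧ ‖c‖ ≤ K ∧ f 0 0 = 1 ∧ ∀ z x y x' y' : ℝ, z ≤ 1 / 2 → 0 ≤ x → x ≤ z → 0 ≤ y → y ≤ z → 0 ≤ x' →
    x' ≤ z → 0 ≤ y' → y' ≤ z →
    ‖(f x y - a * x - c * y) - (f x' y' - a * x' - c * y')‖ ≤ C * z * (|x - x'| + |y - y'|)

theorem Nice.mono {K C K' C' : ℝ} {a c : ℂ} {f : ℝ → ℝ → ℂ} (h : Nice K C a c f) (hK : K ≤ K') (hC : C ≤ C') :
    Nice K' C' a c f := by
  obtain ⟨h1, h2, h3, h4⟩ := h
  refine ⟨h1.trans hK, h2.trans hK, h3, ?_⟩
  intro z x y x' y' hz hx hxz hy hyz hx' hxz' hy' hyz'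
  refine (h4 z x y x' y' hz hx hxz hy hyz hx' hxz' hy' hyz').trans ?_
  have : 0 ≤ z := hx.trans hxz
  gcongr

theorem Nice.congr {K C : ℝ} {a c : ℂ} {f g : ℝ → ℝ → ℂ} (h : Nice K C a c f)
    (hfg : ∀ x y : ℝ, 0 ≤ x → x ≤ 1 / 2 → 0 ≤ y → y ≤ 1 / 2 → f x y = g x y) : Nice K C a c g := by
  obtain ⟨h1, h2, h3, h4⟩ := h
  refine ⟨h1, h2, ?_, ?_⟩
  · rw [← hfg 0 0 le_rfl (by norm_num) le_rfl (by norm_num)]
    exact h3
  intro z x y x' y' hz hx hxz hy hyz hx' hxz' hy' hyz'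
  rw [← hfg x y hx (hxz.trans hz) hy (hyz.trans hz), ← hfg x' y' hx' (hxz'.trans hz) hy' (hyz'.trans hz)]
  exact h4 z x y x' y' hz hx hxz hy hyz hx' hxz' hy' hyz'

theorem lin_bd {K : ℝ} {a c : ℂ} (ha : ‖a‖ ≤ K) (hc : ‖c‖ ≤ K) (u v : ℝ) :
    ‖a * (u : ℂ) + c * (v : ℂ)‖ ≤ K * (|u| + |v|) := by
  refine (norm_add_le _ _).trans ?_
  rw [norm_mul, norm_mul, Complex.norm_real, Complex.norm_real, Real.norm_eq_abs, Real.norm_eq_abs]
  have h1 := mul_le_mul_of_nonneg_right ha (abs_nonneg u)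
  have h2 := mul_le_mul_of_nonneg_right hc (abs_nonneg v)
  linarith

theorem Nice.mul {K C : ℝ} (hK : 0 ≤ K) (hC : 0 ≤ C) {a c a' c' : ℂ} {f f' : ℝ → ℝ → ℂ} (h : Nice K C a c f)
    (h' : Nice K C a' c' f') :
    Nice (2 * K) (4 * K ^ 2 + 2 * C + 4 * K * C + 2 * C ^ 2) (a + a') (c + c') (fun x y => f x y * f' x y) := by
  obtain ⟨h1, h2, h3, h4⟩ := h
  obtain ⟨h1', h2', h3', h4'⟩ := h'
  refine ⟨(norm_add_le _ _).trans (by linarith), (norm_add_le _ _).trans (by linarith), by simp [h3, h3'], ?_⟩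
  intro z x y x' y' hz hx hxz hy hyz hx' hxz' hy' hyz'
  have hz0 : 0 ≤ z := hx.trans hxz
  set d : ℝ := |x - x'| + |y - y'| with hd
  have hd0 : 0 ≤ d := by positivity
  -- linear parts
  set l : ℂ := a * x + c * y with hl
  set l' : ℂ := a' * x + c' * y with hl'
  set m : ℂ := a * x' + c * y' with hm
  set m' : ℂ := a' * x' + c' * y' with hm'
  set u : ℂ := f x y - 1 - l with hu
  set u' : ℂ := f' x y - 1 - l' with hu'
  set v : ℂ := f x' y' - 1 - m with hv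
  set v' : ℂ := f' x' y' - 1 - m' with hv'
  have hlb : ‖l‖ ≤ 2 * K * z := by
    have := lin_bd h1 h2 x y
    rw [abs_of_nonneg hx, abs_of_nonneg hy] at this
    nlinarith
  have hlb' : ‖l'‖ ≤ 2 * K * z := by
    have := lin_bd h1' h2' x y
    rw [abs_of_nonneg hx, abs_of_nonneg hy] at this
    nlinarith
  have hmb : ‖m‖ ≤ 2 * K * z := by
    have := lin_bd h1 h2 x' y'
    rw [abs_of_nonneg hx', abs_of_nonneg hy'] at this
    nlinarith
  have hlm : ‖l - m‖ ≤ K * d := by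
    have := lin_bd h1 h2 (x - x') (y - y')
    have e : l - m = a * ((x - x' : ℝ) : ℂ) + c * ((y - y' : ℝ) : ℂ) := by
      rw [hl, hm]; push_cast; ring
    rw [e]
    exact this
  have hlm' : ‖l' - m'‖ ≤ K * d := by
    have := lin_bd h1' h2' (x - x') (y - y')
    have e : l' - m' = a' * ((x - x' : ℝ) : ℂ) + c' * ((y - y' : ℝ) : ℂ) := by
      rw [hl', hm']; push_cast; ring
    rw [e]
    exact this
  have huv : ‖u - v‖ ≤ C * z * d := by
    have := h4 z x y x' y' hz hx hxz hy hyz hx' hxz' hy' hyz'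
    have e : u - v = (f x y - a * x - c * y) - (f x' y' - a * x' - c * y') := by
      rw [hu, hv, hl, hm]; ring
    rw [e]
    exact this
  have huv' : ‖u' - v'‖ ≤ C * z * d := by
    have := h4' z x y x' y' hz hx hxz hy hyz hx' hxz' hy' hyz'
    have e : u' - v' = (f' x y - a' * x - c' * y) - (f' x' y' - a' * x' - c' * y') := by
      rw [hu', hv', hl', hm']; ring
    rw [e]
    exact this
  have hub' : ‖u'‖ ≤ C * z := by
    have := h4' z x y 0 0 hz hx hxz hy hyz le_rfl hz0 le_rfl hz0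
    have e : u' = (f' x y - a' * x - c' * y) - (f' 0 0 - a' * ((0 : ℝ) : ℂ) - c' * ((0 : ℝ) : ℂ)) := by
      rw [hu', hl', h3']; push_cast; ring
    rw [e]
    refine this.trans ?_
    rw [sub_zero, sub_zero, abs_of_nonneg hx, abs_of_nonneg hy]
    have h5 : 0 ≤ C * z := by positivity
    calc C * z * (x + y) ≤ C * z * 1 := mul_le_mul_of_nonneg_left (by linarith) h5
      _ = C * z := mul_one _
  have hvb : ‖v‖ ≤ C * z := by
    have := h4 z x' y' 0 0 hz hx' hxz' hy' hyz' le_rfl hz0 le_rfl hz0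
    have e : v = (f x' y' - a * x' - c * y') - (f 0 0 - a * ((0 : ℝ) : ℂ) - c * ((0 : ℝ) : ℂ)) := by
      rw [hv, hm, h3]; push_cast; ring
    rw [e]
    refine this.trans ?_
    rw [sub_zero, sub_zero, abs_of_nonneg hx', abs_of_nonneg hy']
    have h5 : 0 ≤ C * z := by positivity
    calc C * z * (x' + y') ≤ C * z * 1 := mul_le_mul_of_nonneg_left (by linarith) h5
      _ = C * z := mul_one _
  have hvb' : ‖v'‖ ≤ C * z := by
    have := h4' z x' y' 0 0 hz hx' hxz' hy' hyz' le_rfl hz0 le_rfl hz0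
    have e : v' = (f' x' y' - a' * x' - c' * y') - (f' 0 0 - a' * ((0 : ℝ) : ℂ) - c' * ((0 : ℝ) : ℂ)) := by
      rw [hv', hm', h3']; push_cast; ring
    rw [e]
    refine this.trans ?_
    rw [sub_zero, sub_zero, abs_of_nonneg hx', abs_of_nonneg hy']
    have h5 : 0 ≤ C * z := by positivity
    calc C * z * (x' + y') ≤ C * z * 1 := mul_le_mul_of_nonneg_left (by linarith) h5
      _ = C * z := mul_one _
  -- the other factors
  have hCz : C * z ≤ C := by nlinarith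
  have hKz : 2 * K * z ≤ K := by nlinarith
  have hF : ‖1 + l' + u'‖ ≤ 1 + K + C := by
    refine (norm_add_le _ _).trans ?_
    have := norm_add_le (1 : ℂ) l'
    rw [norm_one] at this
    linarith
  have hFd : ‖(1 + l' + u') - (1 + m' + v')‖ ≤ (K + C) * d := by
    have e : (1 + l' + u') - (1 + m' + v') = (l' - m') + (u' - v') := by ring
    rw [e]
    refine (norm_add_le _ _).trans ?_
    nlinarith
  have hG : ‖1 + l‖ ≤ 1 + K := by
    have := norm_add_le (1 : ℂ) l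
    rw [norm_one] at this
    linarith
  have e1 : (f x y * f' x y - (a + a') * x - (c + c') * y) - (f x' y' * f' x' y' - (a + a') * x' - (c + c') * y') =
      (l - m) * l' + m * (l' - m') + (u - v) * (1 + l' + u') + v * ((1 + l' + u') - (1 + m' + v')) +
      (u' - v') * (1 + l) + v' * (l - m) := by
    have e2 : f x y = 1 + l + u := by rw [hu]; ring
    have e3 : f' x y = 1 + l' + u' := by rw [hu']; ring
    have e4 : f x' y' = 1 + m + v := by rw [hv]; ring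
    have e5 : f' x' y' = 1 + m' + v' := by rw [hv']; ring
    rw [e2, e3, e4, e5]
    have e6 : (a + a') * (x : ℂ) + (c + c') * y = l + l' := by rw [hl, hl']; ring
    have e7 : (a + a') * (x' : ℂ) + (c + c') * y' = m + m' := by rw [hm, hm']; ring
    linear_combination (-1 : ℂ) * e6 + e7
  rw [e1]
  have t1 : ‖(l - m) * l'‖ ≤ 2 * K ^ 2 * z * d := by
    rw [norm_mul]
    calc _ ≤ (K * d) * (2 * K * z) := mul_le_mul hlm hlb' (norm_nonneg _) (by positivity)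
      _ = _ := by ring
  have t2 : ‖m * (l' - m')‖ ≤ 2 * K ^ 2 * z * d := by
    rw [norm_mul]
    calc _ ≤ (2 * K * z) * (K * d) := mul_le_mul hmb hlm' (norm_nonneg _) (by positivity)
      _ = _ := by ring
  have t3 : ‖(u - v) * (1 + l' + u')‖ ≤ (C * z * d) * (1 + K + C) := by
    rw [norm_mul]
    exact mul_le_mul huv hF (norm_nonneg _) (by positivity)
  have t4 : ‖v * ((1 + l' + u') - (1 + m' + v'))‖ ≤ (C * z) * ((K + C) * d) := by
    rw [norm_mul]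
    exact mul_le_mul hvb hFd (norm_nonneg _) (by positivity)
  have t5 : ‖(u' - v') * (1 + l)‖ ≤ (C * z * d) * (1 + K) := by
    rw [norm_mul]
    exact mul_le_mul huv' hG (norm_nonneg _) (by positivity)
  have t6 : ‖v' * (l - m)‖ ≤ (C * z) * (K * d) := by
    rw [norm_mul]
    exact mul_le_mul hvb' hlm (norm_nonneg _) (by positivity)
  have n1 := norm_add_le ((l - m) * l' + m * (l' - m') + (u - v) * (1 + l' + u') +
    v * ((1 + l' + u') - (1 + m' + v')) + (u' - v') * (1 + l)) (v' * (l - m))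
  have n2 := norm_add_le ((l - m) * l' + m * (l' - m') + (u - v) * (1 + l' + u') +
    v * ((1 + l' + u') - (1 + m' + v'))) ((u' - v') * (1 + l))
  have n3 := norm_add_le ((l - m) * l' + m * (l' - m') + (u - v) * (1 + l' + u'))
    (v * ((1 + l' + u') - (1 + m' + v')))
  have n4 := norm_add_le ((l - m) * l' + m * (l' - m')) ((u - v) * (1 + l' + u'))
  have n5 := norm_add_le ((l - m) * l') (m * (l' - m'))
  have e8 : (4 * K ^ 2 + 2 * C + 4 * K * C + 2 * C ^ 2) * z * d = 2 * K ^ 2 * z * d + 2 * K ^ 2 * z * d +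
      (C * z * d) * (1 + K + C) + (C * z) * ((K + C) * d) + (C * z * d) * (1 + K) + (C * z) * (K * d) := by ring
  rw [e8]
  linarith

/-! ### power series -/

theorem pow_sub_pow_bd {z x x' : ℝ} (hx : 0 ≤ x) (hxz : x ≤ z) (hx' : 0 ≤ x') (hxz' : x' ≤ z) (r : ℕ) :
    |x ^ r - x' ^ r| ≤ r * z ^ (r - 1) * |x - x'| := by
  have h1 := abs_pow_sub_pow_le x x' r
  have h2 : max |x| |x'| ≤ z := by
    rw [abs_of_nonneg hx, abs_of_nonneg hx']
    exact max_le hxz hxz'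
  have h3 : 0 ≤ max |x| |x'| := (abs_nonneg x).trans (le_max_left _ _)
  calc _ ≤ _ := h1
    _ ≤ |x - x'| * r * z ^ (r - 1) := by gcongr
    _ = _ := by ring

theorem term_diff {z x y x' y' : ℝ} (hz : z ≤ 1 / 2) (hx : 0 ≤ x) (hxz : x ≤ z) (hy : 0 ≤ y) (hyz : y ≤ z)
    (hx' : 0 ≤ x') (hxz' : x' ≤ z) (hy' : 0 ≤ y') (hyz' : y' ≤ z) {r m : ℕ} (h : 2 ≤ r + m) :
    |x ^ r * y ^ m - x' ^ r * y' ^ m| ≤
      4 * (((r + m + 1 : ℕ) : ℝ) * (1 / 2) ^ (r + m)) * (z * (|x - x'| + |y - y'|)) := by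
  have hz0 : 0 ≤ z := hx.trans hxz
  have e : x ^ r * y ^ m - x' ^ r * y' ^ m = (x ^ r - x' ^ r) * y ^ m + x' ^ r * (y ^ m - y' ^ m) := by ring
  obtain ⟨n, hn⟩ : ∃ n, r + m = n + 2 := ⟨r + m - 2, by omega⟩
  have hzn : z ^ (n + 1) ≤ z * (1 / 2) ^ n := by
    rw [pow_succ, mul_comm]
    exact mul_le_mul_of_nonneg_left (pow_le_pow_left₀ hz0 hz n) hz0
  have b1 : |(x ^ r - x' ^ r) * y ^ m| ≤ r * z ^ (n + 1) * |x - x'| := by
    rw [abs_mul]
    have h1 := pow_sub_pow_bd hx hxz hx' hxz' r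
    have h2 : |y ^ m| ≤ z ^ m := by
      rw [abs_of_nonneg (pow_nonneg hy m)]
      exact pow_le_pow_left₀ hy hyz m
    rcases Nat.eq_zero_or_pos r with h0 | h0
    · subst h0
      simp
    · have h3 : z ^ (n + 1) = z ^ (r - 1) * z ^ m := by
        rw [← pow_add]
        congr 1
        omega
      rw [h3]
      calc _ ≤ (r * z ^ (r - 1) * |x - x'|) * z ^ m := mul_le_mul h1 h2 (abs_nonneg _) (by positivity)
        _ = _ := by ring
  have b2 : |x' ^ r * (y ^ m - y' ^ m)| ≤ m * z ^ (n + 1) * |y - y'| := by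
    rw [abs_mul]
    have h1 := pow_sub_pow_bd hy hyz hy' hyz' m
    have h2 : |x' ^ r| ≤ z ^ r := by
      rw [abs_of_nonneg (pow_nonneg hx' r)]
      exact pow_le_pow_left₀ hx' hxz' r
    rcases Nat.eq_zero_or_pos m with h0 | h0
    · subst h0
      simp
    · have h3 : z ^ (n + 1) = z ^ r * z ^ (m - 1) := by
        rw [← pow_add]
        congr 1
        omega
      rw [h3]
      calc _ ≤ z ^ r * (m * z ^ (m - 1) * |y - y'|) := mul_le_mul h2 h1 (abs_nonneg _) (by positivity)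
        _ = _ := by ring
  rw [e]
  refine (abs_add_le _ _).trans ?_
  have hr : (r : ℝ) ≤ ((r + m + 1 : ℕ) : ℝ) := by exact_mod_cast (by omega : r ≤ r + m + 1)
  have hm : (m : ℝ) ≤ ((r + m + 1 : ℕ) : ℝ) := by exact_mod_cast (by omega : m ≤ r + m + 1)
  have h5 : (4 : ℝ) * (1 / 2) ^ (r + m) = (1 / 2) ^ n := by
    rw [hn, pow_add]
    ring
  calc _ ≤ r * z ^ (n + 1) * |x - x'| + m * z ^ (n + 1) * |y - y'| := add_le_add b1 b2
    _ ≤ ((r + m + 1 : ℕ) : ℝ) * (z * (1 / 2) ^ n) * |x - x'| +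
        ((r + m + 1 : ℕ) : ℝ) * (z * (1 / 2) ^ n) * |y - y'| := by gcongr
    _ = ((r + m + 1 : ℕ) : ℝ) * (4 * (1 / 2) ^ (r + m)) * (z * (|x - x'| + |y - y'|)) := by rw [h5]; ring
    _ = _ := by ring

theorem nice_of_sum {ι : Type*} [DecidableEq ι] (c : ι → ℂ) (r m : ι → ℕ) (W K : ℝ)
    (hs : Summable fun q => ‖c q‖ * (((r q + m q + 1 : ℕ) : ℝ) * (1 / 2) ^ (r q + m q)))
    (hW : ∑' q, ‖c q‖ * (((r q + m q + 1 : ℕ) : ℝ) * (1 / 2) ^ (r q + m q)) ≤ W) (F : Finset ι)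
    (hF : ∀ q, q ∉ F → 2 ≤ r q + m q) (a e : ℂ) (ha : ‖a‖ ≤ K) (he : ‖e‖ ≤ K)
    (hFs : ∀ x y : ℝ, ∑ q ∈ F, c q * ((x : ℂ) ^ r q * (y : ℂ) ^ m q) = 1 + a * x + e * y) :
    Nice K (4 * W) a e (fun x y => ∑' q, c q * ((x : ℂ) ^ r q * (y : ℂ) ^ m q)) := by
  have hsum : ∀ x y : ℝ, 0 ≤ x → x ≤ 1 / 2 → 0 ≤ y → y ≤ 1 / 2 →
      Summable fun q => c q * ((x : ℂ) ^ r q * (y : ℂ) ^ m q) := by
    intro x y hx hx2 hy hy2
    refine Summable.of_norm_bounded hs fun q => ?_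
    rw [norm_mul, norm_mul, norm_pow, norm_pow, Complex.norm_real, Complex.norm_real, Real.norm_of_nonneg hx,
      Real.norm_of_nonneg hy]
    apply mul_le_mul_of_nonneg_left _ (norm_nonneg _)
    have h1 : x ^ r q * y ^ m q ≤ (1 / 2) ^ (r q + m q) := by
      rw [pow_add]
      exact mul_le_mul (pow_le_pow_left₀ hx hx2 _) (pow_le_pow_left₀ hy hy2 _) (by positivity) (by positivity)
    have h2 : (1 : ℝ) ≤ ((r q + m q + 1 : ℕ) : ℝ) := by exact_mod_cast (by omega : 1 ≤ r q + m q + 1)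
    have h3 : (0 : ℝ) ≤ (1 / 2) ^ (r q + m q) := by positivity
    nlinarith
  have hdec : ∀ x y : ℝ, 0 ≤ x → x ≤ 1 / 2 → 0 ≤ y → y ≤ 1 / 2 →
      HasSum (fun q => if q ∈ F then 0 else c q * ((x : ℂ) ^ r q * (y : ℂ) ^ m q))
        ((∑' q, c q * ((x : ℂ) ^ r q * (y : ℂ) ^ m q)) - (1 + a * x + e * y)) := by
    intro x y hx hx2 hy hy2
    have h1 := (hsum x y hx hx2 hy hy2).hasSum
    have h2 : HasSum (fun q => if q ∈ F then c q * ((x : ℂ) ^ r q * (y : ℂ) ^ m q) else 0)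
        (∑ q ∈ F, if q ∈ F then c q * ((x : ℂ) ^ r q * (y : ℂ) ^ m q) else 0) :=
      hasSum_sum_of_ne_finset_zero fun q hq => if_neg hq
    have h3 : (∑ q ∈ F, if q ∈ F then c q * ((x : ℂ) ^ r q * (y : ℂ) ^ m q) else 0) = 1 + a * x + e * y := by
      rw [← hFs x y]
      exact Finset.sum_congr rfl fun q hq => if_pos hq
    rw [h3] at h2
    have h4 := h1.sub h2
    have h5 : (fun q => if q ∈ F then 0 else c q * ((x : ℂ) ^ r q * (y : ℂ) ^ m q)) =
        fun q => c q * ((x : ℂ) ^ r q * (y : ℂ) ^ m q) -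
          if q ∈ F then c q * ((x : ℂ) ^ r q * (y : ℂ) ^ m q) else 0 := by
      funext q
      by_cases hq : q ∈ F <;> simp [hq]
    rw [h5]
    exact h4
  refine ⟨ha, he, ?_, ?_⟩
  · have h1 := hdec 0 0 le_rfl (by norm_num) le_rfl (by norm_num)
    have h2 : (fun q => if q ∈ F then (0 : ℂ) else c q * (((0 : ℝ) : ℂ) ^ r q * ((0 : ℝ) : ℂ) ^ m q)) = fun _ => 0 := by
      funext q
      by_cases hq : q ∈ F
      · simp [hq]
      · have h3 := hF q hq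
        rw [if_neg hq]
        rcases Nat.eq_zero_or_pos (r q) with h0 | h0
        · have : m q ≠ 0 := by omega
          simp [this]
        · have : r q ≠ 0 := by omega
          simp [this]
    rw [h2] at h1
    have h3 := h1.unique hasSum_zero
    simp only [Complex.ofReal_zero, mul_zero, add_zero] at h3
    simp only [Complex.ofReal_zero]
    exact sub_eq_zero.1 h3
  · intro z x y x' y' hz hx hxz hy hyz hx' hxz' hy' hyz'
    have h1 := (hdec x y hx (hxz.trans hz) hy (hyz.trans hz)).sub (hdec x' y' hx' (hxz'.trans hz) hy' (hyz'.trans hz))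
    have h2 : ∀ q, ‖(if q ∈ F then (0 : ℂ) else c q * ((x : ℂ) ^ r q * (y : ℂ) ^ m q)) -
        (if q ∈ F then (0 : ℂ) else c q * ((x' : ℂ) ^ r q * (y' : ℂ) ^ m q))‖ ≤
        (‖c q‖ * (((r q + m q + 1 : ℕ) : ℝ) * (1 / 2) ^ (r q + m q))) * (4 * (z * (|x - x'| + |y - y'|))) := by
      intro q
      have hz0 : 0 ≤ z := hx.trans hxz
      by_cases hq : q ∈ F
      · rw [if_pos hq, if_pos hq, sub_zero, norm_zero]
        positivity
      · rw [if_neg hq, if_neg hq, ← mul_sub, norm_mul]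
        have h3 := term_diff hz hx hxz hy hyz hx' hxz' hy' hyz' (hF q hq)
        have h4 : ‖(x : ℂ) ^ r q * (y : ℂ) ^ m q - (x' : ℂ) ^ r q * (y' : ℂ) ^ m q‖ =
            |x ^ r q * y ^ m q - x' ^ r q * y' ^ m q| := by
          rw [← Real.norm_eq_abs, ← Complex.norm_real]
          push_cast
          rfl
        rw [h4]
        calc _ ≤ ‖c q‖ * (4 * (((r q + m q + 1 : ℕ) : ℝ) * (1 / 2) ^ (r q + m q)) * (z * (|x - x'| + |y - y'|))) :=
              mul_le_mul_of_nonneg_left h3 (norm_nonneg _)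
          _ = _ := by ring
    have h5 := tsum_of_norm_bounded (hs.mul_right (4 * (z * (|x - x'| + |y - y'|)))).hasSum h2
    rw [h1.tsum_eq, tsum_mul_right] at h5
    have e1 : (∑' q, c q * ((x : ℂ) ^ r q * (y : ℂ) ^ m q)) - (1 + a * x + e * y) -
        ((∑' q, c q * ((x' : ℂ) ^ r q * (y' : ℂ) ^ m q)) - (1 + a * x' + e * y')) =
        ((∑' q, c q * ((x : ℂ) ^ r q * (y : ℂ) ^ m q)) - a * x - e * y) -
        ((∑' q, c q * ((x' : ℂ) ^ r q * (y' : ℂ) ^ m q)) - a * x' - e * y') := by ring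
    rw [e1] at h5
    refine h5.trans ?_
    have hz0 : 0 ≤ z := hx.trans hxz
    calc _ ≤ W * (4 * (z * (|x - x'| + |y - y'|))) := mul_le_mul_of_nonneg_right hW (by positivity)
      _ = _ := by ring

/-! ### the three factors -/

theorem poly_summ (j : ℕ) : Summable fun q : ℕ => ((q : ℝ) + 1) ^ j * (1 / 2 : ℝ) ^ q := by
  have h1 := summ_poly (fun m => ((m : ℝ) + 1) ^ j) (fun m => by positivity) j (fun m => le_rfl)
  refine Summable.of_nonneg_of_le (fun m => by positivity) (fun m => ?_) h1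
  have h3 : ((m : ℝ) + 1) ^ j ≤ (((m + 1 : ℕ) : ℝ) + 1) ^ j :=
    pow_le_pow_left₀ (by positivity) (by push_cast; linarith) j
  gcongr

theorem lC_poly (s : ℂ) (k : ℕ) (hs : ‖s‖ ≤ k) (m : ℕ) : ‖lC s m‖ ≤ ((m : ℝ) + 1) ^ k :=
  (norm_lC s k hs m).trans (B_le k m)

/-- `(1 - x)^(-s)` is nice as a function of the first variable -/
theorem nice_one (k : ℕ) : ∃ C : ℝ, 0 ≤ C ∧ ∀ s : ℂ, ‖s‖ ≤ k →
    Nice k C s 0 (fun x _ => 1 / (1 - (x : ℂ)) ^ s) ∧ Nice k C 0 s (fun _ y => 1 / (1 - (y : ℂ)) ^ s) := by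
  refine ⟨4 * ∑' q : ℕ, ((q : ℝ) + 1) ^ (k + 1) * (1 / 2 : ℝ) ^ q, by
    have : 0 ≤ ∑' q : ℕ, ((q : ℝ) + 1) ^ (k + 1) * (1 / 2 : ℝ) ^ q := tsum_nonneg fun q => by positivity
    positivity, ?_⟩
  intro s hs
  have hbd : ∀ q : ℕ, ‖lC s q‖ * (((q : ℝ) + 1) * (1 / 2 : ℝ) ^ q) ≤ ((q : ℝ) + 1) ^ (k + 1) * (1 / 2 : ℝ) ^ q := by
    intro q
    have h1 := lC_poly s k hs q
    calc _ ≤ ((q : ℝ) + 1) ^ k * (((q : ℝ) + 1) * (1 / 2 : ℝ) ^ q) := mul_le_mul_of_nonneg_right h1 (by positivity)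
      _ = _ := by ring
  have hsm : Summable fun q : ℕ => ‖lC s q‖ * (((q : ℝ) + 1) * (1 / 2 : ℝ) ^ q) :=
    Summable.of_nonneg_of_le (fun q => by positivity) hbd (poly_summ (k + 1))
  have hts : ∑' q : ℕ, ‖lC s q‖ * (((q : ℝ) + 1) * (1 / 2 : ℝ) ^ q) ≤
      ∑' q : ℕ, ((q : ℝ) + 1) ^ (k + 1) * (1 / 2 : ℝ) ^ q := hsm.tsum_le_tsum hbd (poly_summ (k + 1))
  have hk0 : ‖(0 : ℂ)‖ ≤ (k : ℝ) := by rw [norm_zero]; exact Nat.cast_nonneg _
  have e1 : (fun q : ℕ => ‖lC s q‖ * (((q : ℝ) + 1) * (1 / 2 : ℝ) ^ q)) =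
      fun q : ℕ => ‖lC s q‖ * (((q + 0 + 1 : ℕ) : ℝ) * (1 / 2 : ℝ) ^ (q + 0)) := by
    funext q
    push_cast
    simp
  have e2 : (fun q : ℕ => ‖lC s q‖ * (((q : ℝ) + 1) * (1 / 2 : ℝ) ^ q)) =
      fun q : ℕ => ‖lC s q‖ * (((0 + q + 1 : ℕ) : ℝ) * (1 / 2 : ℝ) ^ (0 + q)) := by
    funext q
    push_cast
    simp
  constructor
  · have h := nice_of_sum (fun q : ℕ => lC s q) (fun q => q) (fun _ => 0)
      (∑' q : ℕ, ((q : ℝ) + 1) ^ (k + 1) * (1 / 2 : ℝ) ^ q) (k : ℝ) (by rw [e1] at hsm; exact hsm)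
      (by
        have e1' := congrArg (fun g : ℕ → ℝ => ∑' q, g q) e1
        rw [← e1']
        exact hts) (range 2) (by
        intro q hq
        rw [Finset.mem_range] at hq
        omega) s 0 hs hk0 (by
        intro x y
        rw [Finset.sum_range_succ, Finset.sum_range_succ, Finset.sum_range_zero, lC_zero, lC_one]
        ring)
    refine h.congr ?_
    intro x y hx hx2 hy hy2
    have h1 := (hasSum_lC s (x : ℂ) (by
      rw [Complex.norm_real, Real.norm_of_nonneg hx]; linarith)).tsum_eq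
    rw [← h1]
    exact tsum_congr fun q => by rw [pow_zero, mul_one]
  · have h := nice_of_sum (fun q : ℕ => lC s q) (fun _ => 0) (fun q => q)
      (∑' q : ℕ, ((q : ℝ) + 1) ^ (k + 1) * (1 / 2 : ℝ) ^ q) (k : ℝ) (by rw [e2] at hsm; exact hsm)
      (by
        have e2' := congrArg (fun g : ℕ → ℝ => ∑' q, g q) e2
        rw [← e2']
        exact hts) (range 2) (by
        intro q hq
        rw [Finset.mem_range] at hq
        omega) 0 s hk0 hs (by
        intro x y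
        rw [Finset.sum_range_succ, Finset.sum_range_succ, Finset.sum_range_zero, lC_zero, lC_one]
        ring)
    refine h.congr ?_
    intro x y hx hx2 hy hy2
    have h1 := (hasSum_lC s (y : ℂ) (by
      rw [Complex.norm_real, Real.norm_of_nonneg hy]; linarith)).tsum_eq
    rw [← h1]
    exact tsum_congr fun q => by rw [pow_zero, one_mul]

/-- the double series -/
noncomputable def GG (b : ℂ) (x y : ℝ) : ℂ := ∑' q : ℕ × ℕ, (lC b q.1 * lC b q.2) *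
  ((x : ℂ) ^ (max q.1 q.2 - min q.1 q.2) * (y : ℂ) ^ (min q.1 q.2))

theorem geo_summ (j : ℕ) : Summable fun q : ℕ => ((q : ℝ) + 1) ^ j * (3 / 4 : ℝ) ^ q := by
  have h1 : Summable (fun n : ℕ => (n : ℝ) ^ j * (3 / 4 : ℝ) ^ n) :=
    summable_pow_mul_geometric_of_norm_lt_one j (by norm_num)
  have h2 := (summable_nat_add_iff (f := fun n : ℕ => (n : ℝ) ^ j * (3 / 4 : ℝ) ^ n) 1).2 h1
  refine (h2.mul_left (4 / 3)).congr fun m => ?_
  push_cast
  rw [pow_succ (3 / 4 : ℝ) m]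
  ring

theorem half_max (q : ℕ × ℕ) : (1 / 2 : ℝ) ^ (max q.1 q.2) ≤ (3 / 4 : ℝ) ^ q.1 * (3 / 4 : ℝ) ^ q.2 := by
  have h1 : (1 / 2 : ℝ) ^ (max q.1 q.2) ≤ ((3 / 4 : ℝ) ^ 2) ^ (max q.1 q.2) :=
    pow_le_pow_left₀ (by norm_num) (by norm_num) _
  refine h1.trans ?_
  rw [← pow_mul, ← pow_add]
  apply pow_le_pow_of_le_one (by norm_num) (by norm_num)
  have h2 := le_max_left q.1 q.2
  have h3 := le_max_right q.1 q.2
  omega

/-- the majorant of the double series -/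
noncomputable def maj (k : ℕ) (q : ℕ × ℕ) : ℝ :=
  (((q.1 : ℝ) + 1) ^ (k + 1) * (3 / 4 : ℝ) ^ q.1) * (((q.2 : ℝ) + 1) ^ (k + 1) * (3 / 4 : ℝ) ^ q.2)

theorem maj_summ (k : ℕ) : Summable (maj k) :=
  (geo_summ (k + 1)).mul_of_nonneg (geo_summ (k + 1)) (fun q => by positivity) (fun q => by positivity)

theorem two_bd (b : ℂ) (k : ℕ) (hb : ‖b‖ ≤ k) (q : ℕ × ℕ) :
    ‖lC b q.1 * lC b q.2‖ * (((max q.1 q.2 + 1 : ℕ) : ℝ) * (1 / 2) ^ (max q.1 q.2)) ≤ maj k q := by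
  have h1 := lC_poly b k hb q.1
  have h2 := lC_poly b k hb q.2
  have h3 := half_max q
  have h4 : ((max q.1 q.2 + 1 : ℕ) : ℝ) ≤ ((q.1 : ℝ) + 1) * ((q.2 : ℝ) + 1) := by
    rcases le_total q.1 q.2 with h | h
    · rw [max_eq_right h]
      push_cast
      have : (0 : ℝ) ≤ q.1 := Nat.cast_nonneg _
      have : (0 : ℝ) ≤ q.2 := Nat.cast_nonneg _
      nlinarith
    · rw [max_eq_left h]
      push_cast
      have : (0 : ℝ) ≤ q.1 := Nat.cast_nonneg _
      have : (0 : ℝ) ≤ q.2 := Nat.cast_nonneg _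
      nlinarith
  rw [norm_mul]
  unfold maj
  calc _ ≤ (((q.1 : ℝ) + 1) ^ k * ((q.2 : ℝ) + 1) ^ k) *
        ((((q.1 : ℝ) + 1) * ((q.2 : ℝ) + 1)) * ((3 / 4 : ℝ) ^ q.1 * (3 / 4 : ℝ) ^ q.2)) := by gcongr
    _ = _ := by ring

theorem nice_two (k : ℕ) : ∃ C : ℝ, 0 ≤ C ∧ ∀ b : ℂ, ‖b‖ ≤ k →
    Nice ((k : ℝ) ^ 2 + 2 * k) C (2 * b) (b ^ 2) (GG b) := by
  refine ⟨4 * ∑' q, maj k q, by
    have : 0 ≤ ∑' q, maj k q := tsum_nonneg fun q => by unfold maj; positivity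
    positivity, ?_⟩
  intro b hb
  have hbd := two_bd b k hb
  have e1 : (fun q : ℕ × ℕ => ‖lC b q.1 * lC b q.2‖ * (((max q.1 q.2 + 1 : ℕ) : ℝ) * (1 / 2) ^ (max q.1 q.2))) =
      fun q : ℕ × ℕ => ‖lC b q.1 * lC b q.2‖ * (((max q.1 q.2 - min q.1 q.2 + min q.1 q.2 + 1 : ℕ) : ℝ) *
        (1 / 2) ^ (max q.1 q.2 - min q.1 q.2 + min q.1 q.2)) := by
    funext q
    have : max q.1 q.2 - min q.1 q.2 + min q.1 q.2 = max q.1 q.2 := Nat.sub_add_cancel min_le_max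
    rw [this]
  have hsm : Summable fun q : ℕ × ℕ => ‖lC b q.1 * lC b q.2‖ *
      (((max q.1 q.2 + 1 : ℕ) : ℝ) * (1 / 2) ^ (max q.1 q.2)) :=
    Summable.of_nonneg_of_le (fun q => by positivity) hbd (maj_summ k)
  have hts := hsm.tsum_le_tsum hbd (maj_summ k)
  have hb2 : ‖b ^ 2‖ ≤ (k : ℝ) ^ 2 := by
    rw [norm_pow]
    exact pow_le_pow_left₀ (norm_nonneg _) hb 2
  have hk0 : (0 : ℝ) ≤ k := Nat.cast_nonneg _
  have h := nice_of_sum (fun q : ℕ × ℕ => lC b q.1 * lC b q.2) (fun q => max q.1 q.2 - min q.1 q.2)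
      (fun q => min q.1 q.2) (∑' q, maj k q) ((k : ℝ) ^ 2 + 2 * k) (by rw [e1] at hsm; exact hsm)
      (by
        have e1' := congrArg (fun g : ℕ × ℕ → ℝ => ∑' q, g q) e1
        rw [← e1']
        exact hts) (range 2 ×ˢ range 2) (by
        intro q hq
        rw [Nat.sub_add_cancel min_le_max]
        rw [Finset.mem_product, Finset.mem_range, Finset.mem_range] at hq
        have h2 := le_max_left q.1 q.2
        have h3 := le_max_right q.1 q.2
        omega) (2 * b) (b ^ 2) (by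
          rw [norm_mul]
          have : ‖(2 : ℂ)‖ = 2 := by simp
          rw [this]
          nlinarith) (by nlinarith) (by
        intro x y
        rw [Finset.sum_product]
        simp only [Finset.sum_range_succ, Finset.sum_range_zero, lC_zero, lC_one]
        simp
        ring)
  exact h

/-- the normalized local factor -/
noncomputable def RR (b : ℂ) (x y : ℝ) : ℂ :=
  (1 / (1 - (x : ℂ)) ^ (-(2 * b))) * (1 / (1 - (y : ℂ)) ^ (-(b ^ 2))) * GG b x y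

theorem nice_RR (k : ℕ) : ∃ K C : ℝ, 0 ≤ C ∧ ∀ b : ℂ, ‖b‖ ≤ k → Nice K C 0 0 (RR b) := by
  set N : ℕ := k ^ 2 + 2 * k with hN
  obtain ⟨C1, hC1, h1⟩ := nice_one N
  obtain ⟨C2, hC2, h2⟩ := nice_two k
  set K : ℝ := (N : ℝ) with hK
  have hK0 : 0 ≤ K := Nat.cast_nonneg _
  set C3 : ℝ := 4 * K ^ 2 + 2 * C1 + 4 * K * C1 + 2 * C1 ^ 2 with hC3
  have hC30 : 0 ≤ C3 := by positivity
  set C4 : ℝ := max C3 C2 with hC4
  have hC40 : 0 ≤ C4 := hC30.trans (le_max_left _ _)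
  refine ⟨2 * (2 * K), 4 * (2 * K) ^ 2 + 2 * C4 + 4 * (2 * K) * C4 + 2 * C4 ^ 2, by positivity, ?_⟩
  intro b hb
  have hk0 : (0 : ℝ) ≤ k := Nat.cast_nonneg _
  have hKe : K = (k : ℝ) ^ 2 + 2 * k := by
    rw [hK, hN]; push_cast; ring
  have a1 := (h1 (-(2 * b)) (by
    rw [norm_neg, norm_mul]
    have : ‖(2 : ℂ)‖ = 2 := by simp
    rw [this, hKe]
    nlinarith)).1
  have a2 := (h1 (-(b ^ 2)) (by
    rw [norm_neg, norm_pow, hKe]
    have := pow_le_pow_left₀ (norm_nonneg b) hb 2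
    nlinarith)).2
  have a3 := Nice.mul hK0 hC1 a1 a2
  have a4 := a3.mono (le_refl (2 * K)) (le_max_left C3 C2)
  have a5 := (h2 b hb).mono (show (k : ℝ) ^ 2 + 2 * k ≤ 2 * K by rw [hKe]; nlinarith) (le_max_right C3 C2)
  have a6 := Nice.mul (by positivity) hC40 a4 a5
  have e1 : -(2 * b) + 0 + 2 * b = 0 := by ring
  have e2 : 0 + -(b ^ 2) + b ^ 2 = 0 := by ring
  rw [e1, e2] at a6
  exact a6

theorem RR_bd (k : ℕ) : ∃ C : ℝ, 0 ≤ C ∧ ∀ b : ℂ, ‖b‖ ≤ k →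
    (∀ z x y : ℝ, z ≤ 1 / 2 → 0 ≤ x → x ≤ z → 0 ≤ y → y ≤ z → ‖RR b x y - 1‖ ≤ C * z * z) ∧
    (∀ z x y : ℝ, z ≤ 1 / 2 → 0 ≤ x → x ≤ z → 0 ≤ y → y ≤ z →
      ‖RR b x y - RR b z z‖ ≤ C * z * ((z - x) + (z - y))) := by
  obtain ⟨K, C, hC, h⟩ := nice_RR k
  refine ⟨2 * C, by positivity, ?_⟩
  intro b hb
  obtain ⟨-, -, h3, h4⟩ := h b hb
  constructor
  · intro z x y hz hx hxz hy hyz
    have hz0 : 0 ≤ z := hx.trans hxz
    have := h4 z x y 0 0 hz hx hxz hy hyz le_rfl hz0 le_rfl hz0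
    simp only [zero_mul, sub_zero, h3] at this
    refine this.trans ?_
    rw [abs_of_nonneg hx, abs_of_nonneg hy]
    have h5 : 0 ≤ C * z := by positivity
    calc C * z * (x + y) ≤ C * z * (z + z) := by gcongr
      _ = _ := by ring
  · intro z x y hz hx hxz hy hyz
    have hz0 : 0 ≤ z := hx.trans hxz
    have := h4 z x y z z hz hx hxz hy hyz hz0 le_rfl hz0 le_rfl
    simp only [zero_mul, sub_zero] at this
    refine this.trans ?_
    rw [abs_of_nonpos (by linarith : x - z ≤ 0), abs_of_nonpos (by linarith : y - z ≤ 0)]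
    have h5 : 0 ≤ C * z * ((z - x) + (z - y)) := by
      have h6 : 0 ≤ z - x := by linarith
      have h7 : 0 ≤ z - y := by linarith
      positivity
    calc C * z * (-(x - z) + -(y - z)) = C * z * ((z - x) + (z - y)) := by ring
      _ ≤ 2 * (C * z * ((z - x) + (z - y))) := by linarith
      _ = _ := by ring

/-! ### the diagonal -/

theorem lC_step (s : ℂ) (m : ℕ) : lC s (m + 1) = lC s m * ((s + m) / ((m : ℂ) + 1)) := by
  unfold lC
  rw [Finset.prod_range_succ]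

theorem lC_shift (b : ℂ) (n : ℕ) : lC b (n + 1) * ((n : ℂ) + 1) = b * lC (b + 1) n := by
  induction n with
  | zero => simp [lC]
  | succ n ih =>
    rw [lC_step b (n + 1), lC_step (b + 1) n]
    have h1 : ((n : ℂ) + 1) ≠ 0 := Nat.cast_add_one_ne_zero n
    have h2 : (((n + 1 : ℕ) : ℂ) + 1) ≠ 0 := Nat.cast_add_one_ne_zero (n + 1)
    rw [mul_assoc, div_mul_cancel₀ _ h2]
    have h3 : b * (lC (b + 1) n * ((b + 1 + n) / ((n : ℂ) + 1))) = b * lC (b + 1) n * (b + 1 + n) / ((n : ℂ) + 1) := by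
      ring
    rw [h3, eq_div_iff h1, ← ih]
    push_cast
    ring

theorem lC_sum (b : ℂ) (n : ℕ) : ∑ j ∈ range (n + 1), lC b j = lC (b + 1) n := by
  induction n with
  | zero => simp [lC]
  | succ n ih =>
    rw [Finset.sum_range_succ, ih, lC_step (b + 1) n]
    have h1 : ((n : ℂ) + 1) ≠ 0 := Nat.cast_add_one_ne_zero n
    have h3 : lC (b + 1) n * ((b + 1 + n) / ((n : ℂ) + 1)) = lC (b + 1) n * (b + 1 + n) / ((n : ℂ) + 1) := by ring
    rw [h3, eq_div_iff h1]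
    have := lC_shift b n
    linear_combination this

/-- the finite sums of the double series on the diagonal -/
theorem diag_fin (b x : ℂ) (M : ℕ) :
    ∑ q ∈ range M ×ˢ range M, lC b q.1 * lC b q.2 * x ^ (max q.1 q.2) =
      (1 - x) * ∑ n ∈ range M, lC (b + 1) n ^ 2 * x ^ n + (∑ j ∈ range M, lC b j) ^ 2 * x ^ M := by
  induction M with
  | zero => simp
  | succ M ih =>
    rw [Finset.sum_product] at ih
    rw [Finset.sum_product, Finset.sum_range_succ]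
    have h1 : ∑ i ∈ range M, ∑ j ∈ range (M + 1), lC b i * lC b j * x ^ (max i j) =
        ∑ i ∈ range M, ∑ j ∈ range M, lC b i * lC b j * x ^ (max i j) +
          (∑ i ∈ range M, lC b i) * (lC b M * x ^ M) := by
      rw [Finset.sum_mul, ← Finset.sum_add_distrib]
      refine Finset.sum_congr rfl fun i hi => ?_
      rw [Finset.sum_range_succ]
      have h2 : max i M = M := max_eq_right (Finset.mem_range.1 hi).le
      rw [h2]
      ring
    have h2 : ∑ j ∈ range (M + 1), lC b M * lC b j * x ^ (max M j) =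
        (∑ j ∈ range (M + 1), lC b j) * (lC b M * x ^ M) := by
      rw [Finset.sum_mul]
      refine Finset.sum_congr rfl fun j hj => ?_
      have h3 : max M j = M := max_eq_left (by have := Finset.mem_range.1 hj; omega)
      rw [h3]
      ring
    simp only at ih ⊢
    rw [h1, ih, h2, Finset.sum_range_succ (fun n => lC (b + 1) n ^ 2 * x ^ n), ← lC_sum,
      Finset.sum_range_succ (fun j => lC b j)]
    ring

theorem GG_diag (b : ℂ) (k : ℕ) (hb : ‖b‖ ≤ k) {x : ℝ} (hx0 : 0 ≤ x) (hx : x ≤ 1 / 2) :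
    GG b x x = (1 - (x : ℂ)) * ∑' n : ℕ, lC (b + 1) n ^ 2 * (x : ℂ) ^ n := by
  have hb1 : ‖b + 1‖ ≤ ((k + 1 : ℕ) : ℝ) := by
    refine (norm_add_le _ _).trans ?_
    rw [norm_one]
    push_cast
    linarith
  have hs1 : Summable fun q : ℕ × ℕ => lC b q.1 * lC b q.2 * (x : ℂ) ^ (max q.1 q.2) := by
    refine Summable.of_norm_bounded (maj_summ k) fun q => ?_
    refine le_trans ?_ (two_bd b k hb q)
    rw [norm_mul, norm_pow, Complex.norm_real, Real.norm_of_nonneg hx0]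
    apply mul_le_mul_of_nonneg_left _ (norm_nonneg _)
    have h1 : x ^ (max q.1 q.2) ≤ (1 / 2) ^ (max q.1 q.2) := pow_le_pow_left₀ hx0 hx _
    have h2 : (1 : ℝ) ≤ ((max q.1 q.2 + 1 : ℕ) : ℝ) := by exact_mod_cast (by omega : 1 ≤ max q.1 q.2 + 1)
    have h3 : (0 : ℝ) ≤ (1 / 2) ^ (max q.1 q.2) := by positivity
    nlinarith
  have e1 : GG b x x = ∑' q : ℕ × ℕ, lC b q.1 * lC b q.2 * (x : ℂ) ^ (max q.1 q.2) := by
    unfold GG
    refine tsum_congr fun q => ?_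
    rw [← pow_add, Nat.sub_add_cancel min_le_max]
  have hs2 : Summable fun n : ℕ => lC (b + 1) n ^ 2 * (x : ℂ) ^ n :=
    (summ_ps (fun m => lC (b + 1) m ^ 2) ((k + 1) * 2) (fun m => by
      rw [norm_pow, pow_mul]
      exact pow_le_pow_left₀ (norm_nonneg _) (lC_poly (b + 1) (k + 1) hb1 m) 2) hx0 hx).of_norm
  have t1 : Tendsto (fun M : ℕ => range M ×ˢ range M) atTop atTop := by
    apply tendsto_atTop_finset_of_monotone
    · intro a c hac
      exact Finset.product_subset_product (Finset.range_mono hac) (Finset.range_mono hac)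
    · intro q
      refine ⟨max q.1 q.2 + 1, ?_⟩
      rw [Finset.mem_product, Finset.mem_range, Finset.mem_range]
      omega
  have t2 : Tendsto (fun M : ℕ => ∑ q ∈ range M ×ˢ range M, lC b q.1 * lC b q.2 * (x : ℂ) ^ (max q.1 q.2)) atTop
      (𝓝 (GG b x x)) := by
    rw [e1]
    have h := hs1.hasSum
    unfold HasSum at h
    rw [SummationFilter.unconditional_filter] at h
    exact h.comp t1
  have t3 : Tendsto (fun M : ℕ => (∑ j ∈ range M, lC b j) ^ 2 * (x : ℂ) ^ M) atTop (𝓝 0) := by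
    rw [← tendsto_add_atTop_iff_nat 1]
    have h1 : (fun M : ℕ => (∑ j ∈ range (M + 1), lC b j) ^ 2 * (x : ℂ) ^ (M + 1)) =
        fun M : ℕ => (lC (b + 1) M ^ 2 * (x : ℂ) ^ M) * (x : ℂ) := by
      funext M
      rw [lC_sum, pow_succ]
      ring
    rw [h1]
    have h2 := hs2.tendsto_atTop_zero.mul_const (x : ℂ)
    rw [zero_mul] at h2
    exact h2
  have t4 : Tendsto (fun M : ℕ => ∑ n ∈ range M, lC (b + 1) n ^ 2 * (x : ℂ) ^ n) atTop
      (𝓝 (∑' n : ℕ, lC (b + 1) n ^ 2 * (x : ℂ) ^ n)) := hs2.hasSum.tendsto_sum_nat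
  have t5 := (t4.const_mul (1 - (x : ℂ))).add t3
  rw [add_zero] at t5
  have e2 : (fun M : ℕ => ∑ q ∈ range M ×ˢ range M, lC b q.1 * lC b q.2 * (x : ℂ) ^ (max q.1 q.2)) =
      fun M : ℕ => (1 - (x : ℂ)) * ∑ n ∈ range M, lC (b + 1) n ^ 2 * (x : ℂ) ^ n +
        (∑ j ∈ range M, lC b j) ^ 2 * (x : ℂ) ^ M := by
    funext M
    exact diag_fin b x M
  rw [e2] at t2
  exact tendsto_nhds_unique t2 t5

theorem one_div_cpow {x : ℝ} (hx : x ≤ 1 / 2) (s : ℂ) :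
    1 / (1 - (x : ℂ)) ^ (-s) = Complex.exp (((Real.log (1 - x) : ℝ) : ℂ) * s) := by
  have h4 : (1 - (x : ℂ)) = ((1 - x : ℝ) : ℂ) := by push_cast; ring
  rw [Complex.cpow_neg, one_div, inv_inv, h4, Complex.cpow_def_of_ne_zero (by
    rw [Complex.ofReal_ne_zero]
    linarith), Complex.ofReal_log (by linarith)]

theorem RR_diag (b : ℂ) (k : ℕ) (hb : ‖b‖ ≤ k) {x : ℝ} (hx0 : 0 ≤ x) (hx : x ≤ 1 / 2) :
    RR b x x = E (b + 1) x := by
  unfold RR E
  rw [GG_diag b k hb hx0 hx, one_div_cpow hx, one_div_cpow hx]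
  have h1 : (1 - (x : ℂ)) = Complex.exp (((Real.log (1 - x) : ℝ) : ℂ)) := by
    rw [← Complex.ofReal_exp, Real.exp_log (by linarith)]
    push_cast
    ring
  have h4 : (1 - (x : ℂ)) ≠ 0 := by
    rw [h1]
    exact Complex.exp_ne_zero _
  have h5 : (1 - (x : ℂ)) ^ ((b + 1) ^ 2) = Complex.exp (((Real.log (1 - x) : ℝ) : ℂ) * (b + 1) ^ 2) := by
    have := one_div_cpow hx ((b + 1) ^ 2)
    rw [Complex.cpow_neg, one_div, inv_inv] at this
    exact this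
  rw [h5, ← mul_assoc]
  congr 1
  rw [h1, ← Complex.exp_add, ← Complex.exp_add]
  congr 1
  ring

/-! ### the local factors of the statement -/

theorem GD_eq (b : ℂ) {δ : ℝ} {p : ℕ} (hp : p.Prime) :
    GD b δ 0 p = GG b (ph (1 + 2 * (δ / 2)) p) (ph (1 + 2 * δ) p) := by
  unfold GD GG
  refine tsum_congr fun q => ?_
  congr 1
  have hp0 : (p : ℂ) ≠ 0 := Nat.cast_ne_zero.2 hp.ne_zero
  have h1 : q.1 + q.2 = (max q.1 q.2 - min q.1 q.2) + 2 * min q.1 q.2 := by omega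
  generalize max q.1 q.2 - min q.1 q.2 = r at *
  generalize min q.1 q.2 = m at *
  rw [h1, ph_apply, ph_apply, Complex.ofReal_cpow (Nat.cast_nonneg _), Complex.ofReal_cpow (Nat.cast_nonneg _)]
  have h2 : -(((r + 2 * m : ℕ) : ℂ) * (1 + (δ : ℂ) + 0)) + (m : ℂ) * (1 + 2 * 0) =
      (r : ℂ) * ((-(1 + 2 * (δ / 2)) : ℝ) : ℂ) + (m : ℂ) * ((-(1 + 2 * δ) : ℝ) : ℂ) := by
    push_cast
    ring
  rw [h2, Complex.cpow_add _ _ hp0, Complex.cpow_nat_mul, Complex.cpow_nat_mul]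
  push_cast
  rfl

/-! ### the product -/

theorem prod_eq (b : ℂ) {δ : ℝ} (hδ : 0 < δ) {P : ℂ}
    (hP : HasProd (fun p : Nat.Primes => RR b (ph (1 + 2 * (δ / 2)) (p : ℕ)) (ph (1 + 2 * δ) (p : ℕ))) P) :
    ∏' p : Nat.Primes, GD b δ 0 p = P * Complex.exp (-((Lm (δ / 2) : ℂ) * (2 * b) + (Lm δ : ℂ) * b ^ 2)) := by
  have hδ2 : 0 < δ / 2 := by positivity
  have h1 : HasSum (fun p : Nat.Primes => ((Real.log (1 - ph (1 + 2 * (δ / 2)) (p : ℕ)) : ℝ) : ℂ) * (2 * b))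
      ((Lm (δ / 2) : ℂ) * (2 * b)) :=
    (Complex.hasSum_ofReal.2 (ell_summable hδ2).hasSum).mul_right _
  have h2 : HasSum (fun p : Nat.Primes => ((Real.log (1 - ph (1 + 2 * δ) (p : ℕ)) : ℝ) : ℂ) * b ^ 2)
      ((Lm δ : ℂ) * b ^ 2) :=
    (Complex.hasSum_ofReal.2 (ell_summable hδ).hasSum).mul_right _
  have h3 := (h1.add h2).neg.cexp
  have h4 := hP.mul h3
  refine HasProd.tprod_eq ?_
  convert h4 using 2 with p
  rw [GD_eq b p.2]
  simp only [Function.comp_apply]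
  unfold RR
  rw [one_div_cpow (ph_le_half (by linarith) p.2), one_div_cpow (ph_le_half (by linarith) p.2), ← Complex.exp_add]
  rw [mul_right_comm, ← Complex.exp_add, add_neg_cancel, Complex.exp_zero, one_mul]

/-- (DE2) the asymptotics of the product -/
theorem main : S_DE2 := by
  intro R hR ε hε
  obtain ⟨k, hk⟩ := exists_nat_ge R
  obtain ⟨C, hC, hRb⟩ := RR_bd k
  set W1 : ℝ := ∑' p : Nat.Primes, C * ((p : ℕ) : ℝ) ^ (-(1 + 1 : ℝ)) with hW1
  set W2 : ℝ := ∑' p : Nat.Primes, C * (6 * ((p : ℕ) : ℝ) ^ (-(1 + 1 / 2 : ℝ))) with hW2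
  have s1 : Summable fun p : Nat.Primes => C * ((p : ℕ) : ℝ) ^ (-(1 + 1 : ℝ)) :=
    ((summ one_pos).comp_injective Nat.Primes.coe_nat_injective).mul_left C
  have s2 : Summable fun p : Nat.Primes => C * (6 * ((p : ℕ) : ℝ) ^ (-(1 + 1 / 2 : ℝ))) :=
    (((summ (by norm_num : (0 : ℝ) < 1 / 2)).comp_injective Nat.Primes.coe_nat_injective).mul_left 6).mul_left C
  have hW2nn : 0 ≤ W2 := tsum_nonneg fun p => by positivity
  set M : ℝ := Real.exp W1 with hM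
  have hM0 : 0 < M := Real.exp_pos _
  set Q : ℝ := (4 : ℝ) ^ k with hQ
  have hQ0 : 0 < Q := by positivity
  set N : ℝ := (k : ℝ) ^ 2 + 2 * k + 1 with hN
  have hN0 : 0 < N := by positivity
  set η : ℝ := min (1 / N) (ε / (4 * N * M * Q)) with hη
  have hη0 : 0 < η := by positivity
  have hL := Metric.tendsto_nhdsWithin_nhds.1 tendsto_Lam η hη0
  obtain ⟨δ1, hδ1, hL'⟩ := hL
  refine ⟨min (δ1 / 2) (ε / (2 * (M * W2 + 1) * Q)), by positivity, ?_⟩
  intro δ hδ hδ2 b hb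
  have hbk : ‖b‖ ≤ k := hb.trans hk
  have hδa : δ < δ1 := by
    have := hδ2.trans (min_le_left _ _)
    linarith
  have hδb : δ ≤ ε / (2 * (M * W2 + 1) * Q) := hδ2.trans (min_le_right _ _)
  have hLam : |Real.log (2 * δ) - Lm δ| < η := by
    have := hL' (x := δ) hδ (by rw [dist_zero_right, Real.norm_of_nonneg hδ.le]; exact hδa)
    rwa [dist_zero_right] at this
  have hδh : 0 < δ / 2 := by positivity
  have hLam2 : |Real.log (2 * (δ / 2)) - Lm (δ / 2)| < η := by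
    have := hL' (x := δ / 2) hδh (by rw [dist_zero_right, Real.norm_of_nonneg hδh.le]; linarith)
    rwa [dist_zero_right] at this
  set Λ : ℝ := Real.log (2 * δ) - Lm δ with hΛ
  set Λ2 : ℝ := Real.log (2 * (δ / 2)) - Lm (δ / 2) with hΛ2
  obtain ⟨hR1, hR2⟩ := hRb b hbk
  have hinv : ∀ p : Nat.Primes, 0 ≤ ((p : ℕ) : ℝ)⁻¹ ∧ ((p : ℕ) : ℝ)⁻¹ ≤ 1 / 2 := by
    intro p
    have hp0 : (0 : ℝ) < (p : ℕ) := by exact_mod_cast p.2.pos
    refine ⟨by positivity, ?_⟩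
    rw [one_div]
    apply inv_anti₀ (by norm_num)
    exact_mod_cast p.2.two_le
  have hsq : ∀ p : Nat.Primes, ((p : ℕ) : ℝ) ^ (-(1 + 1 : ℝ)) = ((p : ℕ) : ℝ)⁻¹ * ((p : ℕ) : ℝ)⁻¹ := by
    intro p
    have hp0 : (0 : ℝ) < (p : ℕ) := by exact_mod_cast p.2.pos
    rw [← Real.rpow_neg_one, ← Real.rpow_add hp0]
    norm_num
  have hph : ∀ p : Nat.Primes, 0 ≤ ph (1 + 2 * δ) (p : ℕ) ∧ ph (1 + 2 * δ) (p : ℕ) ≤ ((p : ℕ) : ℝ)⁻¹ :=
    fun p => ⟨(ph_pos _ p.2).le, ph_le_inv (by linarith) p.2⟩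
  have hph2 : ∀ p : Nat.Primes, 0 ≤ ph (1 + 2 * (δ / 2)) (p : ℕ) ∧
      ph (1 + 2 * (δ / 2)) (p : ℕ) ≤ ((p : ℕ) : ℝ)⁻¹ :=
    fun p => ⟨(ph_pos _ p.2).le, ph_le_inv (by linarith) p.2⟩
  have hαnn : ∀ p : Nat.Primes, 0 ≤ C * ((p : ℕ) : ℝ) ^ (-(1 + 1 : ℝ)) := fun p => by positivity
  have hbd1 : ∀ (p : Nat.Primes) (x y : ℝ), 0 ≤ x → x ≤ ((p : ℕ) : ℝ)⁻¹ → 0 ≤ y → y ≤ ((p : ℕ) : ℝ)⁻¹ →
      ‖RR b x y - 1‖ ≤ C * ((p : ℕ) : ℝ) ^ (-(1 + 1 : ℝ)) := by
    intro p x y hx hxp hy hyp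
    have := hR1 _ x y (hinv p).2 hx hxp hy hyp
    rw [hsq, ← mul_assoc]
    exact this
  have hbd : ∀ (p : Nat.Primes) (x y : ℝ), 0 ≤ x → x ≤ ((p : ℕ) : ℝ)⁻¹ → 0 ≤ y → y ≤ ((p : ℕ) : ℝ)⁻¹ →
      ‖RR b x y‖ ≤ 1 + C * ((p : ℕ) : ℝ) ^ (-(1 + 1 : ℝ)) := by
    intro p x y hx hxp hy hyp
    have h1 := hbd1 p x y hx hxp hy hyp
    have h2 : ‖RR b x y‖ ≤ ‖RR b x y - 1‖ + 1 := by
      have := norm_add_le (RR b x y - 1) 1
      rw [sub_add_cancel, norm_one] at this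
      exact this
    linarith
  have hP : HasProd (fun p : Nat.Primes => RR b (ph (1 + 2 * (δ / 2)) (p : ℕ)) (ph (1 + 2 * δ) (p : ℕ)))
      (∏' p : Nat.Primes, RR b (ph (1 + 2 * (δ / 2)) (p : ℕ)) (ph (1 + 2 * δ) (p : ℕ))) := by
    have h1 : Summable fun p : Nat.Primes =>
        ‖RR b (ph (1 + 2 * (δ / 2)) (p : ℕ)) (ph (1 + 2 * δ) (p : ℕ)) - 1‖ :=
      Summable.of_nonneg_of_le (fun p => norm_nonneg _)
        (fun p => hbd1 p _ _ (hph2 p).1 (hph2 p).2 (hph p).1 (hph p).2) s1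
    have h2 := multipliable_one_add_of_summable h1
    have h3 : (fun p : Nat.Primes => 1 + (RR b (ph (1 + 2 * (δ / 2)) (p : ℕ)) (ph (1 + 2 * δ) (p : ℕ)) - 1)) =
        fun p : Nat.Primes => RR b (ph (1 + 2 * (δ / 2)) (p : ℕ)) (ph (1 + 2 * δ) (p : ℕ)) := by
      funext p; ring
    rw [h3] at h2
    exact h2.hasProd
  have hA : HasProd (fun p : Nat.Primes => RR b (((p : ℕ) : ℝ)⁻¹) (((p : ℕ) : ℝ)⁻¹)) (aC (b + 1)) := by
    have h1 := aC_hasProd (b + 1) C (by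
      intro x hx0 hx
      rw [← RR_diag b k hbk hx0 hx]
      exact hR1 x x x hx hx0 le_rfl hx0 le_rfl)
    have h2 : (fun p : Nat.Primes => E (b + 1) (((p : ℕ) : ℝ)⁻¹)) =
        fun p : Nat.Primes => RR b (((p : ℕ) : ℝ)⁻¹) (((p : ℕ) : ℝ)⁻¹) := by
      funext p
      rw [RR_diag b k hbk (hinv p).1 (hinv p).2]
    rw [h2] at h1
    exact h1
  set P : ℂ := ∏' p : Nat.Primes, RR b (ph (1 + 2 * (δ / 2)) (p : ℕ)) (ph (1 + 2 * δ) (p : ℕ)) with hPdef
  have hPn : ‖P‖ ≤ M := tprod_bd _ _ hαnn s1 (fun p => hbd p _ _ (hph2 p).1 (hph2 p).2 (hph p).1 (hph p).2) hP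
  have hPA : ‖P - aC (b + 1)‖ ≤ M * (δ * W2) := by
    have h1 := tprod_diff _ _ (fun p : Nat.Primes => C * ((p : ℕ) : ℝ) ^ (-(1 + 1 : ℝ)))
      (fun p : Nat.Primes => δ * (C * (6 * ((p : ℕ) : ℝ) ^ (-(1 + 1 / 2 : ℝ))))) hαnn s1
      (fun p => hbd p _ _ (hph2 p).1 (hph2 p).2 (hph p).1 (hph p).2)
      (fun p => hbd p _ _ (hinv p).1 le_rfl (hinv p).1 le_rfl) (by
        intro p
        have h2 := hR2 (((p : ℕ) : ℝ)⁻¹) (ph (1 + 2 * (δ / 2)) (p : ℕ)) (ph (1 + 2 * δ) (p : ℕ)) (hinv p).2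
          (hph2 p).1 (hph2 p).2 (hph p).1 (hph p).2
        have h3 := inv_sub_ph hδ p.2
        have h4 := inv_sub_ph hδh p.2
        refine h2.trans ?_
        calc C * ((p : ℕ) : ℝ)⁻¹ * ((((p : ℕ) : ℝ)⁻¹ - ph (1 + 2 * (δ / 2)) (p : ℕ)) +
              (((p : ℕ) : ℝ)⁻¹ - ph (1 + 2 * δ) (p : ℕ)))
            = C * (((p : ℕ) : ℝ)⁻¹ * (((p : ℕ) : ℝ)⁻¹ - ph (1 + 2 * (δ / 2)) (p : ℕ)) +
              ((p : ℕ) : ℝ)⁻¹ * (((p : ℕ) : ℝ)⁻¹ - ph (1 + 2 * δ) (p : ℕ))) := by ring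
          _ ≤ C * (4 * (δ / 2) * ((p : ℕ) : ℝ) ^ (-(1 + 1 / 2 : ℝ)) +
              4 * δ * ((p : ℕ) : ℝ) ^ (-(1 + 1 / 2 : ℝ))) := mul_le_mul_of_nonneg_left (add_le_add h4 h3) hC
          _ = _ := by ring) (s2.mul_left δ) hP hA
    have h4 : ∑' p : Nat.Primes, δ * (C * (6 * ((p : ℕ) : ℝ) ^ (-(1 + 1 / 2 : ℝ)))) = δ * W2 := by
      rw [hW2, ← tsum_mul_left]
    rw [h4] at h1
    exact h1
  -- the first factor
  set u : ℂ := (Λ : ℂ) * b ^ 2 + (Λ2 : ℂ) * (2 * b) with hu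
  have hkey : ((2 * δ : ℝ) : ℂ) ^ (b ^ 2 + 2 * b) * (∏' p : Nat.Primes, GD b δ 0 p) =
      4 ^ b * (Complex.exp u * P) := by
    rw [prod_eq b hδ hP]
    have e1 : (4 : ℂ) ^ b = Complex.exp (((Real.log 4 : ℝ) : ℂ) * b) := by
      rw [Complex.cpow_def_of_ne_zero (by norm_num), Complex.ofReal_log (by norm_num)]
      push_cast
      rfl
    rw [e1, Complex.cpow_def_of_ne_zero (by
      rw [Complex.ofReal_ne_zero]
      positivity), ← Complex.ofReal_log (by positivity)]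
    have e2 : ∀ A B D F X : ℂ, A + B = D + F →
        Complex.exp A * (X * Complex.exp B) = Complex.exp D * (Complex.exp F * X) := by
      intro A B D F X h
      calc Complex.exp A * (X * Complex.exp B) = Complex.exp (A + B) * X := by rw [Complex.exp_add]; ring
        _ = Complex.exp (D + F) * X := by rw [h]
        _ = _ := by rw [Complex.exp_add]; ring
    apply e2
    have e3 : Real.log 4 = 2 * (Real.log (2 * δ) - Real.log (2 * (δ / 2))) := by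
      have h1 : Real.log (2 * δ) = Real.log 2 + Real.log δ := Real.log_mul (by norm_num) hδ.ne'
      have h2 : 2 * (δ / 2) = δ := by ring
      have h3 : Real.log 4 = 2 * Real.log 2 := by
        rw [show (4 : ℝ) = 2 ^ 2 by norm_num, Real.log_pow]
        push_cast
        ring
      rw [h1, h2, h3]
      ring
    rw [hu, hΛ, hΛ2, e3]
    push_cast
    ring
  have hk0 : (0 : ℝ) ≤ k := Nat.cast_nonneg _
  have hz : ‖u‖ ≤ η * N := by
    have h1 : ‖(Λ : ℂ) * b ^ 2‖ ≤ η * (k : ℝ) ^ 2 := by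
      rw [norm_mul, norm_pow, Complex.norm_real, Real.norm_eq_abs]
      exact mul_le_mul hLam.le (pow_le_pow_left₀ (norm_nonneg _) hbk 2) (by positivity) hη0.le
    have h2 : ‖(Λ2 : ℂ) * (2 * b)‖ ≤ η * (2 * k) := by
      rw [norm_mul, norm_mul, Complex.norm_real, Real.norm_eq_abs]
      have : ‖(2 : ℂ)‖ = 2 := by simp
      rw [this]
      exact mul_le_mul hLam2.le (by linarith) (by positivity) hη0.le
    refine (norm_add_le _ _).trans ?_
    rw [hN]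
    linarith
  have hz1 : η * N ≤ 1 := by
    have h1 : η ≤ 1 / N := min_le_left _ _
    calc η * N ≤ 1 / N * N := mul_le_mul_of_nonneg_right h1 hN0.le
      _ = 1 := by field_simp
  have hz2 : Q * (2 * (η * N) * M) ≤ ε / 2 := by
    have h1 : η ≤ ε / (4 * N * M * Q) := min_le_right _ _
    calc Q * (2 * (η * N) * M) ≤ Q * (2 * (ε / (4 * N * M * Q) * N) * M) := by gcongr
      _ = ε / 2 := by field_simp; ring
  have hex := Complex.norm_exp_sub_one_le (hz.trans hz1)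
  have h4b : ‖(4 : ℂ) ^ b‖ ≤ Q := by
    have h1 : ‖(4 : ℂ) ^ b‖ = (4 : ℝ) ^ b.re := by
      have := Complex.norm_cpow_eq_rpow_re_of_pos (show (0 : ℝ) < 4 by norm_num) b
      push_cast at this
      exact this
    rw [h1, hQ, ← Real.rpow_natCast]
    apply Real.rpow_le_rpow_of_exponent_le (by norm_num)
    exact (Complex.re_le_norm b).trans hbk
  have hgoal : ((2 * δ : ℝ) : ℂ) ^ (b ^ 2 + 2 * b) * (∏' p : Nat.Primes, GD b δ 0 p) - 4 ^ b * aC (b + 1) =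
      4 ^ b * ((Complex.exp u - 1) * P + (P - aC (b + 1))) := by
    rw [hkey]
    ring
  rw [hgoal, norm_mul]
  have h1 : ‖(Complex.exp u - 1) * P‖ ≤ 2 * (η * N) * M := by
    rw [norm_mul]
    exact mul_le_mul (hex.trans (by linarith)) hPn (norm_nonneg _) (by positivity)
  have h2 : Q * (M * (δ * W2)) ≤ ε / 2 := by
    have h3 : 0 < M * W2 + 1 := by positivity
    calc Q * (M * (δ * W2)) ≤ Q * (δ * (M * W2 + 1)) := by
          apply mul_le_mul_of_nonneg_left _ hQ0.le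
          nlinarith
      _ ≤ Q * (ε / (2 * (M * W2 + 1) * Q) * (M * W2 + 1)) := by gcongr
      _ = ε / 2 := by field_simp
  calc ‖(4 : ℂ) ^ b‖ * ‖(Complex.exp u - 1) * P + (P - aC (b + 1))‖
      ≤ Q * (2 * (η * N) * M + M * (δ * W2)) :=
        mul_le_mul h4b ((norm_add_le _ _).trans (add_le_add h1 hPA)) (norm_nonneg _) hQ0.le
    _ = Q * (2 * (η * N) * M) + Q * (M * (δ * W2)) := by ring
    _ ≤ ε / 2 + ε / 2 := add_le_add hz2 h2
    _ = ε := by ring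

end Pool.Agent.N748.MO.DE2
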