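import Pool.Agent.N748.MO.Stm
import Pool.Agent.N748.MG.DIA2
import Pool.Agent.N748.MG.CONT

set_option autoImplicit false

/-!
# Project MO (helper748), part DE3 (helper362): a bound for the Euler product
-/

namespace Pool.Agent.N748.MO.DE3

open Finset Filter MeasureTheory Topology Complex
open Pool.Agent.N748.MG Pool.Agent.N748.MG.L4

/-! ### the real sums over the primes -/

/-- the sum of the logarithms -/
noncomputable def La (a : ℝ) : ℝ := ∑' p : Nat.Primes, Real.log (1 - ph (1 + a) (p : ℕ))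

theorem La_summable {a : ℝ} (ha : 0 < a) :
    Summable fun p : Nat.Primes => Real.log (1 - ph (1 + a) (p : ℕ)) := by
  have h1 := DIA2.ell_summable (half_pos ha)
  have h2 : 2 * (a / 2) = a := by ring
  rwa [h2] at h1

theorem exp_La {a : ℝ} (ha : 0 < a) :
    Real.exp (-(La a)) = ∑' n : ℕ, (n : ℝ) ^ (-(1 + a)) := by
  obtain ⟨f, hf⟩ : ∃ f : ℕ →*₀ ℝ, ∀ n, f n = (n : ℝ) ^ (-(1 + a)) := by
    refine ⟨{ toFun := fun n => (n : ℝ) ^ (-(1 + a)), map_zero' := ?_, map_one' := ?_,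
              map_mul' := ?_ }, fun n => rfl⟩
    · rw [Nat.cast_zero, Real.zero_rpow (by linarith)]
    · simp
    · intro m n
      push_cast
      exact Real.mul_rpow (Nat.cast_nonneg _) (Nat.cast_nonneg _)
  have hs : Summable fun n => ‖f n‖ := by
    refine (summ ha).congr fun n => ?_
    rw [hf, Real.norm_of_nonneg (Real.rpow_nonneg (Nat.cast_nonneg _) _)]
  have h1 := EulerProduct.eulerProduct_completely_multiplicative_hasProd hs
  have h2 : HasSum (fun p : Nat.Primes => -Real.log (1 - ph (1 + a) (p : ℕ))) (-(La a)) :=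
    (La_summable ha).hasSum.neg
  have h3 := h2.rexp
  have h4 : (Real.exp ∘ fun p : Nat.Primes => -Real.log (1 - ph (1 + a) (p : ℕ))) =
      fun p : Nat.Primes => (1 - f (p : ℕ))⁻¹ := by
    funext p
    simp only [Function.comp_apply]
    have h5 := ph_le_half (σ := 1 + a) (by linarith) p.2
    rw [Real.exp_neg, Real.exp_log (by linarith), hf, ph_apply]
  rw [h4] at h3
  rw [h3.unique h1]
  exact tsum_congr hf

theorem step {a x : ℝ} (ha : 0 < a) (hx : 0 < x) :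
    x ^ (-a) - (x + 1) ^ (-a) ≤ a * x ^ (-(1 + a)) := by
  have h1 : x + 1 = x * (1 + 1 / x) := by field_simp
  have h2 : 0 < 1 + 1 / x := by positivity
  rw [h1, Real.mul_rpow hx.le h2.le]
  have h3 : 1 - a / x ≤ (1 + 1 / x) ^ (-a) := by
    rw [Real.rpow_def_of_pos h2]
    have h4 := Real.log_le_sub_one_of_pos h2
    have h5 := Real.add_one_le_exp (Real.log (1 + 1 / x) * -a)
    have h6 : Real.log (1 + 1 / x) * a ≤ a / x := by
      have h7 : Real.log (1 + 1 / x) * a ≤ (1 / x) * a :=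
        mul_le_mul_of_nonneg_right (by linarith) ha.le
      calc _ ≤ _ := h7
        _ = a / x := by ring
    linarith
  have h8 : x ^ (-(1 + a)) = x ^ (-a) / x := by
    rw [show -(1 + a) = -a - 1 by ring, Real.rpow_sub_one hx.ne']
  have h9 : 0 < x ^ (-a) := Real.rpow_pos_of_pos hx _
  have h10 : x ^ (-a) * (1 - a / x) ≤ x ^ (-a) * (1 + 1 / x) ^ (-a) :=
    mul_le_mul_of_nonneg_left h3 h9.le
  rw [h8]
  have h11 : a * (x ^ (-a) / x) = x ^ (-a) - x ^ (-a) * (1 - a / x) := by ring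
  rw [h11]
  linarith

theorem low_fin {a : ℝ} (ha : 0 < a) (N : ℕ) :
    1 - ((N : ℝ) + 1) ^ (-a) ≤ a * ∑ n ∈ range (N + 1), (n : ℝ) ^ (-(1 + a)) := by
  induction N with
  | zero =>
    rw [sum_range_one, Nat.cast_zero, Real.zero_rpow (by linarith)]
    simp
  | succ N ih =>
    rw [sum_range_succ, mul_add]
    have h1 := step ha (show (0 : ℝ) < (N : ℝ) + 1 by positivity)
    push_cast
    linarith

theorem low {a : ℝ} (ha : 0 < a) : 1 / a ≤ ∑' n : ℕ, (n : ℝ) ^ (-(1 + a)) := by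
  rw [div_le_iff₀ ha, mul_comm]
  have h1 : ∀ N : ℕ, 1 - ((N : ℝ) + 1) ^ (-a) ≤ a * ∑' n : ℕ, (n : ℝ) ^ (-(1 + a)) := by
    intro N
    refine (low_fin ha N).trans (mul_le_mul_of_nonneg_left ?_ ha.le)
    exact (summ ha).sum_le_tsum _ fun n _ => Real.rpow_nonneg (Nat.cast_nonneg _) _
  have h2 : Tendsto (fun N : ℕ => 1 - ((N : ℝ) + 1) ^ (-a)) atTop (𝓝 (1 - 0)) := by
    apply Tendsto.sub tendsto_const_nhds
    exact (tendsto_rpow_neg_atTop ha).comp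
      (tendsto_atTop_add_const_right _ _ tendsto_natCast_atTop_atTop)
  rw [sub_zero] at h2
  exact le_of_tendsto' h2 h1

theorem La_bd {a : ℝ} (ha : 0 < a) :
    0 ≤ Real.log a - La a ∧ Real.log a - La a ≤ Real.log (1 + a) := by
  have h1 := exp_La ha
  have h2 : Real.log a - La a = Real.log (a * Real.exp (-(La a))) := by
    rw [Real.log_mul ha.ne' (Real.exp_pos _).ne', Real.log_exp]
    ring
  rw [h2, h1]
  constructor
  · apply Real.log_nonneg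
    have := low ha
    rwa [div_le_iff₀ ha, mul_comm] at this
  · apply Real.log_le_log
    · have := low ha
      have h3 : 0 < 1 / a := by positivity
      exact mul_pos ha (by linarith)
    · have := mul_le_mul_of_nonneg_left (tsum_le ha) ha.le
      calc _ ≤ _ := this
        _ = 1 + a := by field_simp; ring

theorem log_diff {s t : ℝ} (hs : 0 ≤ s) (hst : s ≤ t) (ht : t < 1) :
    t - s ≤ Real.log (1 - s) - Real.log (1 - t) := by
  have h1 : 0 < 1 - t := by linarith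
  have h2 : 0 < 1 - s := by linarith
  have h3 : Real.log (1 - t) - Real.log (1 - s) = Real.log ((1 - t) / (1 - s)) :=
    (Real.log_div h1.ne' h2.ne').symm
  have h4 := Real.log_le_sub_one_of_pos (div_pos h1 h2)
  have h5 : (1 - t) / (1 - s) - 1 = -((t - s) / (1 - s)) := by
    field_simp
    ring
  have h6 : t - s ≤ (t - s) / (1 - s) := by
    rw [le_div_iff₀ h2]
    nlinarith
  linarith

/-- the sum of `log p / p ^ (1 + η)` -/
theorem logsum {η : ℝ} (h0 : 0 < η) (h1 : η ≤ 1) :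
    Summable (fun p : Nat.Primes => Real.log ((p : ℕ) : ℝ) * ph (1 + η) (p : ℕ)) ∧
      ∑' p : Nat.Primes, Real.log ((p : ℕ) : ℝ) * ph (1 + η) (p : ℕ) ≤ 4 / η := by
  have hη2 : 0 < η / 2 := by positivity
  have hb : ∀ p : Nat.Primes, 0 ≤ Real.log ((p : ℕ) : ℝ) * ph (1 + η) (p : ℕ) ∧
      η / 2 * (Real.log ((p : ℕ) : ℝ) * ph (1 + η) (p : ℕ)) ≤
        Real.log (1 - ph (1 + η) (p : ℕ)) - Real.log (1 - ph (1 + η / 2) (p : ℕ)) := by
    intro p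
    have hp0 : (0 : ℝ) < (p : ℕ) := by exact_mod_cast p.2.pos
    have hl : 0 ≤ Real.log ((p : ℕ) : ℝ) := Real.log_nonneg (by exact_mod_cast p.2.one_le)
    have hph := ph_pos (1 + η) p.2
    have hph2 := ph_le_half (σ := 1 + η / 2) (by linarith) p.2
    have e1 : ph (1 + η / 2) (p : ℕ) = ph (1 + η) (p : ℕ) * ((p : ℕ) : ℝ) ^ (η / 2) := by
      rw [ph_apply, ph_apply, ← Real.rpow_add hp0]
      congr 1
      ring
    have e2 : 1 + η / 2 * Real.log ((p : ℕ) : ℝ) ≤ ((p : ℕ) : ℝ) ^ (η / 2) := by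
      rw [Real.rpow_def_of_pos hp0]
      have := Real.add_one_le_exp (Real.log ((p : ℕ) : ℝ) * (η / 2))
      linarith
    have e3 : η / 2 * (Real.log ((p : ℕ) : ℝ) * ph (1 + η) (p : ℕ)) ≤
        ph (1 + η / 2) (p : ℕ) - ph (1 + η) (p : ℕ) := by
      rw [e1]
      have := mul_le_mul_of_nonneg_left e2 hph.le
      linarith
    have e4 : 0 ≤ η / 2 * (Real.log ((p : ℕ) : ℝ) * ph (1 + η) (p : ℕ)) := by positivity
    refine ⟨by positivity, e3.trans ?_⟩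
    exact log_diff hph.le (by linarith) (by linarith)
  have hs1 := (La_summable h0).sub (La_summable hη2)
  have hs2 : Summable fun p : Nat.Primes =>
      η / 2 * (Real.log ((p : ℕ) : ℝ) * ph (1 + η) (p : ℕ)) :=
    Summable.of_nonneg_of_le (fun p => mul_nonneg hη2.le (hb p).1) (fun p => (hb p).2) hs1
  have hs : Summable (fun p : Nat.Primes => Real.log ((p : ℕ) : ℝ) * ph (1 + η) (p : ℕ)) :=
    (summable_mul_left_iff hη2.ne').1 hs2
  refine ⟨hs, ?_⟩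
  have h2 := hs2.tsum_le_tsum (fun p => (hb p).2) hs1
  rw [tsum_mul_left, (La_summable h0).tsum_sub (La_summable hη2)] at h2
  have h3 : La η - La (η / 2) ≤ 2 := by
    have h4 := (La_bd h0).1
    have h5 := (La_bd hη2).2
    have h6 : Real.log (η / 2) = Real.log η - Real.log 2 := Real.log_div h0.ne' (by norm_num)
    have h7 := Real.log_two_lt_d9
    have h8 := Real.log_le_sub_one_of_pos (show 0 < 1 + η / 2 by positivity)
    linarith
  unfold La at h3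
  rw [le_div_iff₀ h0]
  linarith

/-! ### the local factor as a function of two variables -/

/-- the terms -/
noncomputable def tm (b x y : ℂ) (q : ℕ × ℕ) : ℂ :=
  lC b q.1 * lC b q.2 * (x ^ (max q.1 q.2 - min q.1 q.2) * y ^ (min q.1 q.2))

/-- the majorant -/
noncomputable def mj (k m : ℕ) : ℝ := ((m : ℝ) + 1) ^ k * (3 / 4) ^ m

theorem mj_nonneg (k m : ℕ) : 0 ≤ mj k m := by unfold mj; positivity

theorem mj_summable (k : ℕ) : Summable (mj k) := by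
  have h1 : Summable fun m : ℕ => (m : ℝ) ^ k * (3 / 4 : ℝ) ^ m :=
    summable_pow_mul_geometric_of_norm_lt_one k (by norm_num)
  have h2 := ((summable_nat_add_iff 1).2 h1).mul_left (4 / 3)
  refine h2.congr fun m => ?_
  unfold mj
  push_cast
  rw [pow_succ]
  ring

/-- the majorant of the double sum -/
noncomputable def m2 (k : ℕ) (q : ℕ × ℕ) : ℝ := mj k q.1 * mj k q.2

theorem m2_summable (k : ℕ) : Summable (m2 k) :=
  (mj_summable k).mul_of_nonneg (mj_summable k) (mj_nonneg k) (mj_nonneg k)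

theorem half_max (q : ℕ × ℕ) : (1 / 2 : ℝ) ^ (max q.1 q.2) ≤ (3 / 4) ^ q.1 * (3 / 4) ^ q.2 := by
  rw [← pow_add]
  calc (1 / 2 : ℝ) ^ (max q.1 q.2) ≤ ((3 / 4) ^ 2) ^ (max q.1 q.2) :=
        pow_le_pow_left₀ (by norm_num) (by norm_num) _
    _ = (3 / 4) ^ (2 * max q.1 q.2) := by rw [← pow_mul]
    _ ≤ (3 / 4) ^ (q.1 + q.2) :=
        pow_le_pow_of_le_one (by norm_num) (by norm_num) (by omega)

theorem tm_bd (k : ℕ) {b x y : ℂ} (hb : ‖b‖ ≤ k) {ρ : ℝ} (hx : ‖x‖ ≤ ρ) (hy : ‖y‖ ≤ ρ)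
    (q : ℕ × ℕ) :
    ‖tm b x y q‖ ≤ ((q.1 : ℝ) + 1) ^ k * ((q.2 : ℝ) + 1) ^ k * ρ ^ (max q.1 q.2) := by
  have hρ : 0 ≤ ρ := (norm_nonneg x).trans hx
  unfold tm
  rw [norm_mul, norm_mul, norm_mul, norm_pow, norm_pow]
  have h1 := CON.lC_bd k hb q.1
  have h2 := CON.lC_bd k hb q.2
  have h3 : ‖x‖ ^ (max q.1 q.2 - min q.1 q.2) * ‖y‖ ^ (min q.1 q.2) ≤ ρ ^ (max q.1 q.2) := by
    calc ‖x‖ ^ (max q.1 q.2 - min q.1 q.2) * ‖y‖ ^ (min q.1 q.2) ≤
          ρ ^ (max q.1 q.2 - min q.1 q.2) * ρ ^ (min q.1 q.2) :=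
          mul_le_mul (pow_le_pow_left₀ (norm_nonneg _) hx _)
            (pow_le_pow_left₀ (norm_nonneg _) hy _) (by positivity) (by positivity)
      _ = ρ ^ (max q.1 q.2) := by
          rw [← pow_add]
          congr 1
          omega
  exact mul_le_mul (mul_le_mul h1 h2 (norm_nonneg _) (by positivity)) h3 (by positivity)
    (by positivity)

theorem tm_le_m2 (k : ℕ) {b x y : ℂ} (hb : ‖b‖ ≤ k) {ρ : ℝ} (hρ : ρ ≤ 1 / 2) (hx : ‖x‖ ≤ ρ)
    (hy : ‖y‖ ≤ ρ) (q : ℕ × ℕ) : ‖tm b x y q‖ ≤ m2 k q := by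
  have hρ0 : 0 ≤ ρ := (norm_nonneg x).trans hx
  refine (tm_bd k hb hx hy q).trans ?_
  have h1 : ρ ^ (max q.1 q.2) ≤ (3 / 4) ^ q.1 * (3 / 4) ^ q.2 :=
    (pow_le_pow_left₀ hρ0 hρ _).trans (half_max q)
  calc ((q.1 : ℝ) + 1) ^ k * ((q.2 : ℝ) + 1) ^ k * ρ ^ (max q.1 q.2) ≤
        ((q.1 : ℝ) + 1) ^ k * ((q.2 : ℝ) + 1) ^ k * ((3 / 4) ^ q.1 * (3 / 4) ^ q.2) :=
        mul_le_mul_of_nonneg_left h1 (by positivity)
    _ = m2 k q := by
        unfold m2 mj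
        ring

theorem tm_le_m2' (k : ℕ) {b x y : ℂ} (hb : ‖b‖ ≤ k) {ρ : ℝ} (hρ : ρ ≤ 1 / 2) (hx : ‖x‖ ≤ ρ)
    (hy : ‖y‖ ≤ ρ) (q : ℕ × ℕ) (hq : 2 ≤ max q.1 q.2) : ‖tm b x y q‖ ≤ 4 * ρ ^ 2 * m2 k q := by
  have hρ0 : 0 ≤ ρ := (norm_nonneg x).trans hx
  refine (tm_bd k hb hx hy q).trans ?_
  have h0 : ρ ^ (max q.1 q.2) ≤ 4 * ρ ^ 2 * (1 / 2) ^ (max q.1 q.2) := by
    obtain ⟨m, hm⟩ : ∃ m, max q.1 q.2 = m + 2 := ⟨max q.1 q.2 - 2, by omega⟩
    rw [hm, pow_add, pow_add]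
    have h1 := pow_le_pow_left₀ hρ0 hρ m
    calc ρ ^ m * ρ ^ 2 ≤ (1 / 2) ^ m * ρ ^ 2 := mul_le_mul_of_nonneg_right h1 (by positivity)
      _ = _ := by ring
  have h1 : ρ ^ (max q.1 q.2) ≤ 4 * ρ ^ 2 * ((3 / 4) ^ q.1 * (3 / 4) ^ q.2) :=
    h0.trans (mul_le_mul_of_nonneg_left (half_max q) (by positivity))
  calc ((q.1 : ℝ) + 1) ^ k * ((q.2 : ℝ) + 1) ^ k * ρ ^ (max q.1 q.2) ≤
        ((q.1 : ℝ) + 1) ^ k * ((q.2 : ℝ) + 1) ^ k * (4 * ρ ^ 2 * ((3 / 4) ^ q.1 * (3 / 4) ^ q.2)) :=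
        mul_le_mul_of_nonneg_left h1 (by positivity)
    _ = 4 * ρ ^ 2 * m2 k q := by
        unfold m2 mj
        ring

theorem G_exp (k : ℕ) {b x y : ℂ} (hb : ‖b‖ ≤ k) {ρ : ℝ} (hρ : ρ ≤ 1 / 2) (hx : ‖x‖ ≤ ρ)
    (hy : ‖y‖ ≤ ρ) : ∃ r : ℂ, ∑' q : ℕ × ℕ, tm b x y q = 1 + 2 * b * x + b ^ 2 * y + r ∧
      ‖r‖ ≤ 4 * (∑' q, m2 k q) * ρ ^ 2 := by
  classical
  set s : Finset (ℕ × ℕ) := range 2 ×ˢ range 2 with hs
  have hS : Summable (tm b x y) := Summable.of_norm_bounded (m2_summable k)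
    fun q => tm_le_m2 k hb hρ hx hy q
  have h1 : HasSum (fun q => if q ∈ s then tm b x y q else 0) (∑ q ∈ s, tm b x y q) := by
    have h0 : HasSum (fun q => if q ∈ s then tm b x y q else 0)
        (∑ q ∈ s, (if q ∈ s then tm b x y q else 0)) :=
      hasSum_sum_of_ne_finset_zero (fun q hq => by simp [hq])
    have h00 : ∑ q ∈ s, (if q ∈ s then tm b x y q else 0) = ∑ q ∈ s, tm b x y q :=
      sum_congr rfl fun q hq => by simp [hq]
    rwa [h00] at h0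
  have h2 := hS.hasSum.sub h1
  have h3 : ∑ q ∈ s, tm b x y q = 1 + 2 * b * x + b ^ 2 * y := by
    rw [hs, sum_product, sum_range_succ, sum_range_succ, sum_range_zero, sum_range_succ,
      sum_range_succ, sum_range_zero, sum_range_succ, sum_range_succ, sum_range_zero]
    simp only [tm, CON.lC_zero, CON.lC_one]
    norm_num
    ring
  refine ⟨(∑' q, tm b x y q) - ∑ q ∈ s, tm b x y q, by rw [h3]; ring, ?_⟩
  rw [← h2.tsum_eq]
  have h4 := ((m2_summable k).hasSum.mul_left (4 * ρ ^ 2))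
  have h5 := tsum_of_norm_bounded (f := fun q => tm b x y q - if q ∈ s then tm b x y q else 0) h4 (by
    intro q
    by_cases hq : q ∈ s
    · simp only [hq, if_true, sub_self, norm_zero]
      have : 0 ≤ m2 k q := mul_nonneg (mj_nonneg _ _) (mj_nonneg _ _)
      positivity
    · simp only [hq, if_false, sub_zero]
      apply tm_le_m2' k hb hρ hx hy
      rw [hs, mem_product, mem_range, mem_range] at hq
      omega)
  refine h5.trans (le_of_eq ?_)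
  ring

/-- the algebra of the expansions -/
theorem alg {u v q r1 r2 : ℂ} {ρ U V A B1 B2 : ℝ} (hρ0 : 0 ≤ ρ) (hρ : ρ ≤ 1) (hU : 0 ≤ U)
    (hV : 0 ≤ V) (hA : 0 ≤ A) (hB1 : 0 ≤ B1) (hB2 : 0 ≤ B2) (hu : ‖u‖ ≤ U * ρ) (hv : ‖v‖ ≤ V * ρ)
    (hq : ‖q‖ ≤ A * ρ ^ 2) (h1 : ‖r1‖ ≤ B1 * ρ ^ 2) (h2 : ‖r2‖ ≤ B2 * ρ ^ 2) :
    ‖(1 + u + v + q) * ((1 - u + r1) * (1 - v + r2)) - 1‖ ≤
      ((U + V) ^ 2 + (U * V + B1 * (1 + V) + B2 * (1 + U) + B1 * B2) * (1 + (U + V) + A) +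
        A * (1 + (U + V))) * ρ ^ 2 := by
  have hρ2 : ρ ^ 2 ≤ 1 := pow_le_one₀ hρ0 hρ
  have hu1 : ‖u‖ ≤ U := hu.trans (mul_le_of_le_one_right hU hρ)
  have hv1 : ‖v‖ ≤ V := hv.trans (mul_le_of_le_one_right hV hρ)
  have hq1 : ‖q‖ ≤ A := hq.trans (mul_le_of_le_one_right hA hρ2)
  have h11 : ‖r1‖ ≤ B1 := h1.trans (mul_le_of_le_one_right hB1 hρ2)
  have hs : ‖u + v‖ ≤ (U + V) * ρ := (norm_add_le _ _).trans (by linarith)
  have hs1 : ‖u + v‖ ≤ U + V := (norm_add_le _ _).trans (by linarith)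
  obtain ⟨e, he⟩ : ∃ e : ℂ, e = u * v + r1 * (1 - v) + r2 * (1 - u) + r1 * r2 := ⟨_, rfl⟩
  have he' : ‖e‖ ≤ (U * V + B1 * (1 + V) + B2 * (1 + U) + B1 * B2) * ρ ^ 2 := by
    have a1 : ‖u * v‖ ≤ U * V * ρ ^ 2 := by
      rw [norm_mul]
      calc ‖u‖ * ‖v‖ ≤ (U * ρ) * (V * ρ) := mul_le_mul hu hv (norm_nonneg _) (by positivity)
        _ = _ := by ring
    have a2 : ‖r1 * (1 - v)‖ ≤ B1 * (1 + V) * ρ ^ 2 := by
      rw [norm_mul]
      have : ‖(1 : ℂ) - v‖ ≤ 1 + V := (norm_sub_le _ _).trans (by rw [norm_one]; linarith)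
      calc ‖r1‖ * ‖(1 : ℂ) - v‖ ≤ (B1 * ρ ^ 2) * (1 + V) :=
            mul_le_mul h1 this (norm_nonneg _) (by positivity)
        _ = _ := by ring
    have a3 : ‖r2 * (1 - u)‖ ≤ B2 * (1 + U) * ρ ^ 2 := by
      rw [norm_mul]
      have : ‖(1 : ℂ) - u‖ ≤ 1 + U := (norm_sub_le _ _).trans (by rw [norm_one]; linarith)
      calc ‖r2‖ * ‖(1 : ℂ) - u‖ ≤ (B2 * ρ ^ 2) * (1 + U) :=
            mul_le_mul h2 this (norm_nonneg _) (by positivity)
        _ = _ := by ring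
    have a4 : ‖r1 * r2‖ ≤ B1 * B2 * ρ ^ 2 := by
      rw [norm_mul]
      calc ‖r1‖ * ‖r2‖ ≤ B1 * (B2 * ρ ^ 2) := mul_le_mul h11 h2 (norm_nonneg _) (by positivity)
        _ = _ := by ring
    rw [he]
    calc _ ≤ ‖u * v‖ + ‖r1 * (1 - v)‖ + ‖r2 * (1 - u)‖ + ‖r1 * r2‖ :=
          (norm_add_le _ _).trans (by
            have := norm_add₃_le (a := u * v) (b := r1 * (1 - v)) (c := r2 * (1 - u))
            linarith)
      _ ≤ _ := by linarith
  have hkey : (1 + u + v + q) * ((1 - u + r1) * (1 - v + r2)) - 1 =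
      -((u + v) ^ 2) + e * (1 + (u + v) + q) + q * (1 - (u + v)) := by
    rw [he]
    ring
  rw [hkey]
  have b1 : ‖-((u + v) ^ 2)‖ ≤ (U + V) ^ 2 * ρ ^ 2 := by
    rw [norm_neg, norm_pow, ← mul_pow]
    exact pow_le_pow_left₀ (norm_nonneg _) hs 2
  have b2 : ‖e * (1 + (u + v) + q)‖ ≤
      (U * V + B1 * (1 + V) + B2 * (1 + U) + B1 * B2) * (1 + (U + V) + A) * ρ ^ 2 := by
    rw [norm_mul]
    have : ‖1 + (u + v) + q‖ ≤ 1 + (U + V) + A := by
      have := norm_add₃_le (a := (1 : ℂ)) (b := u + v) (c := q)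
      rw [norm_one] at this
      linarith
    calc ‖e‖ * ‖1 + (u + v) + q‖ ≤
          ((U * V + B1 * (1 + V) + B2 * (1 + U) + B1 * B2) * ρ ^ 2) * (1 + (U + V) + A) :=
          mul_le_mul he' this (norm_nonneg _) (by positivity)
      _ = _ := by ring
  have b3 : ‖q * (1 - (u + v))‖ ≤ A * (1 + (U + V)) * ρ ^ 2 := by
    rw [norm_mul]
    have : ‖1 - (u + v)‖ ≤ 1 + (U + V) := (norm_sub_le _ _).trans (by rw [norm_one]; linarith)
    calc ‖q‖ * ‖1 - (u + v)‖ ≤ (A * ρ ^ 2) * (1 + (U + V)) :=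
          mul_le_mul hq this (norm_nonneg _) (by positivity)
      _ = _ := by ring
  calc _ ≤ ‖-((u + v) ^ 2)‖ + ‖e * (1 + (u + v) + q)‖ + ‖q * (1 - (u + v))‖ := norm_add₃_le
    _ ≤ _ := by linarith

/-- the regular part of the local factor -/
noncomputable def Rl (b x y : ℂ) : ℂ :=
  (∑' q : ℕ × ℕ, tm b x y q) * ((1 - x) ^ (2 * b) * (1 - y) ^ (b ^ 2))

theorem Rl_bd (k : ℕ) : ∃ C : ℝ, 0 ≤ C ∧ ∀ (b x y : ℂ) (ρ : ℝ), ‖b‖ ≤ k → ρ ≤ 1 / 2 → ‖x‖ ≤ ρ →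
    ‖y‖ ≤ ρ → ‖Rl b x y - 1‖ ≤ C * ρ ^ 2 := by
  set B : ℕ → ℝ := fun k => (k : ℝ) ^ 2 + (2 * (k : ℝ) ^ 2) ^ 2 * Real.exp (2 * (k : ℝ) ^ 2) with hB
  have hB0 : ∀ k, 0 ≤ B k := fun k => by rw [hB]; positivity
  set A : ℝ := 4 * ∑' q, m2 k q with hA
  have hA0 : 0 ≤ A := by
    have : 0 ≤ ∑' q, m2 k q := tsum_nonneg fun q => mul_nonneg (mj_nonneg _ _) (mj_nonneg _ _)
    rw [hA]; positivity
  have hk0 : (0 : ℝ) ≤ k := Nat.cast_nonneg k
  refine ⟨(2 * k + (k : ℝ) ^ 2) ^ 2 + (2 * k * (k : ℝ) ^ 2 + B (k + 1) * (1 + (k : ℝ) ^ 2) +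
    B k * (1 + 2 * k) + B (k + 1) * B k) * (1 + (2 * k + (k : ℝ) ^ 2) + A) +
    A * (1 + (2 * k + (k : ℝ) ^ 2)), ?_, fun b x y ρ hb hρ hx hy => ?_⟩
  rotate_left
  · have hρ0 : 0 ≤ ρ := (norm_nonneg x).trans hx
    obtain ⟨q, hq, hq'⟩ := G_exp k hb hρ hx hy
    obtain ⟨c, hc⟩ : ∃ c : ℂ, c ^ 2 = 2 * b := ⟨(2 * b) ^ (((2 : ℕ) : ℂ)⁻¹), by
      exact cpow_nat_inv_pow (2 * b) two_ne_zero⟩
    have hck : ‖c‖ ≤ ((k + 1 : ℕ) : ℝ) := by
      have h1 : ‖c‖ ^ 2 ≤ ((k + 1 : ℕ) : ℝ) ^ 2 := by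
        rw [← norm_pow, hc, norm_mul]
        push_cast
        rw [show ‖(2 : ℂ)‖ = 2 by norm_num]
        nlinarith
      exact le_of_sq_le_sq h1 (by positivity)
    obtain ⟨r1, hr1, hr1'⟩ := CON.pow_exp (k + 1) hck (hx.trans hρ)
    obtain ⟨r2, hr2, hr2'⟩ := CON.pow_exp k hb (hy.trans hρ)
    rw [hc] at hr1
    have hx2 : ‖x‖ ^ 2 ≤ ρ ^ 2 := pow_le_pow_left₀ (norm_nonneg _) hx 2
    have hy2 : ‖y‖ ^ 2 ≤ ρ ^ 2 := pow_le_pow_left₀ (norm_nonneg _) hy 2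
    unfold Rl
    rw [hq, hr1, hr2]
    refine alg (ρ := ρ) (U := 2 * k) (V := (k : ℝ) ^ 2) (A := A) (B1 := B (k + 1)) (B2 := B k) hρ0
      (by linarith) (by positivity) (by positivity) hA0 (hB0 _) (hB0 _) ?_ ?_ hq' ?_ ?_
    · rw [norm_mul, norm_mul, show ‖(2 : ℂ)‖ = 2 by norm_num]
      exact mul_le_mul (by linarith) hx (norm_nonneg _) (by positivity)
    · rw [norm_mul, norm_pow]
      exact mul_le_mul (pow_le_pow_left₀ (norm_nonneg _) hb 2) hy (norm_nonneg _) (by positivity)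
    · exact hr1'.trans (mul_le_mul_of_nonneg_left hx2 (hB0 _))
    · exact hr2'.trans (mul_le_mul_of_nonneg_left hy2 (hB0 _))
  · have := hB0 k
    have := hB0 (k + 1)
    positivity

/-! ### the local factors -/

theorem GD_eq (b : ℂ) (δ : ℝ) (z : ℂ) {p : ℕ} (hp : p.Prime) :
    GD b δ z p = ∑' q : ℕ × ℕ, tm b ((p : ℂ) ^ (-(1 + (δ : ℂ) + z))) ((ph (1 + 2 * δ) p : ℝ) : ℂ) q := by
  unfold GD
  refine tsum_congr fun q => ?_
  unfold tm
  congr 1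
  have hp0 : (p : ℂ) ≠ 0 := by exact_mod_cast hp.ne_zero
  obtain ⟨m, hm⟩ : ∃ m, m = min q.1 q.2 := ⟨_, rfl⟩
  obtain ⟨M, hM⟩ : ∃ M, M = max q.1 q.2 - min q.1 q.2 := ⟨_, rfl⟩
  have h1 : q.1 + q.2 = M + 2 * m := by omega
  have h2 : -(((q.1 + q.2 : ℕ) : ℂ) * (1 + δ + z)) + ((min q.1 q.2 : ℕ) : ℂ) * (1 + 2 * z) =
      (M : ℂ) * (-(1 + (δ : ℂ) + z)) + (m : ℂ) * (-(1 + 2 * (δ : ℂ))) := by
    rw [h1, ← hm]
    push_cast
    ring
  have h3 : ((ph (1 + 2 * δ) p : ℝ) : ℂ) = (p : ℂ) ^ (-(1 + 2 * (δ : ℂ))) := by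
    rw [ph_apply, Complex.ofReal_cpow (Nat.cast_nonneg _)]
    push_cast
    rfl
  rw [h2, cpow_add _ _ hp0, cpow_nat_mul, cpow_nat_mul, ← hM, ← hm, h3]

theorem x_norm {δ : ℝ} {z : ℂ} (hz : ‖z‖ ≤ δ / 4) {p : ℕ} (hp : p.Prime) :
    ‖(p : ℂ) ^ (-(1 + (δ : ℂ) + z))‖ ≤ ph (1 + 3 * δ / 4) p := by
  rw [Complex.norm_natCast_cpow_of_pos hp.pos, ph_apply]
  apply Real.rpow_le_rpow_of_exponent_le
  · exact_mod_cast hp.one_le
  · have h1 := (abs_le.1 (Complex.abs_re_le_norm z)).1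
    have h2 : (-(1 + (δ : ℂ) + z)).re = -(1 + δ + z.re) := by simp
    rw [h2]
    linarith

theorem x_diff {δ : ℝ} {z : ℂ} (hz : ‖z‖ ≤ δ / 4) {p : ℕ} (hp : p.Prime) :
    ‖(p : ℂ) ^ (-(1 + (δ : ℂ) + z)) - ((ph (1 + δ) p : ℝ) : ℂ)‖ ≤
      δ / 4 * (Real.log (p : ℝ) * ph (1 + 3 * δ / 4) p) := by
  have hp0 : (0 : ℝ) < p := by exact_mod_cast hp.pos
  have hpc : (p : ℂ) ≠ 0 := by exact_mod_cast hp.ne_zero
  have hl : 0 ≤ Real.log (p : ℝ) := Real.log_nonneg (by exact_mod_cast hp.one_le)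
  have h3 : ((ph (1 + δ) p : ℝ) : ℂ) = (p : ℂ) ^ (-(1 + (δ : ℂ))) := by
    rw [ph_apply, Complex.ofReal_cpow (Nat.cast_nonneg _)]
    push_cast
    rfl
  obtain ⟨w, hw⟩ : ∃ w : ℂ, w = ((Real.log (p : ℝ) : ℝ) : ℂ) * (-z) := ⟨_, rfl⟩
  have h4 : (p : ℂ) ^ (-(1 + (δ : ℂ) + z)) = (p : ℂ) ^ (-(1 + (δ : ℂ))) * Complex.exp w := by
    rw [show -(1 + (δ : ℂ) + z) = -(1 + (δ : ℂ)) + (-z) by ring, cpow_add _ _ hpc,
      cpow_def_of_ne_zero hpc (-z), hw, Complex.ofReal_log hp0.le, Complex.ofReal_natCast]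
  have hwn : ‖w‖ ≤ Real.log (p : ℝ) * (δ / 4) := by
    rw [hw, norm_mul, norm_neg, Complex.norm_real, Real.norm_of_nonneg hl]
    exact mul_le_mul_of_nonneg_left hz hl
  have hδ : 0 ≤ δ / 4 := (norm_nonneg _).trans hz
  have h5 : ‖Complex.exp w - 1‖ ≤ Real.log (p : ℝ) * (δ / 4) * (p : ℝ) ^ (δ / 4) := by
    have h6 := Complex.norm_exp_sub_sum_le_norm_mul_exp w 1
    rw [sum_range_one, pow_one, pow_zero, Nat.factorial_zero, Nat.cast_one, div_one] at h6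
    refine h6.trans ?_
    rw [Real.rpow_def_of_pos hp0]
    exact mul_le_mul hwn (Real.exp_le_exp.2 hwn) (Real.exp_pos _).le (by positivity)
  rw [h4, h3, ← mul_sub_one, norm_mul, ← h3, Complex.norm_real, Real.norm_of_nonneg (ph_pos _ hp).le]
  have h7 : ph (1 + 3 * δ / 4) p = ph (1 + δ) p * (p : ℝ) ^ (δ / 4) := by
    rw [ph_apply, ph_apply, ← Real.rpow_add hp0]
    congr 1
    ring
  rw [h7]
  calc ph (1 + δ) p * ‖Complex.exp w - 1‖ ≤
        ph (1 + δ) p * (Real.log (p : ℝ) * (δ / 4) * (p : ℝ) ^ (δ / 4)) :=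
        mul_le_mul_of_nonneg_left h5 (ph_pos _ hp).le
    _ = _ := by ring

theorem log_lip {u v : ℂ} (hu : ‖u‖ ≤ 1 / 2) (hv : ‖v‖ ≤ 1 / 2) :
    ‖Complex.log (1 - u) - Complex.log (1 - v)‖ ≤ 2 * ‖u - v‖ := by
  have hs : Convex ℝ (Metric.closedBall (0 : ℂ) (1 / 2)) := convex_closedBall _ _
  refine hs.norm_image_sub_le_of_norm_hasDerivWithin_le (f := fun u : ℂ => Complex.log (1 - u))
    (f' := fun u : ℂ => -1 / (1 - u)) (fun w hw => ?_) (fun w hw => ?_)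
    (by simpa using hv) (by simpa using hu)
  · have hw' : ‖w‖ ≤ 1 / 2 := by simpa using hw
    have h1 : HasDerivAt (fun u : ℂ => 1 - u) (-1) w := by
      simpa using (hasDerivAt_id w).const_sub 1
    refine (h1.clog ?_).hasDerivWithinAt
    rw [Complex.mem_slitPlane_iff]
    left
    have h2 := (abs_le.1 (Complex.abs_re_le_norm w)).2
    rw [Complex.sub_re, Complex.one_re]
    linarith
  · have hw' : ‖w‖ ≤ 1 / 2 := by simpa using hw
    rw [norm_div, norm_neg, norm_one]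
    have h1 : 1 / 2 ≤ ‖(1 : ℂ) - w‖ := by
      have := norm_sub_norm_le (1 : ℂ) w
      rw [norm_one] at this
      linarith
    rw [div_le_iff₀ (by linarith)]
    linarith

theorem log_real {δ : ℝ} (hδ : 0 < δ) {p : ℕ} (hp : p.Prime) :
    Complex.log (1 - ((ph (1 + δ) p : ℝ) : ℂ)) = ((Real.log (1 - ph (1 + δ) p) : ℝ) : ℂ) := by
  have h1 := ph_le_half (σ := 1 + δ) (by linarith) hp
  rw [Complex.ofReal_log (by linarith)]
  push_cast
  rfl

theorem ph_sm {a : ℝ} (ha : 0 < a) : Summable fun p : Nat.Primes => ph (1 + a) (p : ℕ) := by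
  have h1 := DIA2.ph_summable (half_pos ha)
  have h2 : 2 * (a / 2) = a := by ring
  rwa [h2] at h1

/-- the sum of the complex logarithms -/
theorem Lx_bd {δ : ℝ} (hδ : 0 < δ) (hδ1 : δ ≤ 1 / 16) {z : ℂ} (hz : ‖z‖ ≤ δ / 4) :
    Summable (fun p : Nat.Primes => Complex.log (1 - ((p : ℕ) : ℂ) ^ (-(1 + (δ : ℂ) + z)))) ∧
      ‖∑' p : Nat.Primes, Complex.log (1 - ((p : ℕ) : ℂ) ^ (-(1 + (δ : ℂ) + z))) - (La δ : ℂ)‖ ≤ 3 := by
  have hη : 0 < 3 * δ / 4 := by positivity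
  have hx : ∀ p : Nat.Primes, ‖((p : ℕ) : ℂ) ^ (-(1 + (δ : ℂ) + z))‖ ≤ 1 / 2 := fun p =>
    (x_norm hz p.2).trans (ph_le_half (by linarith) p.2)
  have hs : Summable (fun p : Nat.Primes =>
      Complex.log (1 - ((p : ℕ) : ℂ) ^ (-(1 + (δ : ℂ) + z)))) := by
    refine Summable.of_norm_bounded ((ph_sm hη).mul_left (3 / 2)) fun p => ?_
    have h1 := Complex.norm_log_one_add_half_le_self (z := -((p : ℕ) : ℂ) ^ (-(1 + (δ : ℂ) + z)))
      (by rw [norm_neg]; exact hx p)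
    rw [norm_neg, ← sub_eq_add_neg] at h1
    exact h1.trans (mul_le_mul_of_nonneg_left (x_norm hz p.2) (by norm_num))
  refine ⟨hs, ?_⟩
  have h0 : HasSum (fun p : Nat.Primes => ((Real.log (1 - ph (1 + δ) (p : ℕ)) : ℝ) : ℂ)) (La δ : ℂ) :=
    Complex.hasSum_ofReal.2 (La_summable hδ).hasSum
  have h1 := hs.hasSum.sub h0
  rw [← h1.tsum_eq]
  obtain ⟨hl1, hl2⟩ := logsum hη (by linarith)
  have h2 := hl1.hasSum.mul_left (δ / 2)
  refine (tsum_of_norm_bounded h2 fun p => ?_).trans ?_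
  · have h3 : ‖((ph (1 + δ) (p : ℕ) : ℝ) : ℂ)‖ ≤ 1 / 2 := by
      rw [Complex.norm_real, Real.norm_of_nonneg (ph_pos _ p.2).le]
      exact ph_le_half (by linarith) p.2
    rw [← log_real hδ p.2]
    refine (log_lip (hx p) h3).trans ?_
    have := x_diff hz p.2
    linarith
  · calc δ / 2 * ∑' p : Nat.Primes, Real.log ((p : ℕ) : ℝ) * ph (1 + 3 * δ / 4) (p : ℕ) ≤
          δ / 2 * (4 / (3 * δ / 4)) := mul_le_mul_of_nonneg_left hl2 (by positivity)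
      _ = 8 / 3 := by field_simp; norm_num
      _ ≤ 3 := by norm_num

/-- (DE3) a bound for the product -/
theorem main : S_DE3 := by
  intro R _
  obtain ⟨k, hk⟩ := exists_nat_ge R
  obtain ⟨C1, hC1, hR⟩ := Rl_bd k
  have hα : Summable fun p : Nat.Primes => C1 * (1 / ((p : ℕ) : ℝ)) ^ 2 := CON.sum_px C1
  refine ⟨Real.exp (∑' p : Nat.Primes, C1 * (1 / ((p : ℕ) : ℝ)) ^ 2) *
    Real.exp ((k : ℝ) ^ 2 + 10 * k), by positivity, ?_⟩
  intro δ b z hδ hδ1 hb hz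
  have hbk : ‖b‖ ≤ k := hb.trans hk
  have hη : 0 < 3 * δ / 4 := by positivity
  have h2δ : 0 < 2 * δ := by positivity
  set x : Nat.Primes → ℂ := fun p => ((p : ℕ) : ℂ) ^ (-(1 + (δ : ℂ) + z)) with hx
  set y : Nat.Primes → ℂ := fun p => ((ph (1 + 2 * δ) (p : ℕ) : ℝ) : ℂ) with hy
  have hp2 : ∀ p : Nat.Primes, 1 / ((p : ℕ) : ℝ) ≤ 1 / 2 := fun p =>
    one_div_le_one_div_of_le (by norm_num) (by exact_mod_cast p.2.two_le)
  have hxn : ∀ p, ‖x p‖ ≤ 1 / ((p : ℕ) : ℝ) := fun p => by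
    rw [one_div]
    exact (x_norm hz p.2).trans (ph_le_inv (by linarith) p.2)
  have hyn : ∀ p, ‖y p‖ ≤ 1 / ((p : ℕ) : ℝ) := fun p => by
    rw [one_div, hy]
    simp only
    rw [Complex.norm_real, Real.norm_of_nonneg (ph_pos _ p.2).le]
    exact ph_le_inv (by linarith) p.2
  have hRp : ∀ p, ‖Rl b (x p) (y p) - 1‖ ≤ C1 * (1 / ((p : ℕ) : ℝ)) ^ 2 := fun p =>
    hR b (x p) (y p) _ hbk (hp2 p) (hxn p) (hyn p)
  have hA : HasProd (fun p => Rl b (x p) (y p)) (∏' p, Rl b (x p) (y p)) := by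
    have h1 : Summable fun p : Nat.Primes => ‖Rl b (x p) (y p) - 1‖ :=
      Summable.of_nonneg_of_le (fun p => norm_nonneg _) hRp hα
    have h2 := multipliable_one_add_of_summable h1
    have h3 : (fun p : Nat.Primes => 1 + (Rl b (x p) (y p) - 1)) =
        fun p : Nat.Primes => Rl b (x p) (y p) := by
      funext p; ring
    rw [h3] at h2
    exact h2.hasProd
  set A : ℂ := ∏' p, Rl b (x p) (y p) with hAd
  have hAn : ‖A‖ ≤ Real.exp (∑' p : Nat.Primes, C1 * (1 / ((p : ℕ) : ℝ)) ^ 2) := by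
    refine DIA2.tprod_bd _ _ (fun p => by positivity) hα (fun p => ?_) hA
    have h1 := norm_add_le (Rl b (x p) (y p) - 1) 1
    rw [sub_add_cancel, norm_one] at h1
    linarith [hRp p]
  obtain ⟨hLs, hLb⟩ := Lx_bd hδ hδ1 hz
  set Lx : ℂ := ∑' p : Nat.Primes, Complex.log (1 - ((p : ℕ) : ℂ) ^ (-(1 + (δ : ℂ) + z))) with hLx
  have hE1 := (hLs.hasSum.mul_right (-(2 * b))).cexp
  have h0 : HasSum (fun p : Nat.Primes => ((Real.log (1 - ph (1 + 2 * δ) (p : ℕ)) : ℝ) : ℂ))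
      (La (2 * δ) : ℂ) := Complex.hasSum_ofReal.2 (La_summable h2δ).hasSum
  have hE2 := (h0.mul_right (-(b ^ 2))).cexp
  have hP := (hA.mul hE1).mul hE2
  have hG : (fun p : Nat.Primes => GD b δ z (p : ℕ)) = fun p : Nat.Primes =>
      Rl b (x p) (y p) * (Complex.exp ∘ fun p : Nat.Primes =>
        Complex.log (1 - ((p : ℕ) : ℂ) ^ (-(1 + (δ : ℂ) + z))) * (-(2 * b))) p *
        (Complex.exp ∘ fun p : Nat.Primes =>
          ((Real.log (1 - ph (1 + 2 * δ) (p : ℕ)) : ℝ) : ℂ) * (-(b ^ 2))) p := by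
    funext p
    simp only [Function.comp_apply]
    have hx1 : (1 : ℂ) - x p ≠ 0 := by
      intro h
      have h1 : x p = 1 := by linear_combination -h
      have h2 := (hxn p).trans (hp2 p)
      rw [h1, norm_one] at h2
      norm_num at h2
    have hy1 : (1 : ℂ) - y p ≠ 0 := by
      intro h
      have h1 : y p = 1 := by linear_combination -h
      have h2 := (hyn p).trans (hp2 p)
      rw [h1, norm_one] at h2
      norm_num at h2
    unfold Rl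
    rw [cpow_def_of_ne_zero hx1, cpow_def_of_ne_zero hy1, ← log_real h2δ p.2, GD_eq b δ z p.2]
    have e1 : Complex.exp (Complex.log (1 - x p) * (2 * b)) *
        Complex.exp (Complex.log (1 - ((p : ℕ) : ℂ) ^ (-(1 + (δ : ℂ) + z))) * (-(2 * b))) = 1 := by
      rw [← Complex.exp_add, hx]
      simp only
      rw [mul_neg, add_neg_cancel, Complex.exp_zero]
    have e2 : Complex.exp (Complex.log (1 - y p) * b ^ 2) *
        Complex.exp (Complex.log (1 - ((ph (1 + 2 * δ) (p : ℕ) : ℝ) : ℂ)) * (-(b ^ 2))) = 1 := by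
      rw [← Complex.exp_add, hy]
      simp only
      rw [mul_neg, add_neg_cancel, Complex.exp_zero]
    linear_combination (-(∑' q : ℕ × ℕ, tm b (x p) (y p) q)) * e1 +
      (-(∑' q : ℕ × ℕ, tm b (x p) (y p) q)) * (Complex.exp (Complex.log (1 - x p) * (2 * b)) *
        Complex.exp (Complex.log (1 - ((p : ℕ) : ℂ) ^ (-(1 + (δ : ℂ) + z))) * (-(2 * b)))) * e2
  rw [hG, hP.tprod_eq]
  rw [Complex.cpow_def_of_ne_zero (by rw [Complex.ofReal_ne_zero]; positivity),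
    ← Complex.ofReal_log h2δ.le]
  set l : ℝ := Real.log (2 * δ) with hl
  have hfin : Complex.exp ((l : ℂ) * (b ^ 2 + 2 * b)) * (A * Complex.exp (Lx * -(2 * b)) *
      Complex.exp ((La (2 * δ) : ℂ) * -(b ^ 2))) =
      A * Complex.exp (b ^ 2 * ((l - La (2 * δ) : ℝ) : ℂ) + 2 * b * ((l : ℂ) - Lx)) := by
    have e1 : b ^ 2 * ((l - La (2 * δ) : ℝ) : ℂ) + 2 * b * ((l : ℂ) - Lx) =
        (l : ℂ) * (b ^ 2 + 2 * b) + (Lx * -(2 * b) + (La (2 * δ) : ℂ) * -(b ^ 2)) := by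
      push_cast
      ring
    rw [e1, Complex.exp_add, Complex.exp_add]
    ring
  rw [hfin, norm_mul]
  refine mul_le_mul hAn ?_ (norm_nonneg _) (Real.exp_pos _).le
  refine (Complex.norm_exp_le_exp_norm _).trans (Real.exp_le_exp.2 ?_)
  refine (norm_add_le _ _).trans ?_
  have hk0 : (0 : ℝ) ≤ k := Nat.cast_nonneg k
  have n1 : ‖b ^ 2 * ((l - La (2 * δ) : ℝ) : ℂ)‖ ≤ (k : ℝ) ^ 2 := by
    rw [norm_mul, norm_pow, Complex.norm_real]
    obtain ⟨a1, a2⟩ := La_bd h2δ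
    rw [← hl] at a1 a2
    rw [Real.norm_of_nonneg a1]
    have a3 := Real.log_le_sub_one_of_pos (show 0 < 1 + 2 * δ by positivity)
    calc ‖b‖ ^ 2 * (l - La (2 * δ)) ≤ (k : ℝ) ^ 2 * 1 :=
          mul_le_mul (pow_le_pow_left₀ (norm_nonneg _) hbk 2) (by linarith) a1 (by positivity)
      _ = _ := mul_one _
  have n2 : ‖2 * b * ((l : ℂ) - Lx)‖ ≤ 10 * k := by
    rw [norm_mul, norm_mul, show ‖(2 : ℂ)‖ = 2 by norm_num]
    have a0 : ‖(l : ℂ) - Lx‖ ≤ 5 := by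
      have a1 : ‖(l : ℂ) - (La δ : ℂ)‖ ≤ 2 := by
        rw [← Complex.ofReal_sub, Complex.norm_real, Real.norm_eq_abs, abs_le]
        obtain ⟨a1, a2⟩ := La_bd hδ
        have a3 := Real.log_le_sub_one_of_pos (show 0 < 1 + δ by positivity)
        have a4 : l = Real.log 2 + Real.log δ := by
          rw [hl, Real.log_mul (by norm_num) hδ.ne']
        have a5 := Real.log_two_lt_d9
        have a6 : 0 < Real.log 2 := Real.log_pos (by norm_num)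
        constructor <;> linarith
      have a2 : (l : ℂ) - Lx = ((l : ℂ) - (La δ : ℂ)) - (Lx - (La δ : ℂ)) := by ring
      rw [a2]
      refine (norm_sub_le _ _).trans ?_
      linarith
    calc 2 * ‖b‖ * ‖(l : ℂ) - Lx‖ ≤ 2 * k * 5 :=
          mul_le_mul (by linarith) a0 (norm_nonneg _) (by positivity)
      _ = _ := by ring
  linarith

end Pool.Agent.N748.MO.DE3
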