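import Pool.Agent.N748.MO.Stm

set_option autoImplicit false

/-!
# Project MO (helper748), part DGF: the finite double sums.  Author: helper160.
-/

namespace Pool.Agent.N748.MO.DGF

open Finset Filter MeasureTheory Topology Complex
open Pool.Agent.N748.MG

theorem FS_pos {y : ℝ} {K n : ℕ} (hn : n ∈ FS y K) : n ≠ 0 := by
  unfold FS at hn
  rw [mem_filter] at hn
  exact hn.2.1

/-- The derivative of one term. -/
theorem hasDeriv (b : ℂ) (δ : ℝ) {h l : ℕ} (hh : h ≠ 0) (hl : l ≠ 0) (z : ℂ) :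
    HasDerivAt (fun z => TD b δ z h l) (TD b δ z h l *
      ((Real.log ((Nat.gcd h l : ℝ) ^ 2 / ((h:ℝ) * l)) : ℝ) : ℂ)) z := by
  have hh' : (h : ℂ) ≠ 0 := Nat.cast_ne_zero.2 hh
  have hl' : (l : ℂ) ≠ 0 := Nat.cast_ne_zero.2 hl
  have hg : Nat.gcd h l ≠ 0 := Nat.gcd_ne_zero_left hh
  have hg' : ((Nat.gcd h l : ℕ) : ℂ) ≠ 0 := Nat.cast_ne_zero.2 hg
  have e1 : HasDerivAt (fun z : ℂ => -((δ:ℂ) + z)) (-1) z :=
    ((hasDerivAt_id z).const_add (δ:ℂ)).neg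
  have e2 : HasDerivAt (fun z : ℂ => 2 * z) 2 z := by
    simpa using (hasDerivAt_id z).const_mul (2:ℂ)
  have h1 := e1.const_cpow (c := (h:ℂ)) (Or.inl hh')
  have h2 := e1.const_cpow (c := (l:ℂ)) (Or.inl hl')
  have h3 := e2.const_cpow (c := ((Nat.gcd h l : ℕ) : ℂ)) (Or.inl hg')
  have h4 := ((((h1.mul h2).mul h3).const_mul (dS b h * dS b l)).div_const
    ((Nat.lcm h l : ℕ) : ℂ))
  have h5 : ((Real.log ((Nat.gcd h l : ℝ) ^ 2 / ((h:ℝ) * l)) : ℝ) : ℂ) =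
      2 * Complex.log ((Nat.gcd h l : ℕ) : ℂ) - Complex.log h - Complex.log l := by
    have q1 : ((Nat.gcd h l : ℕ) : ℝ) ≠ 0 := Nat.cast_ne_zero.2 hg
    have q2 : (h : ℝ) ≠ 0 := Nat.cast_ne_zero.2 hh
    have q3 : (l : ℝ) ≠ 0 := Nat.cast_ne_zero.2 hl
    rw [Real.log_div (pow_ne_zero _ q1) (mul_ne_zero q2 q3), Real.log_pow, Real.log_mul q2 q3]
    push_cast
    ring
  rw [h5]
  have h6 : (fun z => TD b δ z h l) = fun z => (dS b h * dS b l *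
      (((fun z : ℂ => (h:ℂ) ^ (-((δ:ℂ) + z))) * fun z : ℂ => (l:ℂ) ^ (-((δ:ℂ) + z))) *
        fun z : ℂ => ((Nat.gcd h l : ℕ) : ℂ) ^ (2 * z)) z) / ((Nat.lcm h l : ℕ) : ℂ) := by
    funext z
    unfold TD
    simp only [Pi.mul_apply]
    ring
  rw [h6]
  refine h4.congr_deriv ?_
  unfold TD
  simp only [Pi.mul_apply]
  ring

theorem hasDeriv_sum (b : ℂ) (δ : ℝ) (y : ℝ) (K : ℕ) (P z : ℂ) :
    HasDerivAt (fun z => P * ∑ h ∈ FS y K, ∑ l ∈ FS y K, TD b δ z h l)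
      (P * ∑ h ∈ FS y K, ∑ l ∈ FS y K, TD b δ z h l *
        ((Real.log ((Nat.gcd h l : ℝ) ^ 2 / ((h:ℝ) * l)) : ℝ) : ℂ)) z := by
  apply HasDerivAt.const_mul
  apply HasDerivAt.fun_sum
  intro h hh
  apply HasDerivAt.fun_sum
  intro l hl
  exact hasDeriv b δ (FS_pos hh) (FS_pos hl) z

/-- The size of the normalising factor. -/
theorem norm_P {R δ : ℝ} (hδ : 0 < δ) (hδ1 : δ ≤ 1 / 16) {b : ℂ} (hb : ‖b‖ ≤ R) :
    ‖((2 * δ : ℝ) : ℂ) ^ (b ^ 2 + 2 * b)‖ * δ ^ (R ^ 2 + 2 * R + 2) ≤ δ ^ 2 := by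
  have h2 : 0 < 2 * δ := by positivity
  rw [Complex.norm_cpow_eq_rpow_re_of_pos h2]
  have h3 : -(R ^ 2 + 2 * R) ≤ (b ^ 2 + 2 * b).re := by
    have h4 : |(b ^ 2 + 2 * b).re| ≤ ‖b ^ 2 + 2 * b‖ := Complex.abs_re_le_norm _
    have h5 : ‖b ^ 2 + 2 * b‖ ≤ R ^ 2 + 2 * R := by
      refine (norm_add_le _ _).trans ?_
      rw [norm_pow, norm_mul, Complex.norm_ofNat]
      have := norm_nonneg b
      nlinarith
    linarith [(abs_le.1 h4).1]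
  have h6 : (2 * δ) ^ (b ^ 2 + 2 * b).re ≤ (2 * δ) ^ (-(R ^ 2 + 2 * R)) :=
    Real.rpow_le_rpow_of_exponent_ge h2 (by linarith) h3
  have hR : 0 ≤ R := (norm_nonneg b).trans hb
  have h7 : (2 * δ) ^ (-(R ^ 2 + 2 * R)) ≤ δ ^ (-(R ^ 2 + 2 * R)) :=
    Real.rpow_le_rpow_of_nonpos hδ (by linarith) (by nlinarith)
  refine (mul_le_mul_of_nonneg_right (h6.trans h7) (Real.rpow_nonneg hδ.le _)).trans ?_
  rw [← Real.rpow_add hδ]
  have h8 : -(R ^ 2 + 2 * R) + (R ^ 2 + 2 * R + 2) = ((2 : ℕ) : ℝ) := by push_cast; ring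
  rw [h8, Real.rpow_natCast]

theorem main (h1 : S_DGT) (h2 : S_DE1) (h3 : S_DE2) (h4 : S_DE3) : S_DGF := by
  intro R ε hR hε
  obtain ⟨C1, d1, hC1, hd1, H1⟩ := h1 R (R ^ 2 + 2 * R + 2) hR (by positivity)
  obtain ⟨d2, hd2, H2⟩ := h3 R hR (ε / 2) (by positivity)
  obtain ⟨C3, hC3, H3⟩ := h4 R hR
  refine ⟨max C1 (4 * (C3 + 1)), min (min d1 d2) (min (1 / 16) (ε / 2)),
    lt_max_of_lt_left hC1, lt_min (lt_min hd1 hd2) (lt_min (by norm_num) (by positivity)), ?_⟩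
  intro δ hδ hδ' y K hy hy1 hK b hb
  have a1 : δ ≤ d1 := hδ'.trans ((min_le_left _ _).trans (min_le_left _ _))
  have a2 : δ ≤ d2 := hδ'.trans ((min_le_left _ _).trans (min_le_right _ _))
  have a3 : δ ≤ 1 / 16 := hδ'.trans ((min_le_right _ _).trans (min_le_left _ _))
  have a4 : δ ≤ ε / 2 := hδ'.trans ((min_le_right _ _).trans (min_le_right _ _))
  have hlog : 0 ≤ Real.log (1 / δ) := by
    apply Real.log_nonneg
    rw [le_div_iff₀ hδ]; linarith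
  have hCle : C1 * Real.log (1 / δ) ≤ max C1 (4 * (C3 + 1)) * Real.log (1 / δ) :=
    mul_le_mul_of_nonneg_right (le_max_left _ _) hlog
  have hsq : δ ^ 2 ≤ δ := by nlinarith
  have key : ∀ z : ℂ, ‖z‖ ≤ δ / 4 →
      ‖((2 * δ : ℝ) : ℂ) ^ (b ^ 2 + 2 * b) * (∑ h ∈ FS y K, ∑ l ∈ FS y K, TD b δ z h l) -
        ((2 * δ : ℝ) : ℂ) ^ (b ^ 2 + 2 * b) * (∏' p : Nat.Primes, GD b δ z p)‖ ≤ δ := by
    intro z hz
    rw [(h2 b δ z hδ a3 hz).2.tprod_eq, ← mul_sub, norm_mul]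
    refine le_trans ?_ hsq
    refine le_trans ?_ (norm_P hδ a3 hb)
    exact mul_le_mul_of_nonneg_left (H1 δ hδ a1 y K hy (hCle.trans hy1) (hCle.trans hK) b z hb hz)
      (norm_nonneg _)
  constructor
  · have k1 := key 0 (by rw [norm_zero]; positivity)
    have k2 := H2 δ hδ a2 b hb
    have k3 := norm_add_le (((2 * δ : ℝ) : ℂ) ^ (b ^ 2 + 2 * b) *
      (∑ h ∈ FS y K, ∑ l ∈ FS y K, TD b δ 0 h l) -
        ((2 * δ : ℝ) : ℂ) ^ (b ^ 2 + 2 * b) * (∏' p : Nat.Primes, GD b δ 0 p))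
      (((2 * δ : ℝ) : ℂ) ^ (b ^ 2 + 2 * b) * (∏' p : Nat.Primes, GD b δ 0 p) - 4 ^ b * aC (b + 1))
    rw [sub_add_sub_cancel] at k3
    linarith
  · have hd : ∀ z, HasDerivAt (fun z => ((2 * δ : ℝ) : ℂ) ^ (b ^ 2 + 2 * b) *
        ∑ h ∈ FS y K, ∑ l ∈ FS y K, TD b δ z h l) _ z := fun z => hasDeriv_sum b δ y K _ z
    have hr : 0 < δ / 4 := by positivity
    have hc := Complex.norm_deriv_le_of_forall_mem_sphere_norm_le (c := 0) (C := C3 + 1) hr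
      (f := fun z => ((2 * δ : ℝ) : ℂ) ^ (b ^ 2 + 2 * b) *
        ∑ h ∈ FS y K, ∑ l ∈ FS y K, TD b δ z h l)
      (Differentiable.diffContOnCl fun z => (hd z).differentiableAt) ?_
    · rw [(hd 0).deriv] at hc
      refine hc.trans ?_
      rw [div_div_eq_mul_div]
      apply div_le_div_of_nonneg_right _ hδ.le
      have := le_max_right C1 (4 * (C3 + 1))
      linarith
    · intro z hz
      rw [mem_sphere_zero_iff_norm] at hz
      have k1 := key z hz.le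
      have k2 := H3 δ b z hδ a3 hb hz.le
      have k3 := norm_sub_norm_le (((2 * δ : ℝ) : ℂ) ^ (b ^ 2 + 2 * b) *
        (∑ h ∈ FS y K, ∑ l ∈ FS y K, TD b δ z h l))
        (((2 * δ : ℝ) : ℂ) ^ (b ^ 2 + 2 * b) * (∏' p : Nat.Primes, GD b δ z p))
      linarith

end Pool.Agent.N748.MO.DGF
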