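import Pool.Agent.N748.MO.Stm
import Pool.Agent.N748.MG.DIA1

set_option autoImplicit false

/-! The double sums, tails (helper344). -/

namespace Pool.Agent.N748.MO.DGT

open Finset Filter Topology Complex
open Pool.Agent.N748.MG Pool.Agent.N748.MO
open Pool.Agent.N748.MG.DIA1 (gg gg_nonneg gg_series lC_norm b0 mem_FS)

/-! ### the number of divisors -/

/-- the number of divisors -/
noncomputable def dd (n : ℕ) : ℝ := (n.divisors.card : ℝ)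

lemma dd_nonneg (n : ℕ) : 0 ≤ dd n := Nat.cast_nonneg _

lemma one_le_dd {n : ℕ} (hn : n ≠ 0) : 1 ≤ dd n := by
  unfold dd
  have : 0 < n.divisors.card := Finset.card_pos.2 (Nat.nonempty_divisors.2 hn)
  exact_mod_cast this

lemma dd_mul_le (m n : ℕ) : dd (m * n) ≤ dd m * dd n := by
  unfold dd
  rw [Nat.divisors_mul]
  exact_mod_cast Finset.card_mul_le

lemma dS_le {s : ℂ} {k : ℕ} (hs : ‖s‖ ≤ k) {n : ℕ} (hn : n ≠ 0) : ‖dS s n‖ ≤ dd n ^ k := by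
  unfold dS dd
  rw [norm_prod, Nat.card_divisors hn]
  push_cast
  rw [← Finset.prod_pow]
  exact Finset.prod_le_prod (fun _ _ => norm_nonneg _) (fun p _ => lC_norm hs _)

lemma bern (k : ℕ) {x : ℝ} (h0 : 0 ≤ x) (h1 : x ≤ 1) : (1 + x) ^ k ≤ 1 + (2 ^ k - 1) * x := by
  induction k with
  | zero => simp
  | succ k ih =>
    have h2 : (0 : ℝ) ≤ 2 ^ k - 1 := by
      have : (1 : ℝ) ≤ 2 ^ k := one_le_pow₀ (by norm_num)
      linarith
    have h3 : x * x ≤ x := by nlinarith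
    calc (1 + x) ^ (k + 1) = (1 + x) ^ k * (1 + x) := pow_succ _ _
      _ ≤ (1 + (2 ^ k - 1) * x) * (1 + x) := by gcongr
      _ = 1 + 2 ^ k * x + (2 ^ k - 1) * (x * x) := by ring
      _ ≤ 1 + 2 ^ k * x + (2 ^ k - 1) * x := by gcongr
      _ = _ := by ring

/-- the exponent of the majorant -/
noncomputable def s0 (k : ℕ) : ℂ := ((2 ^ k : ℕ) : ℂ)

lemma lC_lower (k m : ℕ) : ((m : ℝ) + 1) ^ k ≤ ‖lC (s0 k) m‖ := by
  induction m with
  | zero => simp [lC]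
  | succ m ih =>
    have hm : (0 : ℝ) < (m : ℝ) + 1 := by positivity
    have h1 : lC (s0 k) (m + 1) = lC (s0 k) m * ((s0 k + m) / ((m : ℂ) + 1)) := by
      unfold lC
      rw [prod_range_succ]
    have h2 : ‖((m : ℂ) + 1)‖ = (m : ℝ) + 1 := by
      have : ((m : ℂ) + 1) = (((m : ℝ) + 1 : ℝ) : ℂ) := by push_cast; rfl
      rw [this, Complex.norm_real, Real.norm_of_nonneg hm.le]
    have h3 : ‖s0 k + m‖ = 2 ^ k + m := by
      have : s0 k + m = ((2 ^ k + m : ℕ) : ℂ) := by unfold s0; push_cast; rfl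
      rw [this, Complex.norm_natCast]
      push_cast
      rfl
    rw [h1, norm_mul, norm_div, h2, h3]
    have h4 := bern k (x := 1 / ((m : ℝ) + 1)) (by positivity) (by
      rw [div_le_one hm]
      have : (0 : ℝ) ≤ m := Nat.cast_nonneg m
      linarith)
    have h5 : (((m + 1 : ℕ) : ℝ) + 1) ^ k = ((m : ℝ) + 1) ^ k * (1 + 1 / ((m : ℝ) + 1)) ^ k := by
      rw [← mul_pow]
      congr 1
      push_cast
      field_simp
    rw [h5]
    apply mul_le_mul ih _ (by positivity) (norm_nonneg _)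
    refine h4.trans (le_of_eq ?_)
    field_simp
    ring

lemma dd_le (k : ℕ) {n : ℕ} (hn : n ≠ 0) : dd n ^ k ≤ ‖dS (s0 k) n‖ := by
  unfold dS dd
  rw [norm_prod, Nat.card_divisors hn]
  push_cast
  rw [← Finset.prod_pow]
  exact Finset.prod_le_prod (fun _ _ => by positivity) (fun p _ => lC_lower k _)

lemma s0_norm (k : ℕ) : ‖s0 k‖ ≤ ((2 ^ k : ℕ) : ℝ) := by
  unfold s0
  rw [Complex.norm_natCast]

/-! ### the weights -/

/-- the weights -/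
noncomputable def WW (k n : ℕ) : ℝ := dd n ^ k * (11 / 10 : ℝ) ^ (ArithmeticFunction.cardFactors n)

lemma WW_nonneg (k n : ℕ) : 0 ≤ WW k n := by
  unfold WW
  have := dd_nonneg n
  positivity

lemma one_le_WW (k : ℕ) {n : ℕ} (hn : n ≠ 0) : 1 ≤ WW k n := by
  unfold WW
  have h1 : 1 ≤ dd n ^ k := one_le_pow₀ (one_le_dd hn)
  have h2 : (1 : ℝ) ≤ (11 / 10 : ℝ) ^ (ArithmeticFunction.cardFactors n) :=
    one_le_pow₀ (by norm_num)
  nlinarith

lemma dd_le_WW (k n : ℕ) : dd n ^ k ≤ WW k n := by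
  unfold WW
  have h1 : 0 ≤ dd n ^ k := pow_nonneg (dd_nonneg n) k
  have h2 : (1 : ℝ) ≤ (11 / 10 : ℝ) ^ (ArithmeticFunction.cardFactors n) :=
    one_le_pow₀ (by norm_num)
  nlinarith

lemma WW_mul_le (k : ℕ) {m n : ℕ} (hm : m ≠ 0) (hn : n ≠ 0) :
    WW k (m * n) ≤ WW k m * WW k n := by
  unfold WW
  rw [ArithmeticFunction.cardFactors_mul hm hn, pow_add]
  have h1 : dd (m * n) ^ k ≤ dd m ^ k * dd n ^ k := by
    rw [← mul_pow]
    exact pow_le_pow_left₀ (dd_nonneg _) (dd_mul_le m n) k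
  calc dd (m * n) ^ k * ((11 / 10 : ℝ) ^ (ArithmeticFunction.cardFactors m) *
        (11 / 10 : ℝ) ^ (ArithmeticFunction.cardFactors n))
      ≤ (dd m ^ k * dd n ^ k) * ((11 / 10 : ℝ) ^ (ArithmeticFunction.cardFactors m) *
        (11 / 10 : ℝ) ^ (ArithmeticFunction.cardFactors n)) := by gcongr
    _ = _ := by ring

lemma WW_sq_le (k : ℕ) {η : ℝ} (hη : 0 < η) (n : ℕ) :
    WW k n ^ 2 * (n : ℝ) ^ (-(1 + η)) ≤ gg (s0 k) η n := by
  rcases eq_or_ne n 0 with rfl | hn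
  · rw [Nat.cast_zero, Real.zero_rpow (by linarith), mul_zero]
    exact gg_nonneg _ _ _
  unfold gg WW
  apply mul_le_mul_of_nonneg_right _ (by positivity)
  rw [mul_pow]
  have h1 := pow_le_pow_left₀ (pow_nonneg (dd_nonneg n) k) (dd_le k hn) 2
  have h2 : ((11 / 10 : ℝ) ^ (ArithmeticFunction.cardFactors n)) ^ 2 ≤
      (5 / 4 : ℝ) ^ (ArithmeticFunction.cardFactors n) := by
    rw [← pow_mul, mul_comm, pow_mul]
    exact pow_le_pow_left₀ (by norm_num) (by norm_num) _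
  exact mul_le_mul h1 h2 (by positivity) (by positivity)

lemma WW_le (k : ℕ) {η : ℝ} (hη : 0 < η) (n : ℕ) :
    WW k n * (n : ℝ) ^ (-(1 + η)) ≤ gg (s0 k) η n := by
  refine le_trans ?_ (WW_sq_le k hη n)
  rcases eq_or_ne n 0 with rfl | hn
  · rw [Nat.cast_zero, Real.zero_rpow (by linarith), mul_zero, mul_zero]
  apply mul_le_mul_of_nonneg_right _ (by positivity)
  have := one_le_WW k hn
  nlinarith

/-! ### the majorant of the double sum -/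

/-- the majorant -/
noncomputable def MM (k : ℕ) (δ : ℝ) (q : ℕ × ℕ) : ℝ :=
  WW k q.1 * WW k q.2 * (((q.1 : ℝ) * q.2) ^ (-(δ / 4)) * ((Nat.gcd q.1 q.2 : ℕ) : ℝ) /
    ((q.1 : ℝ) * q.2))

lemma MM_nonneg (k : ℕ) (δ : ℝ) (q : ℕ × ℕ) : 0 ≤ MM k δ q := by
  unfold MM
  have h1 := WW_nonneg k q.1
  have h2 := WW_nonneg k q.2
  positivity

/-- the terms of the triple sum -/
noncomputable def TT (k : ℕ) (δ : ℝ) (t : ℕ × ℕ × ℕ) : ℝ :=
  (WW k t.1 ^ 2 * (t.1 : ℝ) ^ (-(1 + δ / 2))) *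
    ((WW k t.2.1 * (t.2.1 : ℝ) ^ (-(1 + δ / 4))) * (WW k t.2.2 * (t.2.2 : ℝ) ^ (-(1 + δ / 4))))

lemma TT_nonneg (k : ℕ) (δ : ℝ) (t : ℕ × ℕ × ℕ) : 0 ≤ TT k δ t := by
  unfold TT
  have h1 := WW_nonneg k t.1
  have h2 := WW_nonneg k t.2.1
  have h3 := WW_nonneg k t.2.2
  positivity

/-- the change of variables -/
def ph (q : ℕ × ℕ) : ℕ × ℕ × ℕ := (Nat.gcd q.1 q.2, q.1 / Nat.gcd q.1 q.2, q.2 / Nat.gcd q.1 q.2)

lemma ph_inj : Function.Injective ph := by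
  intro q q' h
  unfold ph at h
  rw [Prod.mk.injEq, Prod.mk.injEq] at h
  obtain ⟨h1, h2, h3⟩ := h
  have e1 := Nat.mul_div_cancel' (Nat.gcd_dvd_left q.1 q.2)
  have e2 := Nat.mul_div_cancel' (Nat.gcd_dvd_right q.1 q.2)
  have e3 := Nat.mul_div_cancel' (Nat.gcd_dvd_left q'.1 q'.2)
  have e4 := Nat.mul_div_cancel' (Nat.gcd_dvd_right q'.1 q'.2)
  apply Prod.ext
  · rw [← e1, ← e3, h2, h1]
  · rw [← e2, ← e4, h3, h1]

lemma powers {δ g m n : ℝ} (hg : 0 < g) (hm : 0 < m) (hn : 0 < n) :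
    (g * m * (g * n)) ^ (-(δ / 4)) * g / (g * m * (g * n)) =
      g ^ (-(1 + δ / 2)) * (m ^ (-(1 + δ / 4)) * n ^ (-(1 + δ / 4))) := by
  have e1 : (g * m * (g * n)) ^ (-(δ / 4)) =
      g ^ (-(δ / 2)) * (m ^ (-(δ / 4)) * n ^ (-(δ / 4))) := by
    rw [Real.mul_rpow (by positivity) (by positivity), Real.mul_rpow hg.le hm.le,
      Real.mul_rpow hg.le hn.le, show -(δ / 2) = -(δ / 4) + -(δ / 4) by ring, Real.rpow_add hg]
    ring
  have e2 : ∀ {x : ℝ} (e : ℝ), 0 < x → x ^ (-(1 + e)) = x ^ (-e) / x := by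
    intro x e hx
    rw [show -(1 + e) = -e - 1 by ring, Real.rpow_sub_one hx.ne']
  rw [e1, e2 _ hg, e2 _ hm, e2 _ hn]
  field_simp

lemma MM_le (k : ℕ) (δ : ℝ) (q : ℕ × ℕ) : MM k δ q ≤ TT k δ (ph q) := by
  obtain ⟨h, l⟩ := q
  rcases Nat.eq_zero_or_pos h with rfl | hh
  · have : MM k δ (0, l) = 0 := by simp [MM]
    rw [this]; exact TT_nonneg _ _ _
  rcases Nat.eq_zero_or_pos l with rfl | hl
  · have : MM k δ (h, 0) = 0 := by simp [MM]
    rw [this]; exact TT_nonneg _ _ _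
  have hg : 0 < Nat.gcd h l := Nat.gcd_pos_of_pos_left l hh
  obtain ⟨m, hm⟩ := Nat.gcd_dvd_left h l
  obtain ⟨n, hn⟩ := Nat.gcd_dvd_right h l
  have hmq : h / Nat.gcd h l = m := Nat.div_eq_of_eq_mul_right hg hm
  have hnq : l / Nat.gcd h l = n := Nat.div_eq_of_eq_mul_right hg hn
  have hm0 : m ≠ 0 := by
    rintro rfl
    rw [mul_zero] at hm
    omega
  have hn0 : n ≠ 0 := by
    rintro rfl
    rw [mul_zero] at hn
    omega
  unfold MM TT ph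
  simp only [hmq, hnq]
  generalize Nat.gcd h l = g at *
  subst hm hn
  have hgR : (0 : ℝ) < g := by exact_mod_cast hg
  have hmR : (0 : ℝ) < m := by exact_mod_cast Nat.pos_of_ne_zero hm0
  have hnR : (0 : ℝ) < n := by exact_mod_cast Nat.pos_of_ne_zero hn0
  have h1 := WW_mul_le k hg.ne' hm0
  have h2 := WW_mul_le k hg.ne' hn0
  have h3 : WW k (g * m) * WW k (g * n) ≤ (WW k g * WW k m) * (WW k g * WW k n) :=
    mul_le_mul h1 h2 (WW_nonneg _ _) (mul_nonneg (WW_nonneg _ _) (WW_nonneg _ _))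
  push_cast
  rw [powers hgR hmR hnR]
  calc WW k (g * m) * WW k (g * n) *
        ((g : ℝ) ^ (-(1 + δ / 2)) * ((m : ℝ) ^ (-(1 + δ / 4)) * (n : ℝ) ^ (-(1 + δ / 4))))
      ≤ (WW k g * WW k m) * (WW k g * WW k n) *
        ((g : ℝ) ^ (-(1 + δ / 2)) * ((m : ℝ) ^ (-(1 + δ / 4)) * (n : ℝ) ^ (-(1 + δ / 4)))) :=
        mul_le_mul_of_nonneg_right h3 (by positivity)
    _ = _ := by ring

/-- the sum of the majorant -/
lemma MM_sum (k : ℕ) {δ : ℝ} (hδ : 0 < δ) (hδ1 : δ ≤ 1) :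
    Summable (MM k δ) ∧ ∑' q, MM k δ q ≤
      (∑' n, gg (s0 k) (δ / 2) n) * ((∑' n, gg (s0 k) (δ / 4) n) * ∑' n, gg (s0 k) (δ / 4) n) := by
  obtain ⟨hG2, -⟩ := gg_series (s0_norm k) (η := δ / 2) (by linarith) (by linarith)
  obtain ⟨hG4, -⟩ := gg_series (s0_norm k) (η := δ / 4) (by linarith) (by linarith)
  have hA : Summable fun n : ℕ => WW k n ^ 2 * (n : ℝ) ^ (-(1 + δ / 2)) :=
    Summable.of_nonneg_of_le (fun n => by positivity) (WW_sq_le k (by linarith)) hG2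
  have hB : Summable fun n : ℕ => WW k n * (n : ℝ) ^ (-(1 + δ / 4)) :=
    Summable.of_nonneg_of_le (fun n => mul_nonneg (WW_nonneg _ _) (by positivity))
      (WW_le k (by linarith)) hG4
  have hBn : ∀ n : ℕ, 0 ≤ WW k n * (n : ℝ) ^ (-(1 + δ / 4)) :=
    fun n => mul_nonneg (WW_nonneg _ _) (by positivity)
  have hAn : ∀ n : ℕ, 0 ≤ WW k n ^ 2 * (n : ℝ) ^ (-(1 + δ / 2)) := fun n => by positivity
  have hBB : Summable fun q : ℕ × ℕ => (WW k q.1 * (q.1 : ℝ) ^ (-(1 + δ / 4))) *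
      (WW k q.2 * (q.2 : ℝ) ^ (-(1 + δ / 4))) := hB.mul_of_nonneg hB hBn hBn
  have hT : Summable (TT k δ) :=
    hA.mul_of_nonneg hBB hAn (fun q => mul_nonneg (hBn _) (hBn _))
  have hTs : ∑' t, TT k δ t = (∑' n : ℕ, WW k n ^ 2 * (n : ℝ) ^ (-(1 + δ / 2))) *
      ((∑' n : ℕ, WW k n * (n : ℝ) ^ (-(1 + δ / 4))) *
        ∑' n : ℕ, WW k n * (n : ℝ) ^ (-(1 + δ / 4))) := by
    rw [hB.tsum_mul_tsum hB hBB, hA.tsum_mul_tsum hBB hT]
    rfl
  have hTph : Summable fun q => TT k δ (ph q) := hT.comp_injective ph_inj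
  have hM : Summable (MM k δ) := Summable.of_nonneg_of_le (MM_nonneg k δ) (MM_le k δ) hTph
  refine ⟨hM, ?_⟩
  have h1 : ∑' q, MM k δ q ≤ ∑' q, TT k δ (ph q) := hM.tsum_le_tsum (MM_le k δ) hTph
  have h2 : ∑' q, TT k δ (ph q) ≤ ∑' t, TT k δ t :=
    tsum_comp_le_tsum_of_inj hT (TT_nonneg k δ) ph_inj
  refine (h1.trans h2).trans ?_
  rw [hTs]
  have h3 := hA.tsum_le_tsum (WW_sq_le k (by linarith)) hG2
  have h4 := hB.tsum_le_tsum (WW_le k (by linarith)) hG4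
  have h5 : 0 ≤ ∑' n : ℕ, WW k n * (n : ℝ) ^ (-(1 + δ / 4)) := tsum_nonneg hBn
  have h6 : 0 ≤ ∑' n, gg (s0 k) (δ / 2) n := tsum_nonneg (gg_nonneg _ _)
  exact mul_le_mul h3 (mul_le_mul h4 h4 h5 (h5.trans h4)) (mul_nonneg h5 h5) h6

/-! ### the terms -/

lemma TD_norm {b z : ℂ} {k : ℕ} (hb : ‖b‖ ≤ k) {δ : ℝ} (hδ : 0 < δ) (hz : ‖z‖ ≤ δ / 4) {h l : ℕ}
    (hh : h ≠ 0) (hl : l ≠ 0) :
    ‖TD b δ z h l‖ ≤ dd h ^ k * dd l ^ k * (((h : ℝ) * l) ^ (-(δ / 2)) *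
      ((Nat.gcd h l : ℕ) : ℝ) / ((h : ℝ) * l)) := by
  have hhp : 0 < h := Nat.pos_of_ne_zero hh
  have hlp : 0 < l := Nat.pos_of_ne_zero hl
  have hgp : 0 < Nat.gcd h l := Nat.gcd_pos_of_pos_left l hhp
  have hhR : (1 : ℝ) ≤ h := by exact_mod_cast hhp
  have hlR : (1 : ℝ) ≤ l := by exact_mod_cast hlp
  have hgR : (1 : ℝ) ≤ (Nat.gcd h l : ℕ) := by exact_mod_cast hgp
  have hre : |z.re| ≤ δ / 4 := (Complex.abs_re_le_norm z).trans hz
  rw [abs_le] at hre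
  have hlcm : ((Nat.gcd h l : ℕ) : ℝ) * ((Nat.lcm h l : ℕ) : ℝ) = (h : ℝ) * l := by
    exact_mod_cast Nat.gcd_mul_lcm h l
  have hg2 : ((Nat.gcd h l : ℕ) : ℝ) * ((Nat.gcd h l : ℕ) : ℝ) ≤ (h : ℝ) * l := by
    have h1 : ((Nat.gcd h l : ℕ) : ℝ) ≤ h := by exact_mod_cast Nat.gcd_le_left l hhp
    have h2 : ((Nat.gcd h l : ℕ) : ℝ) ≤ l := by exact_mod_cast Nat.gcd_le_right h hlp
    exact mul_le_mul h1 h2 (by linarith) (by linarith)
  generalize hG : ((Nat.gcd h l : ℕ) : ℝ) = G at *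
  generalize hL : ((Nat.lcm h l : ℕ) : ℝ) = L at *
  have hG0 : 0 < G := by linarith
  have hHL : 0 < (h : ℝ) * l := by positivity
  have hL0 : 0 < L := by
    by_contra hcon
    push Not at hcon
    have : G * L ≤ 0 := mul_nonpos_of_nonneg_of_nonpos hG0.le hcon
    linarith
  unfold TD
  rw [norm_div, norm_mul, norm_mul, norm_mul, norm_mul, Complex.norm_natCast_cpow_of_pos hhp,
    Complex.norm_natCast_cpow_of_pos hlp, Complex.norm_natCast_cpow_of_pos hgp,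
    Complex.norm_natCast, hG, hL]
  have e1 : (-((δ : ℂ) + z)).re = -(δ + z.re) := by simp
  have e2 : (2 * z).re = 2 * z.re := by simp
  rw [e1, e2]
  have h1 : (h : ℝ) ^ (-(δ + z.re)) ≤ (h : ℝ) ^ (-(3 * δ / 4)) :=
    Real.rpow_le_rpow_of_exponent_le hhR (by linarith)
  have h2 : (l : ℝ) ^ (-(δ + z.re)) ≤ (l : ℝ) ^ (-(3 * δ / 4)) :=
    Real.rpow_le_rpow_of_exponent_le hlR (by linarith)
  have h3 : G ^ (2 * z.re) ≤ ((h : ℝ) * l) ^ (δ / 4) := by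
    calc G ^ (2 * z.re) ≤ G ^ (δ / 2) := Real.rpow_le_rpow_of_exponent_le hgR (by linarith)
      _ = (G * G) ^ (δ / 4) := by
          rw [Real.mul_rpow hG0.le hG0.le, ← Real.rpow_add hG0]
          congr 1
          ring
      _ ≤ _ := Real.rpow_le_rpow (by positivity) hg2 (by linarith)
  have h4 := dS_le hb hh
  have h5 := dS_le hb hl
  have hd1 := dd_nonneg h
  have hd2 := dd_nonneg l
  calc ‖dS b h‖ * ‖dS b l‖ * (h : ℝ) ^ (-(δ + z.re)) * (l : ℝ) ^ (-(δ + z.re)) * G ^ (2 * z.re) / L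
      ≤ dd h ^ k * dd l ^ k * (h : ℝ) ^ (-(3 * δ / 4)) * (l : ℝ) ^ (-(3 * δ / 4)) *
          ((h : ℝ) * l) ^ (δ / 4) / L := by gcongr
    _ = dd h ^ k * dd l ^ k * (((h : ℝ) * l) ^ (-(3 * δ / 4)) * ((h : ℝ) * l) ^ (δ / 4) / L) := by
        rw [Real.mul_rpow (show (0 : ℝ) ≤ h by linarith) (show (0 : ℝ) ≤ l by linarith)
          (z := -(3 * δ / 4))]
        ring
    _ = dd h ^ k * dd l ^ k * (((h : ℝ) * l) ^ (-(δ / 2)) * G / ((h : ℝ) * l)) := by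
        rw [← Real.rpow_add hHL, show -(3 * δ / 4) + δ / 4 = -(δ / 2) by ring, ← hlcm]
        congr 1
        field_simp

lemma TD_zero {b z : ℂ} {δ : ℝ} (hδ : 0 < δ) (hz : ‖z‖ ≤ δ / 4) {h l : ℕ}
    (hhl : h = 0 ∨ l = 0) : TD b δ z h l = 0 := by
  have h0 : (-((δ : ℂ) + z)) ≠ 0 := by
    intro hcon
    have h1 : z = -(δ : ℂ) := by
      have := neg_eq_zero.1 hcon
      exact eq_neg_of_add_eq_zero_right this
    rw [h1, norm_neg, Complex.norm_real, Real.norm_of_nonneg hδ.le] at hz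
    linarith
  unfold TD
  rcases hhl with rfl | rfl
  · rw [Nat.cast_zero, Complex.zero_cpow h0]; simp
  · rw [Nat.cast_zero, Complex.zero_cpow h0]; simp

lemma TD_le {b z : ℂ} {k : ℕ} (hb : ‖b‖ ≤ k) {δ : ℝ} (hδ : 0 < δ) (hz : ‖z‖ ≤ δ / 4)
    (q : ℕ × ℕ) : ‖TD b δ z q.1 q.2‖ ≤ MM k δ q := by
  obtain ⟨h, l⟩ := q
  by_cases hhl : h = 0 ∨ l = 0
  · rw [TD_zero hδ hz hhl, norm_zero]
    exact MM_nonneg _ _ _
  push Not at hhl
  refine (TD_norm hb hδ hz hhl.1 hhl.2).trans ?_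
  unfold MM
  have hhR : (1 : ℝ) ≤ h := by exact_mod_cast Nat.pos_of_ne_zero hhl.1
  have hlR : (1 : ℝ) ≤ l := by exact_mod_cast Nat.pos_of_ne_zero hhl.2
  have h1 : (1 : ℝ) ≤ (h : ℝ) * l := by nlinarith
  have h2 : ((h : ℝ) * l) ^ (-(δ / 2)) ≤ ((h : ℝ) * l) ^ (-(δ / 4)) :=
    Real.rpow_le_rpow_of_exponent_le h1 (by linarith)
  have h3 := dd_le_WW k h
  have h4 := dd_le_WW k l
  have h5 := WW_nonneg k h
  have h6 := dd_nonneg l
  have h7 := dd_nonneg h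
  have h8 : 0 ≤ WW k h * WW k l := mul_nonneg h5 (WW_nonneg k l)
  dsimp only
  gcongr

/-- the bound at an integer outside the set -/
lemma out {y : ℝ} {K n : ℕ} {δ : ℝ} (hδ : 0 < δ) (hy : 2 ≤ y) (k : ℕ) (hn : n ≠ 0)
    (h : n ∉ FS y K) :
    dd n ^ k * (n : ℝ) ^ (-(δ / 4)) ≤ (y ^ (-(δ / 4)) + (10 / 11) ^ K) * WW k n := by
  have hy0 : 0 < y := by linarith
  have hnp : 0 < n := Nat.pos_of_ne_zero hn
  have hn1 : (1 : ℝ) ≤ n := by exact_mod_cast hnp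
  have hW := WW_nonneg k n
  have hA : 0 ≤ y ^ (-(δ / 4)) * WW k n := mul_nonneg (by positivity) hW
  have hB : 0 ≤ (10 / 11 : ℝ) ^ K * WW k n := mul_nonneg (by positivity) hW
  have hd := pow_nonneg (dd_nonneg n) k
  rw [add_mul]
  rcases lt_or_ge K (n.primeFactorsList.length) with hK | hK
  · have h1 : (1 : ℝ) ≤ (10 / 11) ^ K * (11 / 10 : ℝ) ^ (ArithmeticFunction.cardFactors n) := by
      rw [ArithmeticFunction.cardFactors_apply]
      have h2 : (11 / 10 : ℝ) ^ K ≤ (11 / 10 : ℝ) ^ (n.primeFactorsList.length) :=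
        pow_le_pow_right₀ (by norm_num) hK.le
      calc (1 : ℝ) = (10 / 11) ^ K * (11 / 10 : ℝ) ^ K := by rw [← mul_pow]; norm_num
        _ ≤ _ := by gcongr
    have h3 : (n : ℝ) ^ (-(δ / 4)) ≤ 1 := Real.rpow_le_one_of_one_le_of_nonpos hn1 (by linarith)
    have h2 : dd n ^ k * (n : ℝ) ^ (-(δ / 4)) ≤ (10 / 11) ^ K * WW k n := by
      unfold WW
      calc dd n ^ k * (n : ℝ) ^ (-(δ / 4)) ≤ dd n ^ k * 1 := by gcongr
        _ ≤ dd n ^ k * ((10 / 11) ^ K * (11 / 10 : ℝ) ^ (ArithmeticFunction.cardFactors n)) := by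
          gcongr
        _ = _ := by ring
    linarith
  · have h1 : ¬ n.primeFactors ⊆ PA y := fun h1 => h (mem_FS hn h1 hK hy)
    rw [not_subset] at h1
    obtain ⟨p, hp, hpy⟩ := h1
    have hpp := Nat.prime_of_mem_primeFactors hp
    have hpy2 : y < p := by
      unfold PA at hpy
      rw [mem_filter, mem_Icc] at hpy
      have h3 : ⌊y⌋₊ < p := by
        by_contra h4
        push Not at h4
        exact hpy ⟨⟨hpp.two_le, h4⟩, hpp⟩
      exact Nat.lt_of_floor_lt h3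
    have hyn : y ≤ n := by
      have h3 : (p : ℝ) ≤ n := by
        exact_mod_cast Nat.le_of_dvd hnp (Nat.dvd_of_mem_primeFactors hp)
      linarith
    have h3 : (n : ℝ) ^ (-(δ / 4)) ≤ y ^ (-(δ / 4)) :=
      Real.rpow_le_rpow_of_nonpos hy0 hyn (by linarith)
    have h4 : dd n ^ k * (n : ℝ) ^ (-(δ / 4)) ≤ y ^ (-(δ / 4)) * WW k n := by
      rw [mul_comm]
      exact mul_le_mul h3 (dd_le_WW k n) hd (by positivity)
    linarith

lemma tail_le {b z : ℂ} {k : ℕ} (hb : ‖b‖ ≤ k) {δ y : ℝ} {K : ℕ} (hδ : 0 < δ) (hy : 2 ≤ y)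
    (hz : ‖z‖ ≤ δ / 4) (q : ℕ × ℕ) (hq : q ∉ FS y K ×ˢ FS y K) :
    ‖TD b δ z q.1 q.2‖ ≤ (y ^ (-(δ / 4)) + (10 / 11) ^ K) * MM k δ q := by
  obtain ⟨h, l⟩ := q
  have hy0 : 0 < y := by linarith
  have hE : 0 ≤ y ^ (-(δ / 4)) + (10 / 11 : ℝ) ^ K := by positivity
  by_cases hhl : h = 0 ∨ l = 0
  · rw [TD_zero hδ hz hhl, norm_zero]
    exact mul_nonneg hE (MM_nonneg _ _ _)
  push Not at hhl
  refine (TD_norm hb hδ hz hhl.1 hhl.2).trans ?_
  have hhR : (1 : ℝ) ≤ h := by exact_mod_cast Nat.pos_of_ne_zero hhl.1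
  have hlR : (1 : ℝ) ≤ l := by exact_mod_cast Nat.pos_of_ne_zero hhl.2
  have hhl0 : (0 : ℝ) < (h : ℝ) * l := by positivity
  have hsp : ((h : ℝ) * l) ^ (-(δ / 2)) = (h : ℝ) ^ (-(δ / 4)) * (l : ℝ) ^ (-(δ / 4)) *
      ((h : ℝ) * l) ^ (-(δ / 4)) := by
    rw [← Real.mul_rpow (by linarith) (by linarith), ← Real.rpow_add hhl0]
    congr 1
    ring
  have hd1 := pow_nonneg (dd_nonneg h) k
  have hd2 := pow_nonneg (dd_nonneg l) k
  have hW1 := WW_nonneg k h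
  have hW2 := WW_nonneg k l
  have hr1 : (h : ℝ) ^ (-(δ / 4)) ≤ 1 := Real.rpow_le_one_of_one_le_of_nonpos hhR (by linarith)
  have hr2 : (l : ℝ) ^ (-(δ / 4)) ≤ 1 := Real.rpow_le_one_of_one_le_of_nonpos hlR (by linarith)
  have hp1 : 0 ≤ (h : ℝ) ^ (-(δ / 4)) := by positivity
  have hp2 : 0 ≤ (l : ℝ) ^ (-(δ / 4)) := by positivity
  -- the main inequality
  have key : (dd h ^ k * (h : ℝ) ^ (-(δ / 4))) * (dd l ^ k * (l : ℝ) ^ (-(δ / 4))) ≤
      (y ^ (-(δ / 4)) + (10 / 11) ^ K) * (WW k h * WW k l) := by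
    have hx1 : dd h ^ k * (h : ℝ) ^ (-(δ / 4)) ≤ WW k h := by
      calc dd h ^ k * (h : ℝ) ^ (-(δ / 4)) ≤ dd h ^ k * 1 := by gcongr
        _ = dd h ^ k := mul_one _
        _ ≤ _ := dd_le_WW k h
    have hx2 : dd l ^ k * (l : ℝ) ^ (-(δ / 4)) ≤ WW k l := by
      calc dd l ^ k * (l : ℝ) ^ (-(δ / 4)) ≤ dd l ^ k * 1 := by gcongr
        _ = dd l ^ k := mul_one _
        _ ≤ _ := dd_le_WW k l
    rw [mem_product] at hq
    by_cases hh : h ∈ FS y K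
    · have hl : l ∉ FS y K := fun hl => hq ⟨hh, hl⟩
      have ho := out hδ hy k hhl.2 hl
      calc _ ≤ WW k h * ((y ^ (-(δ / 4)) + (10 / 11) ^ K) * WW k l) :=
            mul_le_mul hx1 ho (mul_nonneg hd2 hp2) hW1
        _ = _ := by ring
    · have ho := out hδ hy k hhl.1 hh
      calc _ ≤ ((y ^ (-(δ / 4)) + (10 / 11) ^ K) * WW k h) * WW k l :=
            mul_le_mul ho hx2 (mul_nonneg hd2 hp2) (mul_nonneg hE hW1)
        _ = _ := by ring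
  unfold MM
  dsimp only
  rw [hsp]
  have hG : 0 ≤ ((h : ℝ) * l) ^ (-(δ / 4)) * ((Nat.gcd h l : ℕ) : ℝ) / ((h : ℝ) * l) := by
    positivity
  calc dd h ^ k * dd l ^ k * ((h : ℝ) ^ (-(δ / 4)) * (l : ℝ) ^ (-(δ / 4)) *
        ((h : ℝ) * l) ^ (-(δ / 4)) * ((Nat.gcd h l : ℕ) : ℝ) / ((h : ℝ) * l))
      = ((dd h ^ k * (h : ℝ) ^ (-(δ / 4))) * (dd l ^ k * (l : ℝ) ^ (-(δ / 4)))) *
        (((h : ℝ) * l) ^ (-(δ / 4)) * ((Nat.gcd h l : ℕ) : ℝ) / ((h : ℝ) * l)) := by ring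
    _ ≤ ((y ^ (-(δ / 4)) + (10 / 11) ^ K) * (WW k h * WW k l)) *
        (((h : ℝ) * l) ^ (-(δ / 4)) * ((Nat.gcd h l : ℕ) : ℝ) / ((h : ℝ) * l)) :=
        mul_le_mul_of_nonneg_right key hG
    _ = _ := by ring

/-- the terms are summable -/
theorem summable_TD (b z : ℂ) {δ : ℝ} (hδ : 0 < δ) (hδ1 : δ ≤ 1) (hz : ‖z‖ ≤ δ / 4) :
    Summable fun q : ℕ × ℕ => TD b δ z q.1 q.2 := by
  obtain ⟨k, hk⟩ := exists_nat_ge ‖b‖
  exact Summable.of_norm_bounded (MM_sum k hδ hδ1).1 (TD_le hk hδ hz)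

theorem main : S_DGT := by
  intro R D hR hD
  obtain ⟨k, hk⟩ := exists_nat_ge R
  set c : ℝ := (4 : ℝ) ^ (2 ^ k) * (5 / 4) with hc
  have hc0 : 0 < c := by positivity
  set C1 : ℝ := (Real.exp (8 * b0 (2 ^ k)) * 8 ^ c) ^ 3 with hC1
  have hC1p : 0 < C1 := by positivity
  refine ⟨11 * (D + 1 + 3 * c), min (1 / 2) (1 / (2 * C1)), by positivity,
    lt_min (by norm_num) (by positivity), ?_⟩
  intro δ hδ hδ0 y K hy hylog hK b z hb hz
  have hδ1 : δ ≤ 1 / 2 := hδ0.trans (min_le_left _ _)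
  have hδ2 : δ ≤ 1 / (2 * C1) := hδ0.trans (min_le_right _ _)
  have hbk : ‖b‖ ≤ k := hb.trans hk
  have hy0 : 0 < y := by linarith
  have hL : 0 ≤ Real.log (1 / δ) := by
    apply Real.log_nonneg
    rw [le_div_iff₀ hδ]; linarith
  have hLe : Real.log (1 / δ) = -Real.log δ := by rw [one_div, Real.log_inv]
  obtain ⟨hM, hMs⟩ := MM_sum k hδ (by linarith)
  -- the bound of the sum of the majorant
  have hser : ∀ a : ℝ, 0 < a → a ≤ 4 → 1 ≤ a → ∑' n, gg (s0 k) (δ / a) n ≤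
      (Real.exp (8 * b0 (2 ^ k)) * 8 ^ c) * δ ^ (-c) := by
    intro a ha ha4 ha1
    have h1 : δ / a ≤ 1 := by
      rw [div_le_one ha]; linarith
    refine (gg_series (s0_norm k) (η := δ / a) (by positivity) h1).2.trans ?_
    have h2 : 2 / (δ / a) ≤ 8 / δ := by
      rw [div_div_eq_mul_div]
      apply div_le_div_of_nonneg_right _ hδ.le
      linarith
    calc Real.exp (8 * b0 (2 ^ k)) * (2 / (δ / a)) ^ ((4 : ℝ) ^ (2 ^ k) * (5 / 4))
        ≤ Real.exp (8 * b0 (2 ^ k)) * (8 / δ) ^ c := by gcongr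
      _ = _ := by
          rw [Real.div_rpow (by norm_num) hδ.le, Real.rpow_neg hδ.le]
          ring
  have hsum : ∑' q, MM k δ q ≤ C1 * δ ^ (-(3 * c)) := by
    have h2 := hser 2 (by norm_num) (by norm_num) (by norm_num)
    have h4 := hser 4 (by norm_num) (by norm_num) (by norm_num)
    have h5 : 0 ≤ ∑' n, gg (s0 k) (δ / 4) n := tsum_nonneg (gg_nonneg _ _)
    have h6 : 0 ≤ (Real.exp (8 * b0 (2 ^ k)) * 8 ^ c) * δ ^ (-c) := by positivity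
    refine hMs.trans ((mul_le_mul h2 (mul_le_mul h4 h4 h5 h6) (mul_nonneg h5 h5) h6).trans
      (le_of_eq ?_))
    rw [hC1, show -(3 * c) = -c + (-c + -c) by ring, Real.rpow_add hδ, Real.rpow_add hδ]
    ring
  have hTD : Summable fun q : ℕ × ℕ => TD b δ z q.1 q.2 :=
    Summable.of_norm_bounded hM (TD_le hbk hδ hz)
  -- the tail
  have hsplit : (∑ h ∈ FS y K, ∑ l ∈ FS y K, TD b δ z h l) - ∑' q : ℕ × ℕ, TD b δ z q.1 q.2 =
      -∑' q : ℕ × ℕ, (if q ∈ FS y K ×ˢ FS y K then 0 else TD b δ z q.1 q.2) := by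
    rw [← Finset.sum_product' (f := fun h l => TD b δ z h l)]
    have h1 : HasSum (fun q : ℕ × ℕ => if q ∈ FS y K ×ˢ FS y K then TD b δ z q.1 q.2 else 0)
        (∑ q ∈ FS y K ×ˢ FS y K, TD b δ z q.1 q.2) := by
      have h0 : HasSum (fun q : ℕ × ℕ => if q ∈ FS y K ×ˢ FS y K then TD b δ z q.1 q.2 else 0)
          (∑ q ∈ FS y K ×ˢ FS y K, (if q ∈ FS y K ×ˢ FS y K then TD b δ z q.1 q.2 else 0)) :=
        hasSum_sum_of_ne_finset_zero (fun q hq => by simp only [if_neg hq])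
      have h00 : ∑ q ∈ FS y K ×ˢ FS y K, (if q ∈ FS y K ×ˢ FS y K then TD b δ z q.1 q.2 else 0) =
          ∑ q ∈ FS y K ×ˢ FS y K, TD b δ z q.1 q.2 :=
        sum_congr rfl fun q hq => by simp only [if_pos hq]
      rwa [h00] at h0
    have h2 := hTD.hasSum.sub h1
    have h3 : (fun q : ℕ × ℕ => TD b δ z q.1 q.2 -
        if q ∈ FS y K ×ˢ FS y K then TD b δ z q.1 q.2 else 0) =
        fun q => if q ∈ FS y K ×ˢ FS y K then 0 else TD b δ z q.1 q.2 := by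
      funext q
      split_ifs <;> simp
    rw [h3] at h2
    rw [h2.tsum_eq]
    ring
  rw [hsplit, norm_neg]
  have hE : 0 ≤ y ^ (-(δ / 4)) + (10 / 11 : ℝ) ^ K := by positivity
  have h1 := tsum_of_norm_bounded
    (f := fun q : ℕ × ℕ => if q ∈ FS y K ×ˢ FS y K then 0 else TD b δ z q.1 q.2)
    (hM.hasSum.mul_left (y ^ (-(δ / 4)) + (10 / 11 : ℝ) ^ K)) (by
    intro q
    by_cases hq : q ∈ FS y K ×ˢ FS y K
    · simp only [if_pos hq]
      rw [norm_zero]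
      exact mul_nonneg hE (MM_nonneg _ _ _)
    · simp only [if_neg hq]
      exact tail_le hbk hδ hy hz q hq)
  refine h1.trans ?_
  have h3c : 0 ≤ (D + 1 + 3 * c) * Real.log (1 / δ) := by positivity
  have h2 : y ^ (-(δ / 4)) ≤ δ ^ (D + 1 + 3 * c) := by
    rw [Real.rpow_def_of_pos hy0, Real.rpow_def_of_pos hδ]
    apply Real.exp_le_exp.2
    rw [hLe] at h3c hylog
    nlinarith
  have h3 : (10 / 11 : ℝ) ^ K ≤ δ ^ (D + 1 + 3 * c) := by
    rw [← Real.rpow_natCast, Real.rpow_def_of_pos (by norm_num), Real.rpow_def_of_pos hδ]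
    apply Real.exp_le_exp.2
    have h4 : Real.log (10 / 11) ≤ -(1 / 11) := by
      have := Real.log_le_sub_one_of_pos (show (0 : ℝ) < 10 / 11 by norm_num)
      linarith
    have h5 : (0 : ℝ) ≤ K := Nat.cast_nonneg K
    have h6 : Real.log (10 / 11) * K ≤ -(1 / 11) * K := mul_le_mul_of_nonneg_right h4 h5
    rw [hLe] at hK
    linarith
  have hS0 : 0 ≤ ∑' q, MM k δ q := tsum_nonneg (MM_nonneg k δ)
  calc (y ^ (-(δ / 4)) + (10 / 11 : ℝ) ^ K) * ∑' q, MM k δ q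
      ≤ (δ ^ (D + 1 + 3 * c) + δ ^ (D + 1 + 3 * c)) * (C1 * δ ^ (-(3 * c))) :=
        mul_le_mul (add_le_add h2 h3) hsum hS0 (by positivity)
    _ = 2 * C1 * (δ ^ (D + 1 + 3 * c) * δ ^ (-(3 * c))) := by ring
    _ = (δ * (2 * C1)) * δ ^ D := by
        rw [← Real.rpow_add hδ, show D + 1 + 3 * c + -(3 * c) = 1 + D by ring, Real.rpow_add hδ,
          Real.rpow_one]
        ring
    _ ≤ 1 * δ ^ D := by
        apply mul_le_mul_of_nonneg_right _ (by positivity)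
        rwa [le_div_iff₀ (by positivity)] at hδ2
    _ = δ ^ D := one_mul _

end Pool.Agent.N748.MO.DGT
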