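import Pool.Agent.N748.MO.Stm
import Pool.Agent.N748.MG.Ev
import Pool.Agent.N748.MG.TMC

set_option autoImplicit false

/-!
# Moments with two factors on the critical line: the final theorems (helper701)
-/

namespace Pool.Agent.N748.MO.FIN

open Finset Filter MeasureTheory Topology Complex
open Pool.Agent.N748.MG Pool.Agent.N748.MO

theorem zh_eq (t : ℝ) : zh t = mz 0 t := by
  unfold zh mz pw
  simp

theorem zh_cont : Continuous zh := by
  have h : zh = fun t => ‖riemannZeta (pw 0 t)‖ := by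
    funext t
    rw [zh_eq]
    rfl
  rw [h]
  exact (TMC.zc (by norm_num)).norm

theorem zh_nn (t : ℝ) : 0 ≤ zh t := norm_nonneg _

theorem kp_bd (T : ℝ) : 2 * Real.log T ^ 2 ≤ (kp T : ℝ) ∧ (kp T : ℝ) ≤ 2 * Real.log T ^ 2 + 1 := by
  unfold kp
  exact ⟨Nat.le_ceil _, (Nat.ceil_lt_add_one (by positivity)).le⟩

theorem rg_of {T X : ℝ} (hT : 2 ≤ Real.log T) (hT0 : 0 < T) (h1 : 9 / 10 * Real.log T ≤ Real.log X)
    (h2 : X ≤ 2 * T) (hX : 0 < X) : Rg (kp T) X := by
  have h3 : Real.log X ≤ Real.log 2 + Real.log T := by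
    rw [← Real.log_mul (by norm_num) hT0.ne']
    exact Real.log_le_log hX h2
  have h4 : Real.log 2 < 0.6931471808 := Real.log_two_lt_d9
  obtain ⟨k1, k2⟩ := kp_bd T
  have h5 : 0 ≤ Real.log X := by linarith
  have h6 : Real.log X ≤ 0.7 + Real.log T := by linarith
  refine ⟨le_trans ?_ k1, k2.trans ?_⟩
  · nlinarith
  · nlinarith

theorem loglog : Tendsto (fun T : ℝ => Real.log (Real.log T) / Real.log T) atTop (𝓝 0) :=
  (Real.isLittleO_log_id_atTop.tendsto_div_nhds_zero).comp Real.tendsto_log_atTop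

theorem path_log {X : ℝ → ℝ} {A : ℝ}
    (hX : ∀ᶠ T : ℝ in atTop, T / Real.log T ^ A ≤ X T ∧ X T ≤ 2 * T) :
    Tendsto (fun T => Real.log (X T) / Real.log T) atTop (𝓝 1) := by
  have h1 : Tendsto (fun T : ℝ => 1 - A * (Real.log (Real.log T) / Real.log T)) atTop (𝓝 1) := by
    have := (loglog.const_mul A).const_sub 1
    simpa using this
  have h2 : Tendsto (fun T : ℝ => 1 + Real.log 2 * (Real.log T)⁻¹) atTop (𝓝 1) := by
    have := ((tendsto_inv_atTop_zero.comp Real.tendsto_log_atTop).const_mul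
      (Real.log 2)).const_add 1
    simpa using this
  refine tendsto_of_tendsto_of_tendsto_of_le_of_le' h1 h2 ?_ ?_
  · filter_upwards [hX, eventually_gt_atTop 0,
      Real.tendsto_log_atTop.eventually_gt_atTop 0] with T h3 h4 h5
    have h6 : 0 < T / Real.log T ^ A := by positivity
    have h7 := Real.log_le_log h6 h3.1
    rw [Real.log_div h4.ne' (by positivity), Real.log_rpow h5] at h7
    rw [le_div_iff₀ h5]
    have : (1 - A * (Real.log (Real.log T) / Real.log T)) * Real.log T =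
        Real.log T - A * Real.log (Real.log T) := by field_simp
    rw [this]
    exact h7
  · filter_upwards [hX, eventually_gt_atTop 0,
      Real.tendsto_log_atTop.eventually_gt_atTop 0] with T h3 h4 h5
    have h6 : 0 < T / Real.log T ^ A := by positivity
    have h7 := Real.log_le_log (h6.trans_le h3.1) h3.2
    rw [Real.log_mul (by norm_num) h4.ne'] at h7
    rw [div_le_iff₀ h5]
    have : (1 + Real.log 2 * (Real.log T)⁻¹) * Real.log T = Real.log 2 + Real.log T := by
      field_simp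
      ring
    rw [this]
    exact h7

/-- comparison of the weights -/
theorem wt_le {κ : ℕ} {X Y t : ℝ} (hX : 0 < X) (hXY : X ≤ Y) (ht : 0 < t) :
    0 ≤ wt κ X t ∧ wt κ X t ≤ (Y / X) ^ (κ + 1) * wt κ Y t := by
  have hY : 0 < Y := hX.trans_le hXY
  unfold wt
  refine ⟨by positivity, ?_⟩
  have e : (Y / X) ^ (κ + 1) * (((κ:ℝ) / Y) ^ (κ + 1) * t ^ κ * Real.exp (-((κ:ℝ) / Y * t)) /
      (κ.factorial : ℝ)) = ((κ:ℝ) / X) ^ (κ + 1) * t ^ κ * Real.exp (-((κ:ℝ) / Y * t)) /
      (κ.factorial : ℝ) := by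
    rw [← mul_div_assoc, ← mul_assoc, ← mul_assoc, ← mul_pow]
    congr 4
    field_simp
  rw [e]
  gcongr

theorem wt_meas (κ : ℕ) (X : ℝ) : Measurable (wt κ X) := by
  unfold wt
  fun_prop

theorem gen (g1 : S_CX) (g6 : S_UNS) (g7 : S_W4) (g8 : S_FT) {c : ℝ} {d : ℝ → ℝ} (hd : Adc c d)
    (H : ℝ → ℝ → ℝ) (hH0 : ∀ T x, 0 ≤ H T x) (hHm : ∀ T, Measurable (H T)) (V0 B : ℝ)
    (hV0 : 0 ≤ V0) (hB : 0 < B)
    (hHb : ∀ᶠ T : ℝ in atTop, ∀ x, H T x ≤ (2 * d T) ^ (-V0)) (m1 : ℝ → ℝ)
    (hm1 : ∀ᶠ T : ℝ in atTop, (2 * d T) ^ B ≤ m1 T) (ℓ : ℝ)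
    (hlim : ∀ ν : ℝ → Measure ℝ, CMx ν d (fun s => 4 ^ (s - 1) * aC s) →
      Tendsto (fun T => (2 * d T * ∫ x, Real.exp (2 * x) * H T x ∂(ν T)) / m1 T) atTop (𝓝 ℓ)) :
    Tendsto (fun T => (1 / T * ∫ t in (0:ℝ)..T, zh t ^ 2 * H T (Real.log (mz (d T) t))) /
      (Real.log T * m1 T)) atTop (𝓝 ℓ) := by
  have hAd : Ad d := hd.toAd
  have hlt : ∀ᶠ T in atTop, d T < 1 / 2 := hAd.t0.eventually_lt_const (by norm_num)
  have hinv : ∀ᶠ T : ℝ in atTop, 1 / d T ≤ Real.log T := Ev.linv.app hAd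
  have hL2 : ∀ᶠ T : ℝ in atTop, 2 ≤ Real.log T := Real.tendsto_log_atTop.eventually_ge_atTop 2
  have hFm : ∀ T, d T < 1 / 2 →
      Measurable fun t => zh t ^ 2 * H T (Real.log (mz (d T) t)) := fun T hT =>
    (zh_cont.measurable.pow_const 2).mul
      ((hHm T).comp (Real.measurable_log.comp (TMC.mz_meas hT)))
  refine g6 (fun T t => zh t ^ 2 * H T (Real.log (mz (d T) t))) (fun T => Real.log T * m1 T) ℓ
    (V0 + B + 5) (by linarith) (fun T t => mul_nonneg (sq_nonneg _) (hH0 _ _)) ?_ ?_ ?_ ?_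
  · filter_upwards [hlt] with T hT
    exact hFm T hT
  · -- integrability
    have h2T : Tendsto (fun T : ℝ => 2 * T) atTop atTop :=
      Filter.Tendsto.const_mul_atTop (by norm_num) tendsto_id
    obtain ⟨C, hC, hW⟩ := g7
    filter_upwards [hlt, hAd.pos, hHb, hm1, hL2, h2T.eventually hW, eventually_gt_atTop 1] with
      T a1 a2 a3 a4 a5 a6 a7
    have hT0 : 0 < T := by linarith
    have hm0 : 0 < m1 T := lt_of_lt_of_le (by positivity) a4
    refine ⟨by positivity, ?_, ?_⟩
    · have h1 : IntervalIntegrable (fun t => zh t ^ 2 * (2 * d T) ^ (-V0)) volume 0 (4 * T) :=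
        ((zh_cont.pow 2).mul continuous_const).intervalIntegrable _ _
      refine h1.mono_fun (hFm T a1).aestronglyMeasurable (Eventually.of_forall fun t => ?_)
      simp only
      rw [Real.norm_of_nonneg (mul_nonneg (sq_nonneg _) (hH0 _ _)),
        Real.norm_of_nonneg (by positivity)]
      exact mul_le_mul_of_nonneg_left (a3 _) (sq_nonneg _)
    · intro X hX hX2
      have hRg : Rg (kp T) (2 * T) := by
        refine rg_of a5 hT0 ?_ le_rfl (by positivity)
        have : Real.log T ≤ Real.log (2 * T) := Real.log_le_log hT0 (by linarith)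
        linarith
      have h1 := (a6 (kp T) hRg).2.1
      have h2 := (h1.const_mul ((2 * T / X) ^ (kp T + 1))).mul_const ((2 * d T) ^ (-V0))
      refine h2.mono' ((wt_meas _ _).mul (hFm T a1)).aestronglyMeasurable ?_
      refine (ae_restrict_iff' measurableSet_Ioi).2 (Eventually.of_forall fun t ht => ?_)
      obtain ⟨w1, w2⟩ := wt_le (κ := kp T) hX hX2 (Set.mem_Ioi.1 ht)
      rw [Real.norm_of_nonneg (mul_nonneg w1 (mul_nonneg (sq_nonneg _) (hH0 _ _)))]
      have hz : 0 ≤ zh t ^ 2 := sq_nonneg _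
      calc wt (kp T) X t * (zh t ^ 2 * H T (Real.log (mz (d T) t)))
          ≤ ((2 * T / X) ^ (kp T + 1) * wt (kp T) (2 * T) t) *
            (zh t ^ 2 * (2 * d T) ^ (-V0)) := by
            refine mul_le_mul w2 (mul_le_mul_of_nonneg_left (a3 _) hz)
              (mul_nonneg hz (hH0 _ _)) (w1.trans w2)
        _ = _ := by ring
  · -- the path version
    intro X hX
    have hlog := path_log hX
    have hlog9 : ∀ᶠ T in atTop, 9 / 10 < Real.log (X T) / Real.log T :=
      hlog.eventually_const_lt (by norm_num)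
    have hcond : ∀ᶠ T : ℝ in atTop, T ^ ((1:ℝ) / 2) ≤ X T ∧ X T ≤ T ^ (2:ℝ) ∧
        Rg (kp T) (X T) := by
      filter_upwards [hX, hlog9, hL2, eventually_ge_atTop 2] with T b1 b2 b3 b4
      have hT0 : 0 < T := by linarith
      have hl0 : 0 < Real.log T := by linarith
      have hX0 : 0 < X T := lt_of_lt_of_le (by positivity) b1.1
      rw [lt_div_iff₀ hl0] at b2
      refine ⟨?_, ?_, rg_of b3 hT0 b2.le b1.2 hX0⟩
      · rw [← Real.log_le_log_iff (by positivity) hX0, Real.log_rpow hT0]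
        linarith
      · refine b1.2.trans ?_
        rw [show (2:ℝ) = ((2:ℕ):ℝ) by norm_num, Real.rpow_natCast]
        push_cast
        nlinarith
    obtain ⟨ν, hν, hap⟩ := g1 c (B + 1) V0 d X kp hd (by linarith) hcond
    have hν2 := hlim ν hν
    -- the ratio
    have hE : Tendsto (fun T => (1 / Real.log (X T) * (∫ t in Set.Ioi (0:ℝ),
        wt (kp T) (X T) t * zh t ^ 2 * H T (Real.log (mz (d T) t)))) / m1 T -
        (2 * d T * ∫ x, Real.exp (2 * x) * H T x ∂(ν T)) / m1 T) atTop (𝓝 0) := by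
      refine squeeze_zero_norm' ?_ hAd.t0
      filter_upwards [hap, hm1, hHb, hAd.pos] with T b1 b2 b3 b4
      have hm0 : 0 < m1 T := lt_of_lt_of_le (by positivity) b2
      have h1 := b1 (H T) (hHm T) (fun x => by
        rw [abs_of_nonneg (hH0 _ _)]
        exact b3 x)
      rw [← sub_div, Real.norm_eq_abs, abs_div, abs_of_pos hm0, div_le_iff₀ hm0]
      refine h1.trans ?_
      have h2 : d T ^ B ≤ (2 * d T) ^ B :=
        Real.rpow_le_rpow b4.le (by linarith) hB.le
      calc d T ^ (B + 1) = d T * d T ^ B := by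
            rw [Real.rpow_add b4, Real.rpow_one, mul_comm]
        _ ≤ d T * m1 T := mul_le_mul_of_nonneg_left (h2.trans b2) b4.le
    have h3 := hlog.mul (hE.add hν2)
    rw [zero_add, one_mul] at h3
    refine h3.congr' ?_
    filter_upwards [hlog9, hL2, hm1, hAd.pos] with T b1 b2 b3 b4
    have hl0 : 0 < Real.log T := by linarith
    have hm0 : 0 < m1 T := lt_of_lt_of_le (by positivity) b3
    have hlX : 0 < Real.log (X T) := by
      rw [lt_div_iff₀ hl0] at b1
      linarith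
    rw [sub_add_cancel]
    have e : (∫ t in Set.Ioi (0:ℝ), wt (kp T) (X T) t * zh t ^ 2 * H T (Real.log (mz (d T) t))) =
        ∫ t in Set.Ioi (0:ℝ), wt (kp T) (X T) t * (zh t ^ 2 * H T (Real.log (mz (d T) t))) := by
      refine integral_congr_ae (Eventually.of_forall fun t => ?_)
      simp only
      ring
    rw [e]
    field_simp
  · -- the small range
    have hlim4 : Tendsto (fun T : ℝ => 4 * (Real.log T)⁻¹) atTop (𝓝 0) := by
      have := (tendsto_inv_atTop_zero.comp Real.tendsto_log_atTop).const_mul 4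
      simpa using this
    refine squeeze_zero_norm' ?_ hlim4
    have hUp : ∀ᶠ T : ℝ in atTop, 1000 ≤ 2 * T / Real.log T ^ (V0 + B + 5) := by
      have h2 := (isLittleO_log_rpow_rpow_atTop (V0 + B + 5) one_pos).bound
        (show (0:ℝ) < 1 / 1000 by norm_num)
      filter_upwards [h2, hL2, eventually_gt_atTop 0] with T b1 b2 b3
      have hl0 : 0 < Real.log T := by linarith
      rw [Real.rpow_one, Real.norm_of_nonneg (by positivity), Real.norm_of_nonneg b3.le] at b1
      rw [le_div_iff₀ (by positivity)]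
      linarith
    filter_upwards [hUp, hlt, hAd.pos, hHb, hm1, hL2, hinv, eventually_gt_atTop 0] with
      T a0 a1 a2 a3 a4 a5 a6 hT0
    have hl0 : 0 < Real.log T := by linarith
    have hm0 : 0 < m1 T := lt_of_lt_of_le (by positivity) a4
    set U : ℝ := 2 * T / Real.log T ^ (V0 + B + 5) with hU
    have hU0 : 0 < U := by positivity
    have hUT : U ≤ T := by
      rw [hU, div_le_iff₀ (by positivity)]
      have h1 : (2:ℝ) ≤ Real.log T ^ (V0 + B + 5) := by
        calc (2:ℝ) = 2 ^ (1:ℝ) := (Real.rpow_one 2).symm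
          _ ≤ Real.log T ^ (1:ℝ) := Real.rpow_le_rpow (by norm_num) a5 (by norm_num)
          _ ≤ Real.log T ^ (V0 + B + 5) :=
            Real.rpow_le_rpow_of_exponent_le (by linarith) (by linarith)
      nlinarith
    have hlU : Real.log U ≤ Real.log T := Real.log_le_log hU0 hUT
    have hlU0 : 0 ≤ Real.log U := Real.log_nonneg (by linarith)
    have h4 := g8 U a0
    have hF0 : ∀ t, 0 ≤ zh t ^ 2 * H T (Real.log (mz (d T) t)) := fun t =>
      mul_nonneg (sq_nonneg _) (hH0 _ _)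
    have hI0 : 0 ≤ ∫ t in (0:ℝ)..U, zh t ^ 2 * H T (Real.log (mz (d T) t)) :=
      intervalIntegral.integral_nonneg hU0.le fun t _ => hF0 t
    have hi2 : IntervalIntegrable (fun t => (2 * d T) ^ (-V0) * (1 + zh t ^ 4)) volume 0 U :=
      (continuous_const.mul (continuous_const.add (zh_cont.pow 4))).intervalIntegrable _ _
    have hptw : ∀ t, zh t ^ 2 * H T (Real.log (mz (d T) t)) ≤
        (2 * d T) ^ (-V0) * (1 + zh t ^ 4) := by
      intro t
      have h5 : zh t ^ 2 ≤ 1 + zh t ^ 4 := by nlinarith [sq_nonneg (zh t ^ 2 - 1)]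
      calc zh t ^ 2 * H T (Real.log (mz (d T) t)) ≤ (1 + zh t ^ 4) * (2 * d T) ^ (-V0) :=
            mul_le_mul h5 (a3 _) (hH0 _ _) (by positivity)
        _ = _ := mul_comm _ _
    have hi1 : IntervalIntegrable (fun t => zh t ^ 2 * H T (Real.log (mz (d T) t))) volume 0 U := by
      refine hi2.mono_fun (hFm T a1).aestronglyMeasurable (Eventually.of_forall fun t => ?_)
      simp only
      rw [Real.norm_of_nonneg (hF0 t), Real.norm_of_nonneg (by positivity)]
      exact hptw t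
    have hI1 : ∫ t in (0:ℝ)..U, zh t ^ 2 * H T (Real.log (mz (d T) t)) ≤
        (2 * d T) ^ (-V0) * (U + U * Real.log U ^ 4) := by
      have h5 := intervalIntegral.integral_mono_on hU0.le hi1 hi2 (fun t _ => hptw t)
      refine h5.trans ?_
      rw [intervalIntegral.integral_const_mul, intervalIntegral.integral_add
        (continuous_const.intervalIntegrable _ _)
        (show IntervalIntegrable (fun t => zh t ^ 4) volume 0 U from
          (zh_cont.pow 4).intervalIntegrable _ _)]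
      rw [intervalIntegral.integral_const, sub_zero, smul_eq_mul, mul_one]
      exact mul_le_mul_of_nonneg_left (by linarith) (by positivity)
    have h6 : U + U * Real.log U ^ 4 ≤ 2 * U * Real.log T ^ 4 := by
      have h7 : Real.log U ^ 4 ≤ Real.log T ^ 4 := pow_le_pow_left₀ hlU0 hlU 4
      have h8 : 1 ≤ Real.log T ^ 4 := one_le_pow₀ (by linarith)
      nlinarith
    have h9 : (2 * d T) ^ (-(V0 + B)) ≤ Real.log T ^ (V0 + B) := by
      rw [Real.rpow_neg (by positivity), ← Real.inv_rpow (by positivity)]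
      refine Real.rpow_le_rpow (by positivity) ?_ (by linarith)
      refine le_trans ?_ a6
      rw [one_div]
      exact inv_anti₀ a2 (by linarith)
    rw [Real.norm_of_nonneg (by positivity), div_le_iff₀ (by positivity)]
    calc ∫ t in (0:ℝ)..U, zh t ^ 2 * H T (Real.log (mz (d T) t))
        ≤ (2 * d T) ^ (-V0) * (2 * U * Real.log T ^ 4) :=
          hI1.trans (mul_le_mul_of_nonneg_left h6 (by positivity))
      _ = 4 * T * (Real.log T ^ 4 / Real.log T ^ (V0 + B + 5)) * ((2 * d T) ^ (-(V0 + B)) *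
            (2 * d T) ^ B) := by
          rw [← Real.rpow_add (by positivity), hU, show -(V0 + B) + B = -V0 by ring]
          ring
      _ ≤ 4 * T * (Real.log T ^ 4 / Real.log T ^ (V0 + B + 5)) * (Real.log T ^ (V0 + B) *
            m1 T) := by gcongr
      _ = 4 * T * (Real.log T ^ 4 * Real.log T ^ (V0 + B) / Real.log T ^ (V0 + B + 5)) * m1 T := by
          ring
      _ = 4 * T * (Real.log T)⁻¹ * m1 T := by
          congr 2
          have e7 : Real.log T ^ (V0 + B + 5) =
              Real.log T ^ 4 * Real.log T ^ (V0 + B) * Real.log T := by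
            rw [show V0 + B + 5 = ((4:ℕ):ℝ) + (V0 + B) + 1 by push_cast; ring,
              Real.rpow_add hl0, Real.rpow_add hl0, Real.rpow_one, Real.rpow_natCast]
          rw [e7]
          field_simp
      _ ≤ 4 * T * (Real.log T)⁻¹ * (m1 T * Real.log T) := by
          refine mul_le_mul_of_nonneg_left ?_ (by positivity)
          nlinarith
      _ = 4 * (Real.log T)⁻¹ * (T * (Real.log T * m1 T)) := by ring

theorem om_eq {δ T k lv : ℝ} (h1 : δ < 1 / 2) (hT : 0 ≤ T) :
    ∫ t in {t : ℝ | t ∈ Set.Icc 0 T ∧ mz δ t ≤ Real.exp lv}, zh t ^ 2 * mz δ t ^ (2 * k) =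
      ∫ t in (0:ℝ)..T, zh t ^ 2 * (Set.Iic lv).indicator (fun x => Real.exp (2 * k * x))
        (Real.log (mz δ t)) := by
  have e1 : {t : ℝ | t ∈ Set.Icc 0 T ∧ mz δ t ≤ Real.exp lv} =
      Set.Icc 0 T ∩ {t | mz δ t ≤ Real.exp lv} := rfl
  rw [e1, ← setIntegral_indicator (measurableSet_le (TMC.mz_meas h1) measurable_const),
    intervalIntegral.integral_of_le hT, ← integral_Icc_eq_integral_Ioc]
  refine integral_congr_ae (ae_restrict_of_ae ?_)
  filter_upwards [TMC.ae_ne h1] with t ht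
  have ht' : 0 < mz δ t := lt_of_le_of_ne (norm_nonneg _) (Ne.symm ht)
  by_cases hq : mz δ t ≤ Real.exp lv
  · rw [Set.indicator_of_mem (show t ∈ {t | mz δ t ≤ Real.exp lv} from hq),
      Set.indicator_of_mem (show Real.log (mz δ t) ∈ Set.Iic lv from
        (Real.log_le_iff_le_exp ht').2 hq), Real.rpow_def_of_pos ht']
    congr 2
    ring
  · rw [Set.indicator_of_notMem (show t ∉ {t | mz δ t ≤ Real.exp lv} from hq),
      Set.indicator_of_notMem (show Real.log (mz δ t) ∉ Set.Iic lv from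
        fun h => hq ((Real.log_le_iff_le_exp ht').1 h)), mul_zero]

theorem gre (V : ℝ) : ((4:ℂ) ^ ((V:ℂ) - 1) * aC V).re = 4 ^ (V - 1) * (aC V).re := by
  have e : (4:ℂ) ^ ((V:ℂ) - 1) = (((4:ℝ) ^ (V - 1) : ℝ) : ℂ) := by
    rw [Complex.ofReal_cpow (by norm_num)]
    push_cast
    rfl
  rw [e, Complex.re_ofReal_mul]

/-- the truncated moments -/
theorem trunc (g1 : S_CX) (g6 : S_UNS) (g7 : S_W4) (g8 : S_FT) {c : ℝ} {d : ℝ → ℝ} (hd : Adc c d)
    {k : ℝ} (hk : 0 ≤ k) (lv w : ℝ → ℝ) (W B : ℝ) (hW : 0 ≤ W) (hB : 0 < B)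
    (hlv : ∀ᶠ T : ℝ in atTop, lv T ≤ W * Real.log (1 / (2 * d T)))
    (hw : ∀ᶠ T : ℝ in atTop, 0 < w T ∧ w T ≤ (2 * d T) ^ (-B)) (ℓ : ℝ)
    (hlim : ∀ ν : ℝ → Measure ℝ, CMx ν d (fun s => 4 ^ (s - 1) * aC s) →
      Tendsto (fun T => w T * (2 * d T) * ∫ x in Set.Iic (lv T),
        Real.exp (2 * (k + 1) * x) ∂(ν T)) atTop (𝓝 ℓ)) :
    Tendsto (fun T => w T * (OM k (Real.exp (lv T)) (d T) T / Real.log T)) atTop (𝓝 ℓ) := by
  have hAd : Ad d := hd.toAd
  have hlt : ∀ᶠ T in atTop, d T < 1 / 2 := hAd.t0.eventually_lt_const (by norm_num)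
  have key := gen g1 g6 g7 g8 hd
    (fun T => (Set.Iic (lv T)).indicator (fun x => Real.exp (2 * k * x)))
    (fun T x => Set.indicator_nonneg (fun _ _ => (Real.exp_pos _).le) _)
    (fun T => (by fun_prop : Measurable (fun x : ℝ => Real.exp (2 * k * x))).indicator
      measurableSet_Iic) (2 * k * W) B (by positivity) hB ?_ (fun T => (w T)⁻¹) ?_ ℓ ?_
  · refine key.congr' ?_
    filter_upwards [hlt, hw, eventually_gt_atTop 0] with T b1 b2 b3
    unfold OM
    rw [om_eq b1 b3.le]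
    have := b2.1
    field_simp
  · filter_upwards [hlv, hAd.pos] with T b1 b2 x
    by_cases hx : x ∈ Set.Iic (lv T)
    · rw [Set.indicator_of_mem hx, TMC.level b2]
      apply Real.exp_le_exp.2
      rw [mul_assoc (2 * k)]
      exact mul_le_mul_of_nonneg_left ((Set.mem_Iic.1 hx).trans b1) (by positivity)
    · rw [Set.indicator_of_notMem hx]
      positivity
  · filter_upwards [hw, hAd.pos] with T b1 b2
    have h1 := inv_anti₀ b1.1 b1.2
    rw [Real.rpow_neg (by positivity), inv_inv] at h1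
    exact h1
  · intro ν hν
    refine (hlim ν hν).congr fun T => ?_
    have e : ∫ x, Real.exp (2 * x) * (Set.Iic (lv T)).indicator
        (fun x => Real.exp (2 * k * x)) x ∂(ν T) =
        ∫ x in Set.Iic (lv T), Real.exp (2 * (k + 1) * x) ∂(ν T) := by
      rw [← integral_indicator measurableSet_Iic]
      refine integral_congr_ae (Eventually.of_forall fun x => ?_)
      simp only
      by_cases hx : x ∈ Set.Iic (lv T)
      · rw [Set.indicator_of_mem hx, Set.indicator_of_mem hx, ← Real.exp_add]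
        congr 1
        ring
      · rw [Set.indicator_of_notMem hx, Set.indicator_of_notMem hx, mul_zero]
    rw [e, div_inv_eq_mul]
    ring

theorem small4 {c : ℝ} {d : ℝ → ℝ} (hd : Adc c d) : ∀ᶠ T : ℝ in atTop, 0 < 2 * d T ∧
    2 * d T ≤ 1 / 4 := by
  filter_upwards [hd.toAd.pos, hd.toAd.t0.eventually_le_const (show (0:ℝ) < 1 / 8 by norm_num)]
    with T a b
  constructor <;> linarith

theorem log_nn {y : ℝ} (h0 : 0 < y) (h1 : y ≤ 1 / 4) : 1 / 2 ≤ Real.log (1 / y) := by
  rw [Real.le_log_iff_exp_le (by positivity), le_div_iff₀ h0]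
  have h2 : Real.exp (1 / 2) ≤ Real.exp 1 := Real.exp_le_exp.2 (by norm_num)
  have h3 := Real.exp_one_lt_d9
  have h4 := Real.exp_pos (1 / 2)
  nlinarith

theorem sqrt_bd {y : ℝ} (h0 : 0 < y) (h1 : y ≤ 1 / 4) :
    0 < Real.sqrt (Real.pi * Real.log (1 / y)) ∧
    Real.sqrt (Real.pi * Real.log (1 / y)) ≤ y ^ (-1 : ℝ) := by
  have hl := log_nn h0 h1
  refine ⟨Real.sqrt_pos.2 (by positivity), ?_⟩
  rw [Real.rpow_neg_one, ← one_div, Real.sqrt_le_left (by positivity)]
  have h2 : Real.log (1 / y) ≤ 1 / y := Real.log_le_self (by positivity)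
  have h3 : 4 ≤ 1 / y := by
    rw [le_div_iff₀ h0]
    linarith
  have h4 := Real.pi_le_four
  have h5 : 0 ≤ Real.log (1 / y) := by linarith
  nlinarith [Real.pi_pos]

theorem f1 (g1 : S_CX) (g3 : S_XM1) (g6 : S_UNS) (g7 : S_W4) (g8 : S_FT) : S_F1 := by
  intro c d hd k V hk hkV
  have key := trunc g1 g6 g7 g8 hd hk (fun T => V * Real.log (1 / (2 * d T)))
    (fun T => (2 * d T) ^ ((k + 1) ^ 2 - 1)) (|V|) (|(k + 1) ^ 2 - 1| + 1) (abs_nonneg _)
    (by positivity) ?_ ?_ (4 ^ k * (aC (k + 1)).re) ?_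
  · refine key.congr' ?_
    filter_upwards [small4 hd] with T b1
    rw [TMC.level (by linarith)]
  · filter_upwards [small4 hd] with T b1
    exact mul_le_mul_of_nonneg_right (le_abs_self V) (by linarith [log_nn b1.1 b1.2])
  · filter_upwards [small4 hd] with T b1
    refine ⟨Real.rpow_pos_of_pos b1.1 _, ?_⟩
    refine Real.rpow_le_rpow_of_exponent_ge b1.1 (by linarith [b1.2]) ?_
    linarith [neg_abs_le ((k + 1) ^ 2 - 1)]
  · intro ν hν
    have h1 := g3 ν d _ hν (k + 1) V hkV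
    rw [gre, add_sub_cancel_right] at h1
    rw [Complex.ofReal_add, Complex.ofReal_one] at h1
    refine h1.congr' ?_
    filter_upwards [small4 hd] with T b1
    congr 1
    nth_rw 3 [← Real.rpow_one (2 * d T)]
    rw [← Real.rpow_add b1.1, sub_add_cancel]

theorem f2 (g1 : S_CX) (g4 : S_XM2) (g6 : S_UNS) (g7 : S_W4) (g8 : S_FT) : S_F2 := by
  intro c d hd k y hk
  have key := trunc g1 g6 g7 g8 hd hk (fun T => (k + 1) * Real.log (1 / (2 * d T)) +
      y * Real.sqrt (Real.log (1 / (2 * d T)) / 2))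
    (fun T => (2 * d T) ^ ((k + 1) ^ 2 - 1)) (k + 1 + |y|) (|(k + 1) ^ 2 - 1| + 1) (by positivity)
    (by positivity) ?_ ?_ (4 ^ k * (aC (k + 1)).re * Phi y) ?_
  · refine key.congr' ?_
    filter_upwards [small4 hd] with T b1
    rw [TMC.level (by linarith), Real.exp_add]
  · filter_upwards [small4 hd] with T b1
    have h1 := log_nn b1.1 b1.2
    have h2 : Real.sqrt (Real.log (1 / (2 * d T)) / 2) ≤ Real.log (1 / (2 * d T)) := by
      rw [Real.sqrt_le_left (by linarith)]
      nlinarith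
    have h3 : y * Real.sqrt (Real.log (1 / (2 * d T)) / 2) ≤ |y| * Real.log (1 / (2 * d T)) :=
      mul_le_mul (le_abs_self y) h2 (Real.sqrt_nonneg _) (abs_nonneg _)
    linarith
  · filter_upwards [small4 hd] with T b1
    refine ⟨Real.rpow_pos_of_pos b1.1 _, ?_⟩
    refine Real.rpow_le_rpow_of_exponent_ge b1.1 (by linarith [b1.2]) ?_
    linarith [neg_abs_le ((k + 1) ^ 2 - 1)]
  · intro ν hν
    have h1 := g4 ν d _ hν (k + 1) y
    rw [gre, add_sub_cancel_right] at h1
    rw [Complex.ofReal_add, Complex.ofReal_one] at h1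
    refine h1.congr' ?_
    filter_upwards [small4 hd] with T b1
    congr 1
    nth_rw 3 [← Real.rpow_one (2 * d T)]
    rw [← Real.rpow_add b1.1, sub_add_cancel]

theorem f3 (g1 : S_CX) (g5 : S_XM3) (g6 : S_UNS) (g7 : S_W4) (g8 : S_FT) : S_F3 := by
  intro c d hd k V hk hkV
  have key := trunc g1 g6 g7 g8 hd hk (fun T => V * Real.log (1 / (2 * d T)))
    (fun T => Real.sqrt (Real.pi * Real.log (1 / (2 * d T))) *
      (2 * d T) ^ (2 * (k + 1) * V - V ^ 2 - 1)) (|V|)
    (|2 * (k + 1) * V - V ^ 2 - 1| + 1) (abs_nonneg _)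
    (by positivity) ?_ ?_ (4 ^ (V - 1) * (aC V).re / (2 * (k + 1 - V))) ?_
  · refine key.congr' ?_
    filter_upwards [small4 hd] with T b1
    rw [TMC.level (by linarith)]
  · filter_upwards [small4 hd] with T b1
    exact mul_le_mul_of_nonneg_right (le_abs_self V) (by linarith [log_nn b1.1 b1.2])
  · filter_upwards [small4 hd] with T b1
    obtain ⟨s1, s2⟩ := sqrt_bd b1.1 b1.2
    have h2 := Real.rpow_pos_of_pos b1.1 (2 * (k + 1) * V - V ^ 2 - 1)
    refine ⟨mul_pos s1 h2, ?_⟩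
    refine (mul_le_mul_of_nonneg_right s2 h2.le).trans ?_
    rw [← Real.rpow_add b1.1]
    refine Real.rpow_le_rpow_of_exponent_ge b1.1 (by linarith [b1.2]) ?_
    linarith [neg_abs_le (2 * (k + 1) * V - V ^ 2 - 1)]
  · intro ν hν
    have h1 := g5 ν d _ hν (k + 1) V hkV
    rw [gre] at h1
    refine h1.congr' ?_
    filter_upwards [small4 hd] with T b1
    have e : (2 * d T) ^ (2 * (k + 1) * V - V ^ 2) =
        (2 * d T) ^ (2 * (k + 1) * V - V ^ 2 - 1) * (2 * d T) := by
      nth_rw 3 [← Real.rpow_one (2 * d T)]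
      rw [← Real.rpow_add b1.1, sub_add_cancel]
    rw [e]
    ring

/-- F4 for nonnegative functions -/
theorem f4nn (g1 : S_CX) (g2 : S_XLD) (g6 : S_UNS) (g7 : S_W4) (g8 : S_FT) {c : ℝ} {d : ℝ → ℝ}
    (hd : Adc c d) (V : ℝ) (h : ℝ → ℝ) (S : Finset ℝ) (hm : Measurable h)
    (hcont : ∀ x, x ∉ S → ContinuousAt h x) (hb1 : ∃ C : ℝ, ∀ x, |h x| ≤ C)
    (hb2 : ∃ C : ℝ, ∀ x, |h x| * (1 + x ^ 2) ≤ C * Real.exp (2 * (V - 1) * x))
    (h0 : ∀ x, 0 ≤ h x) :
    Tendsto (fun T : ℝ => Real.sqrt (Real.pi * Real.log (1 / (2 * d T))) *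
      (2 * d T) ^ (-((V - 1) ^ 2)) *
      ((1 / (T * Real.log T)) * ∫ t in (0:ℝ)..T, zh t ^ 2 *
        h (Real.log (mz (d T) t) - V * Real.log (1 / (2 * d T))))) atTop
    (𝓝 (4 ^ (V - 1) * (aC V).re * ∫ x, Real.exp (-(2 * (V - 1) * x)) * h x)) := by
  obtain ⟨C1, hC1⟩ := hb1
  obtain ⟨C2, hC2⟩ := hb2
  have hAd : Ad d := hd.toAd
  have key := gen g1 g6 g7 g8 hd (fun T x => h (x - V * Real.log (1 / (2 * d T))))
    (fun T x => h0 _) (fun T => hm.comp (measurable_id.sub_const _)) 1 ((V - 1) ^ 2 + 1)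
    zero_le_one (by positivity) ?_ (fun T => (Real.sqrt (Real.pi * Real.log (1 / (2 * d T))))⁻¹ *
      (2 * d T) ^ ((V - 1) ^ 2)) ?_
    (4 ^ (V - 1) * (aC V).re * ∫ x, Real.exp (-(2 * (V - 1) * x)) * h x) ?_
  · refine key.congr' ?_
    filter_upwards [small4 hd] with T b1
    obtain ⟨s1, s2⟩ := sqrt_bd b1.1 b1.2
    have h2 := Real.rpow_pos_of_pos b1.1 ((V - 1) ^ 2)
    rw [Real.rpow_neg b1.1.le]
    field_simp
  · have hC : 0 < |C1| + 1 := by positivity
    filter_upwards [small4 hd, hAd.t0.eventually_le_const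
      (show (0:ℝ) < 1 / (2 * (|C1| + 1)) by positivity)] with T b1 b2 x
    refine ((le_abs_self _).trans (hC1 _)).trans ?_
    rw [Real.rpow_neg_one]
    have h3 : 2 * d T ≤ (|C1| + 1)⁻¹ := by
      rw [le_inv_comm₀ b1.1 hC]
      rw [le_div_iff₀ (by positivity)] at b2
      rw [inv_eq_one_div, le_div_iff₀ b1.1]
      linarith
    have h4 := inv_anti₀ b1.1 h3
    rw [inv_inv] at h4
    linarith [le_abs_self C1]
  · filter_upwards [small4 hd] with T b1
    obtain ⟨s1, s2⟩ := sqrt_bd b1.1 b1.2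
    have h2 := Real.rpow_pos_of_pos b1.1 ((V - 1) ^ 2)
    rw [Real.rpow_add b1.1, Real.rpow_one, mul_comm]
    refine mul_le_mul_of_nonneg_right ?_ h2.le
    have h4 := inv_anti₀ s1 s2
    rw [Real.rpow_neg_one, inv_inv] at h4
    exact h4
  · intro ν hν
    have h1 := g2 ν d _ hν V (fun x => Real.exp (2 * x) * h x) S
      ((by fun_prop : Measurable (fun x : ℝ => Real.exp (2 * x))).mul hm)
      (fun x hx => ContinuousAt.mul (by fun_prop) (hcont x hx)) ⟨C2, fun x => by
        rw [abs_mul, Real.abs_exp, mul_assoc]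
        calc Real.exp (2 * x) * (|h x| * (1 + x ^ 2)) ≤
              Real.exp (2 * x) * (C2 * Real.exp (2 * (V - 1) * x)) :=
              mul_le_mul_of_nonneg_left (hC2 x) (Real.exp_pos _).le
          _ = C2 * (Real.exp (2 * x) * Real.exp (2 * (V - 1) * x)) := by ring
          _ = C2 * Real.exp (2 * V * x) := by
              rw [← Real.exp_add]
              congr 2
              ring⟩
    rw [gre] at h1
    have e2 : ∫ x, Real.exp (-(2 * V * x)) * (Real.exp (2 * x) * h x) =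
        ∫ x, Real.exp (-(2 * (V - 1) * x)) * h x := by
      refine integral_congr_ae (Eventually.of_forall fun x => ?_)
      simp only
      rw [← mul_assoc, ← Real.exp_add]
      congr 2
      ring
    rw [e2] at h1
    refine h1.congr' ?_
    filter_upwards [small4 hd] with T b1
    obtain ⟨s1, s2⟩ := sqrt_bd b1.1 b1.2
    have h3 := Real.rpow_pos_of_pos b1.1 ((V - 1) ^ 2)
    have e1 : ∫ x, Real.exp (2 * x) * h (x - V * Real.log (1 / (2 * d T))) ∂(ν T) =
        (2 * d T) ^ (-(2 * V)) * ∫ x, Real.exp (2 * (x - V * Real.log (1 / (2 * d T)))) *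
          h (x - V * Real.log (1 / (2 * d T))) ∂(ν T) := by
      rw [← integral_const_mul]
      refine integral_congr_ae (Eventually.of_forall fun x => ?_)
      simp only
      rw [TMC.level (by linarith : 0 < d T) (2 * V), ← mul_assoc, ← Real.exp_add]
      congr 2
      ring
    have e3 : (2 * d T) ^ (-(V ^ 2)) * (2 * d T) ^ ((V - 1) ^ 2) =
        2 * d T * (2 * d T) ^ (-(2 * V)) := by
      nth_rw 3 [← Real.rpow_one (2 * d T)]
      rw [← Real.rpow_add b1.1, ← Real.rpow_add b1.1]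
      congr 1
      ring
    rw [e1, eq_div_iff (by positivity)]
    set Q := ∫ x, Real.exp (2 * (x - V * Real.log (1 / (2 * d T)))) *
          h (x - V * Real.log (1 / (2 * d T))) ∂(ν T) with hQ
    calc Real.sqrt (Real.pi * Real.log (1 / (2 * d T))) * (2 * d T) ^ (-(V ^ 2)) * Q *
          ((Real.sqrt (Real.pi * Real.log (1 / (2 * d T))))⁻¹ * (2 * d T) ^ ((V - 1) ^ 2))
        = (Real.sqrt (Real.pi * Real.log (1 / (2 * d T))) *
          (Real.sqrt (Real.pi * Real.log (1 / (2 * d T))))⁻¹) *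
          ((2 * d T) ^ (-(V ^ 2)) * (2 * d T) ^ ((V - 1) ^ 2)) * Q := by ring
      _ = 2 * d T * ((2 * d T) ^ (-(2 * V)) * Q) := by
          rw [mul_inv_cancel₀ s1.ne', e3]
          ring

theorem f4 (g1 : S_CX) (g2 : S_XLD) (g6 : S_UNS) (g7 : S_W4) (g8 : S_FT) : S_F4 := by
  intro c d hd V h S hm hcont hb1 hb2
  have hAd : Ad d := hd.toAd
  have hlt : ∀ᶠ T in atTop, d T < 1 / 2 := hAd.t0.eventually_lt_const (by norm_num)
  obtain ⟨C1, hC1⟩ := hb1
  obtain ⟨C2, hC2⟩ := hb2
  have hp1 : ∀ x, |max (h x) 0| ≤ |h x| := fun x => by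
    rw [abs_of_nonneg (le_max_right _ _)]
    exact max_le (le_abs_self _) (abs_nonneg _)
  have hn1 : ∀ x, |max (-h x) 0| ≤ |h x| := fun x => by
    rw [abs_of_nonneg (le_max_right _ _)]
    exact max_le (neg_le_abs _) (abs_nonneg _)
  have hpm : Measurable fun x => max (h x) 0 := hm.max measurable_const
  have hnm : Measurable fun x => max (-h x) 0 := hm.neg.max measurable_const
  have kp := f4nn g1 g2 g6 g7 g8 hd V (fun x => max (h x) 0) S hpm
    (fun x hx => Tendsto.max (hcont x hx) tendsto_const_nhds)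
    ⟨C1, fun x => (hp1 x).trans (hC1 x)⟩
    ⟨C2, fun x => (mul_le_mul_of_nonneg_right (hp1 x) (by positivity)).trans (hC2 x)⟩
    (fun x => le_max_right _ _)
  have kn := f4nn g1 g2 g6 g7 g8 hd V (fun x => max (-h x) 0) S hnm
    (fun x hx => Tendsto.max (hcont x hx).neg tendsto_const_nhds)
    ⟨C1, fun x => (hn1 x).trans (hC1 x)⟩
    ⟨C2, fun x => (mul_le_mul_of_nonneg_right (hn1 x) (by positivity)).trans (hC2 x)⟩
    (fun x => le_max_right _ _)
  have hint : ∀ f : ℝ → ℝ, Measurable f → (∀ x, |f x| ≤ |h x|) →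
      Integrable fun x => Real.exp (-(2 * (V - 1) * x)) * f x := by
    intro f hf hf1
    refine (integrable_inv_one_add_sq.const_mul C2).mono'
      ((by fun_prop : Measurable (fun x : ℝ => Real.exp (-(2 * (V - 1) * x)))).mul
        hf).aestronglyMeasurable (Eventually.of_forall fun x => ?_)
    rw [Real.norm_eq_abs, abs_mul, Real.abs_exp, ← div_eq_mul_inv, le_div_iff₀ (by positivity)]
    calc Real.exp (-(2 * (V - 1) * x)) * |f x| * (1 + x ^ 2)
        ≤ Real.exp (-(2 * (V - 1) * x)) * |h x| * (1 + x ^ 2) :=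
          mul_le_mul_of_nonneg_right (mul_le_mul_of_nonneg_left (hf1 x) (Real.exp_pos _).le)
            (by positivity)
      _ = Real.exp (-(2 * (V - 1) * x)) * (|h x| * (1 + x ^ 2)) := by ring
      _ ≤ Real.exp (-(2 * (V - 1) * x)) * (C2 * Real.exp (2 * (V - 1) * x)) :=
          mul_le_mul_of_nonneg_left (hC2 x) (Real.exp_pos _).le
      _ = C2 * (Real.exp (-(2 * (V - 1) * x)) * Real.exp (2 * (V - 1) * x)) := by ring
      _ = C2 := by rw [← Real.exp_add, neg_add_cancel, Real.exp_zero, mul_one]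
  have hsub := kp.sub kn
  have e1 : 4 ^ (V - 1) * (aC V).re * (∫ x, Real.exp (-(2 * (V - 1) * x)) * max (h x) 0) -
      4 ^ (V - 1) * (aC V).re * (∫ x, Real.exp (-(2 * (V - 1) * x)) * max (-h x) 0) =
      4 ^ (V - 1) * (aC V).re * ∫ x, Real.exp (-(2 * (V - 1) * x)) * h x := by
    rw [← mul_sub, ← integral_sub (hint _ hpm hp1) (hint _ hnm hn1)]
    congr 1
    refine integral_congr_ae (Eventually.of_forall fun x => ?_)
    simp only
    rw [← mul_sub, max_zero_sub_max_neg_zero_eq_self]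
  rw [e1] at hsub
  refine hsub.congr' ?_
  filter_upwards [hlt, eventually_gt_atTop 0] with T b1 b2
  have hi : ∀ f : ℝ → ℝ, Measurable f → (∀ x, |f x| ≤ |h x|) → IntervalIntegrable
      (fun t => zh t ^ 2 * f (Real.log (mz (d T) t) - V * Real.log (1 / (2 * d T)))) volume 0 T := by
    intro f hf hf1
    have h1 : IntervalIntegrable (fun t => zh t ^ 2 * C1) volume 0 T :=
      ((zh_cont.pow 2).mul continuous_const).intervalIntegrable _ _
    refine h1.mono_fun ((zh_cont.measurable.pow_const 2).mul (hf.comp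
      ((Real.measurable_log.comp (TMC.mz_meas b1)).sub_const _))).aestronglyMeasurable
      (Eventually.of_forall fun t => ?_)
    have hC0 : 0 ≤ C1 := (abs_nonneg _).trans (hC1 0)
    simp only
    rw [norm_mul, norm_mul, Real.norm_of_nonneg hC0, Real.norm_eq_abs (f _)]
    exact mul_le_mul_of_nonneg_left ((hf1 _).trans (hC1 _)) (norm_nonneg _)
  rw [← mul_sub, ← mul_sub, ← intervalIntegral.integral_sub (hi _ hpm hp1) (hi _ hnm hn1)]
  congr 2
  refine intervalIntegral.integral_congr fun t _ => ?_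
  rw [← mul_sub, max_zero_sub_max_neg_zero_eq_self]

theorem main (g1 : S_CX) (g2 : S_XLD) (g3 : S_XM1) (g4 : S_XM2) (g5 : S_XM3) (g6 : S_UNS)
    (g7 : S_W4) (g8 : S_FT) : S_F1 ∧ S_F2 ∧ S_F3 ∧ S_F4 :=
  ⟨f1 g1 g3 g6 g7 g8, f2 g1 g4 g6 g7 g8, f3 g1 g5 g6 g7 g8, f4 g1 g2 g6 g7 g8⟩

end Pool.Agent.N748.MO.FIN
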