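import Pool.Agent.N748.MO.Stm
import Pool.Agent.TH158.FM.Main

set_option autoImplicit false

/-! (FT): the fourth moment on the critical line. -/

namespace Pool.Agent.N748.MO.FT

open Pool.Agent.N748.MO

theorem main : S_FT := by
  intro T hT
  have h := Pool.Agent.TH158.FM.fourth_all T hT
  have hlog : 0 ≤ Real.log T := Real.log_nonneg (by linarith)
  have h1 : ∀ t : ℝ, Pool.Agent.TH158.FM.pt (1 / 2) t = 1 / 2 + t * Complex.I := by
    intro t
    unfold Pool.Agent.TH158.FM.pt
    push_cast
    ring
  simp_rw [h1] at h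
  refine h.trans ?_
  have h2 : 0 ≤ T * Real.log T ^ 4 := by positivity
  linarith

end Pool.Agent.N748.MO.FT
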