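import Pool.Agent.N748.MO.Stm
import Pool.Agent.N748.MG.L4
import Pool.Agent.N748.MG.MVS
import Pool.Agent.N748.MG.SIZ

set_option autoImplicit false

/-!
# The eighth moments of the polynomials (MO/L8, helper907), after MG/L4 (helper130)
-/

namespace Pool.Agent.N748.MO.L8

open Finset Filter MeasureTheory Topology Complex
open Pool.Agent.N748.MG
open Pool.Agent.N748.MG.L4 (mf mf_nonneg B B_zero B_nonneg B_one_le B_mono B_le summ_poly sum_mf_le
  F2 F2_ne cc AS_sq sum_cc_le norm_dS mfB_dvd QQp)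

/-! ### multiplicative functions and divisibility -/

theorem mf_dvd (g : ℕ → ℝ) (g1 : ∀ m, 1 ≤ g m) (gm : Monotone g) {a n : ℕ} (h : a ∣ n) (hn : n ≠ 0) :
    mf g a ≤ mf g n := by
  have gnn : ∀ m, 0 ≤ g m := fun m => zero_le_one.trans (g1 m)
  have ha : a ≠ 0 := fun h' => hn (Nat.eq_zero_of_zero_dvd (h' ▸ h))
  unfold mf
  calc ∏ p ∈ a.primeFactors, g (a.factorization p) ≤ ∏ p ∈ a.primeFactors, g (n.factorization p) := by
        apply Finset.prod_le_prod (fun _ _ => gnn _)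
        intro p _
        exact gm ((Nat.factorization_le_iff_dvd ha hn).2 h p)
    _ ≤ _ := by
        rw [← Finset.prod_sdiff (Nat.primeFactors_mono h hn)]
        have h1 : (1 : ℝ) ≤ ∏ p ∈ n.primeFactors \ a.primeFactors, g (n.factorization p) := by
          calc (1 : ℝ) = ∏ p ∈ n.primeFactors \ a.primeFactors, (1 : ℝ) := by simp
            _ ≤ _ := Finset.prod_le_prod (fun _ _ => zero_le_one) fun p _ => g1 _
        have h2 : 0 ≤ ∏ p ∈ a.primeFactors, g (n.factorization p) :=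
          Finset.prod_nonneg fun _ _ => gnn _
        nlinarith

/-! ### squares of Dirichlet polynomials -/

/-- the support of the square -/
noncomputable def Fq (F : Finset ℕ) : Finset ℕ := (F ×ˢ F).image fun q => q.1 * q.2

/-- the coefficients of the square -/
noncomputable def cq (F : Finset ℕ) (c : ℕ → ℂ) (n : ℕ) : ℂ :=
  ∑ q ∈ F ×ˢ F with q.1 * q.2 = n, c q.1 * c q.2

theorem Fq_ne {F : Finset ℕ} (hF : ∀ n ∈ F, n ≠ 0) {n : ℕ} (h : n ∈ Fq F) : n ≠ 0 := by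
  unfold Fq at h
  obtain ⟨q, hq, rfl⟩ := Finset.mem_image.1 h
  obtain ⟨h1, h2⟩ := Finset.mem_product.1 hq
  exact mul_ne_zero (hF _ h1) (hF _ h2)

theorem sq_eq (F : Finset ℕ) (c : ℕ → ℂ) (w : ℂ) :
    (∑ n ∈ F, c n * (n : ℂ) ^ (-w)) ^ 2 = ∑ n ∈ Fq F, cq F c n * (n : ℂ) ^ (-w) := by
  classical
  rw [sq, Finset.sum_mul_sum, ← Finset.sum_product']
  have h1 : ∀ q ∈ F ×ˢ F, (fun q : ℕ × ℕ => q.1 * q.2) q ∈ Fq F := fun q hq =>
    Finset.mem_image_of_mem _ hq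
  have h2 := Finset.sum_fiberwise_of_maps_to h1
    (fun q : ℕ × ℕ => c q.1 * (q.1 : ℂ) ^ (-w) * (c q.2 * (q.2 : ℂ) ^ (-w)))
  rw [← h2]
  refine Finset.sum_congr rfl fun n _ => ?_
  unfold cq
  rw [Finset.sum_mul]
  refine Finset.sum_congr rfl fun q hq => ?_
  have h4 : q.1 * q.2 = n := (Finset.mem_filter.1 hq).2
  have h5 : (n : ℂ) ^ (-w) = (q.1 : ℂ) ^ (-w) * (q.2 : ℂ) ^ (-w) := by
    rw [← natCast_mul_natCast_cpow, ← h4]
    push_cast
    rfl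
  rw [h5]
  ring

theorem sum_cq_le (F : Finset ℕ) (c : ℕ → ℂ) :
    ∑ n ∈ Fq F, ‖cq F c n‖ ≤ (∑ n ∈ F, ‖c n‖) ^ 2 := by
  classical
  have h1 : ∀ q ∈ F ×ˢ F, (fun q : ℕ × ℕ => q.1 * q.2) q ∈ Fq F := fun q hq =>
    Finset.mem_image_of_mem _ hq
  have h2 := Finset.sum_fiberwise_of_maps_to h1 (fun q : ℕ × ℕ => ‖c q.1‖ * ‖c q.2‖)
  have h3 : ∑ q ∈ F ×ˢ F, ‖c q.1‖ * ‖c q.2‖ = (∑ n ∈ F, ‖c n‖) ^ 2 := by
    rw [sq, Finset.sum_mul_sum, ← Finset.sum_product']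
  rw [← h3, ← h2]
  refine Finset.sum_le_sum fun n _ => ?_
  unfold cq
  refine (norm_sum_le _ _).trans (Finset.sum_le_sum fun q _ => ?_)
  rw [norm_mul]

/-- the bound of the coefficients of the square -/
theorem norm_cq (F : Finset ℕ) (c : ℕ → ℂ) (g : ℕ → ℝ) (g1 : ∀ m, 1 ≤ g m) (gm : Monotone g)
    (hc : ∀ n, n ≠ 0 → ‖c n‖ ≤ mf g n) {n : ℕ} (hn : n ≠ 0) :
    ‖cq F c n‖ ≤ n.divisors.card * mf g n ^ 2 := by
  classical
  have gnn : ∀ m, 0 ≤ g m := fun m => zero_le_one.trans (g1 m)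
  unfold cq
  calc ‖∑ q ∈ F ×ˢ F with q.1 * q.2 = n, c q.1 * c q.2‖
      ≤ ∑ q ∈ F ×ˢ F with q.1 * q.2 = n, ‖c q.1 * c q.2‖ := norm_sum_le _ _
    _ ≤ ∑ q ∈ F ×ˢ F with q.1 * q.2 = n, mf g n ^ 2 := by
        refine Finset.sum_le_sum fun q hq => ?_
        have h2 : q.1 * q.2 = n := (Finset.mem_filter.1 hq).2
        have h21 : q.1 ≠ 0 := fun h0 => hn (by rw [← h2, h0, zero_mul])
        have h22 : q.2 ≠ 0 := fun h0 => hn (by rw [← h2, h0, mul_zero])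
        rw [norm_mul, sq]
        have h3 := (hc q.1 h21).trans (mf_dvd g g1 gm (Dvd.intro _ h2) hn)
        have h4 := (hc q.2 h22).trans (mf_dvd g g1 gm (Dvd.intro_left _ h2) hn)
        exact mul_le_mul h3 h4 (norm_nonneg _) (mf_nonneg _ gnn _)
    _ = (((F ×ˢ F).filter fun q => q.1 * q.2 = n).card : ℝ) * mf g n ^ 2 := by
        rw [Finset.sum_const, nsmul_eq_mul]
    _ ≤ _ := by
        apply mul_le_mul_of_nonneg_right _ (by positivity)
        have h6 : ((F ×ˢ F).filter fun q => q.1 * q.2 = n).card ≤ n.divisors.card := by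
          apply Finset.card_le_card_of_injOn (fun q : ℕ × ℕ => q.1)
          · intro q hq
            have h5 : q.1 * q.2 = n := (Finset.mem_filter.1 hq).2
            exact Nat.mem_divisors.2 ⟨Dvd.intro _ h5, hn⟩
          · intro q hq q' hq' h
            have h5 : q.1 * q.2 = n := (Finset.mem_filter.1 hq).2
            have h5' : q'.1 * q'.2 = n := (Finset.mem_filter.1 hq').2
            have h7 : q.1 = q'.1 := h
            have h8 : q.1 ≠ 0 := by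
              intro h0
              rw [h0, zero_mul] at h5
              exact hn h5.symm
            rw [← h7, ← h5] at h5'
            exact Prod.ext h7 (Nat.eq_of_mul_eq_mul_left (Nat.pos_of_ne_zero h8) h5'.symm)
        exact_mod_cast h6

/-- the bound of the coefficients of the square, multiplicative form -/
theorem norm_cq' (F : Finset ℕ) (c : ℕ → ℂ) (g : ℕ → ℝ) (g1 : ∀ m, 1 ≤ g m) (gm : Monotone g)
    (hc : ∀ n, n ≠ 0 → ‖c n‖ ≤ mf g n) {n : ℕ} (hn : n ≠ 0) :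
    ‖cq F c n‖ ≤ mf (fun m : ℕ => ((m : ℝ) + 1) * g m ^ 2) n := by
  refine (norm_cq F c g g1 gm hc hn).trans (le_of_eq ?_)
  rw [Nat.card_divisors hn]
  unfold mf
  push_cast
  rw [Finset.prod_mul_distrib, Finset.prod_pow]

/-! ### the fourth power -/

/-- the coefficients of the fourth power -/
noncomputable def c4 (s : ℂ) (y : ℝ) (K : ℕ) : ℕ → ℂ := cq (F2 y K) (cc s y K)

/-- the support of the fourth power -/
noncomputable def F4 (y : ℝ) (K : ℕ) : Finset ℕ := Fq (F2 y K)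

theorem F4_ne {y : ℝ} {K n : ℕ} (h : n ∈ F4 y K) : n ≠ 0 := Fq_ne (fun _ h => F2_ne h) h

theorem AS_four (s : ℂ) (y : ℝ) (K : ℕ) (w : ℂ) :
    AS s y K w ^ 4 = ∑ n ∈ F4 y K, c4 s y K n * (n : ℂ) ^ (-w) := by
  have h : AS s y K w ^ 4 = (AS s y K w ^ 2) ^ 2 := by ring
  rw [h, AS_sq, sq_eq]
  rfl

theorem sum_c4_le (s : ℂ) (y : ℝ) (K : ℕ) :
    ∑ n ∈ F4 y K, ‖c4 s y K n‖ ≤ (∑ n ∈ FS y K, ‖dS s n‖) ^ 4 := by
  refine (sum_cq_le _ _).trans ?_
  have h : (∑ n ∈ FS y K, ‖dS s n‖) ^ 4 = ((∑ n ∈ FS y K, ‖dS s n‖) ^ 2) ^ 2 := by ring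
  rw [h]
  exact pow_le_pow_left₀ (Finset.sum_nonneg fun _ _ => norm_nonneg _) (sum_cc_le s y K) 2

/-- the bound of the coefficients of the square -/
noncomputable def h2 (k m : ℕ) : ℝ := ((m : ℝ) + 1) * B k m ^ 2

theorem h2_one_le (k : ℕ) (hk : 1 ≤ k) (m : ℕ) : 1 ≤ h2 k m := by
  unfold h2
  have h1 : (1 : ℝ) ≤ B k m ^ 2 := one_le_pow₀ (B_one_le k hk m)
  have h2 : (1 : ℝ) ≤ (m : ℝ) + 1 := by
    have : (0 : ℝ) ≤ m := Nat.cast_nonneg _
    linarith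
  exact one_le_mul_of_one_le_of_one_le h2 h1

theorem h2_mono (k : ℕ) (hk : 1 ≤ k) : Monotone (h2 k) := by
  intro m m' hm
  unfold h2
  have h1 : (m : ℝ) ≤ m' := by exact_mod_cast hm
  have h2 := B_mono k hk hm
  have h3 := B_nonneg k m
  gcongr

/-- the bound of the squares of the coefficients -/
noncomputable def g8 (k m : ℕ) : ℝ := (((m : ℝ) + 1) * h2 k m ^ 2) ^ 2

theorem g8_zero (k : ℕ) : g8 k 0 = 1 := by unfold g8 h2; rw [B_zero]; simp

theorem g8_nonneg (k m : ℕ) : 0 ≤ g8 k m := sq_nonneg _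

theorem g8_le (k m : ℕ) : g8 k m ≤ ((m : ℝ) + 1) ^ (6 + 8 * k) := by
  unfold g8 h2
  have h1 : B k m ^ 8 ≤ (((m : ℝ) + 1) ^ k) ^ 8 := pow_le_pow_left₀ (B_nonneg _ _) (B_le k m) 8
  calc (((m : ℝ) + 1) * (((m : ℝ) + 1) * B k m ^ 2) ^ 2) ^ 2 = ((m : ℝ) + 1) ^ 6 * B k m ^ 8 := by ring
    _ ≤ ((m : ℝ) + 1) ^ 6 * (((m : ℝ) + 1) ^ k) ^ 8 := mul_le_mul_of_nonneg_left h1 (by positivity)
    _ = _ := by rw [← pow_mul, ← pow_add]; congr 1; ring

theorem norm_cc (s : ℂ) (k : ℕ) (hk : 1 ≤ k) (hs : ‖s‖ ≤ k) (y : ℝ) (K : ℕ) {n : ℕ} (hn : n ≠ 0) :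
    ‖cc s y K n‖ ≤ mf (h2 k) n :=
  norm_cq' (FS y K) (dS s) (B k) (B_one_le k hk) (B_mono k hk) (fun n _ => norm_dS s k hs n) hn

theorem norm_c4_sq (s : ℂ) (k : ℕ) (hk : 1 ≤ k) (hs : ‖s‖ ≤ k) (y : ℝ) (K : ℕ) {n : ℕ} (hn : n ≠ 0) :
    ‖c4 s y K n‖ ^ 2 ≤ mf (g8 k) n := by
  have h1 := norm_cq' (F2 y K) (cc s y K) (h2 k) (h2_one_le k hk) (h2_mono k hk)
    (fun n hn => norm_cc s k hk hs y K hn) hn
  refine (pow_le_pow_left₀ (norm_nonneg _) h1 2).trans (le_of_eq ?_)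
  unfold mf g8
  rw [Finset.prod_pow]

/-- (L8) the eighth moments -/
theorem main : S_L8 := by
  intro R hR
  have hV : S_MVS := Pool.Agent.N748.MG.MVS.main
  have hS : S_SIZ := Pool.Agent.N748.MG.SIZ.main
  obtain ⟨k, hk⟩ := exists_nat_ge (max R 1)
  have hkR : R ≤ k := (le_max_left _ _).trans hk
  have hk1 : 1 ≤ k := by exact_mod_cast (le_max_right _ _).trans hk
  obtain ⟨C1, hC1, hsiz⟩ := hS R hR
  set Cg : ℝ := ∑' m, g8 k (m+1) * (1 / 2 : ℝ) ^ m with hCg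
  have hCg0 : 0 ≤ Cg := tsum_nonneg fun m => by have := g8_nonneg k (m+1); positivity
  refine ⟨max (6 + 8 * C1) (Cg + 1), lt_max_of_lt_right (by linarith), ?_⟩
  intro y K δ X hy hδ hδ2 hX hlog s hs
  set C : ℝ := max (6 + 8 * C1) (Cg + 1) with hC
  obtain ⟨hN, hsum⟩ := hsiz y hy K
  have hly : 0 < Real.log y := Real.log_pos (by linarith)
  set E : ℝ := (K + 1) * Real.log y with hE
  have hE0 : 0 < E := by positivity
  have hlog2 : Real.log 2 ≤ E := by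
    have h1 : Real.log 2 ≤ Real.log y := Real.log_le_log (by norm_num) hy
    have h2 : (1 : ℝ) ≤ (K : ℝ) + 1 := by
      have : (0 : ℝ) ≤ K := Nat.cast_nonneg _
      linarith
    rw [hE]
    nlinarith
  have hKE : K * Real.log y ≤ E := by rw [hE]; nlinarith
  -- the sizes
  have hF2 : ∀ n ∈ F2 y K, (n : ℝ) ≤ Real.exp (2 * E) := by
    intro n hn
    unfold F2 QQp at hn
    obtain ⟨q, hq, rfl⟩ := Finset.mem_image.1 hn
    obtain ⟨h1, h2⟩ := Finset.mem_product.1 hq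
    push_cast
    calc (q.1 : ℝ) * q.2 ≤ Real.exp (K * Real.log y) * Real.exp (K * Real.log y) :=
          mul_le_mul (hN q.1 h1).2 (hN q.2 h2).2 (Nat.cast_nonneg _) (Real.exp_pos _).le
      _ = Real.exp (2 * (K * Real.log y)) := by rw [← Real.exp_add]; congr 1; ring
      _ ≤ _ := Real.exp_le_exp.2 (by linarith)
  have hF4 : ∀ n ∈ F4 y K, 1 ≤ n ∧ (n : ℝ) ≤ Real.exp (4 * E) := by
    intro n hn
    refine ⟨Nat.one_le_iff_ne_zero.2 (F4_ne hn), ?_⟩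
    unfold F4 Fq at hn
    obtain ⟨q, hq, rfl⟩ := Finset.mem_image.1 hn
    obtain ⟨h1, h2⟩ := Finset.mem_product.1 hq
    push_cast
    calc (q.1 : ℝ) * q.2 ≤ Real.exp (2 * E) * Real.exp (2 * E) :=
          mul_le_mul (hF2 q.1 h1) (hF2 q.2 h2) (Nat.cast_nonneg _) (Real.exp_pos _).le
      _ = Real.exp (4 * E) := by rw [← Real.exp_add]; congr 1; ring
  have hmv := hV (F4 y K) (Real.exp (4 * E)) (c4 s y K) (c4 s y K) hF4 δ X hδ.le hX.le
  -- the integrals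
  have hint : (∫ t in (0:ℝ)..X, (∑ n ∈ F4 y K, c4 s y K n * (n:ℂ) ^ (-(pw δ t))) *
      (starRingEnd ℂ) (∑ n ∈ F4 y K, c4 s y K n * (n:ℂ) ^ (-(pw δ t)))) =
      ((∫ t in (0:ℝ)..X, ‖AS s y K (pw δ t)‖ ^ 8 : ℝ) : ℂ) := by
    rw [← intervalIntegral.integral_ofReal]
    apply intervalIntegral.integral_congr
    intro t _
    simp only
    rw [← AS_four, Complex.mul_conj, Complex.normSq_eq_norm_sq, norm_pow]
    push_cast
    ring
  have hdiag : ∑ n ∈ F4 y K, c4 s y K n * (starRingEnd ℂ) (c4 s y K n) *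
      (((n:ℝ) ^ (-(1 + 2 * δ)) : ℝ) : ℂ) =
      ((∑ n ∈ F4 y K, ‖c4 s y K n‖ ^ 2 * (n:ℝ) ^ (-(1 + 2 * δ)) : ℝ) : ℂ) := by
    rw [Complex.ofReal_sum]
    refine Finset.sum_congr rfl fun n _ => ?_
    rw [Complex.mul_conj, Complex.normSq_eq_norm_sq]
    push_cast
    ring
  rw [hint, hdiag, ← Complex.ofReal_mul, ← Complex.ofReal_sub, Complex.norm_real, Real.norm_eq_abs] at hmv
  have h1 := (abs_le.1 hmv).2
  -- the diagonal
  have hd1 : ∑ n ∈ F4 y K, ‖c4 s y K n‖ ^ 2 * (n:ℝ) ^ (-(1 + 2 * δ)) ≤ δ ^ (-Cg) := by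
    calc ∑ n ∈ F4 y K, ‖c4 s y K n‖ ^ 2 * (n:ℝ) ^ (-(1 + 2 * δ))
        ≤ ∑ n ∈ F4 y K, mf (g8 k) n * (n:ℝ) ^ (-(1 + 2 * δ)) := by
          refine Finset.sum_le_sum fun n hn => ?_
          apply mul_le_mul_of_nonneg_right _ (Real.rpow_nonneg (Nat.cast_nonneg _) _)
          exact norm_c4_sq s k hk1 (hs.trans hkR) y K (F4_ne hn)
      _ ≤ (1 + 1 / (2 * δ)) ^ Cg :=
          sum_mf_le (g8 k) (g8_zero k) (g8_nonneg k) (summ_poly _ (g8_nonneg k) _ (g8_le k))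
            (by positivity) _
      _ ≤ (1 / δ) ^ Cg := by
          apply Real.rpow_le_rpow (by positivity) _ hCg0
          rw [le_div_iff₀ hδ]
          field_simp
          linarith
      _ = δ ^ (-Cg) := by
          rw [one_div, Real.inv_rpow hδ.le, Real.rpow_neg hδ.le]
  -- the error
  have hs2 : ∑ n ∈ F4 y K, ‖c4 s y K n‖ ≤ Real.exp (4 * (C1 * E)) := by
    calc ∑ n ∈ F4 y K, ‖c4 s y K n‖ ≤ (∑ n ∈ FS y K, ‖dS s n‖) ^ 4 := sum_c4_le s y K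
      _ ≤ (Real.exp (C1 * E)) ^ 4 := by
          apply pow_le_pow_left₀ (Finset.sum_nonneg fun _ _ => norm_nonneg _)
          exact hsum s hs
      _ = _ := by rw [← Real.exp_nat_mul]; congr 1
  have hs0 : 0 ≤ ∑ n ∈ F4 y K, ‖c4 s y K n‖ := Finset.sum_nonneg fun _ _ => norm_nonneg _
  have herr : 4 * Real.exp (4 * E) * (∑ n ∈ F4 y K, ‖c4 s y K n‖) * (∑ n ∈ F4 y K, ‖c4 s y K n‖) ≤ X := by
    calc 4 * Real.exp (4 * E) * (∑ n ∈ F4 y K, ‖c4 s y K n‖) * (∑ n ∈ F4 y K, ‖c4 s y K n‖)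
        ≤ 4 * Real.exp (4 * E) * Real.exp (4 * (C1 * E)) * Real.exp (4 * (C1 * E)) := by gcongr
      _ ≤ Real.exp (2 * E) * Real.exp (4 * E) * Real.exp (4 * (C1 * E)) * Real.exp (4 * (C1 * E)) := by
          have h4 : (4 : ℝ) ≤ Real.exp (2 * E) := by
            have h5 : (4 : ℝ) = Real.exp (2 * Real.log 2) := by
              rw [mul_comm, Real.exp_mul, Real.exp_log (by norm_num)]; norm_num
            rw [h5]
            exact Real.exp_le_exp.2 (by linarith)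
          gcongr
      _ = Real.exp ((6 + 8 * C1) * E) := by
          rw [← Real.exp_add, ← Real.exp_add, ← Real.exp_add]; congr 1; ring
      _ ≤ Real.exp (Real.log X) := by
          apply Real.exp_le_exp.2
          refine le_trans ?_ hlog
          exact mul_le_mul_of_nonneg_right (le_max_left _ _) hE0.le
      _ = X := Real.exp_log hX
  have hfin : X * δ ^ (-Cg) + X ≤ X * δ ^ (-C) := by
    have h6 : 1 ≤ δ ^ (-Cg) := by
      rw [Real.rpow_neg hδ.le]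
      rw [← one_div, le_div_iff₀ (Real.rpow_pos_of_pos hδ _), one_mul]
      exact Real.rpow_le_one hδ.le (by linarith) hCg0
    have h7 : 2 * δ ^ (-Cg) ≤ δ ^ (-(Cg + 1)) := by
      have h8 : δ ^ (-(Cg + 1)) = δ ^ (-Cg) / δ := by
        rw [show -(Cg + 1) = -Cg - 1 by ring, Real.rpow_sub_one hδ.ne']
      rw [h8, le_div_iff₀ hδ]
      nlinarith
    have h9 : δ ^ (-(Cg + 1)) ≤ δ ^ (-C) :=
      Real.rpow_le_rpow_of_exponent_ge hδ (by linarith) (by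
        have := le_max_right (6 + 8 * C1) (Cg + 1)
        linarith)
    nlinarith
  have h10 : X * ∑ n ∈ F4 y K, ‖c4 s y K n‖ ^ 2 * (n:ℝ) ^ (-(1 + 2 * δ)) ≤ X * δ ^ (-Cg) :=
    mul_le_mul_of_nonneg_left hd1 hX.le
  linarith

end Pool.Agent.N748.MO.L8
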