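import Pool.Agent.N748.MO.Stm
import Pool.Agent.N748.MG.CM
import Pool.Agent.N748.MG.CONT

set_option autoImplicit false

/-! (OCM) complex moments with the weight, outside tiny sets (helper61, for project MO of helper748).

After `Pool/Agent/N748/MG/CM.lean`. -/

namespace Pool.Agent.N748.MO.OCM

open Finset Filter MeasureTheory Topology Complex
open Pool.Agent.N748.MG
open Pool.Agent.N748.MG.CM (conj_dS AS_cont zeta_meas rpow_eq)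

/-! ### integrals -/

/-- a bounded function times an integrable weight -/
lemma int_mul {g : ℝ → ℝ} {F : ℝ → ℂ} {E : Set ℝ} (hE : MeasurableSet E) (hg : IntegrableOn g E)
    (hF : Measurable F) {M : ℝ} (hM : ∀ t ∈ E, ‖F t‖ ≤ M) :
    IntegrableOn (fun t => ((g t : ℝ) : ℂ) * F t) E := by
  have h1 : IntegrableOn (fun t => ((g t : ℝ) : ℂ)) E := hg.ofReal
  refine Integrable.mul_bdd (c := M) h1 hF.aestronglyMeasurable ?_
  exact (ae_restrict_iff' hE).2 (Eventually.of_forall hM)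

/-- comparison on the good set -/
lemma cmpN (g : ℝ → ℝ) (f F : ℝ → ℂ) (hf : Measurable f) (hF : Measurable F) (N : Set ℝ)
    (hN : MeasurableSet N) (hN0 : N ⊆ Set.Ioi 0) (hg : IntegrableOn g (Set.Ioi 0))
    (hg0 : ∀ t ∈ Set.Ioi (0:ℝ), 0 ≤ g t) (M : ℝ) (hM : ∀ t ∈ Set.Ioi (0:ℝ), ‖F t‖ ≤ M) (c0 : ℝ) (hc0 : 0 ≤ c0)
    (h : ∀ t ∈ N, ‖f t - F t‖ ≤ c0) :
    ‖(∫ t in N, ((g t : ℝ) : ℂ) * f t) - ∫ t in N, ((g t : ℝ) : ℂ) * F t‖ ≤ c0 * ∫ t in Set.Ioi (0:ℝ), g t := by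
  have hgN : IntegrableOn g N := hg.mono_set hN0
  have i1 : IntegrableOn (fun t => ((g t : ℝ) : ℂ) * F t) N := int_mul hN hgN hF (fun t ht => hM t (hN0 ht))
  have i2 : IntegrableOn (fun t => ((g t : ℝ) : ℂ) * f t) N := by
    refine int_mul (M := M + c0) hN hgN hf fun t ht => ?_
    have h1 := h t ht
    have h2 := hM t (hN0 ht)
    have h3 : f t = F t + (f t - F t) := by ring
    rw [h3]
    exact (norm_add_le _ _).trans (add_le_add h2 h1)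
  rw [← integral_sub i2 i1]
  have h1 : ‖∫ t in N, (((g t : ℝ) : ℂ) * f t - ((g t : ℝ) : ℂ) * F t)‖ ≤ ∫ t in N, c0 * g t := by
    refine norm_integral_le_of_norm_le (hgN.const_mul c0) ?_
    refine (ae_restrict_iff' hN).2 (Eventually.of_forall fun t ht => ?_)
    rw [← mul_sub, norm_mul, Complex.norm_real, Real.norm_eq_abs, abs_of_nonneg (hg0 t (hN0 ht)), mul_comm]
    exact mul_le_mul_of_nonneg_right (h t ht) (hg0 t (hN0 ht))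
  refine h1.trans ?_
  rw [integral_const_mul]
  refine mul_le_mul_of_nonneg_left ?_ hc0
  refine setIntegral_mono_set hg ?_ hN0.eventuallyLE
  exact (ae_restrict_iff' measurableSet_Ioi).2 (Eventually.of_forall fun t ht => hg0 t ht)

/-- the integral over the tail -/
lemma tail (g : ℝ → ℝ) (F : ℝ → ℂ) (E : Set ℝ) (hE : MeasurableSet E) (hE0 : E ⊆ Set.Ioi 0)
    (hg : IntegrableOn g (Set.Ioi 0)) (hg0 : ∀ t ∈ Set.Ioi (0:ℝ), 0 ≤ g t) (M : ℝ)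
    (hM : ∀ t ∈ Set.Ioi (0:ℝ), ‖F t‖ ≤ M) :
    ‖∫ t in E, ((g t : ℝ) : ℂ) * F t‖ ≤ M * ∫ t in E, g t := by
  have hgE : IntegrableOn g E := hg.mono_set hE0
  rw [← integral_const_mul]
  refine norm_integral_le_of_norm_le (hgE.const_mul M) ?_
  refine (ae_restrict_iff' hE).2 (Eventually.of_forall fun t ht => ?_)
  rw [norm_mul, Complex.norm_real, Real.norm_eq_abs, abs_of_nonneg (hg0 t (hE0 ht)), mul_comm]
  exact mul_le_mul_of_nonneg_right (hM t (hE0 ht)) (hg0 t (hE0 ht))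

/-- the integral over the bad set -/
lemma badE (w z : ℝ → ℝ) (P Q : ℝ → ℂ) (hP : Continuous P) (hQ : Continuous Q) (Y : ℝ) (hY : 0 ≤ Y)
    (E : Set ℝ) (hE : MeasurableSet E) (hEY : E ⊆ Set.Ioc 0 Y) (W M m lam mu : ℝ) (hlam : 0 < lam)
    (hmu : 0 < mu) (hm : 0 ≤ m) (hW : ∀ t ∈ Set.Ioi (0:ℝ), 0 ≤ w t ∧ w t ≤ W)
    (h4 : IntegrableOn (fun t => w t * z t ^ 4) (Set.Ioi 0))
    (hP8 : ∫ t in (0:ℝ)..Y, ‖P t‖ ^ 8 ≤ M) (hQ8 : ∫ t in (0:ℝ)..Y, ‖Q t‖ ^ 8 ≤ M)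
    (hB : volume E ≤ ENNReal.ofReal m) :
    ‖∫ t in E, ((w t * z t ^ 2 : ℝ) : ℂ) * (P t * (starRingEnd ℂ) (Q t))‖ ≤
      lam / 2 * (∫ t in Set.Ioi (0:ℝ), w t * z t ^ 4) + W / (2 * lam) * (mu / 2 * M + m / (2 * mu)) := by
  have hE0 : E ⊆ Set.Ioi 0 := fun t ht => (hEY ht).1
  have hfin : volume E < ⊤ := hB.trans_lt ENNReal.ofReal_lt_top
  have hW0 : 0 ≤ W := (hW 1 (by norm_num)).1.trans (hW 1 (by norm_num)).2
  have hG1 : Continuous fun t => ‖P t‖ ^ 8 := by fun_prop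
  have hG2 : Continuous fun t => ‖Q t‖ ^ 8 := by fun_prop
  have j1 : IntegrableOn (fun t => ‖P t‖ ^ 8) (Set.Ioc 0 Y) :=
    (hG1.integrableOn_Icc (a := 0) (b := Y)).mono_set Set.Ioc_subset_Icc_self
  have j2 : IntegrableOn (fun t => ‖Q t‖ ^ 8) (Set.Ioc 0 Y) :=
    (hG2.integrableOn_Icc (a := 0) (b := Y)).mono_set Set.Ioc_subset_Icc_self
  have j3 : IntegrableOn (fun _ : ℝ => 1 / (2 * mu)) E := integrableOn_const hfin.ne
  rw [intervalIntegral.integral_of_le hY] at hP8 hQ8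
  have hb : ∀ t ∈ E, ‖((w t * z t ^ 2 : ℝ) : ℂ) * (P t * (starRingEnd ℂ) (Q t))‖ ≤
      lam / 2 * (w t * z t ^ 4) + W / (2 * lam) * (mu / 4 * (‖P t‖ ^ 8 + ‖Q t‖ ^ 8) + 1 / (2 * mu)) := by
    intro t ht
    obtain ⟨w0, w1⟩ := hW t (hE0 ht)
    rw [norm_mul, norm_mul, RCLike.norm_conj, Complex.norm_real, Real.norm_eq_abs,
      abs_of_nonneg (by positivity : 0 ≤ w t * z t ^ 2)]
    obtain ⟨x, hx⟩ : ∃ x, x = ‖P t‖ := ⟨_, rfl⟩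
    obtain ⟨y, hy⟩ : ∃ y, y = ‖Q t‖ := ⟨_, rfl⟩
    have a1 : 0 ≤ x := by rw [hx]; exact norm_nonneg _
    have a2 : 0 ≤ y := by rw [hy]; exact norm_nonneg _
    rw [← hx, ← hy]
    have hxy : 0 ≤ x * y := mul_nonneg a1 a2
    have b1 : z t ^ 2 * (x * y) ≤ lam / 2 * z t ^ 4 + 1 / (2 * lam) * (x * y) ^ 2 := by
      have : lam / 2 * z t ^ 4 + 1 / (2 * lam) * (x * y) ^ 2 - z t ^ 2 * (x * y) =
          (lam * z t ^ 2 - x * y) ^ 2 / (2 * lam) := by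
        field_simp
        ring
      have h : 0 ≤ (lam * z t ^ 2 - x * y) ^ 2 / (2 * lam) := by positivity
      linarith
    have b2 : (x * y) ^ 2 ≤ mu / 2 * ((x * y) ^ 4) + 1 / (2 * mu) := by
      have : mu / 2 * ((x * y) ^ 4) + 1 / (2 * mu) - (x * y) ^ 2 = (mu * (x * y) ^ 2 - 1) ^ 2 / (2 * mu) := by
        field_simp
        ring
      have h : 0 ≤ (mu * (x * y) ^ 2 - 1) ^ 2 / (2 * mu) := by positivity
      linarith
    have b3 : (x * y) ^ 4 ≤ (x ^ 8 + y ^ 8) / 2 := by nlinarith [sq_nonneg (x ^ 4 - y ^ 4)]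
    have b4 : (x * y) ^ 2 ≤ mu / 4 * (x ^ 8 + y ^ 8) + 1 / (2 * mu) := by
      have := mul_le_mul_of_nonneg_left b3 (by positivity : 0 ≤ mu / 2)
      linarith
    have b5 : w t * (1 / (2 * lam) * (x * y) ^ 2) ≤ W * (1 / (2 * lam) * (mu / 4 * (x ^ 8 + y ^ 8) + 1 / (2 * mu))) := by
      apply mul_le_mul w1 _ (by positivity) hW0
      exact mul_le_mul_of_nonneg_left b4 (by positivity)
    calc w t * z t ^ 2 * (x * y) = w t * (z t ^ 2 * (x * y)) := by ring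
      _ ≤ w t * (lam / 2 * z t ^ 4 + 1 / (2 * lam) * (x * y) ^ 2) := mul_le_mul_of_nonneg_left b1 w0
      _ = lam / 2 * (w t * z t ^ 4) + w t * (1 / (2 * lam) * (x * y) ^ 2) := by ring
      _ ≤ lam / 2 * (w t * z t ^ 4) + W * (1 / (2 * lam) * (mu / 4 * (x ^ 8 + y ^ 8) + 1 / (2 * mu))) := by linarith
      _ = _ := by ring
  have k1 : IntegrableOn (fun t => lam / 2 * (w t * z t ^ 4)) E := (h4.mono_set hE0).const_mul _
  have k2 : IntegrableOn (fun t => mu / 4 * (‖P t‖ ^ 8 + ‖Q t‖ ^ 8)) E :=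
    ((j1.mono_set hEY).add (j2.mono_set hEY)).const_mul _
  have k3 : IntegrableOn (fun t => W / (2 * lam) * (mu / 4 * (‖P t‖ ^ 8 + ‖Q t‖ ^ 8) + 1 / (2 * mu))) E :=
    (k2.add j3).const_mul _
  have h5 : ‖∫ t in E, ((w t * z t ^ 2 : ℝ) : ℂ) * (P t * (starRingEnd ℂ) (Q t))‖ ≤
      ∫ t in E, (lam / 2 * (w t * z t ^ 4) +
        W / (2 * lam) * (mu / 4 * (‖P t‖ ^ 8 + ‖Q t‖ ^ 8) + 1 / (2 * mu))) := by
    refine norm_integral_le_of_norm_le (k1.add k3) ?_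
    exact (ae_restrict_iff' hE).2 (Eventually.of_forall hb)
  refine h5.trans ?_
  rw [integral_add k1 k3, integral_const_mul, integral_const_mul, integral_add k2 j3, integral_const_mul,
    integral_add (j1.mono_set hEY) (j2.mono_set hEY)]
  have m1 : ∫ t in E, w t * z t ^ 4 ≤ ∫ t in Set.Ioi (0:ℝ), w t * z t ^ 4 := by
    refine setIntegral_mono_set h4 ?_ hE0.eventuallyLE
    exact (ae_restrict_iff' measurableSet_Ioi).2 (Eventually.of_forall fun t ht =>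
      mul_nonneg (hW t ht).1 (by positivity))
  have m2 : ∫ t in E, ‖P t‖ ^ 8 ≤ M := by
    refine le_trans (setIntegral_mono_set j1 ?_ hEY.eventuallyLE) hP8
    exact Eventually.of_forall fun t => by
      simp only [Pi.zero_apply]
      positivity
  have m3 : ∫ t in E, ‖Q t‖ ^ 8 ≤ M := by
    refine le_trans (setIntegral_mono_set j2 ?_ hEY.eventuallyLE) hQ8
    exact Eventually.of_forall fun t => by
      simp only [Pi.zero_apply]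
      positivity
  have m4 : ∫ _t in E, (1 / (2 * mu)) ≤ m / (2 * mu) := by
    rw [setIntegral_const, smul_eq_mul, div_eq_mul_one_div m]
    refine mul_le_mul_of_nonneg_right ?_ (by positivity)
    exact ENNReal.toReal_le_of_le_ofReal hm hB
  apply add_le_add
  · exact mul_le_mul_of_nonneg_left m1 (by positivity)
  · apply mul_le_mul_of_nonneg_left _ (by positivity)
    have : mu / 4 * ((∫ t in E, ‖P t‖ ^ 8) + ∫ t in E, ‖Q t‖ ^ 8) ≤ mu / 4 * (M + M) :=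
      mul_le_mul_of_nonneg_left (add_le_add m2 m3) (by positivity)
    linarith

/-! ### the polynomials -/

lemma FS_pos {y : ℝ} {K n : ℕ} (hn : n ∈ FS y K) : 1 ≤ n := by
  unfold FS at hn
  rw [Finset.mem_filter] at hn
  exact Nat.one_le_iff_ne_zero.mpr hn.2.1

lemma AS_norm (s : ℂ) (y : ℝ) (K : ℕ) (δ : ℝ) (hδ : 0 ≤ δ) (t : ℝ) :
    ‖AS s y K (pw δ t)‖ ≤ ∑ n ∈ FS y K, ‖dS s n‖ := by
  unfold AS
  refine (norm_sum_le _ _).trans (Finset.sum_le_sum fun n hn => ?_)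
  have hn1 := FS_pos hn
  rw [norm_mul, Complex.norm_natCast_cpow_of_pos (by omega)]
  have h1 : (n:ℝ) ^ (-(pw δ t)).re ≤ 1 := by
    apply Real.rpow_le_one_of_one_le_of_nonpos (by exact_mod_cast hn1)
    unfold pw
    simp
    linarith
  calc ‖dS s n‖ * (n:ℝ) ^ (-(pw δ t)).re ≤ ‖dS s n‖ * 1 := mul_le_mul_of_nonneg_left h1 (norm_nonneg _)
    _ = _ := mul_one _

/-- the coefficients on the critical line -/
noncomputable def cf (s : ℂ) (δ : ℝ) (n : ℕ) : ℂ := dS s n * (n:ℂ) ^ (-(δ:ℂ))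

lemma AS_cf (s : ℂ) (y : ℝ) (K : ℕ) (δ t : ℝ) :
    AS s y K (pw δ t) = ∑ n ∈ FS y K, cf s δ n * (n:ℂ) ^ (-(1 / 2 + t * I : ℂ)) := by
  unfold AS cf
  refine Finset.sum_congr rfl fun n hn => ?_
  have hn1 := FS_pos hn
  have hn0 : (n:ℂ) ≠ 0 := by exact_mod_cast (by omega : n ≠ 0)
  rw [mul_assoc, ← Complex.cpow_add _ _ hn0]
  congr 2
  unfold pw
  ring

lemma cf_norm {s : ℂ} {y : ℝ} {K : ℕ} {δ : ℝ} (hδ : 0 ≤ δ) {n : ℕ} (hn : n ∈ FS y K) :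
    ‖cf s δ n‖ ≤ ∑ n ∈ FS y K, ‖dS s n‖ := by
  have hn1 := FS_pos hn
  unfold cf
  rw [norm_mul, Complex.norm_natCast_cpow_of_pos (by omega)]
  have h1 : (n:ℝ) ^ (-(δ:ℂ)).re ≤ 1 := by
    apply Real.rpow_le_one_of_one_le_of_nonpos (by exact_mod_cast hn1)
    simp
    exact hδ
  calc ‖dS s n‖ * (n:ℝ) ^ (-(δ:ℂ)).re ≤ ‖dS s n‖ * 1 := mul_le_mul_of_nonneg_left h1 (norm_nonneg _)
    _ = ‖dS s n‖ := mul_one _
    _ ≤ _ := Finset.single_le_sum (f := fun n => ‖dS s n‖) (fun _ _ => norm_nonneg _) hn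

lemma cf_conj (s : ℂ) (δ : ℝ) {n : ℕ} (hn : 1 ≤ n) :
    (starRingEnd ℂ) (cf ((starRingEnd ℂ) s) δ n) = cf s δ n := by
  unfold cf
  rw [map_mul, conj_dS, Complex.conj_conj]
  congr 1
  have h1 : ((n:ℝ):ℂ) ^ (-(δ:ℂ)) = (((n:ℝ) ^ (-δ) : ℝ) : ℂ) := by
    rw [Complex.ofReal_cpow (Nat.cast_nonneg n)]
    push_cast
    rfl
  rw [Complex.ofReal_natCast] at h1
  rw [h1, Complex.conj_ofReal]

/-- the main term -/
lemma main_eq (s : ℂ) (y : ℝ) (K κ : ℕ) (δ X H : ℝ) (hX : 0 < X) (hκ : 1 ≤ κ) :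
    ∑ h ∈ FS y K, ∑ l ∈ FS y K, cf s δ h * (starRingEnd ℂ) (cf ((starRingEnd ℂ) s) δ l) *
      ((1 / (Nat.lcm h l : ℝ) *
      (Real.log (X / (2 * Real.pi * κ) * (Nat.gcd h l : ℝ) ^ 2 / ((h:ℝ) * l)) + H) : ℝ) : ℂ) =
    ((Real.log (X / (2 * Real.pi * κ)) + H : ℝ) : ℂ) * (∑ h ∈ FS y K, ∑ l ∈ FS y K, TD s δ 0 h l) +
      ∑ h ∈ FS y K, ∑ l ∈ FS y K, TD s δ 0 h l *
        ((Real.log ((Nat.gcd h l : ℝ) ^ 2 / ((h:ℝ) * l)) : ℝ) : ℂ) := by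
  rw [Finset.mul_sum, ← Finset.sum_add_distrib]
  refine Finset.sum_congr rfl fun h hh => ?_
  rw [Finset.mul_sum, ← Finset.sum_add_distrib]
  refine Finset.sum_congr rfl fun l hl => ?_
  have h1 := FS_pos hh
  have l1 := FS_pos hl
  rw [cf_conj s δ l1]
  have hh0 : (0:ℝ) < h := by exact_mod_cast h1
  have hl0 : (0:ℝ) < l := by exact_mod_cast l1
  have hg0 : (0:ℝ) < (Nat.gcd h l : ℝ) := by exact_mod_cast Nat.gcd_pos_of_pos_left l h1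
  have hκ0 : (0:ℝ) < κ := by exact_mod_cast hκ
  have e1 : Real.log (X / (2 * Real.pi * κ) * (Nat.gcd h l : ℝ) ^ 2 / ((h:ℝ) * l)) =
      Real.log (X / (2 * Real.pi * κ)) + Real.log ((Nat.gcd h l : ℝ) ^ 2 / ((h:ℝ) * l)) := by
    rw [mul_div_assoc, Real.log_mul (by positivity) (by positivity)]
  rw [e1]
  unfold TD cf
  have e2 : ((Nat.gcd h l : ℕ) : ℂ) ^ (2 * (0:ℂ)) = 1 := by rw [mul_zero, Complex.cpow_zero]
  rw [e2, add_zero]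
  push_cast
  ring

lemma q_bound (X : ℝ) (κ : ℕ) (hX : 0 < X) (hκ : 1 ≤ κ) :
    |Real.log (X / (2 * Real.pi * κ)) + ((harmonic κ : ℝ) + Real.eulerMascheroniConstant) - Real.log X| ≤ 4 := by
  have hκ0 : (0:ℝ) < κ := by exact_mod_cast hκ
  have hpi := Real.pi_gt_three
  have hpi2 := Real.pi_lt_d2
  rw [Real.log_div hX.ne' (by positivity), Real.log_mul (by positivity) hκ0.ne']
  have h1 : (harmonic κ : ℝ) ≤ 1 + Real.log κ := harmonic_le_one_add_log κ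
  have h2 : Real.log ((κ + 1 : ℕ) : ℝ) ≤ (harmonic κ : ℝ) := log_add_one_le_harmonic κ
  have h3 : Real.log κ ≤ Real.log ((κ + 1 : ℕ) : ℝ) := Real.log_le_log hκ0 (by push_cast; linarith)
  have h4 := Real.one_half_lt_eulerMascheroniConstant
  have h5 := Real.eulerMascheroniConstant_lt_two_thirds
  have h6 : 0 ≤ Real.log (2 * Real.pi) := Real.log_nonneg (by linarith)
  have h7 : Real.log (2 * Real.pi) ≤ 2 := by
    rw [Real.log_le_iff_le_exp (by positivity)]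
    have h8 := Real.exp_one_gt_d9
    have h9 : Real.exp 2 = Real.exp 1 * Real.exp 1 := by rw [← Real.exp_add]; norm_num
    rw [h9]
    nlinarith
  rw [abs_le]
  constructor <;> linarith

lemma cpow_norm2 {δ R : ℝ} (hδ : 0 < δ) (hδ1 : δ ≤ 1 / 16) (s : ℂ) (hs : ‖s‖ ≤ R) :
    ‖((2 * δ : ℝ) : ℂ) ^ (s ^ 2 + 2 * s)‖ ≤ δ ^ (-(R ^ 2 + 2 * R)) := by
  have hR : 0 ≤ R := (norm_nonneg _).trans hs
  rw [Complex.norm_cpow_eq_rpow_re_of_pos (by positivity)]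
  have h1 : -(R ^ 2 + 2 * R) ≤ (s ^ 2 + 2 * s).re := by
    have h2 : |(s ^ 2 + 2 * s).re| ≤ ‖s ^ 2 + 2 * s‖ := Complex.abs_re_le_norm _
    have h3 : ‖s ^ 2 + 2 * s‖ ≤ R ^ 2 + 2 * R := by
      refine (norm_add_le _ _).trans (add_le_add ?_ ?_)
      · rw [norm_pow]; exact pow_le_pow_left₀ (norm_nonneg _) hs 2
      · rw [norm_mul]
        have : ‖(2:ℂ)‖ = 2 := by norm_num
        rw [this]
        linarith
    have := (abs_le.1 h2).1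
    linarith
  calc (2 * δ) ^ (s ^ 2 + 2 * s).re ≤ (2 * δ) ^ (-(R ^ 2 + 2 * R)) :=
        Real.rpow_le_rpow_of_exponent_ge (by positivity) (by linarith) h1
    _ ≤ δ ^ (-(R ^ 2 + 2 * R)) := by
        rw [Real.rpow_neg (by positivity), Real.rpow_neg hδ.le]
        refine inv_anti₀ (Real.rpow_pos_of_pos hδ _) ?_
        exact Real.rpow_le_rpow hδ.le (by linarith) (by positivity)

lemma aC_bound (R : ℝ) : ∃ M : ℝ, 0 < M ∧ ∀ s : ℂ, ‖s‖ ≤ R → ‖(4:ℂ) ^ s * aC (s + 1)‖ ≤ M := by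
  have hc : Continuous fun s : ℂ => (4:ℂ) ^ s * aC (s + 1) := by
    refine Continuous.mul ?_ (Pool.Agent.N748.MG.CON.main.1.comp (continuous_id.add continuous_const))
    exact Continuous.const_cpow continuous_id (Or.inl (by norm_num))
  obtain ⟨M, hM⟩ := (isCompact_closedBall (0:ℂ) R).exists_bound_of_continuousOn hc.continuousOn
  refine ⟨max M 1, lt_max_of_lt_right one_pos, fun s hs => ?_⟩
  exact (hM s (by simpa using hs)).trans (le_max_left _ _)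

lemma zeta_cont (δ : ℝ) (hδ : 0 < δ) (hδ1 : δ ≤ 1 / 16) : Continuous fun t : ℝ => riemannZeta (pw δ t) := by
  rw [continuous_iff_continuousAt]
  intro t
  have hne : pw δ t ≠ 1 := by
    intro h
    have h1 := congrArg Complex.re h
    unfold pw at h1
    simp at h1
    linarith
  have h1 : ContinuousAt riemannZeta (pw δ t) := (differentiableAt_riemannZeta hne).continuousAt
  have h2 : Continuous fun t : ℝ => pw δ t := by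
    unfold pw
    fun_prop
  exact ContinuousAt.comp (f := fun t : ℝ => pw δ t) h1 h2.continuousAt

/-- the logarithm is bounded -/
lemma log_bdd (y : ℝ) (K : ℕ) (δ : ℝ) (hδ : 0 < δ) (hδ1 : δ ≤ 1 / 16) (Y : ℝ) (N : Set ℝ)
    (hN : N ⊆ Set.Icc 0 Y) (h : ∀ t ∈ N, ‖riemannZeta (pw δ t) * AS (-1) y K (pw δ t) - 1‖ ≤ 1 / 2) :
    ∃ B : ℝ, ∀ t ∈ N, |Real.log ‖riemannZeta (pw δ t)‖| ≤ B := by
  obtain ⟨M1, hM1⟩ := (isCompact_Icc (a := (0:ℝ)) (b := Y)).exists_bound_of_continuousOn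
    (zeta_cont δ hδ hδ1).continuousOn
  obtain ⟨M2, hM2⟩ := (isCompact_Icc (a := (0:ℝ)) (b := Y)).exists_bound_of_continuousOn
    (AS_cont (-1) y K δ).continuousOn
  refine ⟨Real.log (max M1 1) + Real.log (2 * max M2 1), fun t ht => ?_⟩
  have a1 : ‖riemannZeta (pw δ t)‖ ≤ max M1 1 := (hM1 t (hN ht)).trans (le_max_left _ _)
  have a2 : ‖AS (-1) y K (pw δ t)‖ ≤ max M2 1 := (hM2 t (hN ht)).trans (le_max_left _ _)
  have a3 := h t ht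
  have a4 : 1 / 2 ≤ ‖riemannZeta (pw δ t)‖ * ‖AS (-1) y K (pw δ t)‖ := by
    rw [← norm_mul]
    have h1 : (1:ℝ) = ‖(1:ℂ)‖ := by simp
    have h2 : ‖(1:ℂ)‖ ≤ ‖riemannZeta (pw δ t) * AS (-1) y K (pw δ t)‖ +
        ‖riemannZeta (pw δ t) * AS (-1) y K (pw δ t) - 1‖ := by
      have h3 : (1:ℂ) = riemannZeta (pw δ t) * AS (-1) y K (pw δ t) -
        (riemannZeta (pw δ t) * AS (-1) y K (pw δ t) - 1) := by ring
      conv_lhs => rw [h3]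
      exact norm_sub_le _ _
    linarith
  have m1 : (1:ℝ) ≤ max M1 1 := le_max_right _ _
  have m2 : (1:ℝ) ≤ max M2 1 := le_max_right _ _
  have z0 : 0 < ‖riemannZeta (pw δ t)‖ := by
    rcases (norm_nonneg (riemannZeta (pw δ t))).eq_or_lt with h0 | h0
    · rw [← h0, zero_mul] at a4
      norm_num at a4
    · exact h0
  have b1 : Real.log ‖riemannZeta (pw δ t)‖ ≤ Real.log (max M1 1) := Real.log_le_log z0 a1
  have b2 : -Real.log (2 * max M2 1) ≤ Real.log ‖riemannZeta (pw δ t)‖ := by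
    rw [← Real.log_inv]
    apply Real.log_le_log (by positivity)
    rw [inv_le_iff_one_le_mul₀ (by positivity)]
    nlinarith [norm_nonneg (AS (-1) y K (pw δ t))]
  have c1 : 0 ≤ Real.log (max M1 1) := Real.log_nonneg m1
  have c2 : 0 ≤ Real.log (2 * max M2 1) := Real.log_nonneg (by linarith)
  rw [abs_le]
  constructor <;> linarith

/-! ### the theorem -/

/-- the estimates for one `s` -/
lemma core {X δ y G E η e0 C8 CW C4 CD LX ε MB D1 : ℝ} {K κ : ℕ} {N : Set ℝ} {s : ℂ}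
    (hX : 1 ≤ X) (hδ : 0 < δ) (hδ16 : δ ≤ 1 / 16) (hε : 0 < ε) (hLX : LX = Real.log X) (hLX1 : 1 ≤ LX)
    (he00 : 0 < e0) (he04 : e0 ≤ 1 / 4) (he0η : e0 ≤ η / 4) (hC40 : 0 < C4) (hCW0 : 0 < CW)
    (hκ : 1 ≤ κ)
    (hW : ∀ t ∈ Set.Ioi (0:ℝ), 0 ≤ wt κ X t ∧ wt κ X t ≤ CW * (2 * LX) / X)
    (i4 : IntegrableOn (fun t => wt κ X t * zh t ^ 4) (Set.Ioi 0))
    (i2 : IntegrableOn (fun t => wt κ X t * zh t ^ 2) (Set.Ioi 0))
    (b4 : ∫ t in Set.Ioi (0:ℝ), wt κ X t * zh t ^ 4 ≤ C4 * LX ^ 5)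
    (b2 : ∫ t in Set.Ioi (0:ℝ), wt κ X t * zh t ^ 2 ≤ C4 * LX ^ 5)
    (b2t : ∫ t in Set.Ioi (2 * X), wt κ X t * zh t ^ 2 ≤ X ^ (-4 : ℝ))
    (hNm : MeasurableSet N) (hN0 : N ⊆ Set.Ioc 0 (2 * X))
    (hNv : volume (Set.Ioc 0 (2 * X) \ N) ≤ ENNReal.ofReal (δ ^ D1 * (2 * X)))
    (hP : ∑ n ∈ FS y K, ‖dS s n‖ ≤ X ^ e0) (hQ : ∑ n ∈ FS y K, ‖dS ((starRingEnd ℂ) s) n‖ ≤ X ^ e0)
    (hP8 : ∫ t in (0:ℝ)..(2 * X), ‖AS s y K (pw δ t)‖ ^ 8 ≤ 2 * X * δ ^ (-C8))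
    (hQ8 : ∫ t in (0:ℝ)..(2 * X), ‖AS ((starRingEnd ℂ) s) y K (pw δ t)‖ ^ 8 ≤ 2 * X * δ ^ (-C8))
    (hpt : ∀ t ∈ N, ‖((‖riemannZeta (pw δ t)‖ : ℝ) : ℂ) ^ (2 * s) - AS s y K (pw δ t) *
        (starRingEnd ℂ) (AS ((starRingEnd ℂ) s) y K (pw δ t))‖ ≤ δ ^ E)
    (hts : ∀ F : Finset ℕ,
      (∀ n ∈ F, 1 ≤ n ∧ (n:ℝ) ≤ X ^ ((1:ℝ) / 2)) → ∀ (a b : ℕ → ℂ) (M : ℝ), 0 < M → (∀ n ∈ F, ‖a n‖ ≤ M) →
      (∀ n ∈ F, ‖b n‖ ≤ M) →
      ‖(∫ t in Set.Ioi (0:ℝ), ((wt κ X t * zh t ^ 2 : ℝ) : ℂ) * ((∑ n ∈ F, a n * (n:ℂ) ^ (-(1 / 2 + t * I : ℂ))) *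
          (starRingEnd ℂ) (∑ n ∈ F, b n * (n:ℂ) ^ (-(1 / 2 + t * I : ℂ))))) -
        ∑ h ∈ F, ∑ l ∈ F, a h * (starRingEnd ℂ) (b l) * ((1 / (Nat.lcm h l : ℝ) *
          (Real.log (X / (2 * Real.pi * κ) * (Nat.gcd h l : ℝ) ^ 2 / ((h:ℝ) * l)) +
            ((harmonic κ : ℝ) + Real.eulerMascheroniConstant)) : ℝ) : ℂ)‖ ≤ M ^ 2 * X ^ (-η))
    (hlen : ∀ n ∈ FS y K, 1 ≤ n ∧ (n:ℝ) ≤ X ^ ((1:ℝ) / 2))
    (hd1 : ‖((2 * δ : ℝ) : ℂ) ^ (s ^ 2 + 2 * s) * (∑ h ∈ FS y K, ∑ l ∈ FS y K, TD s δ 0 h l) -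
      4 ^ s * aC (s + 1)‖ ≤ ε / 8)
    (hd2 : ‖((2 * δ : ℝ) : ℂ) ^ (s ^ 2 + 2 * s) * (∑ h ∈ FS y K, ∑ l ∈ FS y K, TD s δ 0 h l *
      ((Real.log ((Nat.gcd h l : ℝ) ^ 2 / ((h:ℝ) * l)) : ℝ) : ℂ))‖ ≤ CD / δ)
    (hMB : ‖(4:ℂ) ^ s * aC (s + 1)‖ ≤ MB)
    (hu : ‖((2 * δ : ℝ) : ℂ) ^ (s ^ 2 + 2 * s)‖ ≤ δ ^ (-G))
    (hwin : δ ^ (-G) ≤ 1 * X ^ e0) (hE : δ ^ (-G) * δ ^ E * LX ^ 5 ≤ δ)
    (hD : δ ^ (-G) * δ ^ ((D1 - C8) / 4) * LX ^ 5 ≤ δ) (hδ1 : (C4 + (C4 + 2 * CW)) * δ ≤ ε / 8)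
    (hX3 : X ^ (-3 : ℝ) ≤ ε / 8) (hXη : X ^ (-(η / 4)) ≤ ε / 8) (hCD : CD / δ ≤ ε / 8 * LX)
    (hbig : ε / 2 + 4 * MB ≤ ε / 8 * LX) :
    ‖((2 * δ : ℝ) : ℂ) ^ (s ^ 2 + 2 * s) *
        (∫ t in N, ((wt κ X t * zh t ^ 2 : ℝ) : ℂ) * ((‖riemannZeta (pw δ t)‖ : ℝ) : ℂ) ^ (2 * s)) -
        LX * (4 ^ s * aC (s + 1))‖ ≤ ε * LX := by
  have hX0 : 0 < X := by linarith
  have hG0 : 0 < δ ^ (-G) := Real.rpow_pos_of_pos hδ _
  obtain ⟨P, hPd⟩ : ∃ P : ℝ → ℂ, P = fun t => AS s y K (pw δ t) := ⟨_, rfl⟩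
  obtain ⟨Q, hQd⟩ : ∃ Q : ℝ → ℂ, Q = fun t => AS ((starRingEnd ℂ) s) y K (pw δ t) := ⟨_, rfl⟩
  have hPc : Continuous P := by rw [hPd]; exact AS_cont s y K δ
  have hQc : Continuous Q := by rw [hQd]; exact AS_cont _ y K δ
  have hPn : ∀ t, ‖P t‖ ≤ X ^ e0 := fun t => by rw [hPd]; exact (AS_norm s y K δ hδ.le t).trans hP
  have hQn : ∀ t, ‖Q t‖ ≤ X ^ e0 := fun t => by rw [hQd]; exact (AS_norm _ y K δ hδ.le t).trans hQ
  have hXe : 0 < X ^ e0 := Real.rpow_pos_of_pos hX0 _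
  have hFc : Continuous fun t => P t * (starRingEnd ℂ) (Q t) := hPc.mul (Complex.continuous_conj.comp hQc)
  have hFn : ∀ t ∈ Set.Ioi (0:ℝ), ‖P t * (starRingEnd ℂ) (Q t)‖ ≤ X ^ e0 * X ^ e0 := by
    intro t _
    rw [norm_mul, RCLike.norm_conj]
    exact mul_le_mul (hPn t) (hQn t) (norm_nonneg _) hXe.le
  have hg0 : ∀ t ∈ Set.Ioi (0:ℝ), 0 ≤ wt κ X t * zh t ^ 2 := fun t ht => mul_nonneg (hW t ht).1 (sq_nonneg _)
  have hN00 : N ⊆ Set.Ioi 0 := fun t ht => (hN0 ht).1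
  obtain ⟨Z, hZ⟩ : ∃ Z : ℂ, Z = ∫ t in N, ((wt κ X t * zh t ^ 2 : ℝ) : ℂ) *
    ((‖riemannZeta (pw δ t)‖ : ℝ) : ℂ) ^ (2 * s) := ⟨_, rfl⟩
  obtain ⟨I1, hI1⟩ : ∃ I1 : ℂ, I1 = ∫ t in N, ((wt κ X t * zh t ^ 2 : ℝ) : ℂ) *
    (P t * (starRingEnd ℂ) (Q t)) := ⟨_, rfl⟩
  obtain ⟨I2, hI2⟩ : ∃ I2 : ℂ, I2 = ∫ t in Set.Ioc 0 (2 * X) \ N, ((wt κ X t * zh t ^ 2 : ℝ) : ℂ) *
    (P t * (starRingEnd ℂ) (Q t)) := ⟨_, rfl⟩
  obtain ⟨I3, hI3⟩ : ∃ I3 : ℂ, I3 = ∫ t in Set.Ioi (2 * X), ((wt κ X t * zh t ^ 2 : ℝ) : ℂ) *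
    (P t * (starRingEnd ℂ) (Q t)) := ⟨_, rfl⟩
  obtain ⟨I0, hI0⟩ : ∃ I0 : ℂ, I0 = ∫ t in Set.Ioi (0:ℝ), ((wt κ X t * zh t ^ 2 : ℝ) : ℂ) *
    (P t * (starRingEnd ℂ) (Q t)) := ⟨_, rfl⟩
  have hint : IntegrableOn (fun t => ((wt κ X t * zh t ^ 2 : ℝ) : ℂ) * (P t * (starRingEnd ℂ) (Q t)))
      (Set.Ioi 0) := int_mul measurableSet_Ioi i2 hFc.measurable hFn
  have hsplit : I0 = I1 + I2 + I3 := by
    have e1 : Set.Ioi (0:ℝ) = Set.Ioc 0 (2 * X) ∪ Set.Ioi (2 * X) := (Set.Ioc_union_Ioi_eq_Ioi (by positivity)).symm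
    have hs1 : Set.Ioc 0 (2 * X) ⊆ Set.Ioi (0:ℝ) := fun t ht => ht.1
    have hs2 : Set.Ioi (2 * X) ⊆ Set.Ioi (0:ℝ) := fun t ht => lt_trans (by positivity : (0:ℝ) < 2 * X) ht
    have e2 : I0 = (∫ t in Set.Ioc 0 (2 * X), ((wt κ X t * zh t ^ 2 : ℝ) : ℂ) * (P t * (starRingEnd ℂ) (Q t))) +
        I3 := by
      rw [hI0, hI3, e1, setIntegral_union (Set.Ioc_disjoint_Ioi le_rfl) measurableSet_Ioi
        (hint.mono_set hs1) (hint.mono_set hs2)]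
    have e3 : I2 = (∫ t in Set.Ioc 0 (2 * X), ((wt κ X t * zh t ^ 2 : ℝ) : ℂ) * (P t * (starRingEnd ℂ) (Q t))) -
        I1 := by
      rw [hI2, hI1, setIntegral_sdiff hNm (hint.mono_set hs1) hN0]
    rw [e2, e3]
    ring
  have t1 : ‖Z - I1‖ ≤ δ ^ E * (C4 * LX ^ 5) := by
    rw [hZ, hI1]
    refine (cmpN (fun t => wt κ X t * zh t ^ 2) _ _ (zeta_meas δ hδ hδ16 s) hFc.measurable N hNm hN00 i2 hg0
      _ hFn (δ ^ E) (Real.rpow_pos_of_pos hδ _).le ?_).trans ?_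
    · intro t ht
      rw [hPd, hQd]
      exact hpt t ht
    · exact mul_le_mul_of_nonneg_left b2 (Real.rpow_pos_of_pos hδ _).le
  have t2 : ‖I2‖ ≤ δ ^ ((D1 - C8) / 4) * ((C4 + 2 * CW) * LX ^ 5) := by
    rw [hI2]
    have hl0 : 0 < δ ^ ((D1 - C8) / 4) := Real.rpow_pos_of_pos hδ _
    have hm0 : 0 < δ ^ ((D1 + C8) / 2) := Real.rpow_pos_of_pos hδ _
    have hd0 : 0 < δ ^ D1 := Real.rpow_pos_of_pos hδ _
    have g1 := badE (wt κ X) zh P Q hPc hQc (2 * X) (by positivity) (Set.Ioc 0 (2 * X) \ N)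
      (measurableSet_Ioc.diff hNm) Set.sdiff_subset (CW * (2 * LX) / X) (2 * X * δ ^ (-C8)) (δ ^ D1 * (2 * X))
      (δ ^ ((D1 - C8) / 4)) (δ ^ ((D1 + C8) / 2)) hl0 hm0 (by positivity) hW i4
      (by rw [hPd]; exact hP8) (by rw [hQd]; exact hQ8) hNv
    refine g1.trans ?_
    have g2 : δ ^ ((D1 + C8) / 2) * δ ^ (-C8) = δ ^ ((D1 - C8) / 4) * δ ^ ((D1 - C8) / 4) := by
      rw [← Real.rpow_add hδ, ← Real.rpow_add hδ]
      congr 1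
      ring
    have g3 : δ ^ D1 = δ ^ ((D1 + C8) / 2) * (δ ^ ((D1 - C8) / 4) * δ ^ ((D1 - C8) / 4)) := by
      rw [← Real.rpow_add hδ, ← Real.rpow_add hδ]
      congr 1
      ring
    have e : δ ^ ((D1 - C8) / 4) / 2 * (∫ t in Set.Ioi (0:ℝ), wt κ X t * zh t ^ 4) +
        CW * (2 * LX) / X / (2 * δ ^ ((D1 - C8) / 4)) * (δ ^ ((D1 + C8) / 2) / 2 * (2 * X * δ ^ (-C8)) +
          δ ^ D1 * (2 * X) / (2 * δ ^ ((D1 + C8) / 2))) =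
        δ ^ ((D1 - C8) / 4) / 2 * (∫ t in Set.Ioi (0:ℝ), wt κ X t * zh t ^ 4) +
        2 * CW * LX * δ ^ ((D1 - C8) / 4) := by
      have h1 : δ ^ ((D1 + C8) / 2) / 2 * (2 * X * δ ^ (-C8)) =
          X * (δ ^ ((D1 - C8) / 4) * δ ^ ((D1 - C8) / 4)) := by
        rw [← g2]; ring
      have h2 : δ ^ D1 * (2 * X) / (2 * δ ^ ((D1 + C8) / 2)) =
          X * (δ ^ ((D1 - C8) / 4) * δ ^ ((D1 - C8) / 4)) := by
        rw [g3]; field_simp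
      rw [h1, h2]
      field_simp
      ring
    rw [e]
    have h3 : LX ≤ LX ^ 5 := le_self_pow₀ hLX1 (by norm_num)
    have h5 : 0 < LX ^ 5 := by positivity
    have h6 : δ ^ ((D1 - C8) / 4) / 2 * (∫ t in Set.Ioi (0:ℝ), wt κ X t * zh t ^ 4) ≤
        δ ^ ((D1 - C8) / 4) * (C4 * LX ^ 5) := by
      calc δ ^ ((D1 - C8) / 4) / 2 * (∫ t in Set.Ioi (0:ℝ), wt κ X t * zh t ^ 4)
          ≤ δ ^ ((D1 - C8) / 4) / 2 * (C4 * LX ^ 5) := mul_le_mul_of_nonneg_left b4 (by positivity)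
        _ ≤ δ ^ ((D1 - C8) / 4) * (C4 * LX ^ 5) :=
            mul_le_mul_of_nonneg_right (by linarith) (by positivity)
    have h7 : 2 * CW * LX * δ ^ ((D1 - C8) / 4) ≤ δ ^ ((D1 - C8) / 4) * (2 * CW * LX ^ 5) := by
      have := mul_le_mul_of_nonneg_left h3 (by positivity : 0 ≤ δ ^ ((D1 - C8) / 4) * (2 * CW))
      linarith
    linarith
  have t3 : ‖I3‖ ≤ (X ^ e0 * X ^ e0) * X ^ (-4 : ℝ) := by
    rw [hI3]
    refine (tail (fun t => wt κ X t * zh t ^ 2) _ (Set.Ioi (2 * X)) measurableSet_Ioi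
      (fun t ht => lt_trans (by positivity : (0:ℝ) < 2 * X) ht) i2 hg0 _ hFn).trans ?_
    exact mul_le_mul_of_nonneg_left b2t (by positivity)
  obtain ⟨S1, hS1⟩ : ∃ S1 : ℂ, S1 = ∑ h ∈ FS y K, ∑ l ∈ FS y K, TD s δ 0 h l := ⟨_, rfl⟩
  obtain ⟨S2, hS2⟩ : ∃ S2 : ℂ, S2 = ∑ h ∈ FS y K, ∑ l ∈ FS y K, TD s δ 0 h l *
      ((Real.log ((Nat.gcd h l : ℝ) ^ 2 / ((h:ℝ) * l)) : ℝ) : ℂ) := ⟨_, rfl⟩
  obtain ⟨q, hq⟩ : ∃ q : ℝ, q = Real.log (X / (2 * Real.pi * κ)) +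
      ((harmonic κ : ℝ) + Real.eulerMascheroniConstant) := ⟨_, rfl⟩
  have hqb : |q - LX| ≤ 4 := by rw [hq, hLX]; exact q_bound X κ hX0 hκ
  have t4 : ‖I0 - ((q : ℂ) * S1 + S2)‖ ≤ (X ^ e0) ^ 2 * X ^ (-η) := by
    have g1 := hts (FS y K) hlen (cf s δ) (cf ((starRingEnd ℂ) s) δ) (X ^ e0) hXe
      (fun n hn => (cf_norm hδ.le hn).trans hP) (fun n hn => (cf_norm hδ.le hn).trans hQ)
    rw [main_eq s y K κ δ X _ hX0 hκ, ← hS1, ← hS2, ← hq] at g1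
    have e : (∫ t in Set.Ioi (0:ℝ), ((wt κ X t * zh t ^ 2 : ℝ) : ℂ) *
        ((∑ n ∈ FS y K, cf s δ n * (n:ℂ) ^ (-(1 / 2 + t * I : ℂ))) *
          (starRingEnd ℂ) (∑ n ∈ FS y K, cf ((starRingEnd ℂ) s) δ n * (n:ℂ) ^ (-(1 / 2 + t * I : ℂ))))) = I0 := by
      rw [hI0, hPd, hQd]
      simp only [AS_cf]
    rw [e] at g1
    exact g1
  rw [← hS1] at hd1
  rw [← hS2] at hd2
  obtain ⟨u, hud⟩ : ∃ u : ℂ, u = ((2 * δ : ℝ) : ℂ) ^ (s ^ 2 + 2 * s) := ⟨_, rfl⟩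
  obtain ⟨a, ha⟩ : ∃ a : ℂ, a = (4:ℂ) ^ s * aC (s + 1) := ⟨_, rfl⟩
  rw [← hud] at hd1 hd2 hu
  rw [← ha] at hd1 hMB
  rw [← hZ, ← hud, ← ha]
  have e : u * Z - LX * a = u * (Z - I1) - u * I2 - u * I3 + u * (I0 - ((q : ℂ) * S1 + S2)) +
      ((q : ℂ) * (u * S1 - a) + ((q - LX : ℝ) : ℂ) * a + u * S2) := by
    rw [hsplit]
    push_cast
    ring
  have n1 : ‖u * (Z - I1)‖ ≤ C4 * δ := by
    rw [norm_mul]
    calc ‖u‖ * ‖Z - I1‖ ≤ δ ^ (-G) * (δ ^ E * (C4 * LX ^ 5)) := mul_le_mul hu t1 (norm_nonneg _) hG0.le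
      _ = C4 * (δ ^ (-G) * δ ^ E * LX ^ 5) := by ring
      _ ≤ C4 * δ := mul_le_mul_of_nonneg_left hE hC40.le
  have n2 : ‖u * I2‖ ≤ (C4 + 2 * CW) * δ := by
    rw [norm_mul]
    calc ‖u‖ * ‖I2‖ ≤ δ ^ (-G) * (δ ^ ((D1 - C8) / 4) * ((C4 + 2 * CW) * LX ^ 5)) :=
          mul_le_mul hu t2 (norm_nonneg _) hG0.le
      _ = (C4 + 2 * CW) * (δ ^ (-G) * δ ^ ((D1 - C8) / 4) * LX ^ 5) := by ring
      _ ≤ (C4 + 2 * CW) * δ := mul_le_mul_of_nonneg_left hD (by positivity)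
  rw [one_mul] at hwin
  have n3 : ‖u * I3‖ ≤ ε / 8 := by
    rw [norm_mul]
    calc ‖u‖ * ‖I3‖ ≤ X ^ e0 * ((X ^ e0 * X ^ e0) * X ^ (-4 : ℝ)) :=
          mul_le_mul (hu.trans hwin) t3 (norm_nonneg _) hXe.le
      _ = X ^ (e0 + (e0 + e0 + (-4 : ℝ))) := by
          rw [Real.rpow_add hX0, Real.rpow_add hX0, Real.rpow_add hX0]
      _ ≤ X ^ (-3 : ℝ) := Real.rpow_le_rpow_of_exponent_le hX (by linarith)
      _ ≤ ε / 8 := hX3
  have n4 : ‖u * (I0 - ((q : ℂ) * S1 + S2))‖ ≤ ε / 8 := by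
    rw [norm_mul]
    calc ‖u‖ * ‖I0 - ((q : ℂ) * S1 + S2)‖ ≤ X ^ e0 * ((X ^ e0) ^ 2 * X ^ (-η)) :=
          mul_le_mul (hu.trans hwin) t4 (norm_nonneg _) hXe.le
      _ = X ^ (e0 + (e0 + e0 + (-η))) := by
          rw [Real.rpow_add hX0, Real.rpow_add hX0, Real.rpow_add hX0, sq]
      _ ≤ X ^ (-(η / 4)) := Real.rpow_le_rpow_of_exponent_le hX (by linarith)
      _ ≤ ε / 8 := hXη
  have n5 : ‖(q : ℂ) * (u * S1 - a)‖ ≤ (LX + 4) * (ε / 8) := by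
    rw [norm_mul, Complex.norm_real, Real.norm_eq_abs]
    have h1 : |q| ≤ LX + 4 := by
      rw [abs_le] at hqb ⊢
      constructor <;> linarith
    exact mul_le_mul h1 hd1 (norm_nonneg _) (by linarith)
  have n6 : ‖((q - LX : ℝ) : ℂ) * a‖ ≤ 4 * MB := by
    rw [norm_mul, Complex.norm_real, Real.norm_eq_abs]
    exact mul_le_mul hqb hMB (norm_nonneg _) (by norm_num)
  have n7 : ‖u * S2‖ ≤ ε / 8 * LX := hd2.trans hCD
  rw [e]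
  have m1 := norm_add_le (u * (Z - I1) - u * I2 - u * I3 + u * (I0 - ((q : ℂ) * S1 + S2)))
    ((q : ℂ) * (u * S1 - a) + ((q - LX : ℝ) : ℂ) * a + u * S2)
  have m2 := norm_add_le (u * (Z - I1) - u * I2 - u * I3) (u * (I0 - ((q : ℂ) * S1 + S2)))
  have m3 := norm_sub_le (u * (Z - I1) - u * I2) (u * I3)
  have m4 := norm_sub_le (u * (Z - I1)) (u * I2)
  have m5 := norm_add_le ((q : ℂ) * (u * S1 - a) + ((q - LX : ℝ) : ℂ) * a) (u * S2)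
  have m6 := norm_add_le ((q : ℂ) * (u * S1 - a)) (((q - LX : ℝ) : ℂ) * a)
  have hεL : ε / 8 ≤ ε / 8 * LX := le_mul_of_one_le_right (by positivity) hLX1
  have hfin : C4 * δ + (C4 + 2 * CW) * δ + ε / 8 + ε / 8 + ((LX + 4) * (ε / 8) + 4 * MB + ε / 8 * LX) ≤ ε * LX := by
    nlinarith
  linarith

theorem main (g1 : S_NIC) (g2 : S_CMP) (g3 : S_SIZ) (g4 : S_TSX) (g5 : S_WTB) (g6 : S_W4) (g7 : S_L8)
    (g8 : S_DGF) : S_OCM := by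
  intro c R D hc hR hD ε hε
  obtain ⟨C8, hC80, hC8⟩ := g7 R hR.le
  obtain ⟨C0, hC00, hC0⟩ := g3 R hR.le
  obtain ⟨Cc, hCc0, hCc⟩ := g2 R hR.le
  obtain ⟨η, hη, hTSX⟩ := g4
  obtain ⟨CW, hCW0, hCW⟩ := g5
  obtain ⟨C4, hC40, hC4⟩ := g6
  obtain ⟨MB, hMB0, hMB⟩ := aC_bound R
  obtain ⟨CD, δD, hCD0, hδD0, hCD⟩ := g8 R (ε / 8) hR.le (by positivity)
  obtain ⟨G, hG⟩ : ∃ G, G = R ^ 2 + 2 * R := ⟨_, rfl⟩
  have hG0 : 0 < G := by rw [hG]; positivity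
  obtain ⟨E, hE⟩ : ∃ E, E = G + 5 / c + 1 := ⟨_, rfl⟩
  have h5c : 0 < 5 / c := by positivity
  have hE0 : 0 < E := by rw [hE]; positivity
  obtain ⟨D1, hD1⟩ : ∃ D1, D1 = D + 1 + (C8 + 4 * E) := ⟨_, rfl⟩
  have hD10 : 0 < D1 := by rw [hD1]; positivity
  obtain ⟨ca, hca, hN'⟩ := g1 D1 hD10
  obtain ⟨B, hB⟩ : ∃ B, B = Cc * (ca + 3) := ⟨_, rfl⟩
  have hB0 : 0 < B := by rw [hB]; positivity
  obtain ⟨A, hA⟩ : ∃ A, A = B + E := ⟨_, rfl⟩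
  have hA0 : 0 < A := by rw [hA]; positivity
  obtain ⟨e0, he0⟩ : ∃ e0, e0 = min (1 / 4) (η / 4) := ⟨_, rfl⟩
  have he00 : 0 < e0 := by rw [he0]; exact lt_min (by norm_num) (by positivity)
  have he04 : e0 ≤ 1 / 4 := by rw [he0]; exact min_le_left _ _
  have he0η : e0 ≤ η / 4 := by rw [he0]; exact min_le_right _ _
  obtain ⟨C, hCd⟩ : ∃ C, C = 5 * (A + B) + C8 + CD + 2 * C0 / e0 + 4 := ⟨_, rfl⟩
  have hC0e : 0 < 2 * C0 / e0 := by positivity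
  have hCA : 5 * (A + B) ≤ C := by rw [hCd]; linarith
  have hCC8 : C8 ≤ C := by rw [hCd]; linarith
  have hCCD : CD ≤ C := by rw [hCd]; linarith
  have hCC0 : 2 * C0 / e0 ≤ C := by rw [hCd]; linarith
  have hCC4 : 4 ≤ C := by rw [hCd]; linarith
  have hC0' : 0 < C := by linarith
  have hev1 : ∀ᶠ X : ℝ in atTop, X ^ (-3 : ℝ) ≤ ε / 8 ∧ X ^ (-(η / 4)) ≤ ε / 8 := by
    have a1 := (tendsto_rpow_neg_atTop (y := 3) (by norm_num)).eventually_le_const (by positivity : 0 < ε / 8)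
    have a2 := (tendsto_rpow_neg_atTop (y := η / 4) (by positivity)).eventually_le_const (by positivity : 0 < ε / 8)
    exact a1.and a2
  have hev2 : ∀ᶠ X : ℝ in atTop, max 2 ((ε / 2 + 4 * MB) * (8 / ε)) ≤ Real.log X :=
    Real.tendsto_log_atTop.eventually_ge_atTop _
  have hEv := (((((((((hN' C hC0').up).and (Ev.of_ev hTSX)).and (Ev.of_ev hC4)).and (Ev.of_le hδD0)).and
    (Ev.lam (8 * CD / ε))).and (Ev.of_ev hev2)).and
    (Ev.small (C := C4 + (C4 + 2 * CW)) (c := 1) (e := ε / 8) (by norm_num) (by positivity))).and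
    (Ev.win (D := G) (c := 1) (e := e0) (by norm_num) he00)).and (Ev.of_ev hev1)
  refine hEv.mono ?_
  rintro X δ hX hδ hδ16 ⟨⟨⟨⟨⟨⟨⟨⟨hup, hts⟩, hw4⟩, hdD⟩, hlam⟩, hlog⟩, hsm⟩, hwin⟩, hX3, hXη⟩ hδX
  obtain ⟨y, K, N0, hy, hy1, hK1, hKX, hv, hNm, hNX, hNv, hNt⟩ := hup (2 * X) (by linarith)
  obtain ⟨LX, hLX⟩ : ∃ LX, LX = Real.log X := ⟨_, rfl⟩
  rw [← hLX] at hlog hlam hδX
  have hLX2 : 2 ≤ LX := (le_max_left _ _).trans hlog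
  have hLX1 : 1 ≤ LX := by linarith
  have hLX0 : 0 < LX := by linarith
  have hX0 : (0 : ℝ) < X := by linarith
  obtain ⟨L, hL⟩ : ∃ L, L = Real.log (1 / δ) := ⟨_, rfl⟩
  have hL1 : 1 ≤ L := by rw [hL]; exact log_inv_ge hδ hδ16
  have hL0 : 0 < L := by linarith
  have hδ1' : δ ≤ 1 := by linarith
  have hrp : ∀ a : ℝ, δ ^ a = Real.exp (-(a * L)) := fun a => by rw [hL]; exact rpow_eq hδ a
  have hly : 0 < Real.log y := Real.log_pos (by linarith)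
  rw [← hL] at hy1 hK1 hv hNt hlam
  have hKly : 0 ≤ (K + 1) * Real.log y := by positivity
  have hlog2X : Real.log (2 * X) ≤ 2 * LX := by
    rw [Real.log_mul (by norm_num) hX0.ne', ← hLX]
    have := Real.log_two_lt_d9
    linarith
  -- powers of the logarithm
  have hLXδ : LX ^ 5 ≤ δ ^ (-(5 / c)) := by
    have h1 : LX ^ c ≤ 1 / δ := by
      rw [Real.rpow_neg hLX0.le] at hδX
      have h2 : 0 < LX ^ c := Real.rpow_pos_of_pos hLX0 _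
      rw [le_div_iff₀ hδ]
      calc LX ^ c * δ ≤ LX ^ c * (LX ^ c)⁻¹ := mul_le_mul_of_nonneg_left hδX h2.le
        _ = 1 := mul_inv_cancel₀ h2.ne'
    have h3 : LX ^ 5 = (LX ^ c) ^ (5 / c) := by
      rw [← Real.rpow_mul hLX0.le, mul_div_cancel₀ _ hc.ne']
      exact_mod_cast (Real.rpow_natCast LX 5).symm
    rw [h3]
    calc (LX ^ c) ^ (5 / c) ≤ (1 / δ) ^ (5 / c) :=
          Real.rpow_le_rpow (Real.rpow_pos_of_pos hLX0 _).le h1 h5c.le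
      _ = δ ^ (-(5 / c)) := by rw [one_div, Real.inv_rpow hδ.le, ← Real.rpow_neg hδ.le]
  have hpow : ∀ a : ℝ, G + 5 / c + 1 ≤ a → δ ^ (-G) * δ ^ a * LX ^ 5 ≤ δ := by
    intro a ha
    calc δ ^ (-G) * δ ^ a * LX ^ 5 ≤ δ ^ (-G) * δ ^ a * δ ^ (-(5 / c)) :=
          mul_le_mul_of_nonneg_left hLXδ (by positivity)
      _ = δ ^ (-G + a + (-(5 / c))) := by rw [← Real.rpow_add hδ, ← Real.rpow_add hδ]
      _ ≤ δ ^ (1 : ℝ) := Real.rpow_le_rpow_of_exponent_ge hδ hδ1' (by linarith)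
      _ = δ := Real.rpow_one δ
  -- sizes
  have hsz : ∀ s : ℂ, ‖s‖ ≤ R → ∑ n ∈ FS y K, ‖dS s n‖ ≤ X ^ e0 := by
    intro s hs
    refine ((hC0 y hy K).2 s hs).trans ?_
    rw [Real.rpow_def_of_pos hX0, ← hLX]
    apply Real.exp_le_exp.2
    have k1 : 2 * C0 / e0 * ((K + 1) * Real.log y) ≤ 2 * LX :=
      ((mul_le_mul_of_nonneg_right hCC0 hKly).trans hKX).trans hlog2X
    have k2 : C0 * ((K + 1) * Real.log y) = e0 / 2 * (2 * C0 / e0 * ((K + 1) * Real.log y)) := by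
      field_simp
    rw [k2]
    have := mul_le_mul_of_nonneg_left k1 (by positivity : 0 ≤ e0 / 2)
    linarith
  have hlen : ∀ n ∈ FS y K, 1 ≤ n ∧ (n:ℝ) ≤ X ^ ((1:ℝ) / 2) := by
    intro n hn
    obtain ⟨a1, a2⟩ := (hC0 y hy K).1 n hn
    refine ⟨a1, a2.trans ?_⟩
    rw [Real.rpow_def_of_pos hX0, ← hLX]
    apply Real.exp_le_exp.2
    have k1 : 4 * ((K + 1) * Real.log y) ≤ 2 * LX :=
      ((mul_le_mul_of_nonneg_right hCC4 hKly).trans hKX).trans hlog2X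
    linarith
  have hexpE : ∀ s : ℝ, s = Cc * (ca * L + 2 * L + 1) → Real.exp s ≤ Real.exp (B * L) := by
    intro s hs
    rw [hs, hB]
    apply Real.exp_le_exp.2
    nlinarith
  have hK45 : ((4 : ℝ) / 5) ^ K ≤ Real.exp (-((A + B) * L)) := by
    have g1 : (4 : ℝ) / 5 ≤ Real.exp (-(1 / 5)) := by
      have := Real.add_one_le_exp (-(1 / 5 : ℝ))
      linarith
    calc ((4 : ℝ) / 5) ^ K ≤ Real.exp (-(1 / 5)) ^ K := pow_le_pow_left₀ (by norm_num) g1 K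
      _ = Real.exp (-(K / 5)) := by
        rw [← Real.exp_nat_mul]
        congr 1
        ring
      _ ≤ _ := by
        apply Real.exp_le_exp.2
        nlinarith
  -- pointwise comparison
  have hpt : ∀ t ∈ N0, ∀ s : ℂ, ‖s‖ ≤ R →
      ‖((‖riemannZeta (pw δ t)‖ : ℝ) : ℂ) ^ (2 * s) - AS s y K (pw δ t) *
        (starRingEnd ℂ) (AS ((starRingEnd ℂ) s) y K (pw δ t))‖ ≤ δ ^ E := by
    intro t ht s hs
    obtain ⟨g1, g2⟩ := hNt t ht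
    have hre : 1 / 2 ≤ (pw δ t).re := by
      unfold pw
      simp
      linarith
    have k1 : ‖riemannZeta (pw δ t) * AS (-1) y K (pw δ t) - 1‖ ≤ δ ^ A :=
      g2.trans (Real.rpow_le_rpow_of_exponent_ge hδ hδ1' (by linarith))
    have k2 : (4 / 5 : ℝ) ^ K * Real.exp (Cc * (ca * L + 2 * L + 1)) ≤ δ ^ A := by
      rw [hrp]
      calc _ ≤ Real.exp (-((A + B) * L)) * Real.exp (B * L) :=
            mul_le_mul hK45 (hexpE _ rfl) (Real.exp_pos _).le (Real.exp_pos _).le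
        _ = Real.exp (-(A * L)) := by
          rw [← Real.exp_add]
          congr 1
          ring
    have k3 : δ ^ A * Real.exp (Cc * (ca * L + 2 * L + 1)) ≤ δ ^ E := by
      rw [hrp, hrp]
      calc _ ≤ Real.exp (-(A * L)) * Real.exp (B * L) :=
            mul_le_mul_of_nonneg_left (hexpE _ rfl) (Real.exp_pos _).le
        _ = _ := by
          rw [← Real.exp_add, hA]
          congr 1
          ring
    have k4 : δ ^ E ≤ 1 := Real.rpow_le_one hδ.le hδ1' hE0.le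
    exact (hCc y K (pw δ t) (ca * L) (2 * L) (δ ^ A) hy hre g1 hv (Real.rpow_pos_of_pos hδ _) k1 k2
      (k3.trans k4) s hs).trans k3
  have hδC : δ ^ C ≤ 1 / 2 := by
    calc δ ^ C ≤ δ ^ (1 : ℝ) := Real.rpow_le_rpow_of_exponent_ge hδ hδ1' (by linarith)
      _ = δ := Real.rpow_one δ
      _ ≤ 1 / 2 := by linarith
  have hNN : N0 ∩ Set.Ioi 0 ⊆ Set.Ioc 0 (2 * X) := fun t ht => ⟨ht.2, (hNX ht.1).2⟩
  refine ⟨N0 ∩ Set.Ioi 0, hNm.inter measurableSet_Ioi, fun t ht => hNX ht.1, ?_, ?_, ?_, ?_⟩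
  · have h1 : Set.Icc 0 (2 * X) \ (N0 ∩ Set.Ioi 0) ⊆ (Set.Icc 0 (2 * X) \ N0) ∪ {0} := by
      intro t ht
      by_cases h0 : t = 0
      · exact Or.inr h0
      · refine Or.inl ⟨ht.1, fun hn => ht.2 ⟨hn, lt_of_le_of_ne ht.1.1 (Ne.symm h0)⟩⟩
    refine (measure_mono h1).trans ((measure_union_le _ _).trans ?_)
    rw [Real.volume_singleton, add_zero]
    refine hNv.trans (ENNReal.ofReal_le_ofReal ?_)
    have h2 : δ ^ D1 ≤ δ ^ D * δ := by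
      calc δ ^ D1 ≤ δ ^ (D + 1) := Real.rpow_le_rpow_of_exponent_ge hδ hδ1' (by rw [hD1]; linarith)
        _ = δ ^ D * δ := by rw [Real.rpow_add hδ, Real.rpow_one]
    have h3 : 0 < δ ^ D := Real.rpow_pos_of_pos hδ _
    calc δ ^ D1 * (2 * X) ≤ (δ ^ D * δ) * (2 * X) := mul_le_mul_of_nonneg_right h2 (by positivity)
      _ = (2 * δ) * (δ ^ D * X) := by ring
      _ ≤ 1 * (δ ^ D * X) := mul_le_mul_of_nonneg_right (by linarith) (by positivity)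
      _ = δ ^ D * X := one_mul _
  · intro t ht h0
    have g2 := (hNt t ht.1).2
    rw [h0, zero_mul, zero_sub, norm_neg, norm_one] at g2
    linarith
  · exact log_bdd y K δ hδ hδ16 (2 * X) _ (fun t ht => hNX ht.1) (fun t ht => ((hNt t ht.1).2).trans hδC)
  intro κ hκR s hs
  have hs' : ‖(starRingEnd ℂ) s‖ ≤ R := by rwa [RCLike.norm_conj]
  have hκ1 : 1 ≤ κ := by
    have h1 := hκR.1
    rw [← hLX] at h1
    have h2 : (1:ℝ) ≤ κ := by nlinarith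
    exact_mod_cast h2
  obtain ⟨hwp, hwt, hwi, hwint⟩ := hCW κ X hκ1 hX0
  obtain ⟨i4, i2, b4, b2, b2t⟩ := hw4 κ hκR
  rw [← hLX] at b4 b2
  have hW : ∀ t ∈ Set.Ioi (0:ℝ), 0 ≤ wt κ X t ∧ wt κ X t ≤ CW * (2 * LX) / X := by
    intro t ht
    obtain ⟨a1, a2⟩ := hwp t ht
    refine ⟨a1.le, a2.trans ?_⟩
    apply div_le_div_of_nonneg_right _ hX0.le
    apply mul_le_mul_of_nonneg_left _ hCW0.le
    rw [Real.sqrt_le_left (by positivity)]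
    have h1 := hκR.2
    rw [← hLX] at h1
    nlinarith
  have hKC8 : C8 * ((K + 1) * Real.log y) ≤ Real.log (2 * X) :=
    (mul_le_mul_of_nonneg_right hCC8 hKly).trans hKX
  have hdgf := hCD δ hδ hdD y K hy
    ((mul_le_mul_of_nonneg_right hCCD (by rw [← hL]; exact hL0.le)).trans (by rw [← hL]; exact hy1))
    ((mul_le_mul_of_nonneg_right hCCD (by rw [← hL]; exact hL0.le)).trans (by rw [← hL]; exact hK1)) s hs
  have hNv2 : volume (Set.Ioc 0 (2 * X) \ (N0 ∩ Set.Ioi 0)) ≤ ENNReal.ofReal (δ ^ D1 * (2 * X)) := by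
    refine (measure_mono ?_).trans hNv
    intro t ht
    exact ⟨⟨ht.1.1.le, ht.1.2⟩, fun hn => ht.2 ⟨hn, ht.1.1⟩⟩
  have hgoal := core (X := X) (δ := δ) (y := y) (G := G) (E := E) (η := η) (e0 := e0) (C8 := C8) (CW := CW)
    (C4 := C4) (CD := CD) (LX := LX) (ε := ε) (MB := MB) (D1 := D1) (K := K) (κ := κ) (N := N0 ∩ Set.Ioi 0)
    (s := s) hX hδ hδ16 hε hLX hLX1 he00 he04 he0η hC40 hCW0 hκ1 hW i4 i2 b4 b2 b2t
    (hNm.inter measurableSet_Ioi) hNN hNv2 (hsz s hs) (hsz _ hs')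
    (hC8 y K δ (2 * X) hy hδ hδ16 (by positivity) hKC8 s hs)
    (hC8 y K δ (2 * X) hy hδ hδ16 (by positivity) hKC8 _ hs')
    (fun t ht => hpt t ht.1 s hs) (hts κ hκR) hlen hdgf.1 hdgf.2 (hMB s hs)
    (by rw [hG]; exact cpow_norm2 hδ hδ16 s hs) hwin (hpow E (by rw [hE]))
    (hpow _ (by rw [hD1, hE]; linarith)) (by rw [Real.rpow_one] at hsm; exact hsm) hX3 hXη ?_ ?_
  · rw [← hLX]
    exact hgoal
  · rw [div_le_iff₀ hδ]
    have h1 : 8 * CD / ε * 1 ≤ 8 * CD / ε * L ^ 2 :=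
      mul_le_mul_of_nonneg_left (one_le_pow₀ hL1) (by positivity)
    have h2 : 8 * CD / ε ≤ δ * LX := by linarith
    have h3 : CD = ε / 8 * (8 * CD / ε) := by field_simp
    have h4 := mul_le_mul_of_nonneg_left h2 (by positivity : 0 ≤ ε / 8)
    linarith
  · have h1 := (le_max_right _ _).trans hlog
    have h2 := mul_le_mul_of_nonneg_left h1 (by positivity : 0 ≤ ε / 8)
    have h3 : ε / 8 * ((ε / 2 + 4 * MB) * (8 / ε)) = ε / 2 + 4 * MB := by field_simp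
    linarith

end Pool.Agent.N748.MO.OCM
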