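import Pool.Agent.N748.MO.Stm
import Pool.Agent.H262R4.TM.All2

set_option autoImplicit false

/-! (TSX): the twisted second moment with two polynomials, by polarization. -/

namespace Pool.Agent.N748.MO.TSX

open Finset Filter MeasureTheory Topology Complex
open Pool.Agent.N748.MG Pool.Agent.N748.MO
open Pool.Agent.H306R2.SM (om cl Yf)
open Pool.Agent.H262R4.TM (Ck Rng)

lemma om_eq (κ : ℕ) (X t : ℝ) : om κ (κ / X) t = wt κ X t := rfl

lemma zh_eq (t : ℝ) : ‖riemannZeta (cl t)‖ = zh t := rfl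

/-- the polynomial -/
noncomputable def P (N : ℕ) (a : ℕ → ℂ) (t : ℝ) : ℂ := ∑ n ∈ Icc 1 N, a n * (n:ℂ) ^ (-(cl t))

/-- the form -/
noncomputable def Q (N κ : ℕ) (X : ℝ) (a b : ℕ → ℂ) : ℂ :=
  ∑ h ∈ Icc 1 N, ∑ l ∈ Icc 1 N, a h * (starRingEnd ℂ) (b l) *
        ((1 / (Nat.lcm h l : ℝ) *
          (Real.log (Yf κ X * (Nat.gcd h l : ℝ) ^ 2 / ((h : ℝ) * l)) + Ck κ) : ℝ) : ℂ)

lemma P_cont (N : ℕ) (a : ℕ → ℂ) : Continuous (P N a) := by
  unfold P
  refine continuous_finsetSum _ fun n hn => ?_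
  have hn0 : (n:ℂ) ≠ 0 := by
    have := (mem_Icc.mp hn).1
    exact_mod_cast (show n ≠ 0 by omega)
  refine continuous_const.mul ?_
  have : Continuous fun t : ℝ => -(cl t) := by
    unfold cl
    fun_prop
  exact this.const_cpow (Or.inl hn0)

lemma P_bd (N : ℕ) (a : ℕ → ℂ) : ∃ C : ℝ, ∀ t, ‖P N a t‖ ≤ C := by
  refine ⟨∑ n ∈ Icc 1 N, ‖a n‖ * (n:ℝ) ^ (-(1 / 2) : ℝ), fun t => ?_⟩
  unfold P
  refine (norm_sum_le _ _).trans (sum_le_sum fun n hn => ?_)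
  have hn0 : 0 < n := (mem_Icc.mp hn).1
  rw [norm_mul, Complex.norm_natCast_cpow_of_pos hn0]
  refine le_of_eq ?_
  congr 2
  simp [cl]

lemma P_add (N : ℕ) (a b : ℕ → ℂ) (c r : ℂ) (t : ℝ) :
    P N (fun n => r * (a n + c * b n)) t = r * (P N a t + c * P N b t) := by
  unfold P
  rw [mul_sum, ← sum_add_distrib, mul_sum]
  refine sum_congr rfl fun n _ => ?_
  ring

/-- polarization of a product -/
lemma pol (A B : ℂ) : A * (starRingEnd ℂ) B = 1 / 4 * (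
    ((‖A + 1 * B‖ ^ 2 : ℝ) : ℂ) + (-1) * ((‖A + (-1) * B‖ ^ 2 : ℝ) : ℂ) +
    I * ((‖A + I * B‖ ^ 2 : ℝ) : ℂ) + (-I) * ((‖A + (-I) * B‖ ^ 2 : ℝ) : ℂ)) := by
  have h : ∀ z : ℂ, ((‖z‖ ^ 2 : ℝ) : ℂ) = z * (starRingEnd ℂ) z := by
    intro z
    rw [Complex.mul_conj, Complex.normSq_eq_norm_sq]
  simp only [h, map_add, map_mul, map_neg, map_one, Complex.conj_I]
  linear_combination ((1 / 2 : ℂ) * A * (starRingEnd ℂ) B - 1 / 2 * (starRingEnd ℂ) A * B) * Complex.I_sq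

lemma Qpol (N κ : ℕ) (X : ℝ) (a b : ℕ → ℂ) (r : ℝ) : (r:ℂ) ^ 2 * Q N κ X a b = 1 / 4 * (
    Q N κ X (fun n => r * (a n + 1 * b n)) (fun n => r * (a n + 1 * b n)) +
    (-1) * Q N κ X (fun n => r * (a n + (-1) * b n)) (fun n => r * (a n + (-1) * b n)) +
    I * Q N κ X (fun n => r * (a n + I * b n)) (fun n => r * (a n + I * b n)) +
    (-I) * Q N κ X (fun n => r * (a n + (-I) * b n)) (fun n => r * (a n + (-I) * b n))) := by
  unfold Q
  simp only [mul_sum, ← sum_add_distrib]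
  refine sum_congr rfl fun h _ => sum_congr rfl fun l _ => ?_
  simp only [map_add, map_mul, map_neg, map_one, Complex.conj_I, Complex.conj_ofReal]
  linear_combination ((1 / 2 : ℂ) * r ^ 2 * (a h * (starRingEnd ℂ) (b l) - b h * (starRingEnd ℂ) (a l)) *
    ((1 / (Nat.lcm h l : ℝ) * (Real.log (Yf κ X * (Nat.gcd h l : ℝ) ^ 2 / ((h : ℝ) * l)) + Ck κ) : ℝ) : ℂ)) * Complex.I_sq

/-- the starting theorem for one polynomial with bounded coefficients -/
lemma one : ∃ η : ℝ, 0 < η ∧ ∀ᶠ X : ℝ in atTop, ∀ κ : ℕ, Rg κ X → ∀ N : ℕ, (N:ℝ) ≤ X ^ ((1:ℝ) / 2) →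
    ∀ e : ℕ → ℂ, (∀ n, ‖e n‖ ≤ 1) →
    ‖((∫ t in Set.Ioi (0:ℝ), wt κ X t * zh t ^ 2 * ‖P N e t‖ ^ 2 : ℝ) : ℂ) - Q N κ X e e‖ ≤ X ^ (-η) := by
  obtain ⟨η, hη, h⟩ := Pool.Agent.H262R4.TM.f_TSM2 (1 / 2) (by norm_num)
  refine ⟨η, hη, ?_⟩
  filter_upwards [h] with X hX κ hκ N hN e he
  exact hX κ hκ N hN e he

/-- integrability of the weight times the square of zeta -/
lemma integ : ∀ᶠ X : ℝ in atTop, ∀ κ : ℕ, Rg κ X → IntegrableOn (fun t => wt κ X t * zh t ^ 2) (Set.Ioi 0) := by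
  obtain ⟨η, hη, h⟩ := one
  filter_upwards [h, eventually_ge_atTop (Real.exp 200)] with X hX hX1 κ hκ
  by_contra hni
  have hX0 : 0 < X := (Real.exp_pos _).trans_le hX1
  have hlog : 200 ≤ Real.log X := by rwa [Real.le_log_iff_exp_le hX0]
  have hX1' : 1 ≤ X := (Real.one_le_exp (by norm_num)).trans hX1
  have h1 := hX κ hκ 1 (by
    push_cast
    exact Real.one_le_rpow hX1' (by norm_num)) (fun _ => 1) (by simp)
  have e1 : ∀ t, P 1 (fun _ => 1) t = 1 := by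
    intro t
    unfold P
    simp
  simp only [e1, norm_one, one_pow, mul_one] at h1
  rw [integral_undef hni] at h1
  have e2 : Q 1 κ X (fun _ => 1) (fun _ => 1) = ((Real.log (Yf κ X) + Ck κ : ℝ) : ℂ) := by
    unfold Q
    simp
  rw [e2, Complex.ofReal_zero, zero_sub, norm_neg, Complex.norm_real, Real.norm_eq_abs] at h1
  have h2 : X ^ (-η) ≤ 1 := Real.rpow_le_one_of_one_le_of_nonpos hX1' (by linarith)
  have hκ1 : (1:ℝ) ≤ κ := by nlinarith [hκ.1]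
  have hκ0 : 0 < κ := by exact_mod_cast (show (0:ℝ) < κ by linarith)
  have h3 : 0 ≤ Ck κ := by
    unfold Ck
    have h4 : (0:ℝ) ≤ (harmonic κ : ℝ) := by
      have : (0:ℚ) ≤ harmonic κ := by
        unfold harmonic
        positivity
      exact_mod_cast this
    have h5 := Real.one_half_lt_eulerMascheroniConstant
    linarith
  have h6 : 2 ≤ Real.log (Yf κ X) := by
    unfold Yf
    rw [Real.log_div hX0.ne' (by positivity), Real.log_mul (by positivity) (by positivity)]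
    have h7 : Real.log (κ:ℝ) ≤ Real.log (4 * Real.log X ^ 2) := Real.log_le_log (by linarith) hκ.2
    have h8 : Real.log (4 * Real.log X ^ 2) = Real.log 4 + 2 * Real.log (Real.log X) := by
      rw [Real.log_mul (by norm_num) (by positivity), Real.log_pow]
      push_cast; ring
    have h9 : Real.log (Real.log X) ≤ Real.log X / 4 + 4 := by
      have := Real.log_le_sub_one_of_pos (show 0 < Real.log X / 4 by linarith)
      have h10 : Real.log (Real.log X) = Real.log (Real.log X / 4) + Real.log 4 := by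
        rw [← Real.log_mul (by positivity) (by norm_num)]
        congr 1; ring
      have h11 : Real.log 4 ≤ 3 := by
        have := Real.log_le_sub_one_of_pos (show (0:ℝ) < 4 by norm_num)
        linarith
      linarith
    have h12 : Real.log 4 ≤ 3 := by
      have := Real.log_le_sub_one_of_pos (show (0:ℝ) < 4 by norm_num)
      linarith
    have h13 : Real.log (2 * Real.pi) ≤ 7 := by
      have := Real.log_le_sub_one_of_pos (show (0:ℝ) < 2 * Real.pi by positivity)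
      have := Real.pi_lt_four
      linarith
    linarith
  have h14 := le_abs_self (Real.log (Yf κ X) + Ck κ)
  linarith

lemma integ2 {κ : ℕ} {X : ℝ} (h : IntegrableOn (fun t => wt κ X t * zh t ^ 2) (Set.Ioi 0)) {g : ℝ → ℝ}
    (hg : Continuous g) {C : ℝ} (hC : ∀ t, ‖g t‖ ≤ C) :
    IntegrableOn (fun t => wt κ X t * zh t ^ 2 * g t) (Set.Ioi 0) := by
  refine Integrable.mul_bdd (c := C) h hg.aestronglyMeasurable ?_
  exact Eventually.of_forall hC

lemma int4 {μ : Measure ℝ} {f g h k : ℝ → ℂ} (hf : Integrable f μ) (hg : Integrable g μ) (hh : Integrable h μ)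
    (hk : Integrable k μ) (u v w : ℂ) : (∫ t, f t ∂μ) + u * (∫ t, g t ∂μ) + v * (∫ t, h t ∂μ) + w * (∫ t, k t ∂μ) =
      ∫ t, (f t + u * g t + v * h t + w * k t) ∂μ := by
  have h1 : Integrable (fun t => f t + u * g t) μ := hf.add (hg.const_mul u)
  have h2 : Integrable (fun t => f t + u * g t + v * h t) μ := h1.add (hh.const_mul v)
  rw [integral_add h2 (hk.const_mul w), integral_add h1 (hh.const_mul v), integral_add hf (hg.const_mul u),
    integral_const_mul, integral_const_mul, integral_const_mul]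

theorem main : S_TSX := by
  obtain ⟨η, hη, h⟩ := one
  refine ⟨η / 2, by linarith, ?_⟩
  filter_upwards [h, integ, eventually_ge_atTop 1, (tendsto_rpow_atTop (show 0 < η / 2 by linarith)).eventually_ge_atTop 4]
    with X hX hint hX1 hX4 κ hκ F hF a b M hM ha hb
  have hX0 : 0 < X := by linarith
  obtain ⟨N, hN⟩ : ∃ N, N = ⌊X ^ ((1:ℝ) / 2)⌋₊ := ⟨_, rfl⟩
  have hNX : (N:ℝ) ≤ X ^ ((1:ℝ) / 2) := by rw [hN]; exact Nat.floor_le (by positivity)
  have hFN : F ⊆ Icc 1 N := by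
    intro n hn
    obtain ⟨h1, h2⟩ := hF n hn
    rw [mem_Icc, hN]
    exact ⟨h1, Nat.le_floor h2⟩
  classical
  obtain ⟨a', ha'⟩ : ∃ a' : ℕ → ℂ, a' = fun n => if n ∈ F then a n else 0 := ⟨_, rfl⟩
  obtain ⟨b', hb'⟩ : ∃ b' : ℕ → ℂ, b' = fun n => if n ∈ F then b n else 0 := ⟨_, rfl⟩
  have hPa : ∀ t : ℝ, ∑ n ∈ F, a n * (n:ℂ) ^ (-(1 / 2 + t * I : ℂ)) = P N a' t := by
    intro t
    unfold P
    rw [← sum_subset hFN]
    · refine sum_congr rfl fun n hn => ?_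
      rw [ha']
      simp only [hn, if_true]
      rfl
    · intro n _ hn
      rw [ha']
      simp [hn]
  have hPb : ∀ t : ℝ, ∑ n ∈ F, b n * (n:ℂ) ^ (-(1 / 2 + t * I : ℂ)) = P N b' t := by
    intro t
    unfold P
    rw [← sum_subset hFN]
    · refine sum_congr rfl fun n hn => ?_
      rw [hb']
      simp only [hn, if_true]
      rfl
    · intro n _ hn
      rw [hb']
      simp [hn]
  have hQ : ∑ h ∈ F, ∑ l ∈ F, a h * (starRingEnd ℂ) (b l) * ((1 / (Nat.lcm h l : ℝ) *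
      (Real.log (X / (2 * Real.pi * κ) * (Nat.gcd h l : ℝ) ^ 2 / ((h:ℝ) * l)) +
        ((harmonic κ : ℝ) + Real.eulerMascheroniConstant)) : ℝ) : ℂ) = Q N κ X a' b' := by
    unfold Q
    rw [← sum_subset hFN]
    · refine sum_congr rfl fun n hn => ?_
      rw [← sum_subset hFN]
      · refine sum_congr rfl fun l hl => ?_
        rw [ha', hb']
        simp only [hn, hl, if_true]
        rfl
      · intro l _ hl
        rw [hb']
        simp [hl]
    · intro n _ hn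
      rw [ha']
      simp [hn]
  simp_rw [hPa, hPb]
  rw [hQ]
  have hna : ∀ n, ‖a' n‖ ≤ M := by
    intro n
    rw [ha']
    by_cases hn : n ∈ F
    · simp only [hn, if_true]; exact ha n hn
    · simp only [hn, if_false, norm_zero]; exact hM.le
  have hnb : ∀ n, ‖b' n‖ ≤ M := by
    intro n
    rw [hb']
    by_cases hn : n ∈ F
    · simp only [hn, if_true]; exact hb n hn
    · simp only [hn, if_false, norm_zero]; exact hM.le
  obtain ⟨r, hr⟩ : ∃ r : ℝ, r = 1 / (2 * M) := ⟨_, rfl⟩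
  have hr0 : 0 < r := by rw [hr]; positivity
  have hrM : r * (2 * M) = 1 := by rw [hr]; field_simp
  -- the four polynomials
  have key : ∀ c : ℂ, ‖c‖ = 1 → ‖((∫ t in Set.Ioi (0:ℝ), wt κ X t * zh t ^ 2 *
      ‖P N (fun n => (r:ℂ) * (a' n + c * b' n)) t‖ ^ 2 : ℝ) : ℂ) -
      Q N κ X (fun n => (r:ℂ) * (a' n + c * b' n)) (fun n => (r:ℂ) * (a' n + c * b' n))‖ ≤ X ^ (-η) := by
    intro c hc
    refine hX κ hκ N hNX _ fun n => ?_
    rw [norm_mul, Complex.norm_real, Real.norm_of_nonneg hr0.le]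
    have h1 : ‖a' n + c * b' n‖ ≤ 2 * M := by
      refine (norm_add_le _ _).trans ?_
      rw [norm_mul, hc, one_mul]
      linarith [hna n, hnb n]
    calc r * ‖a' n + c * b' n‖ ≤ r * (2 * M) := by gcongr
      _ = 1 := hrM
  have hval : ∀ c : ℂ, ∀ t, ‖P N (fun n => (r:ℂ) * (a' n + c * b' n)) t‖ ^ 2 = r ^ 2 * ‖P N a' t + c * P N b' t‖ ^ 2 := by
    intro c t
    rw [P_add, norm_mul, Complex.norm_real, Real.norm_of_nonneg hr0.le, mul_pow]
  have hii : ∀ c : ℂ, IntegrableOn (fun t => wt κ X t * zh t ^ 2 *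
      ‖P N (fun n => (r:ℂ) * (a' n + c * b' n)) t‖ ^ 2) (Set.Ioi 0) := by
    intro c
    obtain ⟨C, hC⟩ := P_bd N (fun n => (r:ℂ) * (a' n + c * b' n))
    refine integ2 (hint κ hκ) ((P_cont N _).norm.pow 2) (C := C ^ 2) fun t => ?_
    rw [Real.norm_of_nonneg (by positivity)]
    exact pow_le_pow_left₀ (norm_nonneg _) (hC t) 2
  have hI : (r:ℂ) ^ 2 * (∫ t in Set.Ioi (0:ℝ), ((wt κ X t * zh t ^ 2 : ℝ) : ℂ) *
      (P N a' t * (starRingEnd ℂ) (P N b' t))) = 1 / 4 * (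
      ((∫ t in Set.Ioi (0:ℝ), wt κ X t * zh t ^ 2 * ‖P N (fun n => (r:ℂ) * (a' n + 1 * b' n)) t‖ ^ 2 : ℝ) : ℂ) +
      (-1) * ((∫ t in Set.Ioi (0:ℝ), wt κ X t * zh t ^ 2 * ‖P N (fun n => (r:ℂ) * (a' n + (-1) * b' n)) t‖ ^ 2 : ℝ) : ℂ) +
      I * ((∫ t in Set.Ioi (0:ℝ), wt κ X t * zh t ^ 2 * ‖P N (fun n => (r:ℂ) * (a' n + I * b' n)) t‖ ^ 2 : ℝ) : ℂ) +
      (-I) * ((∫ t in Set.Ioi (0:ℝ), wt κ X t * zh t ^ 2 * ‖P N (fun n => (r:ℂ) * (a' n + (-I) * b' n)) t‖ ^ 2 : ℝ) : ℂ)) := by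
    have hc : ∀ c : ℂ, Integrable (fun t : ℝ => ((wt κ X t * zh t ^ 2 *
        ‖P N (fun n => (r:ℂ) * (a' n + c * b' n)) t‖ ^ 2 : ℝ) : ℂ)) (volume.restrict (Set.Ioi 0)) := fun c => (hii c).ofReal
    rw [← integral_complex_ofReal, ← integral_complex_ofReal, ← integral_complex_ofReal, ← integral_complex_ofReal,
      int4 (hc 1) (hc (-1)) (hc I) (hc (-I)), ← integral_const_mul, ← integral_const_mul]
    refine integral_congr_ae (Eventually.of_forall fun t => ?_)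
    have h1 := pol (P N a' t) (P N b' t)
    simp only [hval]
    rw [h1]
    push_cast
    ring
  have hQp := Qpol N κ X a' b' r
  have hsub : (r:ℂ) ^ 2 * ((∫ t in Set.Ioi (0:ℝ), ((wt κ X t * zh t ^ 2 : ℝ) : ℂ) *
      (P N a' t * (starRingEnd ℂ) (P N b' t))) - Q N κ X a' b') = 1 / 4 * (
      (((∫ t in Set.Ioi (0:ℝ), wt κ X t * zh t ^ 2 * ‖P N (fun n => (r:ℂ) * (a' n + 1 * b' n)) t‖ ^ 2 : ℝ) : ℂ) -
        Q N κ X (fun n => (r:ℂ) * (a' n + 1 * b' n)) (fun n => (r:ℂ) * (a' n + 1 * b' n))) +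
      (-1) * (((∫ t in Set.Ioi (0:ℝ), wt κ X t * zh t ^ 2 * ‖P N (fun n => (r:ℂ) * (a' n + (-1) * b' n)) t‖ ^ 2 : ℝ) : ℂ) -
        Q N κ X (fun n => (r:ℂ) * (a' n + (-1) * b' n)) (fun n => (r:ℂ) * (a' n + (-1) * b' n))) +
      I * (((∫ t in Set.Ioi (0:ℝ), wt κ X t * zh t ^ 2 * ‖P N (fun n => (r:ℂ) * (a' n + I * b' n)) t‖ ^ 2 : ℝ) : ℂ) -
        Q N κ X (fun n => (r:ℂ) * (a' n + I * b' n)) (fun n => (r:ℂ) * (a' n + I * b' n))) +
      (-I) * (((∫ t in Set.Ioi (0:ℝ), wt κ X t * zh t ^ 2 * ‖P N (fun n => (r:ℂ) * (a' n + (-I) * b' n)) t‖ ^ 2 : ℝ) : ℂ) -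
        Q N κ X (fun n => (r:ℂ) * (a' n + (-I) * b' n)) (fun n => (r:ℂ) * (a' n + (-I) * b' n)))) := by
    rw [mul_sub, hI, hQp]
    ring
  have k1 := key 1 (by simp)
  have k2 := key (-1) (by simp)
  have k3 := key I (by simp)
  have k4 := key (-I) (by simp)
  have hb4 : ‖(r:ℂ) ^ 2 * ((∫ t in Set.Ioi (0:ℝ), ((wt κ X t * zh t ^ 2 : ℝ) : ℂ) *
      (P N a' t * (starRingEnd ℂ) (P N b' t))) - Q N κ X a' b')‖ ≤ X ^ (-η) := by
    rw [hsub, norm_mul]
    have e4 : ‖(1 / 4 : ℂ)‖ = 1 / 4 := by norm_num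
    rw [e4]
    have t1 : ∀ A B C D : ℂ, ‖A‖ ≤ X ^ (-η) → ‖B‖ ≤ X ^ (-η) → ‖C‖ ≤ X ^ (-η) → ‖D‖ ≤ X ^ (-η) →
        1 / 4 * ‖A + (-1) * B + I * C + (-I) * D‖ ≤ X ^ (-η) := by
      intro A B C D h1 h2 h3 h4
      have g1 := norm_add_le (A + (-1) * B + I * C) ((-I) * D)
      have g2 := norm_add_le (A + (-1) * B) (I * C)
      have g3 := norm_add_le A ((-1) * B)
      have g4 : ‖(-I) * D‖ = ‖D‖ := by rw [norm_mul]; simp
      have g5 : ‖I * C‖ = ‖C‖ := by rw [norm_mul]; simp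
      have g6 : ‖(-1) * B‖ = ‖B‖ := by rw [norm_mul]; simp
      rw [g4] at g1
      rw [g5] at g2
      rw [g6] at g3
      linarith
    exact t1 _ _ _ _ k1 k2 k3 k4
  rw [norm_mul, norm_pow, Complex.norm_real, Real.norm_of_nonneg hr0.le] at hb4
  have hr2 : (2 * M) ^ 2 * r ^ 2 = 1 := by
    rw [← mul_pow, mul_comm (2 * M) r, hrM, one_pow]
  calc _ = (2 * M) ^ 2 * (r ^ 2 * ‖(∫ t in Set.Ioi (0:ℝ), ((wt κ X t * zh t ^ 2 : ℝ) : ℂ) *
      (P N a' t * (starRingEnd ℂ) (P N b' t))) - Q N κ X a' b'‖) := by rw [← mul_assoc, hr2, one_mul]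
    _ ≤ (2 * M) ^ 2 * X ^ (-η) := by gcongr
    _ = M ^ 2 * (4 * X ^ (-η)) := by ring
    _ ≤ M ^ 2 * X ^ (-(η / 2)) := by
        refine mul_le_mul_of_nonneg_left ?_ (by positivity)
        calc 4 * X ^ (-η) ≤ X ^ (η / 2) * X ^ (-η) := by gcongr
          _ = X ^ (-(η / 2)) := by
              rw [← Real.rpow_add hX0]
              congr 1; ring

end Pool.Agent.N748.MO.TSX
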