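import Pool.Agent.N748.MO.Stm

set_option autoImplicit false

/-!
# Project MO, part UNS: from the weight to the interval
-/

namespace Pool.Agent.N748.MO.UNS

open Finset Filter MeasureTheory Topology
open Pool.Agent.N748.MO

/-- the tail of the Gamma law -/
noncomputable def PP (κ : ℕ) (u : ℝ) : ℝ := Real.exp (-u) * ∑ j ∈ range κ, u ^ j / (j.factorial : ℝ)

/-- the exponential rate -/
noncomputable def ph (v : ℝ) : ℝ := v * Real.exp (1 - v)

/-- the constant -/
noncomputable def ck (κ : ℕ) : ℝ := (κ.factorial : ℝ) * Real.exp κ / (κ : ℝ) ^ (κ + 1)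

lemma PP_nonneg (κ : ℕ) {u : ℝ} (hu : 0 ≤ u) : 0 ≤ PP κ u := by
  unfold PP
  have : 0 ≤ ∑ j ∈ range κ, u ^ j / (j.factorial : ℝ) := Finset.sum_nonneg fun j _ => by positivity
  positivity

lemma PP_le_one (κ : ℕ) {u : ℝ} (hu : 0 ≤ u) : PP κ u ≤ 1 := by
  unfold PP
  have h := Real.sum_le_exp_of_nonneg hu κ
  calc Real.exp (-u) * ∑ j ∈ range κ, u ^ j / (j.factorial : ℝ) ≤ Real.exp (-u) * Real.exp u := by
        gcongr
    _ = 1 := by rw [← Real.exp_add]; simp

lemma ph_nonneg {v : ℝ} (hv : 0 ≤ v) : 0 ≤ ph v := by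
  unfold ph
  positivity

lemma ph_pow (κ : ℕ) (v : ℝ) : ph v ^ κ = v ^ κ * Real.exp (κ - κ * v) := by
  unfold ph
  rw [mul_pow, ← Real.exp_nat_mul]
  congr 2
  ring

lemma PP_le (κ : ℕ) {v : ℝ} (hv : 1 ≤ v) : PP κ (κ * v) ≤ ph v ^ κ := by
  rw [ph_pow]
  unfold PP
  have h1 : ∑ j ∈ range κ, ((κ:ℝ) * v) ^ j / (j.factorial : ℝ) ≤ v ^ κ * Real.exp κ := by
    calc ∑ j ∈ range κ, ((κ:ℝ) * v) ^ j / (j.factorial : ℝ)
        ≤ ∑ j ∈ range κ, v ^ κ * ((κ:ℝ) ^ j / (j.factorial : ℝ)) := by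
          refine Finset.sum_le_sum fun j hj => ?_
          rw [mem_range] at hj
          have h2 : v ^ j ≤ v ^ κ := pow_le_pow_right₀ hv hj.le
          rw [mul_pow, mul_comm ((κ:ℝ) ^ j), mul_div_assoc]
          gcongr
      _ = v ^ κ * ∑ j ∈ range κ, ((κ:ℝ) ^ j / (j.factorial : ℝ)) := by rw [Finset.mul_sum]
      _ ≤ v ^ κ * Real.exp κ := by
          gcongr
          exact Real.sum_le_exp_of_nonneg (Nat.cast_nonneg κ) κ
  calc Real.exp (-((κ:ℝ) * v)) * ∑ j ∈ range κ, ((κ:ℝ) * v) ^ j / (j.factorial : ℝ)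
      ≤ Real.exp (-((κ:ℝ) * v)) * (v ^ κ * Real.exp κ) := by gcongr
    _ = v ^ κ * Real.exp (κ - κ * v) := by
        rw [mul_left_comm, ← Real.exp_add]
        congr 2
        ring

lemma one_sub_PP_le (κ : ℕ) {v : ℝ} (hv0 : 0 ≤ v) (hv : v ≤ 1) : 1 - PP κ (κ * v) ≤ ph v ^ κ := by
  rw [ph_pow]
  have hs : ∀ x : ℝ, HasSum (fun n : ℕ => x ^ n / (n.factorial : ℝ)) (Real.exp x) := by
    intro x
    rw [Real.exp_eq_exp_ℝ]
    exact NormedSpace.expSeries_div_hasSum_exp x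
  have h1 := (hasSum_nat_add_iff' κ).2 (hs ((κ:ℝ) * v))
  have h2 := (hasSum_nat_add_iff' κ).2 (hs (κ:ℝ))
  have h3 : Real.exp ((κ:ℝ) * v) - ∑ j ∈ range κ, ((κ:ℝ) * v) ^ j / (j.factorial : ℝ) ≤
      v ^ κ * (Real.exp κ - ∑ j ∈ range κ, (κ:ℝ) ^ j / (j.factorial : ℝ)) := by
    refine hasSum_le (fun n => ?_) h1 (h2.mul_left (v ^ κ))
    have h4 : v ^ (n + κ) ≤ v ^ κ := pow_le_pow_of_le_one hv0 hv (Nat.le_add_left _ _)
    rw [mul_pow, mul_comm ((κ:ℝ) ^ (n + κ)), mul_div_assoc]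
    gcongr
  have h5 : 0 ≤ ∑ j ∈ range κ, (κ:ℝ) ^ j / (j.factorial : ℝ) :=
    Finset.sum_nonneg fun j _ => by positivity
  have h6 : Real.exp ((κ:ℝ) * v) - ∑ j ∈ range κ, ((κ:ℝ) * v) ^ j / (j.factorial : ℝ) ≤
      v ^ κ * Real.exp κ := by
    refine h3.trans ?_
    gcongr
    linarith
  have h7 : 1 - PP κ (κ * v) = Real.exp (-((κ:ℝ) * v)) *
      (Real.exp ((κ:ℝ) * v) - ∑ j ∈ range κ, ((κ:ℝ) * v) ^ j / (j.factorial : ℝ)) := by
    unfold PP
    rw [mul_sub, ← Real.exp_add]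
    simp
  rw [h7]
  calc _ ≤ Real.exp (-((κ:ℝ) * v)) * (v ^ κ * Real.exp κ) := by gcongr
    _ = v ^ κ * Real.exp (κ - κ * v) := by
        rw [mul_left_comm, ← Real.exp_add]
        congr 2
        ring

/-- the difference of the average of the weights and of the indicator of the interval -/
lemma W_abs (κ : ℕ) {a b t : ℝ} (ha : 0 < a) (hab : a ≤ b) (ht : 0 < t) :
    |(PP κ (κ * (t / b)) - PP κ (κ * (t / a))) - (Set.Ioc a b).indicator (fun _ => (1:ℝ)) t| ≤
      ph (t / a) ^ κ + ph (t / b) ^ κ := by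
  have hb : 0 < b := ha.trans_le hab
  have hta : 0 ≤ t / a := by positivity
  have htb : 0 ≤ t / b := by positivity
  have n1 : 0 ≤ ph (t / a) ^ κ := pow_nonneg (ph_nonneg hta) _
  have n2 : 0 ≤ ph (t / b) ^ κ := pow_nonneg (ph_nonneg htb) _
  have p1 : 0 ≤ PP κ (κ * (t / a)) := PP_nonneg κ (by positivity)
  have p2 : 0 ≤ PP κ (κ * (t / b)) := PP_nonneg κ (by positivity)
  have q1 : PP κ (κ * (t / a)) ≤ 1 := PP_le_one κ (by positivity)
  have q2 : PP κ (κ * (t / b)) ≤ 1 := PP_le_one κ (by positivity)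
  rcases le_or_gt t a with h | h
  · have h1 := one_sub_PP_le κ hta ((div_le_one ha).2 h)
    have h2 := one_sub_PP_le κ htb ((div_le_one hb).2 (h.trans hab))
    rw [Set.indicator_of_notMem (by simp [h]), sub_zero, abs_le]
    constructor <;> linarith
  · have h1 := PP_le κ ((one_le_div ha).2 h.le)
    rcases le_or_gt t b with h' | h'
    · have h2 := one_sub_PP_le κ htb ((div_le_one hb).2 h')
      rw [Set.indicator_of_mem (by simp [h, h']), abs_le]
      constructor <;> linarith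
    · have h2 := PP_le κ ((one_le_div hb).2 h'.le)
      rw [Set.indicator_of_notMem (by simp [h']), sub_zero, abs_le]
      constructor <;> linarith

lemma ph_pow_eq {κ : ℕ} (hκ : 1 ≤ κ) {X : ℝ} (hX : 0 < X) (t : ℝ) :
    ph (t / X) ^ κ = ck κ * (X * wt κ X t) := by
  have hk : (0:ℝ) < κ := by exact_mod_cast hκ
  have hf : (0:ℝ) < (κ.factorial : ℝ) := by exact_mod_cast Nat.factorial_pos κ
  rw [ph_pow]
  unfold ck wt
  have e1 : Real.exp (κ - κ * (t / X)) = Real.exp κ * Real.exp (-((κ:ℝ) / X * t)) := by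
    rw [← Real.exp_add]
    congr 1
    ring
  rw [e1, div_pow, div_pow, pow_succ X]
  field_simp

lemma ck_nonneg (κ : ℕ) : 0 ≤ ck κ := by
  unfold ck
  positivity

lemma ck_tendsto : Tendsto ck atTop (𝓝 0) := by
  have h1 := Stirling.tendsto_stirlingSeq_sqrt_pi
  have h2 : Tendsto (fun n : ℕ => Real.sqrt 2 * (Real.sqrt (n:ℝ))⁻¹) atTop (𝓝 (Real.sqrt 2 * 0)) := by
    refine Tendsto.const_mul _ ?_
    exact tendsto_inv_atTop_zero.comp (Real.tendsto_sqrt_atTop.comp tendsto_natCast_atTop_atTop)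
  have h3 := h1.mul h2
  rw [mul_zero, mul_zero] at h3
  refine h3.congr' ?_
  filter_upwards [eventually_ge_atTop 1] with n hn
  have hn0 : (0:ℝ) < n := by exact_mod_cast hn
  unfold Stirling.stirlingSeq ck
  have hs : Real.sqrt (n:ℝ) * Real.sqrt (n:ℝ) = n := Real.mul_self_sqrt hn0.le
  have hs0 : 0 < Real.sqrt (n:ℝ) := Real.sqrt_pos.2 hn0
  have hs2 : 0 < Real.sqrt 2 := Real.sqrt_pos.2 (by norm_num)
  have e1 : Real.sqrt (2 * (n:ℝ)) = Real.sqrt 2 * Real.sqrt n := Real.sqrt_mul (by norm_num) _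
  have e2 : Real.exp (n:ℝ) = Real.exp 1 ^ n := by
    rw [← Real.exp_nat_mul]
    simp
  rw [e1, e2, div_pow, pow_succ (n:ℝ)]
  have hE : 0 < Real.exp 1 ^ n := by positivity
  have hN : 0 < (n:ℝ) ^ n := by positivity
  rw [div_mul_eq_mul_div, div_eq_div_iff (by positivity) (by positivity)]
  field_simp
  nlinarith [hs]

lemma hasDeriv_sum (n : ℕ) (u : ℝ) :
    HasDerivAt (fun u : ℝ => ∑ j ∈ range (n + 1), u ^ j / (j.factorial : ℝ))
      (∑ j ∈ range n, u ^ j / (j.factorial : ℝ)) u := by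
  induction n with
  | zero =>
    simp only [zero_add, range_one, sum_singleton, pow_zero, Nat.factorial_zero, Nat.cast_one,
      div_one, range_zero, sum_empty]
    exact hasDerivAt_const u 1
  | succ n ih =>
    have h1 : (fun u : ℝ => ∑ j ∈ range (n + 1 + 1), u ^ j / (j.factorial : ℝ)) =
        fun u : ℝ => (∑ j ∈ range (n + 1), u ^ j / (j.factorial : ℝ)) +
          u ^ (n + 1) / ((n + 1).factorial : ℝ) := by
      funext u
      rw [Finset.sum_range_succ]
    rw [h1, Finset.sum_range_succ]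
    refine ih.add ?_
    have h2 := (hasDerivAt_pow (n + 1) u).div_const ((n + 1).factorial : ℝ)
    refine h2.congr_deriv ?_
    rw [Nat.factorial_succ]
    have hf : (0:ℝ) < (n.factorial : ℝ) := by exact_mod_cast Nat.factorial_pos n
    push_cast
    have hn : (n:ℝ) + 1 ≠ 0 := by positivity
    field_simp
    try rfl

lemma hasDeriv_PP (n : ℕ) (u : ℝ) :
    HasDerivAt (PP (n + 1)) (-(Real.exp (-u) * (u ^ n / (n.factorial : ℝ)))) u := by
  unfold PP
  have h1 : HasDerivAt (fun u : ℝ => Real.exp (-u)) (Real.exp (-u) * (-1)) u :=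
    (Real.hasDerivAt_exp (-u)).comp u (hasDerivAt_neg u)
  have h2 := h1.mul (hasDeriv_sum n u)
  refine h2.congr_deriv ?_
  rw [Finset.sum_range_succ]
  ring

lemma hasDeriv_W {κ : ℕ} (hκ : 1 ≤ κ) (t : ℝ) {X : ℝ} (hX : 0 < X) :
    HasDerivAt (fun X : ℝ => PP κ (κ * (t / X))) (wt κ X t) X := by
  obtain ⟨n, rfl⟩ : ∃ n, κ = n + 1 := ⟨κ - 1, by omega⟩
  have h1 : HasDerivAt (fun X : ℝ => ((n + 1 : ℕ) : ℝ) * (t / X))
      (((n + 1 : ℕ) : ℝ) * (t * (-(X ^ 2)⁻¹))) X := by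
    have h2 := ((hasDerivAt_inv hX.ne').const_mul t).const_mul ((n + 1 : ℕ) : ℝ)
    simpa only [div_eq_mul_inv] using h2
  have h3 := (hasDeriv_PP n (((n + 1 : ℕ) : ℝ) * (t / X))).comp X h1
  refine h3.congr_deriv ?_
  unfold wt
  rw [Nat.factorial_succ]
  have hf : (0:ℝ) < (n.factorial : ℝ) := by exact_mod_cast Nat.factorial_pos n
  have hn : (0:ℝ) < ((n + 1 : ℕ) : ℝ) := by positivity
  have e1 : Real.exp (-(((n + 1 : ℕ) : ℝ) / X * t)) = Real.exp (-(((n + 1 : ℕ) : ℝ) * (t / X))) := by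
    congr 1
    ring
  rw [e1]
  generalize Real.exp (-(((n + 1 : ℕ) : ℝ) * (t / X))) = E
  rw [Nat.cast_mul]
  generalize ((n + 1 : ℕ) : ℝ) = N at *
  rw [mul_pow, div_pow, div_pow, pow_succ N (n + 1), pow_succ N n, pow_succ X (n + 1), pow_succ X n,
    pow_succ t n]
  field_simp

lemma wt_cont (κ : ℕ) (t : ℝ) {a b : ℝ} (ha : 0 < a) : ContinuousOn (fun X : ℝ => wt κ X t) (Set.Icc a b) := by
  have h0 : ∀ X ∈ Set.Icc a b, X ≠ 0 := fun X hX => (ha.trans_le hX.1).ne'
  have h1 : ContinuousOn (fun X : ℝ => (κ:ℝ) / X) (Set.Icc a b) :=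
    continuousOn_const.div continuousOn_id h0
  unfold wt
  exact (((h1.pow _).mul continuousOn_const).mul (Real.continuous_exp.comp_continuousOn
    (h1.mul continuousOn_const).neg)).div_const _

lemma int_wt {κ : ℕ} (hκ : 1 ≤ κ) (t : ℝ) {a b : ℝ} (ha : 0 < a) (hab : a ≤ b) :
    ∫ X in a..b, wt κ X t = PP κ (κ * (t / b)) - PP κ (κ * (t / a)) := by
  refine intervalIntegral.integral_eq_sub_of_hasDerivAt (f := fun X : ℝ => PP κ (κ * (t / X))) ?_ ?_
  · intro X hX
    rw [Set.uIcc_of_le hab] at hX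
    exact hasDeriv_W hκ t (ha.trans_le hX.1)
  · refine ContinuousOn.intervalIntegrable ?_
    rw [Set.uIcc_of_le hab]
    exact wt_cont κ t ha

lemma wt_nonneg (κ : ℕ) {X t : ℝ} (hX : 0 < X) (ht : 0 < t) : 0 ≤ wt κ X t := by
  unfold wt
  positivity

lemma wt_meas (κ : ℕ) : Measurable (fun p : ℝ × ℝ => wt κ p.2 p.1) := by
  unfold wt
  fun_prop

lemma PP_meas (κ : ℕ) : Measurable (PP κ) := by
  unfold PP
  fun_prop

lemma key {κ : ℕ} (hκ : 1 ≤ κ) {a b : ℝ} (ha : 0 < a) (hab : a ≤ b) (F : ℝ → ℝ) (hF : ∀ t, 0 ≤ F t)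
    (hm : Measurable F) (hi : IntegrableOn F (Set.Ioc a b))
    (h1 : IntegrableOn (fun t => wt κ a t * F t) (Set.Ioi 0))
    (h2 : IntegrableOn (fun t => wt κ b t * F t) (Set.Ioi 0)) :
    IntegrableOn (fun X => ∫ t in Set.Ioi (0:ℝ), wt κ X t * F t) (Set.Ioc a b) ∧
    |(∫ X in Set.Ioc a b, ∫ t in Set.Ioi (0:ℝ), wt κ X t * F t) - ∫ t in Set.Ioc a b, F t| ≤
      ck κ * (a * (∫ t in Set.Ioi (0:ℝ), wt κ a t * F t) +
        b * ∫ t in Set.Ioi (0:ℝ), wt κ b t * F t) := by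
  have hb : 0 < b := ha.trans_le hab
  set W : ℝ → ℝ := fun t => PP κ (κ * (t / b)) - PP κ (κ * (t / a)) with hW
  have hWm : Measurable W := by
    have := PP_meas κ
    exact (this.comp (by fun_prop)).sub (this.comp (by fun_prop))
  set I : ℝ → ℝ := (Set.Ioc a b).indicator F with hI
  have hIi : IntegrableOn I (Set.Ioi 0) := by
    have : Integrable I := (integrable_indicator_iff measurableSet_Ioc).2 hi
    exact this.integrableOn
  have hIF : ∀ t, I t = (Set.Ioc a b).indicator (fun _ => (1:ℝ)) t * F t := by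
    intro t
    by_cases h : t ∈ Set.Ioc a b
    · rw [hI, Set.indicator_of_mem h, Set.indicator_of_mem h, one_mul]
    · rw [hI, Set.indicator_of_notMem h, Set.indicator_of_notMem h, zero_mul]
  set B : ℝ → ℝ := fun t => ck κ * (a * (wt κ a t * F t) + b * (wt κ b t * F t)) with hB
  have hBi : IntegrableOn B (Set.Ioi 0) := ((h1.const_mul a).add (h2.const_mul b)).const_mul (ck κ)
  have hWI : ∀ t ∈ Set.Ioi (0:ℝ), |W t * F t - I t| ≤ B t := by
    intro t ht
    rw [hIF, ← sub_mul, abs_mul, abs_of_nonneg (hF t)]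
    have h3 := W_abs κ ha hab (t := t) ht
    have e : B t = (ph (t / a) ^ κ + ph (t / b) ^ κ) * F t := by
      rw [ph_pow_eq hκ ha, ph_pow_eq hκ hb, hB]
      ring
    rw [e]
    exact mul_le_mul_of_nonneg_right h3 (hF t)
  have hWmF : Measurable (fun t => W t * F t) := hWm.mul hm
  have hWi : IntegrableOn (fun t => W t * F t) (Set.Ioi 0) := by
    have hd : IntegrableOn (fun t => W t * F t - I t) (Set.Ioi 0) := by
      refine Integrable.mono' hBi ?_ ?_
      · exact (hWmF.sub (hm.indicator measurableSet_Ioc)).aestronglyMeasurable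
      · filter_upwards [ae_restrict_mem measurableSet_Ioi] with t ht
        rw [Real.norm_eq_abs]
        exact hWI t ht
    have := hd.add hIi
    refine this.congr ?_
    filter_upwards with t
    simp
  have hwi : ∀ t, IntegrableOn (fun X => wt κ X t) (Set.Ioc a b) := fun t =>
    (wt_cont κ t ha).integrableOn_Icc.mono_set Set.Ioc_subset_Icc_self
  have hwint : ∀ t, ∫ X in Set.Ioc a b, wt κ X t * F t = W t * F t := by
    intro t
    rw [integral_mul_const, ← intervalIntegral.integral_of_le hab, int_wt hκ t ha hab]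
  have hmf : Measurable (Function.uncurry fun t X : ℝ => wt κ X t * F t) :=
    (wt_meas κ).mul (hm.comp measurable_fst)
  have hprod : Integrable (Function.uncurry fun t X : ℝ => wt κ X t * F t)
      ((volume.restrict (Set.Ioi (0:ℝ))).prod (volume.restrict (Set.Ioc a b))) := by
    refine (integrable_prod_iff hmf.aestronglyMeasurable).2 ⟨?_, ?_⟩
    · filter_upwards with t
      exact (hwi t).mul_const (F t)
    · refine hWi.congr ?_
      filter_upwards [ae_restrict_mem measurableSet_Ioi] with t ht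
      rw [← hwint t]
      refine setIntegral_congr_fun measurableSet_Ioc fun X hX => ?_
      show wt κ X t * F t = ‖wt κ X t * F t‖
      rw [Real.norm_eq_abs, abs_of_nonneg (mul_nonneg (wt_nonneg κ (ha.trans hX.1) ht) (hF t))]
  refine ⟨hprod.integral_prod_right, ?_⟩
  have hswap := integral_integral_swap hprod
  rw [← hswap]
  have e1 : ∫ t in Set.Ioi (0:ℝ), ∫ X in Set.Ioc a b, wt κ X t * F t =
      ∫ t in Set.Ioi (0:ℝ), W t * F t := by
    refine setIntegral_congr_fun measurableSet_Ioi fun t _ => hwint t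
  have e2 : ∫ t in Set.Ioc a b, F t = ∫ t in Set.Ioi (0:ℝ), I t := by
    rw [hI, setIntegral_indicator measurableSet_Ioc]
    congr 2
    rw [Set.inter_eq_right.2]
    intro t ht
    exact ha.trans ht.1
  rw [e1, e2, ← integral_sub hWi hIi]
  have e3 : ∫ t in Set.Ioi (0:ℝ), B t = ck κ * (a * (∫ t in Set.Ioi (0:ℝ), wt κ a t * F t) +
        b * ∫ t in Set.Ioi (0:ℝ), wt κ b t * F t) := by
    rw [hB, integral_const_mul, integral_add (h1.const_mul a) (h2.const_mul b), integral_const_mul,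
      integral_const_mul]
  rw [← e3]
  refine (abs_integral_le_integral_abs).trans ?_
  refine setIntegral_mono_on (hWi.sub hIi).abs hBi measurableSet_Ioi hWI

/-- the parameter tends to infinity -/
lemma kp_tendsto : Tendsto kp atTop atTop := by
  unfold kp
  have h1 : Tendsto (fun T : ℝ => 2 * Real.log T ^ 2) atTop atTop :=
    ((tendsto_pow_atTop (by norm_num)).comp Real.tendsto_log_atTop).const_mul_atTop (by norm_num)
  exact tendsto_nat_ceil_atTop.comp h1

/-- uniformity -/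
lemma unif (J : ℝ → ℝ → ℝ) (ℓ A : ℝ) (hA : 0 ≤ A)
    (h : ∀ X : ℝ → ℝ, (∀ᶠ T : ℝ in atTop, T / Real.log T ^ A ≤ X T ∧ X T ≤ 2 * T) →
      Tendsto (fun T => J T (X T)) atTop (𝓝 ℓ)) (e : ℝ) (he : 0 < e) :
    ∀ᶠ T : ℝ in atTop, ∀ X : ℝ, T / Real.log T ^ A ≤ X → X ≤ 2 * T → |J T X - ℓ| ≤ e := by
  classical
  let Y : ℝ → ℝ := fun T =>
    if hx : ∃ X : ℝ, T / Real.log T ^ A ≤ X ∧ X ≤ 2 * T ∧ e < |J T X - ℓ| then hx.choose else T
  have hY : ∀ᶠ T : ℝ in atTop, T / Real.log T ^ A ≤ Y T ∧ Y T ≤ 2 * T := by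
    filter_upwards [eventually_ge_atTop (3:ℝ)] with T hT
    by_cases hx : ∃ X : ℝ, T / Real.log T ^ A ≤ X ∧ X ≤ 2 * T ∧ e < |J T X - ℓ|
    · have e1 : Y T = hx.choose := dif_pos hx
      rw [e1]
      exact ⟨hx.choose_spec.1, hx.choose_spec.2.1⟩
    · have e1 : Y T = T := dif_neg hx
      rw [e1]
      have h1 : 1 ≤ Real.log T := by
        rw [Real.le_log_iff_exp_le (by linarith)]
        linarith [Real.exp_one_lt_d9]
      have h2 : 1 ≤ Real.log T ^ A := Real.one_le_rpow h1 hA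
      refine ⟨div_le_self (by linarith) h2, by linarith⟩
  have h3 := h Y hY
  have h4 : ∀ᶠ T : ℝ in atTop, |J T (Y T) - ℓ| < e := by
    have := (Metric.tendsto_nhds.1 h3) e he
    simpa only [Real.dist_eq] using this
  filter_upwards [h4] with T hT X hX1 hX2
  by_contra hcon
  have hx : ∃ X : ℝ, T / Real.log T ^ A ≤ X ∧ X ≤ 2 * T ∧ e < |J T X - ℓ| :=
    ⟨X, hX1, hX2, not_le.1 hcon⟩
  have e1 : Y T = hx.choose := dif_pos hx
  rw [e1] at hT
  linarith [hx.choose_spec.2.2]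

/-- (UNS) from the weight to the interval, with the condition `0 ≤ A` -/
def S_UNS0 : Prop := ∀ (F : ℝ → ℝ → ℝ) (m : ℝ → ℝ) (ℓ A : ℝ), 0 ≤ A → (∀ T t, 0 ≤ F T t) →
  (∀ᶠ T : ℝ in atTop, Measurable (F T)) →
  (∀ᶠ T : ℝ in atTop, 0 < m T ∧ IntervalIntegrable (F T) volume 0 (4 * T) ∧ ∀ X : ℝ, 0 < X → X ≤ 2 * T →
    IntegrableOn (fun t => wt (kp T) X t * F T t) (Set.Ioi 0)) →
  (∀ X : ℝ → ℝ, (∀ᶠ T : ℝ in atTop, T / Real.log T ^ A ≤ X T ∧ X T ≤ 2 * T) →
    Tendsto (fun T => (∫ t in Set.Ioi (0:ℝ), wt (kp T) (X T) t * F T t) / m T) atTop (𝓝 ℓ)) →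
  Tendsto (fun T => (∫ t in (0:ℝ)..(2 * T / Real.log T ^ A), F T t) / (T * m T)) atTop (𝓝 0) →
  Tendsto (fun T => (1 / T * ∫ t in (0:ℝ)..T, F T t) / m T) atTop (𝓝 ℓ)

/-- the integral over subintervals of the range -/
lemma asy (F : ℝ → ℝ → ℝ) (m : ℝ → ℝ) (ℓ A : ℝ) (hA : 0 ≤ A) (hF : ∀ T t, 0 ≤ F T t)
    (hm : ∀ᶠ T : ℝ in atTop, Measurable (F T))
    (hi : ∀ᶠ T : ℝ in atTop, 0 < m T ∧ IntervalIntegrable (F T) volume 0 (4 * T) ∧
      ∀ X : ℝ, 0 < X → X ≤ 2 * T → IntegrableOn (fun t => wt (kp T) X t * F T t) (Set.Ioi 0))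
    (h : ∀ X : ℝ → ℝ, (∀ᶠ T : ℝ in atTop, T / Real.log T ^ A ≤ X T ∧ X T ≤ 2 * T) →
      Tendsto (fun T => (∫ t in Set.Ioi (0:ℝ), wt (kp T) (X T) t * F T t) / m T) atTop (𝓝 ℓ))
    (e : ℝ) (he : 0 < e) :
    ∀ᶠ T : ℝ in atTop, ∀ a b : ℝ, T / Real.log T ^ A ≤ a → a ≤ b → b ≤ 2 * T →
      |(∫ t in Set.Ioc a b, F T t) - (b - a) * (ℓ * m T)| ≤ e * (T * m T) := by
  have hu := unif (fun T X => (∫ t in Set.Ioi (0:ℝ), wt (kp T) X t * F T t) / m T) ℓ A hA h (e / 4)
    (by positivity)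
  set e2 : ℝ := e / (8 * (|ℓ| + e)) with he2
  have hle : 0 < |ℓ| + e := by positivity
  have he20 : 0 < e2 := by positivity
  have hc : ∀ᶠ T : ℝ in atTop, ck (kp T) < e2 :=
    (ck_tendsto.comp kp_tendsto).eventually (gt_mem_nhds he20)
  filter_upwards [hu, hc, hm, hi, kp_tendsto.eventually (eventually_ge_atTop 1),
    eventually_ge_atTop (3:ℝ)] with T hu hc hm hi hk hT a b ha hab hb
  obtain ⟨hm0, hii, hX⟩ := hi
  have hlog : 1 ≤ Real.log T := by
    rw [Real.le_log_iff_exp_le (by linarith)]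
    linarith [Real.exp_one_lt_d9]
  have hla : 0 < Real.log T ^ A := Real.rpow_pos_of_pos (by linarith) A
  have ha0 : 0 < a := lt_of_lt_of_le (by positivity) ha
  have hb0 : 0 < b := ha0.trans_le hab
  have hFi : IntegrableOn (F T) (Set.Ioc 0 (4 * T)) :=
    (intervalIntegrable_iff_integrableOn_Ioc_of_le (by linarith)).1 hii
  have hFab : IntegrableOn (F T) (Set.Ioc a b) :=
    hFi.mono_set (Set.Ioc_subset_Ioc ha0.le (by linarith))
  obtain ⟨k1, k2⟩ := key hk ha0 hab (F T) (hF T) hm hFab (hX a ha0 (by linarith)) (hX b hb0 hb)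
  set G : ℝ → ℝ := fun X => ∫ t in Set.Ioi (0:ℝ), wt (kp T) X t * F T t with hG
  have hG1 : ∀ X : ℝ, T / Real.log T ^ A ≤ X → X ≤ 2 * T → |G X - ℓ * m T| ≤ e / 4 * m T := by
    intro X hX1 hX2
    have h1 := hu X hX1 hX2
    have h2 : G X - ℓ * m T = (G X / m T - ℓ) * m T := by field_simp
    rw [h2, abs_mul, abs_of_pos hm0]
    exact mul_le_mul_of_nonneg_right h1 hm0.le
  have hG2 : ∀ X : ℝ, T / Real.log T ^ A ≤ X → X ≤ 2 * T → G X ≤ (|ℓ| + e) * m T := by
    intro X hX1 hX2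
    have h1 := (abs_le.1 (hG1 X hX1 hX2)).2
    have h2 : ℓ * m T ≤ |ℓ| * m T := mul_le_mul_of_nonneg_right (le_abs_self ℓ) hm0.le
    have h3 : e / 4 * m T ≤ e * m T := mul_le_mul_of_nonneg_right (by linarith) hm0.le
    rw [add_mul]
    linarith
  have hG3 : ∀ X : ℝ, 0 < X → 0 ≤ G X := by
    intro X hX0
    refine setIntegral_nonneg measurableSet_Ioi fun t ht => ?_
    exact mul_nonneg (wt_nonneg _ hX0 ht) (hF T t)
  have k3 : |(∫ X in Set.Ioc a b, G X) - (b - a) * (ℓ * m T)| ≤ e / 4 * m T * (b - a) := by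
    have e1 : (b - a) * (ℓ * m T) = ∫ X in Set.Ioc a b, ℓ * m T := by
      rw [setIntegral_const, Real.volume_real_Ioc_of_le hab, smul_eq_mul]
    rw [e1, ← integral_sub k1 (integrable_const _), ← Real.norm_eq_abs]
    refine (norm_setIntegral_le_of_norm_le_const (C := e / 4 * m T) (by simp) fun X hX => ?_).trans ?_
    · rw [Real.norm_eq_abs]
      exact hG1 X (ha.trans hX.1.le) (hX.2.trans hb)
    · rw [Real.volume_real_Ioc_of_le hab]
  have k4 : e / 4 * m T * (b - a) ≤ e / 2 * (T * m T) := by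
    have : b - a ≤ 2 * T := by linarith
    calc e / 4 * m T * (b - a) ≤ e / 4 * m T * (2 * T) := by gcongr
      _ = e / 2 * (T * m T) := by ring
  have k5 : ck (kp T) * (a * G a + b * G b) ≤ e / 2 * (T * m T) := by
    have g1 : a * G a ≤ 2 * T * ((|ℓ| + e) * m T) := by
      have := hG2 a ha (by linarith)
      have := hG3 a ha0
      have : a ≤ 2 * T := by linarith
      gcongr
    have g2 : b * G b ≤ 2 * T * ((|ℓ| + e) * m T) := by
      have := hG2 b (ha.trans hab) hb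
      have := hG3 b hb0
      gcongr
    have g3 : 0 ≤ a * G a + b * G b :=
      add_nonneg (mul_nonneg ha0.le (hG3 a ha0)) (mul_nonneg hb0.le (hG3 b hb0))
    calc ck (kp T) * (a * G a + b * G b) ≤ e2 * (a * G a + b * G b) := by gcongr
      _ ≤ e2 * (2 * T * ((|ℓ| + e) * m T) + 2 * T * ((|ℓ| + e) * m T)) := by gcongr
      _ = e / 2 * (T * m T) := by
          rw [he2]
          field_simp
          ring
  have k6 : (∫ t in Set.Ioc a b, F T t) - (b - a) * (ℓ * m T) =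
      ((∫ X in Set.Ioc a b, G X) - (b - a) * (ℓ * m T)) -
        ((∫ X in Set.Ioc a b, G X) - ∫ t in Set.Ioc a b, F T t) := by ring
  rw [k6]
  refine (abs_sub _ _).trans ?_
  have k7 := k3.trans k4
  have k8 := k2.trans k5
  calc _ ≤ e / 2 * (T * m T) + e / 2 * (T * m T) := add_le_add k7 k8
    _ = e * (T * m T) := by ring

theorem main0 : S_UNS0 := by
  intro F m ℓ A hA hF hm hi h h0
  have hℓ : Tendsto (fun T : ℝ => T / Real.log T ^ A / T * |ℓ|) atTop (𝓝 0) := by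
    rcases hA.eq_or_lt with hA0 | hA0
    · have hz : ℓ = 0 := by
        by_contra hne
        have hp : 0 < |ℓ| := abs_pos.2 hne
        have h1 := asy F m ℓ A hA hF hm hi h (|ℓ| / 4) (by positivity)
        have h2 : ∀ᶠ T : ℝ in atTop,
            |(∫ t in (0:ℝ)..(2 * T / Real.log T ^ A), F T t) / (T * m T)| < |ℓ| / 4 := by
          have := (Metric.tendsto_nhds.1 h0) (|ℓ| / 4) (by positivity)
          simpa only [Real.dist_eq, sub_zero] using this
        obtain ⟨T, h1, h2, ⟨hm0, hii, -⟩, hT⟩ :=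
          (h1.and (h2.and (hi.and (eventually_ge_atTop (3:ℝ))))).exists
        rw [← hA0, Real.rpow_zero, div_one] at h1 h2
        have h3 := h1 T (2 * T) le_rfl (by linarith) le_rfl
        have hTm : 0 < T * m T := by positivity
        have hFi : IntegrableOn (F T) (Set.Ioc 0 (4 * T)) :=
          (intervalIntegrable_iff_integrableOn_Ioc_of_le (by linarith)).1 hii
        have h4 : ∫ t in Set.Ioc T (2 * T), F T t ≤ ∫ t in Set.Ioc 0 (2 * T), F T t := by
          refine setIntegral_mono_set (hFi.mono_set (Set.Ioc_subset_Ioc le_rfl (by linarith)))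
            (ae_of_all _ fun t => hF T t) ?_
          exact (Set.Ioc_subset_Ioc (by linarith) le_rfl).eventuallyLE
        have h5 : 0 ≤ ∫ t in Set.Ioc T (2 * T), F T t :=
          setIntegral_nonneg measurableSet_Ioc fun t _ => hF T t
        rw [intervalIntegral.integral_of_le (by linarith), abs_div, abs_of_pos hTm,
          div_lt_iff₀ hTm] at h2
        have h6 := lt_of_le_of_lt (le_abs_self _) h2
        have h7 : 2 * T - T = T := by ring
        rw [h7] at h3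
        have h8 : |T * (ℓ * m T)| = |ℓ| * (T * m T) := by
          rw [abs_mul, abs_mul, abs_of_pos hm0, abs_of_pos (by linarith : 0 < T)]
          ring
        have h9 : |T * (ℓ * m T)| ≤ |(∫ t in Set.Ioc T (2 * T), F T t) - T * (ℓ * m T)| +
            |∫ t in Set.Ioc T (2 * T), F T t| := by
          have := abs_sub_abs_le_abs_sub (T * (ℓ * m T)) (∫ t in Set.Ioc T (2 * T), F T t)
          rw [abs_sub_comm] at this
          linarith
        rw [abs_of_nonneg h5, h8] at h9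
        have h10 : |ℓ| * (T * m T) ≤ |ℓ| / 4 * (T * m T) + |ℓ| / 4 * (T * m T) := by linarith
        have h11 : 0 < |ℓ| * (T * m T) := by positivity
        linarith
      rw [hz]
      simp
    · have h1 : Tendsto (fun T : ℝ => (Real.log T ^ A)⁻¹ * |ℓ|) atTop (𝓝 (0 * |ℓ|)) :=
        (tendsto_inv_atTop_zero.comp ((tendsto_rpow_atTop hA0).comp Real.tendsto_log_atTop)).mul_const _
      rw [zero_mul] at h1
      refine h1.congr' ?_
      filter_upwards [eventually_gt_atTop (0:ℝ)] with T hT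
      field_simp
  rw [Metric.tendsto_nhds]
  intro e he
  have h1 := asy F m ℓ A hA hF hm hi h (e / 4) (by positivity)
  have h2 : ∀ᶠ T : ℝ in atTop,
      |(∫ t in (0:ℝ)..(2 * T / Real.log T ^ A), F T t) / (T * m T)| < e / 4 := by
    have := (Metric.tendsto_nhds.1 h0) (e / 4) (by positivity)
    simpa only [Real.dist_eq, sub_zero] using this
  have h3 : ∀ᶠ T : ℝ in atTop, |(T / Real.log T ^ A / T * |ℓ|)| < e / 4 := by
    have := (Metric.tendsto_nhds.1 hℓ) (e / 4) (by positivity)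
    simpa only [Real.dist_eq, sub_zero] using this
  filter_upwards [h1, h2, h3, hi, eventually_ge_atTop (3:ℝ)] with T h1 h2 h3 hi hT
  obtain ⟨hm0, hii, -⟩ := hi
  have hT0 : 0 < T := by linarith
  have hlog : 1 ≤ Real.log T := by
    rw [Real.le_log_iff_exp_le (by linarith)]
    linarith [Real.exp_one_lt_d9]
  have hla : 1 ≤ Real.log T ^ A := Real.one_le_rpow hlog hA
  have hla0 : 0 < Real.log T ^ A := by linarith
  set a : ℝ := T / Real.log T ^ A with ha
  have ha0 : 0 < a := by positivity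
  have haT : a ≤ T := div_le_self hT0.le hla
  have h2a : 2 * T / Real.log T ^ A = 2 * a := by rw [ha]; ring
  have hTm : 0 < T * m T := by positivity
  have hFi : IntegrableOn (F T) (Set.Ioc 0 (4 * T)) :=
    (intervalIntegrable_iff_integrableOn_Ioc_of_le (by linarith)).1 hii
  have h4 := h1 a T le_rfl haT (by linarith)
  rw [h2a, intervalIntegral.integral_of_le (by linarith), abs_div, abs_of_pos hTm,
    div_lt_iff₀ hTm] at h2
  have h5 : ∫ t in Set.Ioc 0 a, F T t ≤ ∫ t in Set.Ioc 0 (2 * a), F T t := by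
    refine setIntegral_mono_set (hFi.mono_set (Set.Ioc_subset_Ioc le_rfl (by linarith)))
      (ae_of_all _ fun t => hF T t) ?_
    exact (Set.Ioc_subset_Ioc le_rfl (by linarith)).eventuallyLE
  have h6 : 0 ≤ ∫ t in Set.Ioc 0 a, F T t :=
    setIntegral_nonneg measurableSet_Ioc fun t _ => hF T t
  have h7 : ∫ t in Set.Ioc 0 T, F T t = (∫ t in Set.Ioc 0 a, F T t) + ∫ t in Set.Ioc a T, F T t := by
    rw [← setIntegral_union (Set.Ioc_disjoint_Ioc_of_le le_rfl) measurableSet_Ioc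
      (hFi.mono_set (Set.Ioc_subset_Ioc le_rfl (by linarith)))
      (hFi.mono_set (Set.Ioc_subset_Ioc ha0.le (by linarith))),
      Set.Ioc_union_Ioc_eq_Ioc ha0.le haT]
  rw [Real.dist_eq, intervalIntegral.integral_of_le hT0.le]
  have h8 : 1 / T * (∫ t in Set.Ioc 0 T, F T t) / m T - ℓ =
      ((∫ t in Set.Ioc 0 a, F T t) + ((∫ t in Set.Ioc a T, F T t) - (T - a) * (ℓ * m T)) -
        a * (ℓ * m T)) / (T * m T) := by
    rw [h7]
    field_simp
    ring
  rw [h8, abs_div, abs_of_pos hTm, div_lt_iff₀ hTm]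
  have h9 : |a * (ℓ * m T)| ≤ e / 4 * (T * m T) := by
    rw [abs_mul, abs_mul, abs_of_pos ha0, abs_of_pos hm0]
    have h10 := lt_of_le_of_lt (le_abs_self _) h3
    have h11 : a * (|ℓ| * m T) = (a / T * |ℓ|) * (T * m T) := by
      field_simp
    rw [h11]
    exact mul_le_mul_of_nonneg_right h10.le hTm.le
  have h10 : |∫ t in Set.Ioc 0 a, F T t| ≤ e / 4 * (T * m T) := by
    rw [abs_of_nonneg h6]
    exact (h5.trans (le_abs_self _)).trans h2.le
  calc _ ≤ |∫ t in Set.Ioc 0 a, F T t| + |(∫ t in Set.Ioc a T, F T t) - (T - a) * (ℓ * m T)| +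
        |a * (ℓ * m T)| := (abs_sub _ _).trans (add_le_add (abs_add_le _ _) le_rfl)
    _ ≤ e / 4 * (T * m T) + e / 4 * (T * m T) + e / 4 * (T * m T) := by gcongr
    _ < e * (T * m T) := by nlinarith

theorem main (_g : S_WTB) : S_UNS0 := main0

end Pool.Agent.N748.MO.UNS
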