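import Pool.Agent.N748.MO.Stm

set_option autoImplicit false

/-!
# (W4) the fourth moment with the weight, and the tails
-/

namespace Pool.Agent.N748.MO.W4

open Finset Filter MeasureTheory Topology Complex
open Pool.Agent.N748.MG Pool.Agent.N748.MO

theorem zh_cont : Continuous zh := by
  unfold zh
  refine Continuous.norm ?_
  rw [continuous_iff_continuousAt]
  intro t
  have h1 : (1 / 2 + (t:ℂ) * I) ≠ 1 := by
    intro h
    have h2 := congrArg Complex.re h
    norm_num at h2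
  exact ContinuousAt.comp (f := fun t : ℝ => (1 / 2 + (t:ℂ) * I))
    (differentiableAt_riemannZeta h1).continuousAt (by fun_prop)

theorem zh_nonneg (t : ℝ) : 0 ≤ zh t := norm_nonneg _

theorem wt_cont (κ : ℕ) (X : ℝ) : Continuous (wt κ X) := by
  unfold wt; fun_prop

/-- the majorant -/
noncomputable def G (t : ℝ) : ℝ := 1 + zh t ^ 4

theorem G_cont : Continuous G := by
  unfold G
  exact continuous_const.add (zh_cont.pow 4)

theorem G_nonneg (t : ℝ) : 0 ≤ G t := by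
  have := zh_nonneg t
  unfold G; positivity

theorem zh4_le (t : ℝ) : zh t ^ 4 ≤ G t := by
  unfold G; linarith

theorem zh2_le (t : ℝ) : zh t ^ 2 ≤ G t := by
  unfold G; nlinarith [sq_nonneg (zh t ^ 2 - 1), sq_nonneg (zh t ^ 2)]

theorem G_int (hFT : S_FT) (T : ℝ) (hT : 1000 ≤ T) : ∫ t in (0:ℝ)..T, G t ≤ 2 * T * Real.log T ^ 4 := by
  have h1 := hFT T hT
  have h2 : ∫ t in (0:ℝ)..T, G t = T + ∫ t in (0:ℝ)..T, zh t ^ 4 := by
    have hi : IntervalIntegrable (fun t => zh t ^ 4) volume 0 T := (zh_cont.pow 4).intervalIntegrable _ _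
    have hc : IntervalIntegrable (fun _ : ℝ => (1:ℝ)) volume 0 T := continuous_const.intervalIntegrable _ _
    have h5 := intervalIntegral.integral_add hc hi
    have h6 : ∫ _t in (0:ℝ)..T, (1:ℝ) = T := by simp
    rw [h6] at h5
    exact h5
  have h3 : 1 ≤ Real.log T := by
    rw [Real.le_log_iff_exp_le (by linarith)]
    have := Real.exp_one_lt_d9
    linarith
  have h4 : 1 ≤ Real.log T ^ 4 := one_le_pow₀ h3
  rw [h2]
  nlinarith

/-- block bound -/
theorem block (hFT : S_FT) (κ : ℕ) (X a b M : ℝ) (ha : 0 ≤ a) (hb : 1000 ≤ b) (hM : 0 ≤ M)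
    (hw : ∀ t ∈ Set.Ioc a b, wt κ X t ≤ M) :
    ∫⁻ t in Set.Ioc a b, ENNReal.ofReal (wt κ X t * G t) ≤ ENNReal.ofReal (M * (2 * b * Real.log b ^ 4)) := by
  have hGi : IntegrableOn (fun t => M * G t) (Set.Ioc 0 b) :=
    ((continuous_const.mul G_cont).integrableOn_Icc).mono_set Set.Ioc_subset_Icc_self
  calc ∫⁻ t in Set.Ioc a b, ENNReal.ofReal (wt κ X t * G t)
      ≤ ∫⁻ t in Set.Ioc a b, ENNReal.ofReal (M * G t) := by
        refine setLIntegral_mono' measurableSet_Ioc fun t ht => ?_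
        exact ENNReal.ofReal_le_ofReal (mul_le_mul_of_nonneg_right (hw t ht) (G_nonneg t))
    _ ≤ ∫⁻ t in Set.Ioc 0 b, ENNReal.ofReal (M * G t) :=
        lintegral_mono_set (Set.Ioc_subset_Ioc_left ha)
    _ = ENNReal.ofReal (∫ t in Set.Ioc 0 b, M * G t) := by
        rw [ofReal_integral_eq_lintegral_ofReal hGi]
        exact ae_of_all _ fun t => mul_nonneg hM (G_nonneg t)
    _ ≤ ENNReal.ofReal (M * (2 * b * Real.log b ^ 4)) := by
        apply ENNReal.ofReal_le_ofReal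
        rw [integral_const_mul, ← intervalIntegral.integral_of_le (by linarith)]
        exact mul_le_mul_of_nonneg_left (G_int hFT b hb) hM

theorem log_pow_mul (X : ℝ) (hX : 0 < X) (j : ℕ) : Real.log (2 ^ j * X) ≤ Real.log X + j := by
  rw [Real.log_mul (by positivity) hX.ne', Real.log_pow]
  have h2 := Real.log_two_lt_d9
  have h3 : (j:ℝ) * Real.log 2 ≤ j * 1 := mul_le_mul_of_nonneg_left (by linarith) (Nat.cast_nonneg j)
  linarith

/-- the numerical bound for the blocks -/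
theorem num (C L : ℝ) (hC : 0 < C) (hL : 56 ≤ L) (hX : 30720 * C ≤ Real.exp L) (κ : ℕ) (h1 : L ^ 2 ≤ κ)
    (h2 : (κ:ℝ) ≤ 4 * L ^ 2) (j : ℕ) :
    C * Real.sqrt κ * Real.exp (-(κ * 2 ^ (j + 1) / 8)) * (2 * 2 ^ (j + 2) * (L + (j + 2)) ^ 4) ≤
      Real.exp (-(5 * L)) * (1 / 2) ^ j := by
  have hL0 : 0 < L := by linarith
  have hu1 : (1:ℝ) ≤ 2 ^ j := one_le_pow₀ (by norm_num)
  have hju : (j:ℝ) + 1 ≤ 2 ^ j := by
    have := Nat.lt_two_pow_self (n := j)
    have h3 : j + 1 ≤ 2 ^ j := this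
    exact_mod_cast h3
  set u : ℝ := 2 ^ j with hu
  have hs : Real.sqrt κ ≤ 2 * L := by
    apply Real.sqrt_le_iff.mpr
    exact ⟨by positivity, by nlinarith⟩
  have hp : (L + (j + 2)) ^ 4 ≤ (2 * L * u) ^ 4 := by
    apply pow_le_pow_left₀ (by positivity)
    nlinarith
  have he : Real.exp (-(κ * 2 ^ (j + 1) / 8)) ≤ Real.exp (-(L ^ 2 / 8)) * Real.exp (-(L ^ 2 * u / 8)) := by
    rw [← Real.exp_add]
    apply Real.exp_le_exp.mpr
    rw [pow_succ, ← hu]
    have : L ^ 2 * u ≤ κ * u := mul_le_mul_of_nonneg_right h1 (by linarith)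
    nlinarith [sq_nonneg L]
  have hu6 : u ^ 6 * Real.exp (-(L ^ 2 * u / 8)) ≤ 1 := by
    have h3 : u ≤ Real.exp u := by linarith [Real.add_one_le_exp u]
    have h4 : u ^ 6 ≤ Real.exp u ^ 6 := pow_le_pow_left₀ (by linarith) h3 6
    have h5 : Real.exp u ^ 6 = Real.exp (6 * u) := by
      rw [← Real.exp_nat_mul]; norm_num
    have h6 : Real.exp (6 * u) * Real.exp (-(L ^ 2 * u / 8)) ≤ 1 := by
      rw [← Real.exp_add]
      apply Real.exp_le_one_iff.mpr
      nlinarith [mul_le_mul hL hL (by norm_num) hL0.le]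
    calc u ^ 6 * Real.exp (-(L ^ 2 * u / 8)) ≤ Real.exp (6 * u) * Real.exp (-(L ^ 2 * u / 8)) := by
          rw [← h5]
          exact mul_le_mul_of_nonneg_right h4 (Real.exp_pos _).le
      _ ≤ 1 := h6
  have hL5 : L ^ 5 ≤ 120 * Real.exp L := by
    have := Real.pow_div_factorial_le_exp L hL0.le 5
    have h3 : ((5:ℕ).factorial : ℝ) = 120 := by norm_num [Nat.factorial]
    rw [h3, div_le_iff₀ (by norm_num)] at this
    linarith
  have hmain : 256 * C * L ^ 5 * Real.exp (-(L ^ 2 / 8)) ≤ Real.exp (-(5 * L)) := by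
    calc 256 * C * L ^ 5 * Real.exp (-(L ^ 2 / 8)) ≤ 256 * C * (120 * Real.exp L) * Real.exp (-(L ^ 2 / 8)) := by
          gcongr
      _ = (30720 * C) * Real.exp L * Real.exp (-(L ^ 2 / 8)) := by ring
      _ ≤ Real.exp L * Real.exp L * Real.exp (-(L ^ 2 / 8)) := by gcongr
      _ = Real.exp (2 * L - L ^ 2 / 8) := by
          rw [← Real.exp_add, ← Real.exp_add]; congr 1; ring
      _ ≤ Real.exp (-(5 * L)) := by
          apply Real.exp_le_exp.mpr
          nlinarith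
  have hhalf : (1 / 2 : ℝ) ^ j = 1 / u := by
    rw [hu, one_div_pow]
  rw [hhalf]
  have hu0 : 0 < u := by linarith
  calc C * Real.sqrt κ * Real.exp (-(κ * 2 ^ (j + 1) / 8)) * (2 * 2 ^ (j + 2) * (L + (j + 2)) ^ 4)
      ≤ C * (2 * L) * (Real.exp (-(L ^ 2 / 8)) * Real.exp (-(L ^ 2 * u / 8))) * (2 * 2 ^ (j + 2) * (2 * L * u) ^ 4) := by
        gcongr
    _ = (256 * C * L ^ 5 * Real.exp (-(L ^ 2 / 8))) * (u ^ 6 * Real.exp (-(L ^ 2 * u / 8))) * (1 / u) := by
        rw [pow_add, ← hu]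
        field_simp
        ring
    _ ≤ Real.exp (-(5 * L)) * 1 * (1 / u) := by
        gcongr
    _ = Real.exp (-(5 * L)) * (1 / u) := by ring

theorem cover (X : ℝ) (hX : 0 < X) : Set.Ioi (2 * X) = ⋃ j : ℕ, Set.Ioc (2 ^ (j + 1) * X) (2 ^ (j + 2) * X) := by
  ext t
  simp only [Set.mem_Ioi, Set.mem_iUnion, Set.mem_Ioc]
  constructor
  · intro ht
    have hex : ∃ n : ℕ, t ≤ 2 ^ (n + 2) * X := by
      obtain ⟨n, hn⟩ := pow_unbounded_of_one_lt (t / X) (by norm_num : (1:ℝ) < 2)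
      refine ⟨n, ?_⟩
      rw [div_lt_iff₀ hX] at hn
      have h1 : (2:ℝ) ^ n * X ≤ 2 ^ (n + 2) * X := by
        apply mul_le_mul_of_nonneg_right _ hX.le
        exact pow_le_pow_right₀ (by norm_num) (by omega)
      linarith
    classical
    refine ⟨Nat.find hex, ?_, Nat.find_spec hex⟩
    rcases Nat.eq_zero_or_pos (Nat.find hex) with h0 | h0
    · rw [h0]; simpa using ht
    · have h1 := Nat.find_min hex (m := Nat.find hex - 1) (by omega)
      rw [not_le] at h1
      have h2 : Nat.find hex - 1 + 2 = Nat.find hex + 1 := by omega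
      rwa [h2] at h1
  · rintro ⟨j, hj, -⟩
    have h1 : (2:ℝ) ^ 1 ≤ 2 ^ (j + 1) := pow_le_pow_right₀ (by norm_num) (by omega)
    nlinarith

theorem key (hFT : S_FT) (C : ℝ) (hC : 0 < C) (X : ℝ) (hX : 1000 ≤ X) (hL : 56 ≤ Real.log X)
    (hXC : 30720 * C ≤ X) (κ : ℕ) (hR : Rg κ X)
    (hW1 : ∀ t : ℝ, 0 < t → 0 < wt κ X t ∧ wt κ X t ≤ C * Real.sqrt κ / X)
    (hW2 : ∀ t : ℝ, 2 * X ≤ t → wt κ X t ≤ C * Real.sqrt κ / X * Real.exp (-(κ * t / (8 * X)))) :
    ∫⁻ t in Set.Ioc 0 (2 * X), ENNReal.ofReal (wt κ X t * G t) ≤ ENNReal.ofReal (128 * C * Real.log X ^ 5) ∧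
    ∫⁻ t in Set.Ioi (2 * X), ENNReal.ofReal (wt κ X t * G t) ≤ ENNReal.ofReal (X ^ (-4 : ℝ)) := by
  have hX0 : 0 < X := by linarith
  set L := Real.log X with hLd
  have hL0 : 0 < L := by linarith
  have hs : Real.sqrt κ ≤ 2 * L := by
    apply Real.sqrt_le_iff.mpr
    refine ⟨by positivity, ?_⟩
    have := hR.2
    nlinarith
  constructor
  · have h1 := block hFT κ X 0 (2 * X) (C * Real.sqrt κ / X) le_rfl (by linarith) (by positivity)
      (fun t ht => (hW1 t ht.1).2)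
    refine h1.trans (ENNReal.ofReal_le_ofReal ?_)
    have h2 : Real.log (2 * X) ≤ 2 * L := by
      have := log_pow_mul X hX0 1
      simp only [pow_one, Nat.cast_one] at this
      linarith
    have h3 : 0 ≤ Real.log (2 * X) := Real.log_nonneg (by linarith)
    calc C * Real.sqrt κ / X * (2 * (2 * X) * Real.log (2 * X) ^ 4)
        ≤ C * (2 * L) / X * (2 * (2 * X) * (2 * L) ^ 4) := by gcongr
      _ = 128 * C * L ^ 5 := by field_simp; ring
  · rw [cover X hX0]
    have hb : ∀ j : ℕ, ∫⁻ t in Set.Ioc (2 ^ (j + 1) * X) (2 ^ (j + 2) * X), ENNReal.ofReal (wt κ X t * G t) ≤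
        ENNReal.ofReal (Real.exp (-(5 * L)) * (1 / 2) ^ j) := by
      intro j
      have hp1 : (1:ℝ) ≤ 2 ^ (j + 1) := one_le_pow₀ (by norm_num)
      have hp1' : (2:ℝ) ≤ 2 ^ (j + 1) := by
        have : (2:ℝ) ^ 1 ≤ 2 ^ (j + 1) := pow_le_pow_right₀ (by norm_num) (by omega)
        linarith
      have hp2 : (1:ℝ) ≤ 2 ^ (j + 2) := one_le_pow₀ (by norm_num)
      have h1 := block hFT κ X (2 ^ (j + 1) * X) (2 ^ (j + 2) * X)
        (C * Real.sqrt κ / X * Real.exp (-(κ * 2 ^ (j + 1) / 8))) (by positivity) (by nlinarith) (by positivity)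
        (fun t ht => by
          have h2 : 2 * X ≤ t := by nlinarith [ht.1]
          refine (hW2 t h2).trans ?_
          refine mul_le_mul_of_nonneg_left ?_ (by positivity)
          apply Real.exp_le_exp.mpr
          have h3 : (κ:ℝ) * 2 ^ (j + 1) / 8 ≤ κ * t / (8 * X) := by
            rw [div_le_div_iff₀ (by norm_num) (by positivity)]
            have h4 : (κ:ℝ) * (2 ^ (j + 1) * X) ≤ κ * t := mul_le_mul_of_nonneg_left ht.1.le (Nat.cast_nonneg κ)
            nlinarith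
          linarith)
      refine h1.trans (ENNReal.ofReal_le_ofReal ?_)
      have h5 : Real.log (2 ^ (j + 2) * X) ≤ L + (j + 2) := by
        have := log_pow_mul X hX0 (j + 2)
        push_cast at this
        exact this
      have h6 : 0 ≤ Real.log (2 ^ (j + 2) * X) := Real.log_nonneg (by nlinarith)
      have h7 : Real.exp L = X := Real.exp_log hX0
      have h8 := num C L hC hL (by rw [h7]; exact hXC) κ hR.1 hR.2 j
      calc C * Real.sqrt κ / X * Real.exp (-(κ * 2 ^ (j + 1) / 8)) *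
            (2 * (2 ^ (j + 2) * X) * Real.log (2 ^ (j + 2) * X) ^ 4)
          ≤ C * Real.sqrt κ / X * Real.exp (-(κ * 2 ^ (j + 1) / 8)) *
            (2 * (2 ^ (j + 2) * X) * (L + (j + 2)) ^ 4) := by gcongr
        _ = C * Real.sqrt κ * Real.exp (-(κ * 2 ^ (j + 1) / 8)) * (2 * 2 ^ (j + 2) * (L + (j + 2)) ^ 4) := by
            field_simp
        _ ≤ _ := h8
    have hsum : HasSum (fun j : ℕ => Real.exp (-(5 * L)) * (1 / 2 : ℝ) ^ j) (Real.exp (-(5 * L)) * 2) :=
      hasSum_geometric_two.mul_left _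
    calc ∫⁻ t in ⋃ j : ℕ, Set.Ioc (2 ^ (j + 1) * X) (2 ^ (j + 2) * X), ENNReal.ofReal (wt κ X t * G t)
        ≤ ∑' j : ℕ, ∫⁻ t in Set.Ioc (2 ^ (j + 1) * X) (2 ^ (j + 2) * X), ENNReal.ofReal (wt κ X t * G t) :=
          lintegral_iUnion_le _ _
      _ ≤ ∑' j : ℕ, ENNReal.ofReal (Real.exp (-(5 * L)) * (1 / 2) ^ j) := ENNReal.tsum_le_tsum hb
      _ = ENNReal.ofReal (∑' j : ℕ, Real.exp (-(5 * L)) * (1 / 2) ^ j) := by
          rw [ENNReal.ofReal_tsum_of_nonneg (fun j => by positivity) hsum.summable]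
      _ = ENNReal.ofReal (Real.exp (-(5 * L)) * 2) := by rw [hsum.tsum_eq]
      _ ≤ ENNReal.ofReal (X ^ (-4 : ℝ)) := by
          apply ENNReal.ofReal_le_ofReal
          rw [Real.rpow_def_of_pos hX0, ← hLd]
          have h9 : (2:ℝ) ≤ Real.exp L := by
            have := Real.add_one_le_exp L
            linarith
          calc Real.exp (-(5 * L)) * 2 ≤ Real.exp (-(5 * L)) * Real.exp L := by gcongr
            _ = Real.exp (L * -4) := by rw [← Real.exp_add]; congr 1; ring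

/-- (W4) the fourth moment with the weight, and the tails -/
theorem main (h1 : S_FT) (h2 : S_WTB) : S_W4 := by
  obtain ⟨C, hC, hW⟩ := h2
  refine ⟨128 * C + 1, by positivity, ?_⟩
  have e1 : ∀ᶠ X : ℝ in atTop, 56 ≤ Real.log X := Real.tendsto_log_atTop.eventually_ge_atTop 56
  filter_upwards [e1, eventually_ge_atTop 1000, eventually_ge_atTop (30720 * C)] with X hL hX hXC κ hR
  have hX0 : 0 < X := by linarith
  have hκ : 1 ≤ κ := by
    have h3 : (1:ℝ) ≤ κ := by
      have := hR.1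
      nlinarith
    exact_mod_cast h3
  obtain ⟨hW1, hW2, -, -⟩ := hW κ X hκ hX0
  obtain ⟨k1, k2⟩ := key h1 C hC X hX hL hXC κ hR hW1 hW2
  have hcont : Continuous (fun t => wt κ X t * G t) := (wt_cont κ X).mul G_cont
  have hnn : ∀ t ∈ Set.Ioi (0:ℝ), 0 ≤ wt κ X t * G t := fun t ht => mul_nonneg (hW1 t ht).1.le (G_nonneg t)
  have hi1 : IntegrableOn (fun t => wt κ X t * G t) (Set.Ioc 0 (2 * X)) := by
    refine ⟨hcont.aestronglyMeasurable, ?_⟩
    rw [hasFiniteIntegral_iff_ofReal]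
    · exact lt_of_le_of_lt k1 ENNReal.ofReal_lt_top
    · exact (ae_restrict_iff' measurableSet_Ioc).mpr (ae_of_all _ fun t ht => hnn t ht.1)
  have hi2 : IntegrableOn (fun t => wt κ X t * G t) (Set.Ioi (2 * X)) := by
    refine ⟨hcont.aestronglyMeasurable, ?_⟩
    rw [hasFiniteIntegral_iff_ofReal]
    · exact lt_of_le_of_lt k2 ENNReal.ofReal_lt_top
    · refine (ae_restrict_iff' measurableSet_Ioi).mpr (ae_of_all _ fun t ht => hnn t ?_)
      have : 2 * X < t := ht
      show (0:ℝ) < t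
      linarith
  have hb1 : ∫ t in Set.Ioc 0 (2 * X), wt κ X t * G t ≤ 128 * C * Real.log X ^ 5 := by
    rw [integral_eq_lintegral_of_nonneg_ae
      ((ae_restrict_iff' measurableSet_Ioc).mpr (ae_of_all _ fun t ht => hnn t ht.1)) hcont.aestronglyMeasurable]
    exact ENNReal.toReal_le_of_le_ofReal (by positivity) k1
  have hb2 : ∫ t in Set.Ioi (2 * X), wt κ X t * G t ≤ X ^ (-4 : ℝ) := by
    rw [integral_eq_lintegral_of_nonneg_ae
      ((ae_restrict_iff' measurableSet_Ioi).mpr (ae_of_all _ fun t ht => hnn t (by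
        have : 2 * X < t := ht
        show (0:ℝ) < t
        linarith))) hcont.aestronglyMeasurable]
    exact ENNReal.toReal_le_of_le_ofReal (by positivity) k2
  have hun : Set.Ioc 0 (2 * X) ∪ Set.Ioi (2 * X) = Set.Ioi (0:ℝ) := Set.Ioc_union_Ioi_eq_Ioi (by linarith)
  have hi : IntegrableOn (fun t => wt κ X t * G t) (Set.Ioi 0) := by
    rw [← hun]; exact hi1.union hi2
  have hb : ∫ t in Set.Ioi (0:ℝ), wt κ X t * G t ≤ (128 * C + 1) * Real.log X ^ 5 := by
    rw [← hun, setIntegral_union Set.Ioc_disjoint_Ioi_same measurableSet_Ioi hi1 hi2]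
    have h5 : (1:ℝ) ≤ Real.log X ^ 5 := one_le_pow₀ (by linarith)
    have h6 : X ^ (-4 : ℝ) ≤ 1 := Real.rpow_le_one_of_one_le_of_nonpos (by linarith) (by norm_num)
    linarith
  have g4 : IntegrableOn (fun t => wt κ X t * zh t ^ 4) (Set.Ioi 0) := by
    refine Integrable.mono' hi ((wt_cont κ X).mul (zh_cont.pow 4)).aestronglyMeasurable ?_
    refine (ae_restrict_iff' measurableSet_Ioi).mpr (ae_of_all _ fun t ht => ?_)
    rw [Real.norm_of_nonneg (mul_nonneg (hW1 t ht).1.le (by have := zh_nonneg t; positivity))]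
    exact mul_le_mul_of_nonneg_left (zh4_le t) (hW1 t ht).1.le
  have g2 : IntegrableOn (fun t => wt κ X t * zh t ^ 2) (Set.Ioi 0) := by
    refine Integrable.mono' hi ((wt_cont κ X).mul (zh_cont.pow 2)).aestronglyMeasurable ?_
    refine (ae_restrict_iff' measurableSet_Ioi).mpr (ae_of_all _ fun t ht => ?_)
    rw [Real.norm_of_nonneg (mul_nonneg (hW1 t ht).1.le (by have := zh_nonneg t; positivity))]
    exact mul_le_mul_of_nonneg_left (zh2_le t) (hW1 t ht).1.le
  refine ⟨g4, g2, ?_, ?_, ?_⟩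
  · refine le_trans (setIntegral_mono_on g4 hi measurableSet_Ioi fun t ht => ?_) hb
    exact mul_le_mul_of_nonneg_left (zh4_le t) (hW1 t ht).1.le
  · refine le_trans (setIntegral_mono_on g2 hi measurableSet_Ioi fun t ht => ?_) hb
    exact mul_le_mul_of_nonneg_left (zh2_le t) (hW1 t ht).1.le
  · have hsub : Set.Ioi (2 * X) ⊆ Set.Ioi (0:ℝ) := Set.Ioi_subset_Ioi (by linarith)
    refine le_trans (setIntegral_mono_on (g2.mono_set hsub) hi2 measurableSet_Ioi fun t ht => ?_) hb2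
    exact mul_le_mul_of_nonneg_left (zh2_le t) (hW1 t (hsub ht)).1.le

end Pool.Agent.N748.MO.W4
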