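import Pool.Agent.N748.MO.Stm

/-!
# The Gamma weight (part WTB of project MO of helper748; this part by helper400)
-/

set_option autoImplicit false

namespace Pool.Agent.N748.MO.WTB

open MeasureTheory Filter Topology

theorem fact_bound (κ : ℕ) (hκ : 1 ≤ κ) :
    (κ : ℝ) ^ κ * Real.exp (-(κ : ℝ)) / (κ.factorial : ℝ) ≤ 1 / Real.sqrt κ := by
  have hκ0 : (0 : ℝ) < κ := by exact_mod_cast hκ
  have h1 := Stirling.le_factorial_stirling κ
  have hf : (0 : ℝ) < (κ.factorial : ℝ) := by exact_mod_cast Nat.factorial_pos κ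
  have hs : 0 < Real.sqrt κ := Real.sqrt_pos.2 hκ0
  have h2 : Real.sqrt κ ≤ Real.sqrt (2 * Real.pi * κ) := by
    apply Real.sqrt_le_sqrt
    have := Real.pi_gt_three
    nlinarith
  have h3 : ((κ : ℝ) / Real.exp 1) ^ κ = (κ : ℝ) ^ κ * Real.exp (-(κ : ℝ)) := by
    rw [div_pow, ← Real.exp_nat_mul, mul_one, Real.exp_neg, div_eq_mul_inv]
  rw [h3] at h1
  have h4 : 0 ≤ (κ : ℝ) ^ κ * Real.exp (-(κ : ℝ)) := by positivity
  rw [div_le_div_iff₀ hf hs, one_mul]
  calc (κ : ℝ) ^ κ * Real.exp (-(κ : ℝ)) * Real.sqrt κ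
      ≤ (κ : ℝ) ^ κ * Real.exp (-(κ : ℝ)) * Real.sqrt (2 * Real.pi * κ) :=
        mul_le_mul_of_nonneg_left h2 h4
    _ ≤ _ := by rw [mul_comm]; exact h1

/-- the weight in terms of `u = t / X` -/
theorem wt_eq (κ : ℕ) (X t : ℝ) (hX : 0 < X) :
    wt κ X t = ((κ : ℝ) / X) * ((κ : ℝ) ^ κ / (κ.factorial : ℝ)) *
      (t / X * Real.exp (-(t / X))) ^ κ := by
  unfold wt
  rw [mul_pow, ← Real.exp_nat_mul, div_pow, div_pow, pow_succ, pow_succ]
  have : Real.exp (-((κ : ℝ) / X * t)) = Real.exp ((κ : ℝ) * -(t / X)) := by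
    congr 1
    field_simp
  rw [this]
  have hf : (κ.factorial : ℝ) ≠ 0 := by exact_mod_cast (Nat.factorial_pos κ).ne'
  field_simp

theorem bound_of (κ : ℕ) (X t v : ℝ) (hκ : 1 ≤ κ) (hX : 0 < X) (ht : 0 ≤ t)
    (h : t / X * Real.exp (-(t / X)) ≤ Real.exp (-1) * Real.exp (-v)) :
    wt κ X t ≤ 1 * Real.sqrt κ / X * Real.exp (-(κ * v)) := by
  have hκ0 : (0 : ℝ) < κ := by exact_mod_cast hκ
  have hs : 0 < Real.sqrt κ := Real.sqrt_pos.2 hκ0
  have hf : (0 : ℝ) < (κ.factorial : ℝ) := by exact_mod_cast Nat.factorial_pos κ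
  rw [wt_eq κ X t hX]
  have h0 : 0 ≤ t / X * Real.exp (-(t / X)) := by positivity
  have h1 : (t / X * Real.exp (-(t / X))) ^ κ ≤ Real.exp (-(κ : ℝ)) * Real.exp (-(κ * v)) := by
    refine (pow_le_pow_left₀ h0 h κ).trans (le_of_eq ?_)
    rw [mul_pow, ← Real.exp_nat_mul, ← Real.exp_nat_mul]
    congr 2 <;> ring
  have h2 := fact_bound κ hκ
  calc ((κ : ℝ) / X) * ((κ : ℝ) ^ κ / (κ.factorial : ℝ)) * (t / X * Real.exp (-(t / X))) ^ κ
      ≤ ((κ : ℝ) / X) * ((κ : ℝ) ^ κ / (κ.factorial : ℝ)) *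
        (Real.exp (-(κ : ℝ)) * Real.exp (-(κ * v))) := mul_le_mul_of_nonneg_left h1 (by positivity)
    _ = ((κ : ℝ) / X) * ((κ : ℝ) ^ κ * Real.exp (-(κ : ℝ)) / (κ.factorial : ℝ)) *
        Real.exp (-(κ * v)) := by ring
    _ ≤ ((κ : ℝ) / X) * (1 / Real.sqrt κ) * Real.exp (-(κ * v)) := by gcongr
    _ = _ := by
      have h3 : (κ : ℝ) / X * (1 / Real.sqrt κ) = 1 * Real.sqrt κ / X := by
        have h4 := Real.mul_self_sqrt hκ0.le
        rw [one_mul, div_mul_div_comm, mul_one, div_eq_div_iff (by positivity) hX.ne']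
        linear_combination (-X) * h4
      rw [h3]

theorem main : S_WTB := by
  refine ⟨1, one_pos, fun κ X hκ hX => ?_⟩
  have hκ0 : (0 : ℝ) < κ := by exact_mod_cast hκ
  have hf : (0 : ℝ) < (κ.factorial : ℝ) := by exact_mod_cast Nat.factorial_pos κ
  have hr : 0 < (κ : ℝ) / X := by positivity
  refine ⟨fun t ht => ⟨?_, ?_⟩, fun t ht => ?_, ?_, ?_⟩
  · unfold wt
    positivity
  · have h1 : t / X * Real.exp (-(t / X)) ≤ Real.exp (-1) * Real.exp (-0) := by
      rw [neg_zero, Real.exp_zero, mul_one]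
      have h2 := Real.add_one_le_exp (t / X - 1)
      calc t / X * Real.exp (-(t / X)) ≤ Real.exp (t / X - 1) * Real.exp (-(t / X)) := by
            apply mul_le_mul_of_nonneg_right _ (Real.exp_nonneg _)
            linarith
        _ = Real.exp (-1) := by
          rw [← Real.exp_add]
          congr 1
          ring
    have h3 := bound_of κ X t 0 hκ hX ht.le h1
    rwa [mul_zero, neg_zero, Real.exp_zero, mul_one] at h3
  · have ht0 : 0 ≤ t := by linarith
    have hu : 2 ≤ t / X := by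
      rw [le_div_iff₀ hX]
      exact ht
    have h1 : t / X * Real.exp (-(t / X)) ≤ Real.exp (-1) * Real.exp (-(t / X / 8)) := by
      have h2 : t / X ≤ Real.exp (7 / 8 * (t / X) - 1) := by
        have h3 := Real.add_one_le_exp (t / X / 2 - 1)
        have h4 : (2 : ℝ) ≤ Real.exp (3 / 8 * (t / X)) := by
          have h5 := Real.log_two_lt_d9
          rw [← Real.log_le_iff_le_exp (by norm_num)]
          linarith
        calc t / X = 2 * (t / X / 2) := by ring
          _ ≤ Real.exp (3 / 8 * (t / X)) * Real.exp (t / X / 2 - 1) := by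
            apply mul_le_mul h4 (by linarith) (by linarith) (Real.exp_nonneg _)
          _ = _ := by
            rw [← Real.exp_add]
            congr 1
            ring
      calc t / X * Real.exp (-(t / X)) ≤
            Real.exp (7 / 8 * (t / X) - 1) * Real.exp (-(t / X)) :=
            mul_le_mul_of_nonneg_right h2 (Real.exp_nonneg _)
        _ = _ := by
          rw [← Real.exp_add, ← Real.exp_add]
          congr 1
          ring
    have h3 := bound_of κ X t (t / X / 8) hκ hX ht0 h1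
    have h4 : (κ : ℝ) * (t / X / 8) = κ * t / (8 * X) := by
      field_simp
    rwa [h4] at h3
  · have h1 := integrableOn_rpow_mul_exp_neg_mul_rpow (p := 1) (s := (κ : ℝ))
      (b := (κ : ℝ) / X) (by linarith) one_pos hr
    have h2 := (h1.const_mul (((κ : ℝ) / X) ^ (κ + 1) / (κ.factorial : ℝ)))
    refine (integrableOn_congr_fun (fun t ht => ?_) measurableSet_Ioi).1 h2
    have ht0 : 0 < t := ht
    simp only [Real.rpow_natCast, Real.rpow_one, wt]
    ring_nf
  · have h1 := Real.integral_rpow_mul_exp_neg_mul_Ioi (a := (κ : ℝ) + 1) (r := (κ : ℝ) / X)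
      (by linarith) hr
    have h2 : ∫ t in Set.Ioi (0 : ℝ), wt κ X t =
        (((κ : ℝ) / X) ^ (κ + 1) / (κ.factorial : ℝ)) *
          ∫ t in Set.Ioi (0 : ℝ), t ^ ((κ : ℝ) + 1 - 1) * Real.exp (-((κ : ℝ) / X * t)) := by
      rw [← integral_const_mul]
      refine setIntegral_congr_fun measurableSet_Ioi fun t ht => ?_
      simp only [add_sub_cancel_right, Real.rpow_natCast, wt]
      ring
    rw [h2, h1, Real.Gamma_nat_eq_factorial]
    have h3 : (1 / ((κ : ℝ) / X)) ^ ((κ : ℝ) + 1) = (((κ : ℝ) / X) ^ (κ + 1))⁻¹ := by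
      rw [one_div, ← Nat.cast_succ, Real.rpow_natCast, inv_pow]
    rw [h3]
    have h4 : ((κ : ℝ) / X) ^ (κ + 1) ≠ 0 := by positivity
    generalize ((κ : ℝ) / X) ^ (κ + 1) = A at *
    field_simp

end Pool.Agent.N748.MO.WTB
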