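import Pool.Agent.N748.MO.Stm

set_option autoImplicit false

/-!
# (XLD) abstract large deviations (helper787, project MO of helper748)
-/

namespace Pool.Agent.N748.MO.XLD

open Finset Filter MeasureTheory Topology Complex Pool.Agent.N748.MG

/-- the density -/
noncomputable def rho (δ V r x : ℝ) : ℝ :=
  Real.exp (-(Real.log (1 / (2 * δ)) * V ^ 2)) / r * Real.exp (2 * V * x)

/-- the tilted measure -/
noncomputable def nu (δ V r : ℝ) (μ : Measure ℝ) : Measure ℝ :=
  (μ.withDensity (fun x => ENNReal.ofReal (rho δ V r x))).map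
    (fun x => x - V * Real.log (1 / (2 * δ)))

theorem rho_meas (δ V r : ℝ) : Measurable (rho δ V r) := by
  unfold rho
  fun_prop

theorem rho_nn {δ r : ℝ} (hr : 0 < r) (V x : ℝ) : 0 ≤ rho δ V r x := by
  unfold rho
  positivity

theorem int_nu {E : Type*} [NormedAddCommGroup E] [NormedSpace ℝ E] {δ r : ℝ}
    (hr : 0 < r) (V : ℝ) (μ : Measure ℝ) {f : ℝ → E} (hf : StronglyMeasurable f) :
    ∫ x, f x ∂(nu δ V r μ) = ∫ x, rho δ V r x • f (x - V * Real.log (1 / (2 * δ))) ∂μ := by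
  unfold nu
  rw [integral_map (by fun_prop) hf.aestronglyMeasurable]
  have h2 : (fun t => ENNReal.ofReal (rho δ V r t)) =
      fun t => (((rho δ V r t).toNNReal : NNReal) : ENNReal) := rfl
  rw [h2, integral_withDensity_eq_integral_smul (rho_meas δ V r).real_toNNReal]
  refine integral_congr_ae (Eventually.of_forall fun t => ?_)
  show (rho δ V r t).toNNReal • f (t - V * Real.log (1 / (2 * δ))) =
    rho δ V r t • f (t - V * Real.log (1 / (2 * δ)))
  rw [NNReal.smul_def, Real.coe_toNNReal _ (rho_nn hr V t)]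

theorem log_eq {δ : ℝ} : Real.log (1 / (2 * δ)) = -Real.log (2 * δ) := by
  rw [one_div, Real.log_inv]

theorem cpow_eq {δ : ℝ} (h0 : 0 < δ) (z : ℂ) :
    ((2 * δ : ℝ) : ℂ) ^ z = cexp (-(Real.log (1 / (2 * δ)) : ℂ) * z) := by
  have h1 : ((2 * δ : ℝ) : ℂ) ≠ 0 := by
    rw [Ne, Complex.ofReal_eq_zero]
    positivity
  rw [Complex.cpow_def_of_ne_zero h1, ← Complex.ofReal_log (by positivity), log_eq]
  push_cast
  ring_nf

theorem four {δ r : ℝ} (h0 : 0 < δ) (hr : 0 < r) (V ξ : ℝ) (μ : Measure ℝ) :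
    ∫ x, cexp (ξ * x * I) ∂(nu δ V r μ) =
      (1 / r : ℂ) * Real.exp (-(ξ ^ 2 * Real.log (1 / (2 * δ)) / 4)) *
        (((2 * δ : ℝ) : ℂ) ^ ((V + ξ / 2 * I : ℂ) ^ 2) *
          ∫ x, cexp (2 * (V + ξ / 2 * I : ℂ) * (x : ℂ)) ∂μ) := by
  rw [int_nu hr V μ (by
    have : Continuous (fun x : ℝ => cexp (ξ * x * I)) := by fun_prop
    exact this.stronglyMeasurable)]
  rw [← mul_assoc, ← integral_const_mul]
  refine integral_congr_ae (Eventually.of_forall fun t => ?_)
  have hr' : (r : ℂ) ≠ 0 := by exact_mod_cast hr.ne'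
  show rho δ V r t • cexp (ξ * ((t - V * Real.log (1 / (2 * δ)) : ℝ) : ℂ) * I) =
    (1 / r : ℂ) * Real.exp (-(ξ ^ 2 * Real.log (1 / (2 * δ)) / 4)) *
        ((2 * δ : ℝ) : ℂ) ^ ((V + ξ / 2 * I : ℂ) ^ 2) * cexp (2 * (V + ξ / 2 * I : ℂ) * (t : ℂ))
  rw [cpow_eq h0, Complex.real_smul]
  unfold rho
  set Λ := Real.log (1 / (2 * δ)) with hΛ
  push_cast
  have e1 : (cexp (-((Λ : ℂ) * (V : ℂ) ^ 2)) / r * cexp (2 * V * t)) *
      cexp (ξ * (t - V * Λ) * I) = (1 / r : ℂ) *
        (cexp (-((Λ : ℂ) * (V : ℂ) ^ 2)) * cexp (2 * V * t) * cexp (ξ * (t - V * Λ) * I)) := by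
    field_simp
  have e2 : (1 / (r : ℂ)) * cexp (-((ξ : ℂ) ^ 2 * Λ / 4)) *
      cexp (-(Λ : ℂ) * (V + ξ / 2 * I) ^ 2) * cexp (2 * (V + ξ / 2 * I) * t) =
      (1 / r : ℂ) * (cexp (-((ξ : ℂ) ^ 2 * Λ / 4)) *
      cexp (-(Λ : ℂ) * (V + ξ / 2 * I) ^ 2) * cexp (2 * (V + ξ / 2 * I) * t)) := by
    ring
  rw [e1, e2]
  congr 1
  rw [← Complex.exp_add, ← Complex.exp_add, ← Complex.exp_add, ← Complex.exp_add]
  congr 1
  linear_combination (-(Λ : ℂ) * ξ ^ 2 / 4 * (-1)) * Complex.I_sq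

theorem fin {δ r V : ℝ} (hr : 0 < r) {μ : Measure ℝ} (hμ : IsFiniteMeasure μ) {B : ℝ}
    (hB : μ {x : ℝ | B < |x|} = 0) : IsFiniteMeasure (nu δ V r μ) := by
  have hae : ∀ᵐ x ∂μ, |x| ≤ B := by
    rw [ae_iff]
    simpa only [not_le] using hB
  have hint : Integrable (rho δ V r) μ := by
    refine Integrable.of_bound (rho_meas δ V r).aestronglyMeasurable
      (Real.exp (-(Real.log (1 / (2 * δ)) * V ^ 2)) / r * Real.exp (2 * |V| * B)) ?_
    filter_upwards [hae] with x hx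
    rw [Real.norm_of_nonneg (rho_nn hr V x)]
    unfold rho
    refine mul_le_mul_of_nonneg_left (Real.exp_le_exp.2 ?_) (by positivity)
    have h1 : V * x ≤ |V| * |x| := by
      rw [← abs_mul]
      exact le_abs_self _
    have h2 : |V| * |x| ≤ |V| * B := mul_le_mul_of_nonneg_left hx (abs_nonneg _)
    nlinarith
  have h4 : IsFiniteMeasure (μ.withDensity (fun t => ENNReal.ofReal (rho δ V r t))) :=
    isFiniteMeasure_withDensity_ofReal hint.2
  unfold nu
  infer_instance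

/-- the integral of `exp (-2 V x) h(x)` -/
theorem int_h {δ r : ℝ} (h0 : 0 < δ) (hr : 0 < r) (V : ℝ) (μ : Measure ℝ) {h : ℝ → ℝ}
    (hm : Measurable h) :
    r * ∫ x, Real.exp (-(2 * V * x)) * h x ∂(nu δ V r μ) =
      (2 * δ) ^ (-(V ^ 2)) * ∫ x, h (x - V * Real.log (1 / (2 * δ))) ∂μ := by
  rw [int_nu hr V μ (f := fun x => Real.exp (-(2 * V * x)) * h x) (by
    have h2 : Measurable (fun x : ℝ => Real.exp (-(2 * V * x))) := by fun_prop
    exact (h2.mul hm).stronglyMeasurable), ← integral_const_mul, ← integral_const_mul]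
  refine integral_congr_ae (Eventually.of_forall fun t => ?_)
  simp only [smul_eq_mul]
  have e : rho δ V r t * Real.exp (-(2 * V * (t - V * Real.log (1 / (2 * δ))))) =
      1 / r * (2 * δ) ^ (-(V ^ 2)) := by
    unfold rho
    rw [Real.rpow_def_of_pos (by positivity : 0 < 2 * δ), log_eq]
    have e1 : Real.exp (-(-Real.log (2 * δ) * V ^ 2)) / r * Real.exp (2 * V * t) *
        Real.exp (-(2 * V * (t - V * -Real.log (2 * δ)))) = 1 / r *
        (Real.exp (-(-Real.log (2 * δ) * V ^ 2)) * Real.exp (2 * V * t) *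
        Real.exp (-(2 * V * (t - V * -Real.log (2 * δ))))) := by ring
    rw [e1, ← Real.exp_add, ← Real.exp_add]
    congr 2
    ring
  calc r * (rho δ V r t * (Real.exp (-(2 * V * (t - V * Real.log (1 / (2 * δ))))) *
        h (t - V * Real.log (1 / (2 * δ)))))
      = r * ((rho δ V r t * Real.exp (-(2 * V * (t - V * Real.log (1 / (2 * δ)))))) *
        h (t - V * Real.log (1 / (2 * δ)))) := by ring
    _ = _ := by
        rw [e]
        field_simp

theorem main (hL : S_LLT) : S_XLD := by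
  intro ν δ g hC V h S hm hcont hb
  obtain ⟨r, hr, hrV⟩ := hC.gpos V
  obtain ⟨C2, hC2⟩ := hb
  -- the parameter tends to infinity
  have hΛ : Tendsto (fun T : ℝ => Real.log (1 / (2 * δ T))) atTop atTop := by
    have h1 : Tendsto (fun T : ℝ => 2 * δ T) atTop (𝓝[>] 0) := by
      rw [tendsto_nhdsWithin_iff]
      refine ⟨?_, ?_⟩
      · have := hC.t0.const_mul 2
        rwa [mul_zero] at this
      · filter_upwards [hC.pos] with T hT
        show 0 < 2 * δ T
        linarith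
    have h2 := Real.tendsto_log_nhdsGT_zero.comp h1
    have h3 := tendsto_neg_atBot_atTop.comp h2
    refine h3.congr fun T => ?_
    simp only [Function.comp_apply]
    rw [log_eq]
  -- the local limit lemma
  have key := hL (fun T => nu (δ T) V r (ν T)) (fun T => Real.log (1 / (2 * δ T)))
    (fun ξ : ℝ => g (V + ξ / 2 * I) / r) ?_ hΛ ?_ ?_ ?_
    (fun x => Real.exp (-(2 * V * x)) * h x) S ?_ ?_ ?_
  rotate_left
  · filter_upwards [hC.fin, hC.bdd] with T h1 h2
    obtain ⟨B, hB⟩ := h2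
    exact fin hr h1 hB
  · have : Continuous (fun ξ : ℝ => (V : ℂ) + ξ / 2 * I) := by fun_prop
    exact (hC.cont.comp this).div_const _
  · simp only [Complex.ofReal_zero, zero_div, zero_mul, add_zero]
    rw [hrV]
    exact div_self (by exact_mod_cast hr.ne')
  · intro R hR ε hε
    have hl := hC.lim (|V| + R + 1) (ε * r) (by positivity) (by positivity)
    filter_upwards [hl, hC.pos] with T hT h0 ξ hξ
    rw [four h0 hr V ξ]
    have h2 : ‖(V : ℂ) + ξ / 2 * I‖ ≤ |V| + R + 1 := by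
      have h3 : ‖(V : ℂ) + ξ / 2 * I‖ ≤ |V| + |ξ| / 2 := by
        refine (norm_add_le _ _).trans ?_
        rw [Complex.norm_real, norm_mul, Complex.norm_I, mul_one, norm_div, Complex.norm_real,
          Real.norm_eq_abs, Real.norm_eq_abs]
        norm_num
      linarith
    have h4 := hT _ h2
    set W : ℂ := ((2 * δ T : ℝ) : ℂ) ^ ((V + ξ / 2 * I : ℂ) ^ 2) *
          ∫ x, cexp (2 * (V + ξ / 2 * I : ℂ) * (x : ℂ)) ∂(ν T) with hW
    set ex : ℝ := Real.exp (-(ξ ^ 2 * Real.log (1 / (2 * δ T)) / 4)) with hex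
    have hex0 : 0 < ex := Real.exp_pos _
    have hr' : (r : ℂ) ≠ 0 := by exact_mod_cast hr.ne'
    have e : (1 / r : ℂ) * (ex : ℂ) * W - g (V + ξ / 2 * I) / r * (ex : ℂ) =
        (1 / r : ℂ) * (ex : ℂ) * (W - g (V + ξ / 2 * I)) := by
      field_simp
    rw [e, norm_mul, norm_mul, Complex.norm_real, Real.norm_of_nonneg hex0.le]
    have e2 : ‖(1 / r : ℂ)‖ = 1 / r := by
      rw [norm_div, norm_one, Complex.norm_real, Real.norm_of_nonneg hr.le]
    rw [e2]
    calc 1 / r * ex * ‖W - g (V + ξ / 2 * I)‖ ≤ 1 / r * ex * (ε * r) :=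
          mul_le_mul_of_nonneg_left h4 (by positivity)
      _ = ε * ex := by field_simp
  · have h2 : Measurable (fun x : ℝ => Real.exp (-(2 * V * x))) := by fun_prop
    exact h2.mul hm
  · intro x hx
    have h2 : ContinuousAt (fun x : ℝ => Real.exp (-(2 * V * x))) x := by fun_prop
    exact h2.mul (hcont x hx)
  · refine ⟨C2, fun x => ?_⟩
    rw [abs_mul, Real.abs_exp, mul_assoc]
    calc Real.exp (-(2 * V * x)) * (|h x| * (1 + x ^ 2)) ≤
          Real.exp (-(2 * V * x)) * (C2 * Real.exp (2 * V * x)) :=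
          mul_le_mul_of_nonneg_left (hC2 x) (Real.exp_pos _).le
      _ = C2 * (Real.exp (-(2 * V * x)) * Real.exp (2 * V * x)) := by ring
      _ = C2 := by rw [← Real.exp_add, neg_add_cancel, Real.exp_zero, mul_one]
  have hre : (g V).re = r := by rw [hrV, Complex.ofReal_re]
  rw [hre]
  refine (key.const_mul r).congr' ?_
  filter_upwards [hC.pos] with T h0
  have h3 := int_h h0 hr V (ν T) hm
  rw [mul_left_comm, h3]
  ring

end Pool.Agent.N748.MO.XLD
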