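import Pool.Agent.N748.MO.Stm

set_option autoImplicit false

/-! (XM1): truncated exponential moments, supercritical level. By helper678. -/

namespace Pool.Agent.N748.MO.XM1

open Finset Filter MeasureTheory Topology Complex
open Pool.Agent.N748.MG Pool.Agent.N748.MO

lemma integrable_exp {μ : Measure ℝ} (hf : IsFiniteMeasure μ) (hb : ∃ B : ℝ, μ {x : ℝ | B < |x|} = 0)
    (s : ℝ) : Integrable (fun x : ℝ => Real.exp (2 * s * x)) μ := by
  obtain ⟨B, hB⟩ := hb
  refine Integrable.of_bound (C := Real.exp (2 * |s| * B)) (by fun_prop) ?_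
  have h1 : ∀ᵐ x ∂μ, |x| ≤ B := by
    rw [ae_iff]
    simpa only [not_le] using hB
  filter_upwards [h1] with x hx
  rw [Real.norm_of_nonneg (Real.exp_pos _).le]
  refine Real.exp_le_exp.2 ?_
  have h2 : s * x ≤ |s| * |x| := by
    rw [← abs_mul]
    exact le_abs_self _
  have h3 : |s| * |x| ≤ |s| * B := mul_le_mul_of_nonneg_left hx (abs_nonneg _)
  linarith

/-- real exponential moments -/
lemma real_lim {ν : ℝ → Measure ℝ} {δ : ℝ → ℝ} {g : ℂ → ℂ} (h : CMx ν δ g) (s : ℝ) :
    Tendsto (fun T : ℝ => (2 * δ T) ^ (s ^ 2) * ∫ x, Real.exp (2 * s * x) ∂(ν T)) atTop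
      (𝓝 (g s).re) := by
  rw [Metric.tendsto_nhds]
  intro ε hε
  filter_upwards [h.lim (|s| + 1) (ε / 2) (by positivity) (by positivity), h.pos] with T h1 h2
  have h3 := h1 (s : ℂ) (by
    rw [Complex.norm_real, Real.norm_eq_abs]
    linarith)
  have e1 : ((s : ℂ) ^ 2) = ((s ^ 2 : ℝ) : ℂ) := by push_cast; rfl
  have e2 : (fun x : ℝ => Complex.exp (2 * (s : ℂ) * (x : ℂ))) =
      fun x : ℝ => ((Real.exp (2 * s * x) : ℝ) : ℂ) := by
    funext x
    push_cast
    rfl
  rw [e1, e2, integral_complex_ofReal, ← Complex.ofReal_cpow (by positivity)] at h3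
  rw [Real.dist_eq]
  have h4 := Complex.abs_re_le_norm ((((2 * δ T) ^ (s ^ 2) : ℝ) : ℂ) *
    ((∫ x, Real.exp (2 * s * x) ∂(ν T) : ℝ) : ℂ) - g s)
  rw [Complex.sub_re, Complex.re_ofReal_mul, Complex.ofReal_re] at h4
  linarith

theorem main : S_XM1 := by
  intro ν δ g h k V hkV
  have h1 := real_lim h k
  have h2 := real_lim h V
  -- the factor tends to zero
  have h3 : Tendsto (fun T : ℝ => (2 * δ T) ^ ((V - k) ^ 2)) atTop (𝓝 0) := by
    have e : (V - k) ^ 2 ≠ 0 := by
      have : V - k ≠ 0 := by linarith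
      positivity
    have h4 : Tendsto (fun T : ℝ => 2 * δ T) atTop (𝓝 0) := by
      simpa using h.t0.const_mul 2
    have h5 := h4.rpow_const (p := (V - k) ^ 2) (Or.inr (by positivity))
    rwa [Real.zero_rpow e] at h5
  have h4 : Tendsto (fun T : ℝ => (2 * δ T) ^ ((V - k) ^ 2) *
      ((2 * δ T) ^ (V ^ 2) * ∫ x, Real.exp (2 * V * x) ∂(ν T))) atTop (𝓝 0) := by
    simpa using h3.mul h2
  -- the rest
  have h5 : Tendsto (fun T : ℝ => (2 * δ T) ^ (k ^ 2) *
      ∫ x in Set.Ioi (V * Real.log (1 / (2 * δ T))), Real.exp (2 * k * x) ∂(ν T)) atTop (𝓝 0) := by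
    refine tendsto_of_tendsto_of_tendsto_of_le_of_le' tendsto_const_nhds h4 ?_ ?_
    · filter_upwards [h.pos] with T hp
      exact mul_nonneg (Real.rpow_nonneg (by positivity) _)
        (integral_nonneg fun x => (Real.exp_pos _).le)
    · filter_upwards [h.pos, h.fin, h.bdd] with T hp hfin hbd
      set L : ℝ := Real.log (1 / (2 * δ T)) with hL
      have h2δ : 0 < 2 * δ T := by positivity
      have e1 : (2 * δ T) ^ (k ^ 2) * Real.exp (-(2 * (V - k) * (V * L))) =
          (2 * δ T) ^ ((V - k) ^ 2) * (2 * δ T) ^ (V ^ 2) := by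
        rw [← Real.rpow_add h2δ]
        have : Real.exp (-(2 * (V - k) * (V * L))) = (2 * δ T) ^ (2 * (V - k) * V) := by
          rw [Real.rpow_def_of_pos h2δ, hL, one_div, Real.log_inv]
          congr 1
          ring
        rw [this, ← Real.rpow_add h2δ]
        congr 1
        ring
      have e2 : ∫ x in Set.Ioi (V * L), Real.exp (2 * k * x) ∂(ν T) ≤
          Real.exp (-(2 * (V - k) * (V * L))) * ∫ x, Real.exp (2 * V * x) ∂(ν T) := by
        calc ∫ x in Set.Ioi (V * L), Real.exp (2 * k * x) ∂(ν T)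
            ≤ ∫ x in Set.Ioi (V * L), Real.exp (-(2 * (V - k) * (V * L))) *
              Real.exp (2 * V * x) ∂(ν T) := by
              refine setIntegral_mono_on (integrable_exp hfin hbd k).integrableOn
                ((integrable_exp hfin hbd V).const_mul _).integrableOn measurableSet_Ioi ?_
              intro x hx
              rw [← Real.exp_add]
              refine Real.exp_le_exp.2 ?_
              have hx' : V * L < x := hx
              nlinarith [mul_pos (sub_pos.2 hkV) (sub_pos.2 hx')]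
          _ ≤ ∫ x, Real.exp (-(2 * (V - k) * (V * L))) * Real.exp (2 * V * x) ∂(ν T) :=
              setIntegral_le_integral ((integrable_exp hfin hbd V).const_mul _)
                (Eventually.of_forall fun x => by positivity)
          _ = _ := integral_const_mul _ _
      calc (2 * δ T) ^ (k ^ 2) * ∫ x in Set.Ioi (V * L), Real.exp (2 * k * x) ∂(ν T)
          ≤ (2 * δ T) ^ (k ^ 2) * (Real.exp (-(2 * (V - k) * (V * L))) *
            ∫ x, Real.exp (2 * V * x) ∂(ν T)) :=
            mul_le_mul_of_nonneg_left e2 (Real.rpow_nonneg h2δ.le _)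
        _ = (2 * δ T) ^ ((V - k) ^ 2) *
            ((2 * δ T) ^ (V ^ 2) * ∫ x, Real.exp (2 * V * x) ∂(ν T)) := by
            rw [← mul_assoc, e1, mul_assoc]
  have h6 := h1.sub h5
  rw [sub_zero] at h6
  refine h6.congr' ?_
  filter_upwards [h.fin, h.bdd] with T hfin hbd
  rw [← mul_sub]
  congr 1
  have h7 := integral_add_compl (μ := ν T)
    (measurableSet_Iic (a := V * Real.log (1 / (2 * δ T)))) (integrable_exp hfin hbd k)
  rw [Set.compl_Iic] at h7
  linarith

end Pool.Agent.N748.MO.XM1
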