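import Pool.Agent.N748.MO.Stm
import Pool.Agent.N748.MG.LLT

set_option autoImplicit false

/-!
# Truncated exponential moments in the critical window (subtask 9066)
-/

namespace Pool.Agent.N748.MO.XM2

open Finset Filter MeasureTheory Topology Complex
open Pool.Agent.N748.MG
open ProbabilityTheory (gaussianReal)

/-- the tilted measure -/
noncomputable def nu (ν : Measure ℝ) (δ r k : ℝ) : Measure ℝ :=
  ν.withDensity fun x => ENNReal.ofReal (1 / r * (2 * δ) ^ (k ^ 2) * Real.exp (2 * k * x))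

theorem int_nu {E : Type} [NormedAddCommGroup E] [NormedSpace ℝ E] (ν : Measure ℝ) {δ r : ℝ}
    (k : ℝ) (hδ : 0 < δ) (hr : 0 < r) (f : ℝ → E) :
    ∫ x, f x ∂(nu ν δ r k) =
      ∫ x, (1 / r * (2 * δ) ^ (k ^ 2) * Real.exp (2 * k * x)) • f x ∂ν := by
  unfold nu
  rw [integral_withDensity_eq_integral_toReal_smul (by fun_prop)
    (ae_of_all _ fun _ => ENNReal.ofReal_lt_top)]
  refine integral_congr_ae (Eventually.of_forall fun x => ?_)
  simp only
  rw [ENNReal.toReal_ofReal (by positivity)]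

theorem exp_int {ν : Measure ℝ} [IsFiniteMeasure ν] {B : ℝ} (hB : ν {x : ℝ | B < |x|} = 0)
    (c : ℝ) : Integrable (fun x : ℝ => Real.exp (c * x)) ν := by
  refine Integrable.of_bound (by fun_prop) (Real.exp (|c| * B)) ?_
  have h1 : ∀ᵐ x ∂ν, ¬ B < |x| := by
    rw [ae_iff]
    simpa using hB
  filter_upwards [h1] with x hx
  rw [Real.norm_of_nonneg (Real.exp_pos _).le]
  refine Real.exp_le_exp.2 ?_
  calc c * x ≤ |c * x| := le_abs_self _
    _ = |c| * |x| := abs_mul _ _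
    _ ≤ |c| * B := mul_le_mul_of_nonneg_left (not_lt.1 hx) (abs_nonneg _)

theorem nu_fin {ν : Measure ℝ} [IsFiniteMeasure ν] {B : ℝ} (hB : ν {x : ℝ | B < |x|} = 0)
    (δ r k : ℝ) : IsFiniteMeasure (nu ν δ r k) :=
  isFiniteMeasure_withDensity_ofReal ((exp_int hB (2 * k)).const_mul _).hasFiniteIntegral

theorem two_pow {δ : ℝ} (hδ : 0 < δ) (z : ℂ) :
    ((2 * δ : ℝ) : ℂ) ^ z = cexp (-(Real.log (1 / (2 * δ)) : ℝ) * z) := by
  have h0 : ((2 * δ : ℝ) : ℂ) ≠ 0 := by
    exact_mod_cast (by positivity : (2 * δ : ℝ) ≠ 0)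
  rw [Complex.cpow_def_of_ne_zero h0, ← Complex.ofReal_log (by positivity)]
  congr 1
  rw [one_div, Real.log_inv]
  push_cast
  ring

theorem two_rpow {δ : ℝ} (hδ : 0 < δ) (z : ℝ) :
    (2 * δ) ^ z = Real.exp (-Real.log (1 / (2 * δ)) * z) := by
  rw [Real.rpow_def_of_pos (by positivity), one_div, Real.log_inv, neg_neg]

/-- characteristic functions -/
theorem four (ν : Measure ℝ) {δ r a : ℝ} (k v : ℝ) (hδ : 0 < δ) (ha : 0 < a)
    (hΛ : Real.log (1 / (2 * δ)) = 2 * a ^ 2) (hr : 0 < r) :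
    ∫ x, cexp (((2 * a * v : ℝ) : ℂ) * (((x - k * Real.log (1 / (2 * δ))) / a : ℝ) : ℂ) * I)
      ∂(nu ν δ r k) = (1 / r : ℂ) * (Real.exp (-(2 * a ^ 2 * v ^ 2)) : ℂ) *
        (((2 * δ : ℝ) : ℂ) ^ ((k + v * I : ℂ) ^ 2) *
          ∫ x, cexp (2 * (k + v * I : ℂ) * (x : ℂ)) ∂ν) := by
  rw [int_nu ν k hδ hr, ← integral_const_mul, ← integral_const_mul]
  refine integral_congr_ae (Eventually.of_forall fun x => ?_)
  simp only
  rw [two_pow hδ, two_rpow hδ, hΛ, real_smul]
  have ha' : (a : ℂ) ≠ 0 := by exact_mod_cast ha.ne'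
  push_cast
  have e1 : (1 / (r : ℂ)) * cexp (-(2 * (a : ℂ) ^ 2) * (k : ℂ) ^ 2) * cexp (2 * k * x) *
      cexp (2 * a * v * ((x - k * (2 * (a : ℂ) ^ 2)) / a) * I) =
      (1 / (r : ℂ)) * cexp (-(2 * (a : ℂ) ^ 2) * (k : ℂ) ^ 2 + 2 * k * x +
        2 * a * v * ((x - k * (2 * (a : ℂ) ^ 2)) / a) * I) := by
    rw [Complex.exp_add, Complex.exp_add]
    ring
  have e2 : (1 / (r : ℂ)) * cexp (-(2 * (a : ℂ) ^ 2 * (v : ℂ) ^ 2)) *
      (cexp (-(2 * (a : ℂ) ^ 2) * (k + v * I) ^ 2) * cexp (2 * (k + v * I) * x)) =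
      (1 / (r : ℂ)) * cexp (-(2 * (a : ℂ) ^ 2 * (v : ℂ) ^ 2) +
        (-(2 * (a : ℂ) ^ 2) * (k + v * I) ^ 2 + 2 * (k + v * I) * x)) := by
    rw [Complex.exp_add, Complex.exp_add]
    ring
  rw [e1, e2]
  congr 2
  have hI : I ^ 2 = -1 := Complex.I_sq
  field_simp
  linear_combination ((a : ℂ) ^ 2 * (v : ℂ) ^ 2) * hI

theorem main : S_XM2 := by
  intro ν δ g hC k y
  obtain ⟨r, hr, hgr⟩ := hC.gpos k
  have hre : (g k).re = r := by rw [hgr, Complex.ofReal_re]
  rw [hre]
  have hΛ : Tendsto (fun T : ℝ => Real.log (1 / (2 * δ T))) atTop atTop := by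
    have h1 : Tendsto (fun T : ℝ => 2 * δ T) atTop (𝓝[>] 0) := by
      rw [tendsto_nhdsWithin_iff]
      refine ⟨?_, ?_⟩
      · have := hC.t0.const_mul 2
        rwa [mul_zero] at this
      · filter_upwards [hC.pos] with T hT
        show 0 < 2 * δ T
        linarith
    have h3 := tendsto_neg_atBot_atTop.comp (Real.tendsto_log_nhdsGT_zero.comp h1)
    refine h3.congr fun T => ?_
    simp only [Function.comp_apply]
    rw [one_div, Real.log_inv]
  obtain ⟨a, had⟩ : ∃ a : ℝ → ℝ, ∀ T, a T = Real.sqrt (Real.log (1 / (2 * δ T)) / 2) :=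
    ⟨_, fun T => rfl⟩
  have ha : Tendsto a atTop atTop := by
    have h1 : Tendsto (fun T : ℝ => Real.sqrt (Real.log (1 / (2 * δ T)) / 2)) atTop atTop :=
      Real.tendsto_sqrt_atTop.comp (hΛ.atTop_div_const (by norm_num))
    exact h1.congr fun T => (had T).symm
  have haΛ : ∀ᶠ T : ℝ in atTop, Real.log (1 / (2 * δ T)) = 2 * a T ^ 2 := by
    filter_upwards [hΛ.eventually_ge_atTop 0] with T hT
    rw [had, Real.sq_sqrt (by linarith)]
    ring
  have ha0 : ∀ᶠ T : ℝ in atTop, 0 < a T := ha.eventually_gt_atTop 0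
  -- the characteristic functions
  have hcf : ∀ t : ℝ, Tendsto (fun T : ℝ => ∫ x, cexp ((t : ℂ) *
      (((x - k * Real.log (1 / (2 * δ T))) / a T : ℝ) : ℂ) * I) ∂(nu (ν T) (δ T) r k)) atTop
      (𝓝 (Real.exp (-(t ^ 2 / 2)) : ℂ)) := by
    intro t
    obtain ⟨v, hvd⟩ : ∃ v : ℝ → ℝ, ∀ T, v T = t / 2 / a T := ⟨_, fun T => rfl⟩
    have hv0 : Tendsto v atTop (𝓝 0) := (ha.const_div_atTop (t / 2)).congr fun T => (hvd T).symm
    have hs : Tendsto (fun T : ℝ => ((k : ℂ) + (v T : ℂ) * I)) atTop (𝓝 (k : ℂ)) := by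
      have h1 : Continuous (fun e : ℝ => (k : ℂ) + (e : ℂ) * I) := by fun_prop
      have h2 := (h1.tendsto 0).comp hv0
      simp only [Function.comp_def, Complex.ofReal_zero, zero_mul, add_zero] at h2
      exact h2
    have hA : Tendsto (fun T : ℝ => g ((k : ℂ) + (v T : ℂ) * I)) atTop (𝓝 (r : ℂ)) := by
      have h2 := (hC.cont.tendsto (k : ℂ)).comp hs
      rw [hgr] at h2
      exact h2
    obtain ⟨W, hWd⟩ : ∃ W : ℝ → ℂ, ∀ T, W T = ((2 * δ T : ℝ) : ℂ) ^ ((k + v T * I : ℂ) ^ 2) *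
        ∫ x, cexp (2 * (k + v T * I : ℂ) * (x : ℂ)) ∂(ν T) := ⟨_, fun T => rfl⟩
    have hB : Tendsto (fun T : ℝ => W T - g ((k : ℂ) + (v T : ℂ) * I)) atTop (𝓝 0) := by
      rw [tendsto_zero_iff_norm_tendsto_zero, Metric.tendsto_nhds]
      intro ε hε
      filter_upwards [hC.lim (|k| + 1) (ε / 2) (by positivity) (by positivity),
        (hv0.abs.eventually_le_const (show |(0 : ℝ)| < 1 by norm_num))] with T h1 h2
      have h3 : ‖(k : ℂ) + (v T : ℂ) * I‖ ≤ |k| + 1 := by
        refine (norm_add_le _ _).trans ?_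
        rw [Complex.norm_real, norm_mul, Complex.norm_I, mul_one, Complex.norm_real,
          Real.norm_eq_abs, Real.norm_eq_abs]
        linarith
      have h4 := h1 _ h3
      rw [← hWd T] at h4
      rw [Real.dist_eq, sub_zero, abs_norm]
      linarith
    have hW : Tendsto W atTop (𝓝 (r : ℂ)) := by
      have := hB.add hA
      rw [zero_add] at this
      refine this.congr fun T => ?_
      ring
    have hr' : (r : ℂ) ≠ 0 := by exact_mod_cast hr.ne'
    have hfin := hW.const_mul ((1 / r : ℂ) * (Real.exp (-(t ^ 2 / 2)) : ℂ))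
    have e0 : (1 / r : ℂ) * (Real.exp (-(t ^ 2 / 2)) : ℂ) * (r : ℂ) =
        (Real.exp (-(t ^ 2 / 2)) : ℂ) := by
      field_simp
    rw [e0] at hfin
    refine hfin.congr' ?_
    filter_upwards [haΛ, ha0, hC.pos] with T h1 h2 h3
    have h4 : t = 2 * a T * v T := by
      rw [hvd]
      field_simp
    have h5 := four (ν T) k (v T) h3 h2 h1 hr
    rw [← h4, ← hWd T] at h5
    rw [h5]
    have h6 : 2 * a T ^ 2 * v T ^ 2 = t ^ 2 / 2 := by
      rw [h4]
      ring
    rw [h6]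
  -- the indicator
  obtain ⟨f, hf⟩ : ∃ f : ℝ → ℝ, f = (Set.Iic y).indicator (fun _ => (1 : ℝ)) := ⟨_, rfl⟩
  have hfm : Measurable f := by rw [hf]; exact measurable_const.indicator measurableSet_Iic
  have hfb : ∀ x, |f x| ≤ 1 := by
    intro x
    rw [hf]
    by_cases hx : x ∈ Set.Iic y
    · rw [Set.indicator_of_mem hx]
      simp
    · rw [Set.indicator_of_notMem hx]
      simp
  have hfc : ∀ x, x ∉ ({y} : Finset ℝ) → ContinuousAt f x := by
    intro x hx
    have hx' : x ≠ y := by simpa using hx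
    rw [hf]
    rcases lt_or_gt_of_ne hx' with h1 | h1
    · refine (continuousAt_const (y := (1 : ℝ))).congr ?_
      filter_upwards [Iio_mem_nhds h1] with z hz
      have : z ∈ Set.Iic y := Set.mem_Iic.2 (le_of_lt hz)
      rw [Set.indicator_of_mem this]
    · refine (continuousAt_const (y := (0 : ℝ))).congr ?_
      filter_upwards [Ioi_mem_nhds h1] with z hz
      have : z ∉ Set.Iic y := fun h2 => absurd (Set.mem_Iic.1 h2) (not_le.2 hz)
      rw [Set.indicator_of_notMem this]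
  have hg : ∫ x, f x ∂(gaussianReal 0 1) = Phi y := by
    rw [hf]
    exact integral_indicator_one (μ := gaussianReal 0 1) measurableSet_Iic
  have hfin : ∀ᶠ T : ℝ in atTop, IsFiniteMeasure (nu (ν T) (δ T) r k) := by
    filter_upwards [hC.fin, hC.bdd] with T h1 h2
    obtain ⟨B, hB⟩ := h2
    exact nu_fin hB _ _ _
  -- the limit
  have key : Tendsto (fun T : ℝ => ∫ x, f ((x - k * Real.log (1 / (2 * δ T))) / a T)
      ∂(nu (ν T) (δ T) r k)) atTop (𝓝 (∫ x, f x ∂(gaussianReal 0 1))) := by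
    refine tendsto_of_seq_tendsto fun u hu => ?_
    obtain ⟨M, hM⟩ := eventually_atTop.mp (hu.eventually hfin)
    rw [← tendsto_add_atTop_iff_nat M]
    have hgm : ∀ T : ℝ, Measurable (fun x : ℝ => (x - k * Real.log (1 / (2 * δ T))) / a T) :=
      fun T => by fun_prop
    let μ : ℕ → FiniteMeasure ℝ := fun n =>
      ⟨(nu (ν (u (n + M))) (δ (u (n + M))) r k).map
        (fun x : ℝ => (x - k * Real.log (1 / (2 * δ (u (n + M))))) / a (u (n + M))),
        @Measure.isFiniteMeasure_map _ _ _ _ _ (hM (n + M) (Nat.le_add_left _ _)) _⟩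
    let μ' : FiniteMeasure ℝ := ⟨gaussianReal 0 1, inferInstance⟩
    have hμi : ∀ {E : Type} [NormedAddCommGroup E] [NormedSpace ℝ E] (g : ℝ → E) (n : ℕ),
        StronglyMeasurable g → ∫ x, g x ∂(μ n : Measure ℝ) =
          ∫ x, g ((x - k * Real.log (1 / (2 * δ (u (n + M))))) / a (u (n + M)))
            ∂(nu (ν (u (n + M))) (δ (u (n + M))) r k) := by
      intro E _ _ g n hg'
      show ∫ x, g x ∂((nu (ν (u (n + M))) (δ (u (n + M))) r k).map
        (fun x : ℝ => (x - k * Real.log (1 / (2 * δ (u (n + M))))) / a (u (n + M)))) = _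
      rw [integral_map (hgm _).aemeasurable hg'.aestronglyMeasurable]
    have hμ'0 : μ' ≠ 0 := by
      intro h0
      have h1 : (gaussianReal 0 1 : Measure ℝ) = 0 := by
        have : (μ' : Measure ℝ) = 0 := by rw [h0]; rfl
        exact this
      exact IsProbabilityMeasure.ne_zero _ h1
    have hw : Tendsto μ atTop (𝓝 μ') := by
      refine LLT.fm_tendsto μ μ' hμ'0 fun t => ?_
      have h1 : ∀ n, ∫ x, Complex.exp (t * x * I) ∂(μ n : Measure ℝ) =
          ∫ x, cexp ((t : ℂ) * (((x - k * Real.log (1 / (2 * δ (u (n + M))))) /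
            a (u (n + M)) : ℝ) : ℂ) * I) ∂(nu (ν (u (n + M))) (δ (u (n + M))) r k) := by
        intro n
        rw [hμi _ n (by
          have : Continuous (fun x : ℝ => Complex.exp (t * x * I)) := by fun_prop
          exact this.stronglyMeasurable)]
      have h2 : ∫ x, Complex.exp (t * x * I) ∂(μ' : Measure ℝ) =
          (Real.exp (-(t ^ 2 / 2)) : ℂ) := by
        show ∫ x, Complex.exp (t * x * I) ∂(gaussianReal 0 1) = _
        rw [← charFun_apply_real, ProbabilityTheory.charFun_gaussianReal]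
        push_cast
        congr 1
        ring
      simp_rw [h1, h2]
      have h3 := (hcf t).comp hu
      exact (tendsto_add_atTop_iff_nat (f := fun n => ∫ x, cexp ((t : ℂ) *
        (((x - k * Real.log (1 / (2 * δ (u n)))) / a (u n) : ℝ) : ℂ) * I)
          ∂(nu (ν (u n)) (δ (u n)) r k)) M).mpr h3
    have hSnull : ∀ᵐ x ∂(μ' : Measure ℝ), x ∉ ({y} : Finset ℝ) := by
      show ∀ᵐ x ∂(gaussianReal 0 1), x ∉ ({y} : Finset ℝ)
      have : NullSingletonClass (gaussianReal 0 1) :=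
        ProbabilityTheory.nullSingletonClass_gaussianReal one_ne_zero
      have h2 : ∀ᵐ x : ℝ ∂(gaussianReal 0 1), x ∉ ((({y} : Finset ℝ)) : Set ℝ) := by
        rw [ae_iff]
        simp only [not_not, Set.ofPred_mem_eq]
        exact (Finset.finite_toSet _).measure_zero _
      filter_upwards [h2] with x hx
      exact hx
    have h6 := LLT.fm_disc μ μ' hw f {y} hfm hfc 1 hfb hSnull
    refine h6.congr fun n => ?_
    exact hμi f n hfm.stronglyMeasurable
  rw [hg] at key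
  refine (key.const_mul r).congr' ?_
  filter_upwards [hC.pos, ha0] with T h1 h2
  rw [int_nu (ν T) k h1 hr, ← integral_const_mul, ← integral_indicator measurableSet_Iic,
    ← integral_const_mul]
  refine integral_congr_ae (Eventually.of_forall fun x => ?_)
  simp only [smul_eq_mul]
  have h3 : (x - k * Real.log (1 / (2 * δ T))) / a T ∈ Set.Iic y ↔
      x ∈ Set.Iic (k * Real.log (1 / (2 * δ T)) + y * Real.sqrt (Real.log (1 / (2 * δ T)) / 2)) := by
    rw [← had, Set.mem_Iic, Set.mem_Iic, div_le_iff₀ h2]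
    constructor <;> intro h <;> linarith
  rw [hf]
  by_cases hx : x ∈ Set.Iic (k * Real.log (1 / (2 * δ T)) +
      y * Real.sqrt (Real.log (1 / (2 * δ T)) / 2))
  · rw [Set.indicator_of_mem hx, Set.indicator_of_mem (h3.2 hx)]
    field_simp
  · rw [Set.indicator_of_notMem hx, Set.indicator_of_notMem (fun h => hx (h3.1 h))]
    ring

end Pool.Agent.N748.MO.XM2
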