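import Pool.Agent.N748.MO.Stm

set_option autoImplicit false

/-!
# Truncated exponential moments, subcritical level (by helper374)
-/

namespace Pool.Agent.N748.MO.XM3

open Finset Filter MeasureTheory Topology Complex
open Pool.Agent.N748.MG

theorem exp_bd {a : ℝ} (ha : 0 < a) :
    ∃ C : ℝ, 0 ≤ C ∧ ∀ y : ℝ, 0 ≤ y → 1 + y ^ 2 ≤ C * Real.exp (a * y) := by
  refine ⟨1 + 2 / a ^ 2, by positivity, fun y hy => ?_⟩
  have h1 := Real.quadratic_le_exp_of_nonneg (mul_nonneg ha.le hy)
  have h2 : 1 + y ^ 2 ≤ (1 + 2 / a ^ 2) * (1 + a * y + (a * y) ^ 2 / 2) := by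
    have e : (1 + 2 / a ^ 2) * (1 + a * y + (a * y) ^ 2 / 2) =
        1 + y ^ 2 + (a * y + (a * y) ^ 2 / 2 + 2 / a ^ 2 + 2 * y / a) := by
      field_simp
      ring
    rw [e]
    have : 0 ≤ a * y + (a * y) ^ 2 / 2 + 2 / a ^ 2 + 2 * y / a := by positivity
    linarith
  exact h2.trans (mul_le_mul_of_nonneg_left h1 (by positivity))

theorem int_neg {a : ℝ} (ha : 0 < a) : ∫ x in Set.Iic (0 : ℝ), Real.exp (2 * a * x) =
    1 / (2 * a) := by
  rw [integral_exp_mul_Iic (by linarith), mul_zero, Real.exp_zero]

/-- **Truncated exponential moments, subcritical level.** -/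
theorem main (h : S_XLD) : S_XM3 := by
  intro ν δ g hν k V hV
  have hkV : 0 < k - V := by linarith
  have key := h ν δ g hν V ((Set.Iic (0:ℝ)).indicator (fun x => Real.exp (2 * k * x))) {0}
    ((by fun_prop : Measurable (fun x : ℝ => Real.exp (2 * k * x))).indicator measurableSet_Iic)
    ?_ ?_
  · have e : ∫ x, Real.exp (-(2 * V * x)) *
        (Set.Iic (0:ℝ)).indicator (fun x => Real.exp (2 * k * x)) x = 1 / (2 * (k - V)) := by
      rw [← int_neg hkV, ← integral_indicator measurableSet_Iic]
      refine integral_congr_ae (Filter.Eventually.of_forall fun x => ?_)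
      change Real.exp (-(2 * V * x)) * (Set.Iic (0:ℝ)).indicator (fun x => Real.exp (2 * k * x)) x =
        (Set.Iic (0:ℝ)).indicator (fun x => Real.exp (2 * (k - V) * x)) x
      by_cases hx : x ∈ Set.Iic (0:ℝ)
      · rw [Set.indicator_of_mem hx, Set.indicator_of_mem hx, ← Real.exp_add]
        congr 1
        ring
      · rw [Set.indicator_of_notMem hx, Set.indicator_of_notMem hx, mul_zero]
    rw [e, mul_one_div] at key
    refine key.congr' ?_
    filter_upwards [hν.pos] with T hT
    set L := Real.log (1 / (2 * δ T)) with hL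
    have hLe : L = -Real.log (2 * δ T) := by rw [hL, one_div, Real.log_inv]
    have e1 : ∫ x, (Set.Iic (0:ℝ)).indicator (fun x => Real.exp (2 * k * x)) (x - V * L) ∂(ν T) =
        (2 * δ T) ^ (2 * k * V) * ∫ x in Set.Iic (V * L), Real.exp (2 * k * x) ∂(ν T) := by
      rw [← integral_const_mul, ← integral_indicator measurableSet_Iic]
      refine integral_congr_ae (Filter.Eventually.of_forall fun x => ?_)
      change (Set.Iic (0:ℝ)).indicator (fun x => Real.exp (2 * k * x)) (x - V * L) =
        (Set.Iic (V * L)).indicator (fun x => (2 * δ T) ^ (2 * k * V) * Real.exp (2 * k * x)) x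
      by_cases hx : x ∈ Set.Iic (V * L)
      · have hx' : x - V * L ∈ Set.Iic (0:ℝ) := by
          rw [Set.mem_Iic] at hx ⊢
          linarith
        rw [Set.indicator_of_mem hx, Set.indicator_of_mem hx', Real.rpow_def_of_pos (by linarith),
          ← Real.exp_add]
        congr 1
        rw [hLe]
        ring
      · have hx' : x - V * L ∉ Set.Iic (0:ℝ) := by
          rw [Set.mem_Iic] at hx ⊢
          intro h'
          exact hx (by linarith)
        rw [Set.indicator_of_notMem hx, Set.indicator_of_notMem hx']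
    rw [e1]
    have e2 : (2 * δ T) ^ (2 * k * V - V ^ 2) = (2 * δ T) ^ (-(V ^ 2)) *
        (2 * δ T) ^ (2 * k * V) := by
      rw [← Real.rpow_add (by linarith)]
      congr 1
      ring
    rw [e2]
    ring
  · intro x hx
    have hx0 : x ≠ 0 := by simpa using hx
    rcases lt_or_gt_of_ne hx0 with h3 | h3
    · have h5 : (Set.Iic (0:ℝ)).indicator (fun x => Real.exp (2 * k * x)) =ᶠ[𝓝 x]
          fun x => Real.exp (2 * k * x) := by
        filter_upwards [Iic_mem_nhds h3] with y hy
        exact Set.indicator_of_mem hy _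
      exact ContinuousAt.congr (by fun_prop) h5.symm
    · have h5 : (Set.Iic (0:ℝ)).indicator (fun x => Real.exp (2 * k * x)) =ᶠ[𝓝 x]
          fun _ => (0 : ℝ) := by
        filter_upwards [Ioi_mem_nhds h3] with y hy
        have hy' : (0:ℝ) < y := hy
        exact Set.indicator_of_notMem (fun hyB : y ∈ Set.Iic (0:ℝ) => not_le.2 hy' hyB) _
      exact continuousAt_const.congr h5.symm
  · obtain ⟨C, hC, hC'⟩ := exp_bd (a := 2 * (k - V)) (by linarith)
    refine ⟨C, fun x => ?_⟩
    by_cases hx : x ∈ Set.Iic (0:ℝ)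
    · rw [Set.indicator_of_mem hx, abs_of_pos (Real.exp_pos _)]
      have h3 := hC' (-x) (by rw [Set.mem_Iic] at hx; linarith)
      rw [neg_sq] at h3
      have h5 : Real.exp (2 * V * x) =
          Real.exp (2 * k * x) * Real.exp (2 * (k - V) * (-x)) := by
        rw [← Real.exp_add]
        congr 1
        ring
      rw [h5]
      calc Real.exp (2 * k * x) * (1 + x ^ 2)
          ≤ Real.exp (2 * k * x) * (C * Real.exp (2 * (k - V) * (-x))) :=
            mul_le_mul_of_nonneg_left h3 (Real.exp_pos _).le
        _ = C * (Real.exp (2 * k * x) * Real.exp (2 * (k - V) * (-x))) := by ring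
    · rw [Set.indicator_of_notMem hx, abs_zero, zero_mul]
      positivity

end Pool.Agent.N748.MO.XM3
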