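import Pool.Agent.N748.MG.Res
import Pool.Agent.N748.MO.WTB
import Pool.Agent.N748.MO.W4
import Pool.Agent.N748.MO.L8
import Pool.Agent.N748.MO.DGT
import Pool.Agent.N748.MO.DE1
import Pool.Agent.N748.MO.DE2
import Pool.Agent.N748.MO.DE3
import Pool.Agent.N748.MO.DGF
import Pool.Agent.N748.MO.OCM
import Pool.Agent.N748.MO.XLD
import Pool.Agent.N748.MO.XM1
import Pool.Agent.N748.MO.XM2
import Pool.Agent.N748.MO.XM3
import Pool.Agent.N748.MO.CX
import Pool.Agent.N748.MO.UNS
import Pool.Agent.N748.MO.FIN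
import Pool.Agent.N748.MO.FT
import Pool.Agent.N748.MO.TSX

set_option autoImplicit false

/-! Moments with two factors on the critical line: the theorems. -/

namespace Pool.Agent.N748.MO

open Pool.Agent.N748.MG

theorem w4F : S_W4 := W4.main FT.main WTB.main

theorem ocmF : S_OCM :=
  OCM.main (NIC.main Inp.zm2 Inp.xsa Inp.mea) (CMP.main EUL.main) SIZ.main TSX.main WTB.main w4F L8.main
    (DGF.main DGT.main DE1.main DE2.main DE3.main)

theorem xldF : S_XLD := XLD.main LLT.main

theorem allF : S_F1 ∧ S_F2 ∧ S_F3 ∧ S_F4 :=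
  FIN.main (CX.main ocmF CON.main WTB.main w4F) xldF XM1.main XM2.main (XM3.main xldF) (UNS.main WTB.main) w4F FT.main

end Pool.Agent.N748.MO
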