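import Pool.Agent.N748.MG.Stm2

set_option autoImplicit false

/-!
# Moments with two factors on the critical line and the others near it: statements (over Mathlib only)

`w = 1/2 + δ + i t`; the weight `|ζ(1/2 + i t)|²` on the critical line, the moments of `|ζ(w)|^(2s)`, `s` complex.
-/

namespace Pool.Agent.N748.MO

open Finset Filter MeasureTheory Topology Complex
open Pool.Agent.N748.MG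

/-! ### definitions -/

/-- the weight, a probability density on `(0, ∞)` concentrated near `X` -/
noncomputable def wt (κ : ℕ) (X t : ℝ) : ℝ :=
  ((κ:ℝ) / X) ^ (κ + 1) * t ^ κ * Real.exp (-((κ:ℝ) / X * t)) / (κ.factorial : ℝ)

/-- the range of the parameter -/
def Rg (κ : ℕ) (X : ℝ) : Prop := Real.log X ^ 2 ≤ κ ∧ (κ:ℝ) ≤ 4 * Real.log X ^ 2

/-- the choice of the parameter -/
noncomputable def kp (T : ℝ) : ℕ := ⌈2 * Real.log T ^ 2⌉₊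

/-- the modulus of zeta on the critical line -/
noncomputable def zh (t : ℝ) : ℝ := ‖riemannZeta (1 / 2 + t * I)‖

/-- the terms of the double sum -/
noncomputable def TD (b : ℂ) (δ : ℝ) (z : ℂ) (h l : ℕ) : ℂ :=
  dS b h * dS b l * (h:ℂ) ^ (-((δ:ℂ) + z)) * (l:ℂ) ^ (-((δ:ℂ) + z)) * ((Nat.gcd h l : ℕ) : ℂ) ^ (2 * z) /
    ((Nat.lcm h l : ℕ) : ℂ)

/-- the local factors -/
noncomputable def GD (b : ℂ) (δ : ℝ) (z : ℂ) (p : ℕ) : ℂ :=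
  ∑' q : ℕ × ℕ, lC b q.1 * lC b q.2 *
    (p:ℂ) ^ (-(((q.1 + q.2 : ℕ) : ℂ) * (1 + δ + z)) + ((min q.1 q.2 : ℕ) : ℂ) * (1 + 2 * z))

/-! ### the parts -/

/-- (TSX) the twisted second moment on the critical line -/
def S_TSX : Prop := ∃ η : ℝ, 0 < η ∧ ∀ᶠ X : ℝ in atTop, ∀ κ : ℕ, Rg κ X → ∀ F : Finset ℕ,
  (∀ n ∈ F, 1 ≤ n ∧ (n:ℝ) ≤ X ^ ((1:ℝ) / 2)) → ∀ (a b : ℕ → ℂ) (M : ℝ), 0 < M → (∀ n ∈ F, ‖a n‖ ≤ M) →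
  (∀ n ∈ F, ‖b n‖ ≤ M) →
  ‖(∫ t in Set.Ioi (0:ℝ), ((wt κ X t * zh t ^ 2 : ℝ) : ℂ) * ((∑ n ∈ F, a n * (n:ℂ) ^ (-(1 / 2 + t * I : ℂ))) *
      (starRingEnd ℂ) (∑ n ∈ F, b n * (n:ℂ) ^ (-(1 / 2 + t * I : ℂ))))) -
    ∑ h ∈ F, ∑ l ∈ F, a h * (starRingEnd ℂ) (b l) * ((1 / (Nat.lcm h l : ℝ) *
      (Real.log (X / (2 * Real.pi * κ) * (Nat.gcd h l : ℝ) ^ 2 / ((h:ℝ) * l)) +
        ((harmonic κ : ℝ) + Real.eulerMascheroniConstant)) : ℝ) : ℂ)‖ ≤ M ^ 2 * X ^ (-η)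

/-- (WTB) the weight -/
def S_WTB : Prop := ∃ C : ℝ, 0 < C ∧ ∀ (κ : ℕ) (X : ℝ), 1 ≤ κ → 0 < X →
  (∀ t : ℝ, 0 < t → 0 < wt κ X t ∧ wt κ X t ≤ C * Real.sqrt κ / X) ∧
  (∀ t : ℝ, 2 * X ≤ t → wt κ X t ≤ C * Real.sqrt κ / X * Real.exp (-(κ * t / (8 * X)))) ∧
  IntegrableOn (fun t => wt κ X t) (Set.Ioi 0) ∧ ∫ t in Set.Ioi (0:ℝ), wt κ X t = 1

/-- (FT) the fourth moment on the critical line -/
def S_FT : Prop := ∀ T : ℝ, 1000 ≤ T → ∫ t in (0:ℝ)..T, zh t ^ 4 ≤ T * Real.log T ^ 4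

/-- (W4) the fourth moment with the weight, and the tails -/
def S_W4 : Prop := ∃ C : ℝ, 0 < C ∧ ∀ᶠ X : ℝ in atTop, ∀ κ : ℕ, Rg κ X →
  IntegrableOn (fun t => wt κ X t * zh t ^ 4) (Set.Ioi 0) ∧ IntegrableOn (fun t => wt κ X t * zh t ^ 2) (Set.Ioi 0) ∧
  ∫ t in Set.Ioi (0:ℝ), wt κ X t * zh t ^ 4 ≤ C * Real.log X ^ 5 ∧
  ∫ t in Set.Ioi (0:ℝ), wt κ X t * zh t ^ 2 ≤ C * Real.log X ^ 5 ∧
  ∫ t in Set.Ioi (2 * X), wt κ X t * zh t ^ 2 ≤ X ^ (-4 : ℝ)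

/-- (L8) the eighth moments of the polynomials -/
def S_L8 : Prop := ∀ R : ℝ, 0 ≤ R → ∃ C : ℝ, 0 < C ∧ ∀ (y : ℝ) (K : ℕ) (δ X : ℝ), 2 ≤ y → 0 < δ → δ ≤ 1 / 16 →
  0 < X → C * ((K + 1) * Real.log y) ≤ Real.log X → ∀ s : ℂ, ‖s‖ ≤ R →
  ∫ t in (0:ℝ)..X, ‖AS s y K (pw δ t)‖ ^ 8 ≤ X * δ ^ (-C)

/-- (DGT) the double sum, tails -/
def S_DGT : Prop := ∀ R D : ℝ, 0 ≤ R → 0 < D → ∃ C δ0 : ℝ, 0 < C ∧ 0 < δ0 ∧ ∀ δ : ℝ, 0 < δ → δ ≤ δ0 →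
  ∀ (y : ℝ) (K : ℕ), 2 ≤ y → C * Real.log (1 / δ) ≤ δ * Real.log y → C * Real.log (1 / δ) ≤ K →
  ∀ b z : ℂ, ‖b‖ ≤ R → ‖z‖ ≤ δ / 4 →
  ‖(∑ h ∈ FS y K, ∑ l ∈ FS y K, TD b δ z h l) - ∑' q : ℕ × ℕ, TD b δ z q.1 q.2‖ ≤ δ ^ D

/-- (DE1) the double sum as a product over the primes -/
def S_DE1 : Prop := ∀ (b : ℂ) (δ : ℝ) (z : ℂ), 0 < δ → δ ≤ 1 / 16 → ‖z‖ ≤ δ / 4 →
  Summable (fun q : ℕ × ℕ => TD b δ z q.1 q.2) ∧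
    HasProd (fun p : Nat.Primes => GD b δ z p) (∑' q : ℕ × ℕ, TD b δ z q.1 q.2)

/-- (DE2) the asymptotics of the product -/
def S_DE2 : Prop := ∀ R : ℝ, 0 ≤ R → ∀ ε : ℝ, 0 < ε → ∃ δ0 : ℝ, 0 < δ0 ∧ ∀ δ : ℝ, 0 < δ → δ ≤ δ0 → ∀ b : ℂ, ‖b‖ ≤ R →
  ‖((2 * δ : ℝ) : ℂ) ^ (b ^ 2 + 2 * b) * (∏' p : Nat.Primes, GD b δ 0 p) - 4 ^ b * aC (b + 1)‖ ≤ ε

/-- (DE3) a bound for the product -/
def S_DE3 : Prop := ∀ R : ℝ, 0 ≤ R → ∃ C : ℝ, 0 < C ∧ ∀ (δ : ℝ) (b z : ℂ), 0 < δ → δ ≤ 1 / 16 → ‖b‖ ≤ R →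
  ‖z‖ ≤ δ / 4 → ‖((2 * δ : ℝ) : ℂ) ^ (b ^ 2 + 2 * b) * (∏' p : Nat.Primes, GD b δ z p)‖ ≤ C

/-- (DGF) the finite double sums -/
def S_DGF : Prop := ∀ R ε : ℝ, 0 ≤ R → 0 < ε → ∃ C δ0 : ℝ, 0 < C ∧ 0 < δ0 ∧ ∀ δ : ℝ, 0 < δ → δ ≤ δ0 →
  ∀ (y : ℝ) (K : ℕ), 2 ≤ y → C * Real.log (1 / δ) ≤ δ * Real.log y → C * Real.log (1 / δ) ≤ K →
  ∀ b : ℂ, ‖b‖ ≤ R →
  ‖((2 * δ : ℝ) : ℂ) ^ (b ^ 2 + 2 * b) * (∑ h ∈ FS y K, ∑ l ∈ FS y K, TD b δ 0 h l) - 4 ^ b * aC (b + 1)‖ ≤ ε ∧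
  ‖((2 * δ : ℝ) : ℂ) ^ (b ^ 2 + 2 * b) * (∑ h ∈ FS y K, ∑ l ∈ FS y K, TD b δ 0 h l *
    ((Real.log ((Nat.gcd h l : ℝ) ^ 2 / ((h:ℝ) * l)) : ℝ) : ℂ))‖ ≤ C / δ

/-- (OCM) complex moments, with the weight `|ζ|²` on the critical line, outside tiny sets -/
def S_OCM : Prop := ∀ c R D : ℝ, 0 < c → 0 < R → 0 < D → ∀ ε : ℝ, 0 < ε → Ev fun X δ => δ ≤ Real.log X ^ (-c) →
  ∃ N : Set ℝ, MeasurableSet N ∧ N ⊆ Set.Icc 0 (2 * X) ∧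
    volume (Set.Icc 0 (2 * X) \ N) ≤ ENNReal.ofReal (δ ^ D * X) ∧ (∀ t ∈ N, riemannZeta (pw δ t) ≠ 0) ∧
    (∃ B : ℝ, ∀ t ∈ N, |Real.log ‖riemannZeta (pw δ t)‖| ≤ B) ∧
    ∀ κ : ℕ, Rg κ X → ∀ s : ℂ, ‖s‖ ≤ R →
      ‖((2 * δ : ℝ) : ℂ) ^ (s ^ 2 + 2 * s) *
        (∫ t in N, ((wt κ X t * zh t ^ 2 : ℝ) : ℂ) * ((‖riemannZeta (pw δ t)‖ : ℝ) : ℂ) ^ (2 * s)) -
        Real.log X * (4 ^ s * aC (s + 1))‖ ≤ ε * Real.log X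

/-! ### laws with given complex exponential moments -/

/-- measures whose exponential moments of complex order are `(2 δ)^(-s²) g(s)` -/
structure CMx (ν : ℝ → Measure ℝ) (δ : ℝ → ℝ) (g : ℂ → ℂ) : Prop where
  fin : ∀ᶠ T : ℝ in atTop, IsFiniteMeasure (ν T)
  bdd : ∀ᶠ T : ℝ in atTop, ∃ B : ℝ, ν T {x : ℝ | B < |x|} = 0
  pos : ∀ᶠ T : ℝ in atTop, 0 < δ T
  t0 : Tendsto δ atTop (𝓝 0)
  cont : Continuous g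
  gpos : ∀ V : ℝ, ∃ r : ℝ, 0 < r ∧ g V = r
  lim : ∀ R ε : ℝ, 0 < R → 0 < ε → ∀ᶠ T : ℝ in atTop, ∀ s : ℂ, ‖s‖ ≤ R →
    ‖((2 * δ T : ℝ) : ℂ) ^ (s ^ 2) * (∫ x, Complex.exp (2 * s * (x:ℂ)) ∂(ν T)) - g s‖ ≤ ε

/-- (XLD) large deviations -/
def S_XLD : Prop := ∀ (ν : ℝ → Measure ℝ) (δ : ℝ → ℝ) (g : ℂ → ℂ), CMx ν δ g → ∀ (V : ℝ) (h : ℝ → ℝ) (S : Finset ℝ),
  Measurable h → (∀ x, x ∉ S → ContinuousAt h x) → (∃ C : ℝ, ∀ x, |h x| * (1 + x ^ 2) ≤ C * Real.exp (2 * V * x)) →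
  Tendsto (fun T : ℝ => Real.sqrt (Real.pi * Real.log (1 / (2 * δ T))) * (2 * δ T) ^ (-(V ^ 2)) *
    ∫ x, h (x - V * Real.log (1 / (2 * δ T))) ∂(ν T)) atTop (𝓝 ((g V).re * ∫ x, Real.exp (-(2 * V * x)) * h x))

/-- (XM1) truncated exponential moments, supercritical level -/
def S_XM1 : Prop := ∀ (ν : ℝ → Measure ℝ) (δ : ℝ → ℝ) (g : ℂ → ℂ), CMx ν δ g → ∀ k V : ℝ, k < V →
  Tendsto (fun T : ℝ => (2 * δ T) ^ (k ^ 2) *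
    ∫ x in Set.Iic (V * Real.log (1 / (2 * δ T))), Real.exp (2 * k * x) ∂(ν T)) atTop (𝓝 (g k).re)

/-- (XM2) truncated exponential moments, critical window -/
def S_XM2 : Prop := ∀ (ν : ℝ → Measure ℝ) (δ : ℝ → ℝ) (g : ℂ → ℂ), CMx ν δ g → ∀ k y : ℝ,
  Tendsto (fun T : ℝ => (2 * δ T) ^ (k ^ 2) *
    ∫ x in Set.Iic (k * Real.log (1 / (2 * δ T)) + y * Real.sqrt (Real.log (1 / (2 * δ T)) / 2)),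
      Real.exp (2 * k * x) ∂(ν T)) atTop (𝓝 ((g k).re * Phi y))

/-- (XM3) truncated exponential moments, subcritical level -/
def S_XM3 : Prop := ∀ (ν : ℝ → Measure ℝ) (δ : ℝ → ℝ) (g : ℂ → ℂ), CMx ν δ g → ∀ k V : ℝ, V < k →
  Tendsto (fun T : ℝ => Real.sqrt (Real.pi * Real.log (1 / (2 * δ T))) * (2 * δ T) ^ (2 * k * V - V ^ 2) *
    ∫ x in Set.Iic (V * Real.log (1 / (2 * δ T))), Real.exp (2 * k * x) ∂(ν T)) atTop (𝓝 ((g V).re / (2 * (k - V))))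

/-- admissible distances of the size of a power of `log T` -/
structure Adc (c : ℝ) (d : ℝ → ℝ) : Prop extends Ad d where
  cpos : 0 < c
  le : ∀ᶠ T : ℝ in atTop, d T ≤ Real.log T ^ (-c)

/-- (CX) the law of `log |ζ(w)|` with respect to the weight `|ζ|²` on the critical line -/
def S_CX : Prop := ∀ (c D V : ℝ) (d X : ℝ → ℝ) (κ : ℝ → ℕ), Adc c d → 0 < D →
  (∀ᶠ T : ℝ in atTop, T ^ ((1:ℝ) / 2) ≤ X T ∧ X T ≤ T ^ (2:ℝ) ∧ Rg (κ T) (X T)) →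
  ∃ ν : ℝ → Measure ℝ, CMx ν d (fun s => 4 ^ (s - 1) * aC s) ∧
    ∀ᶠ T : ℝ in atTop, ∀ h : ℝ → ℝ, Measurable h → (∀ x, |h x| ≤ (2 * d T) ^ (-V)) →
      |1 / Real.log (X T) * (∫ t in Set.Ioi (0:ℝ), wt (κ T) (X T) t * zh t ^ 2 * h (Real.log (mz (d T) t))) -
        2 * d T * ∫ x, Real.exp (2 * x) * h x ∂(ν T)| ≤ d T ^ D

/-- (UNS) from the weight to the interval `[0, T]` -/
def S_UNS : Prop := ∀ (F : ℝ → ℝ → ℝ) (m : ℝ → ℝ) (ℓ A : ℝ), 0 ≤ A → (∀ T t, 0 ≤ F T t) → (∀ᶠ T : ℝ in atTop, Measurable (F T)) →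
  (∀ᶠ T : ℝ in atTop, 0 < m T ∧ IntervalIntegrable (F T) volume 0 (4 * T) ∧ ∀ X : ℝ, 0 < X → X ≤ 2 * T →
    IntegrableOn (fun t => wt (kp T) X t * F T t) (Set.Ioi 0)) →
  (∀ X : ℝ → ℝ, (∀ᶠ T : ℝ in atTop, T / Real.log T ^ A ≤ X T ∧ X T ≤ 2 * T) →
    Tendsto (fun T => (∫ t in Set.Ioi (0:ℝ), wt (kp T) (X T) t * F T t) / m T) atTop (𝓝 ℓ)) →
  Tendsto (fun T => (∫ t in (0:ℝ)..(2 * T / Real.log T ^ A), F T t) / (T * m T)) atTop (𝓝 0) →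
  Tendsto (fun T => (1 / T * ∫ t in (0:ℝ)..T, F T t) / m T) atTop (𝓝 ℓ)

/-! ### the results -/

/-- the moment with two factors on the critical line, over the points where `|ζ(w)| ≤ c` -/
noncomputable def OM (k c δ T : ℝ) : ℝ :=
  (1 / T) * ∫ t in {t : ℝ | t ∈ Set.Icc 0 T ∧ mz δ t ≤ c}, zh t ^ 2 * mz δ t ^ (2 * k)

/-- (F1) supercritical level -/
def S_F1 : Prop := ∀ (c : ℝ) (d : ℝ → ℝ), Adc c d → ∀ k V : ℝ, 0 ≤ k → k + 1 < V →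
  Tendsto (fun T : ℝ => (2 * d T) ^ ((k + 1) ^ 2 - 1) * (OM k ((2 * d T) ^ (-V)) (d T) T / Real.log T)) atTop
    (𝓝 (4 ^ k * (aC (k + 1)).re))

/-- (F2) critical window -/
def S_F2 : Prop := ∀ (c : ℝ) (d : ℝ → ℝ), Adc c d → ∀ k x : ℝ, 0 ≤ k →
  Tendsto (fun T : ℝ => (2 * d T) ^ ((k + 1) ^ 2 - 1) *
    (OM k ((2 * d T) ^ (-(k + 1)) * Real.exp (x * Real.sqrt (Real.log (1 / (2 * d T)) / 2))) (d T) T / Real.log T)) atTop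
    (𝓝 (4 ^ k * (aC (k + 1)).re * Phi x))

/-- (F3) subcritical level -/
def S_F3 : Prop := ∀ (c : ℝ) (d : ℝ → ℝ), Adc c d → ∀ k V : ℝ, 0 ≤ k → V < k + 1 →
  Tendsto (fun T : ℝ => Real.sqrt (Real.pi * Real.log (1 / (2 * d T))) * (2 * d T) ^ (2 * (k + 1) * V - V ^ 2 - 1) *
    (OM k ((2 * d T) ^ (-V)) (d T) T / Real.log T)) atTop (𝓝 (4 ^ (V - 1) * (aC V).re / (2 * (k + 1 - V))))

/-- (F4) the mean square of zeta on the critical line as a function of zeta near the line -/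
def S_F4 : Prop := ∀ (c : ℝ) (d : ℝ → ℝ), Adc c d → ∀ (V : ℝ) (h : ℝ → ℝ) (S : Finset ℝ), Measurable h →
  (∀ x, x ∉ S → ContinuousAt h x) → (∃ C : ℝ, ∀ x, |h x| ≤ C) →
  (∃ C : ℝ, ∀ x, |h x| * (1 + x ^ 2) ≤ C * Real.exp (2 * (V - 1) * x)) →
  Tendsto (fun T : ℝ => Real.sqrt (Real.pi * Real.log (1 / (2 * d T))) * (2 * d T) ^ (-((V - 1) ^ 2)) *
    ((1 / (T * Real.log T)) * ∫ t in (0:ℝ)..T, zh t ^ 2 * h (Real.log (mz (d T) t) - V * Real.log (1 / (2 * d T))))) atTop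
    (𝓝 (4 ^ (V - 1) * (aC V).re * ∫ x, Real.exp (-(2 * (V - 1) * x)) * h x))

end Pool.Agent.N748.MO
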